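import Pool.Agent.TH389.BL.Poly

/-! Cones spanned by families of vectors of polynomials, and certificates. -/

set_option autoImplicit false

namespace Pool.Agent.TH389.BL

/-- non-negative combinations of the vectors in `G`, evaluated at `q`; the flag `true` says that
one of the first `w` vectors occurs -/
inductive K (q : ℝ) (G : List (List (List ℤ))) (w : ℕ) : Bool → (ℕ → ℝ) → Prop
  | zero : K q G w false (fun _ => 0)
  | good (g : List (List ℤ)) : g ∈ G.take w → K q G w true (evv g q)
  | bad (g : List (List ℤ)) : g ∈ G → K q G w false (evv g q)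
  | smul (b : Bool) (c : ℝ) (x : ℕ → ℝ) : 0 < c → K q G w b x → K q G w b (fun i => c * x i)
  | add (b b' : Bool) (x y : ℕ → ℝ) : K q G w b x → K q G w b' y →
      K q G w (b || b') (fun i => x i + y i)
  | weak (x : ℕ → ℝ) : K q G w true x → K q G w false x

/-- linear maps -/
structure Lin (f : (ℕ → ℝ) → (ℕ → ℝ)) : Prop where
  add : ∀ x y : ℕ → ℝ, f (fun i => x i + y i) = fun i => f x i + f y i
  smul : ∀ (c : ℝ) (x : ℕ → ℝ), f (fun i => c * x i) = fun i => c * f x i

theorem Lin.zero {f : (ℕ → ℝ) → (ℕ → ℝ)} (h : Lin f) : f (fun _ => 0) = fun _ => 0 := by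
  have := h.smul 0 (fun _ => 0)
  simpa using this

theorem lin_app (M : List (List (ℕ × List ℤ))) (q : ℝ) : Lin (app M q) :=
  ⟨app_add M q, app_smul M q⟩

theorem Lin.comp {f g : (ℕ → ℝ) → (ℕ → ℝ)} (hf : Lin f) (hg : Lin g) : Lin (fun x => f (g x)) :=
  ⟨fun x y => by rw [hg.add, hf.add], fun c x => by rw [hg.smul, hf.smul]⟩

theorem Lin.id : Lin (fun x => x) := ⟨fun _ _ => rfl, fun _ _ => rfl⟩

theorem Lin.iter {f : (ℕ → ℝ) → (ℕ → ℝ)} (hf : Lin f) (n : ℕ) : Lin (f^[n]) := by
  induction n with
  | zero => exact Lin.id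
  | succ n ih =>
    rw [Function.iterate_succ']
    exact hf.comp ih

variable {q : ℝ} {G G' : List (List (List ℤ))} {w w' : ℕ}

theorem K_map {f : (ℕ → ℝ) → (ℕ → ℝ)} (hf : Lin f)
    (h1 : ∀ g ∈ G.take w, K q G' w' true (f (evv g q)))
    (h2 : ∀ g ∈ G, K q G' w' false (f (evv g q))) {b : Bool} {x : ℕ → ℝ} (hx : K q G w b x) :
    K q G' w' b (f x) := by
  induction hx with
  | zero => rw [hf.zero]; exact K.zero
  | good g hg => exact h1 g hg
  | bad g hg => exact h2 g hg
  | smul b c x hc _ ih => rw [hf.smul]; exact K.smul _ _ _ hc ih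
  | add b b' x y _ _ ih1 ih2 => rw [hf.add]; exact K.add _ _ _ _ ih1 ih2
  | weak x _ ih => exact K.weak _ ih

/-- two linear maps which agree on the generators agree on the cone -/
theorem K_eq {f f' : (ℕ → ℝ) → (ℕ → ℝ)} (hf : Lin f) (hf' : Lin f')
    (h : ∀ g ∈ G, f (evv g q) = f' (evv g q)) {b : Bool} {x : ℕ → ℝ} (hx : K q G w b x) :
    f x = f' x := by
  induction hx with
  | zero => rw [hf.zero, hf'.zero]
  | good g hg => exact h g (List.mem_of_mem_take hg)
  | bad g hg => exact h g hg
  | smul b c x hc _ ih => rw [hf.smul, hf'.smul, ih]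
  | add b b' x y _ _ ih1 ih2 => rw [hf.add, hf'.add, ih1, ih2]
  | weak x _ ih => exact ih

theorem K_pos {i : ℕ} (h : ∀ g ∈ G, 0 < evv g q i) {b : Bool} {x : ℕ → ℝ} (hx : K q G w b x) :
    0 ≤ x i ∧ (b = true → 0 < x i) := by
  induction hx with
  | zero => simp
  | good g hg =>
    have := h g (List.mem_of_mem_take hg)
    exact ⟨this.le, fun _ => this⟩
  | bad g hg => exact ⟨(h g hg).le, fun h => by simp at h⟩
  | smul b c x hc _ ih => exact ⟨mul_nonneg hc.le ih.1, fun h => mul_pos hc (ih.2 h)⟩
  | add b b' x y _ _ ih1 ih2 =>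
    refine ⟨add_nonneg ih1.1 ih2.1, fun h => ?_⟩
    simp only [Bool.or_eq_true] at h
    rcases h with h | h
    · exact add_pos_of_pos_of_nonneg (ih1.2 h) ih2.1
    · exact add_pos_of_nonneg_of_pos ih1.1 (ih2.2 h)
  | weak x _ ih => exact ⟨ih.1, fun h => by simp at h⟩

theorem K_gen (i : ℕ) (hi : i < G.length) : K q G w (decide (i < w)) (evv (G.getD i []) q) := by
  have h0 : G.getD i [] = G[i] := by simp [List.getD, List.getElem?_eq_getElem hi]
  by_cases h : i < w
  · rw [decide_eq_true h, h0]
    apply K.good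
    rw [List.mem_take_iff_getElem]
    exact ⟨i, by omega, rfl⟩
  · rw [decide_eq_false h, h0]
    exact K.bad _ (List.getElem_mem hi)

/-- the vector `∑ c_l g_l` of a certificate -/
def combo (u v : List ℤ) (Gr : List (List (List ℤ))) (t : List (ℕ × List ℕ)) : List (List ℤ) :=
  t.foldr (fun e acc => vadd (vscal (bern u v e.2) (Gr.getD e.1 [])) acc) []

/-- positive scalar `c q^a (q-1)^b (q-2)^c (q-3)^d` -/
def scP (c : ℕ) (e : List ℕ) : List ℤ :=
  pscal (c : ℤ) (pmul (ppow [0, 1] (e.getD 0 0)) (pmul (ppow [-1, 1] (e.getD 1 0))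
    (pmul (ppow [-2, 1] (e.getD 2 0)) (ppow [-3, 1] (e.getD 3 0)))))

theorem scP_pos (hq : 3 < q) {c : ℕ} (hc : 0 < c) (e : List ℕ) : 0 < ev (scP c e) q := by
  simp only [scP, ev_pscal, ev_pmul, ev_ppow]
  have h0 : 0 < ev [0, 1] q := by simp [ev]; linarith
  have h1 : 0 < ev [-1, 1] q := by simp [ev]; linarith
  have h2 : 0 < ev [-2, 1] q := by simp [ev]; linarith
  have h3 : 0 < ev [-3, 1] q := by simp [ev]; linarith
  have : (0 : ℝ) < ((c : ℤ) : ℝ) := by exact_mod_cast hc
  positivity

/-- certificate check: `D * y = ∑ c_l g_l` -/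
def certOK (u v : List ℤ) (Gr : List (List (List ℤ))) (y : List (List ℤ))
    (D : ℕ × List ℕ × List (ℕ × List ℕ)) : Bool :=
  decide (0 < D.1) && D.2.2.all (fun e => decide (e.1 < Gr.length) && e.2.any (fun c => c != 0)) &&
    veq (vscal (scP D.1 D.2.1) y) (combo u v Gr D.2.2)

theorem K_combo {u v : List ℤ} (hu : 0 < ev u q) (hv : 0 < ev v q)
    (t : List (ℕ × List ℕ))
    (h : t.all (fun e => decide (e.1 < G.length) && e.2.any (fun c => c != 0)) = true) :
    K q G w (t.any fun e => decide (e.1 < w)) (evv (combo u v G t) q) := by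
  induction t with
  | nil =>
    have : evv (combo u v G []) q = fun _ => 0 := by
      funext i; exact evv_nil q i
    rw [this]
    exact K.zero
  | cons e t ih =>
    simp only [List.all_cons, Bool.and_eq_true, decide_eq_true_eq] at h
    obtain ⟨⟨h1, h2⟩, h3⟩ := h
    have hK : K q G w (decide (e.1 < w)) (evv (vscal (bern u v e.2) (G.getD e.1 [])) q) := by
      have : evv (vscal (bern u v e.2) (G.getD e.1 [])) q =
          fun i => ev (bern u v e.2) q * evv (G.getD e.1 []) q i := by
        funext i; exact evv_vscal _ _ _ _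
      rw [this]
      exact K.smul _ _ _ (ev_bern_pos hu hv _ h2) (K_gen _ h1)
    have : evv (combo u v G (e :: t)) q = fun i =>
        evv (vscal (bern u v e.2) (G.getD e.1 [])) q i + evv (combo u v G t) q i := by
      funext i
      simp only [combo, List.foldr_cons, evv_vadd]
    rw [this, List.any_cons]
    exact K.add _ _ _ _ hK (ih h3)

theorem K_cert {u v : List ℤ} (hu : 0 < ev u q) (hv : 0 < ev v q) (hq : 3 < q)
    {y : List (List ℤ)} (D : ℕ × List ℕ × List (ℕ × List ℕ)) (h : certOK u v G y D = true) :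
    K q G w (D.2.2.any fun e => decide (e.1 < w)) (evv y q) := by
  simp only [certOK, Bool.and_eq_true, decide_eq_true_eq] at h
  obtain ⟨⟨h1, h2⟩, h3⟩ := h
  have hK := K_combo (q := q) (G := G) (w := w) hu hv D.2.2 h2
  have he := evv_veq h3 q
  have hD : 0 < ev (scP D.1 D.2.1) q := scP_pos hq h1 _
  have : evv y q = fun i => (ev (scP D.1 D.2.1) q)⁻¹ * evv (combo u v G D.2.2) q i := by
    funext i
    rw [← he, evv_vscal, ← mul_assoc, inv_mul_cancel₀ hD.ne', one_mul]
  rw [this]
  exact K.smul _ _ _ (inv_pos.2 hD) hK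

/-! ### References -/

/-- `f (G.take w) ⊆ G.take w` and `f G ⊆ G` -/
def closedOK (M : List (List (ℕ × List ℤ))) (G : List (List (List ℤ))) (w : ℕ) : Bool :=
  (G.take w).all (fun g => (G.take w).any fun g' => veq (appP M g) g') &&
    G.all (fun g => G.any fun g' => veq (appP M g) g')

theorem closed_sound {M : List (List (ℕ × List ℤ))} (h : closedOK M G w = true) {b : Bool}
    {x : ℕ → ℝ} (hx : K q G w b x) : K q G w b (app M q x) := by
  simp only [closedOK, Bool.and_eq_true, List.all_eq_true, List.any_eq_true] at h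
  refine K_map (lin_app M q) ?_ ?_ hx
  · intro g hg
    obtain ⟨g', hg', he⟩ := h.1 g hg
    rw [← evv_appP, evv_veq he q]
    exact K.good _ hg'
  · intro g hg
    obtain ⟨g', hg', he⟩ := h.2 g hg
    rw [← evv_appP, evv_veq he q]
    exact K.bad _ hg'

/-- iterate a table -/
def iterP (M : List (List (ℕ × List ℤ))) (n : ℕ) (g : List (List ℤ)) : List (List ℤ) :=
  match n with
  | 0 => g
  | n + 1 => appP M (iterP M n g)

theorem evv_iterP (M : List (List (ℕ × List ℤ))) (n : ℕ) (g : List (List ℤ)) :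
    evv (iterP M n g) q = (app M q)^[n] (evv g q) := by
  induction n with
  | zero => rfl
  | succ n ih => rw [iterP, evv_appP, ih, Function.iterate_succ_apply']

theorem K_iter {M : List (List (ℕ × List ℤ))} (h : closedOK M G w = true) (n : ℕ) {b : Bool}
    {x : ℕ → ℝ} (hx : K q G w b x) : K q G w b ((app M q)^[n] x) := by
  induction n with
  | zero => exact hx
  | succ n ih =>
    rw [Function.iterate_succ_apply']
    exact closed_sound h ih

/-- the vector described by a reference -/
def refVec (R F : List (List (ℕ × List ℤ))) (G Y : List (List (List ℤ)))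
    (t : ℕ × ℕ × ℕ × ℕ × ℕ × List ℕ) : List (List ℤ) :=
  vscal (scP t.2.2.2.2.1 t.2.2.2.2.2)
    (iterP R t.2.2.1 (iterP F t.2.2.2.1 (if t.1 = 0 then G.getD t.2.1 [] else Y.getD t.2.1 [])))

def refFlag (w : ℕ) (D : List (ℕ × List ℕ × List (ℕ × List ℕ))) (t : ℕ × ℕ × ℕ × ℕ × ℕ × List ℕ) : Bool :=
  if t.1 = 0 then decide (t.2.1 < w) else ((D.getD t.2.1 (0, [], [])).2.2.any fun e => decide (e.1 < w))

/-- check of one reference -/
def refOK (R F : List (List (ℕ × List ℤ))) (G Y : List (List (List ℤ))) (w : ℕ)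
    (D : List (ℕ × List ℕ × List (ℕ × List ℕ))) (good : Bool) (y : List (List ℤ))
    (t : ℕ × ℕ × ℕ × ℕ × ℕ × List ℕ) : Bool :=
  if t.1 = 2 then !good && y.all isZ else
    (if t.1 = 0 then decide (t.2.1 < G.length) else decide (t.2.1 < Y.length)) &&
    decide (0 < t.2.2.2.2.1) && (!good || refFlag w D t) && veq y (refVec R F G Y t)

/-- check of all certificates of the targets -/
def certsOK (u v : List ℤ) (G Y : List (List (List ℤ))) (D : List (ℕ × List ℕ × List (ℕ × List ℕ))) :
    Bool :=
  decide (Y.length = D.length) && (Y.zip D).all fun e => certOK u v G e.1 e.2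

theorem K_target {u v : List ℤ} (hu : 0 < ev u q) (hv : 0 < ev v q) (hq : 3 < q) {Y : List (List (List ℤ))}
    {D : List (ℕ × List ℕ × List (ℕ × List ℕ))} (h : certsOK u v G Y D = true) (i : ℕ) (hi : i < Y.length) :
    K q G w ((D.getD i (0, [], [])).2.2.any fun e => decide (e.1 < w)) (evv (Y.getD i []) q) := by
  simp only [certsOK, Bool.and_eq_true, decide_eq_true_eq, List.all_eq_true] at h
  obtain ⟨h1, h2⟩ := h
  have hi' : i < D.length := by omega
  have hY : Y.getD i [] = Y[i] := by simp [List.getD, List.getElem?_eq_getElem hi]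
  have hD : D.getD i (0, [], []) = D[i] := by simp [List.getD, List.getElem?_eq_getElem hi']
  rw [hY, hD]
  have hz : (Y[i], D[i]) ∈ Y.zip D := by
    rw [List.mem_iff_getElem]
    exact ⟨i, by simp [hi, hi'], by simp⟩
  exact K_cert hu hv hq D[i] (h2 _ hz)

theorem ref_sound {u v : List ℤ} (hu : 0 < ev u q) (hv : 0 < ev v q) (hq : 3 < q)
    {R F : List (List (ℕ × List ℤ))} {Y : List (List (List ℤ))}
    {D : List (ℕ × List ℕ × List (ℕ × List ℕ))} (hR : closedOK R G w = true) (hF : closedOK F G w = true)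
    (hD : certsOK u v G Y D = true) {good : Bool} {y : List (List ℤ)}
    {t : ℕ × ℕ × ℕ × ℕ × ℕ × List ℕ} (h : refOK R F G Y w D good y t = true) :
    K q G w good (evv y q) := by
  unfold refOK at h
  by_cases h2 : t.1 = 2
  · rw [if_pos h2] at h
    simp only [Bool.and_eq_true, Bool.not_eq_true'] at h
    obtain ⟨hg, hz⟩ := h
    subst hg
    have : evv y q = fun _ => 0 := by
      funext i
      unfold evv
      simp only [List.all_eq_true] at hz
      by_cases hi : i < y.length
      · have : y.getD i [] = y[i] := by simp [List.getD, List.getElem?_eq_getElem hi]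
        rw [this]
        exact ev_isZ (hz _ (List.getElem_mem hi)) q
      · have : y.getD i [] = [] := by simp [List.getD, List.getElem?_eq_none (not_lt.1 hi)]
        rw [this]; rfl
    rw [this]
    exact K.zero
  · rw [if_neg h2] at h
    simp only [Bool.and_eq_true, decide_eq_true_eq, Bool.or_eq_true, Bool.not_eq_true'] at h
    obtain ⟨⟨⟨hidx, hc⟩, hgood⟩, heq⟩ := h
    have hbase : K q G w (refFlag w D t)
        (evv (if t.1 = 0 then G.getD t.2.1 [] else Y.getD t.2.1 []) q) := by
      unfold refFlag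
      by_cases h0 : t.1 = 0
      · simp only [if_pos h0, decide_eq_true_eq] at hidx ⊢
        exact K_gen _ hidx
      · simp only [if_neg h0, decide_eq_true_eq] at hidx ⊢
        exact K_target hu hv hq hD _ hidx
    have hK : K q G w (refFlag w D t) (evv (refVec R F G Y t) q) := by
      unfold refVec
      have : ∀ z : List (List ℤ), evv (vscal (scP t.2.2.2.2.1 t.2.2.2.2.2) z) q =
          fun i => ev (scP t.2.2.2.2.1 t.2.2.2.2.2) q * evv z q i := by
        intro z; funext i; exact evv_vscal _ _ _ _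
      rw [this]
      refine K.smul _ _ _ (scP_pos hq hc _) ?_
      rw [evv_iterP, evv_iterP]
      exact K_iter hR _ (K_iter hF _ hbase)
    rw [evv_veq heq q]
    rcases hgood with hg | hg
    · subst hg
      cases hf : refFlag w D t with
      | true => rw [hf] at hK; exact K.weak _ hK
      | false => rw [hf] at hK; exact hK
    · rw [hg] at hK
      cases good with
      | true => exact hK
      | false => exact K.weak _ hK

/-- check of all references of an operation -/
def refsOK (f : List (List ℤ) → List (List ℤ)) (G : List (List (List ℤ))) (w : ℕ)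
    (R' F' : List (List (ℕ × List ℤ))) (G' Y' : List (List (List ℤ))) (w' : ℕ)
    (D' : List (ℕ × List ℕ × List (ℕ × List ℕ))) (refs : List (ℕ × ℕ × ℕ × ℕ × ℕ × List ℕ)) : Bool :=
  decide (G.length = refs.length) &&
  ((G.take w).zip (refs.take w)).all (fun e => refOK R' F' G' Y' w' D' true (f e.1) e.2) &&
  (G.zip refs).all (fun e => refOK R' F' G' Y' w' D' false (f e.1) e.2)

theorem exists_zip {α β : Type} {l : List α} {l' : List β} (h : l.length = l'.length) {x : α}
    (hx : x ∈ l) : ∃ y, (x, y) ∈ l.zip l' := by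
  induction l generalizing l' with
  | nil => simp at hx
  | cons a l ih =>
    cases l' with
    | nil => simp at h
    | cons b l' =>
      rcases List.mem_cons.1 hx with rfl | hx
      · exact ⟨b, by simp⟩
      · obtain ⟨y, hy⟩ := ih (by simpa using h) hx
        exact ⟨y, by simp [hy]⟩

theorem refs_sound {u v : List ℤ} (hu : 0 < ev u q) (hv : 0 < ev v q) (hq : 3 < q)
    {f : List (List ℤ) → List (List ℤ)} {F : (ℕ → ℝ) → (ℕ → ℝ)} (hF : Lin F)
    (hf : ∀ g, evv (f g) q = F (evv g q))
    {R' F' : List (List (ℕ × List ℤ))} {Y' : List (List (List ℤ))}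
    {D' : List (ℕ × List ℕ × List (ℕ × List ℕ))} (hR' : closedOK R' G' w' = true)
    (hF' : closedOK F' G' w' = true)
    (hD' : certsOK u v G' Y' D' = true) {refs : List (ℕ × ℕ × ℕ × ℕ × ℕ × List ℕ)}
    (h : refsOK f G w R' F' G' Y' w' D' refs = true) {b : Bool} {x : ℕ → ℝ}
    (hx : K q G w b x) : K q G' w' b (F x) := by
  simp only [refsOK, Bool.and_eq_true, decide_eq_true_eq, List.all_eq_true] at h
  obtain ⟨⟨h1, h2⟩, h3⟩ := h
  refine K_map hF ?_ ?_ hx
  · intro g hg
    obtain ⟨t, ht⟩ := exists_zip (l' := refs.take w) (by simp [h1]) hg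
    rw [← hf]
    exact ref_sound hu hv hq hR' hF' hD' (h2 _ ht)
  · intro g hg
    obtain ⟨t, ht⟩ := exists_zip (l' := refs) h1 hg
    rw [← hf]
    exact ref_sound hu hv hq hR' hF' hD' (h3 _ ht)

end Pool.Agent.TH389.BL
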