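import Mathlib.Data.Nat.Notation
import Mathlib.Data.Int.Notation

/-! Generators, targets and certificates on the interval (17/4, 5). -/

set_option autoImplicit false
set_option maxRecDepth 100000

namespace Pool.Agent.TH389.BL.Q17

def G3 : List (List (List ℤ)) := [
  [[.ofNat 1]]]

def Y3 : List (List (List ℤ)) := [
  ]

def D3 : List (ℕ × List ℕ × List (ℕ × List ℕ)) := [
  ]

def G4 : List (List (List ℤ)) := [
  [[], [.ofNat 1], [.negSucc 1, .ofNat 1]],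
  [[.ofNat 1], [], [.negSucc 1, .ofNat 1]],
  [[.negSucc 0, .ofNat 1], [.ofNat 1], [.negSucc 0, .ofNat 1]],
  [[.ofNat 1], [.negSucc 0, .ofNat 1], [.negSucc 0, .ofNat 1]]]

def Y4 : List (List (List ℤ)) := [
  [[.negSucc 1, .ofNat 1], [.negSucc 1, .ofNat 1], [.ofNat 7, .negSucc 4, .ofNat 1]]]

def D4 : List (ℕ × List ℕ × List (ℕ × List ℕ)) := [
  (27, [], [(0, [9, 6]), (1, [0, 3]), (2, [20, 5]), (3, [16, 4])])]

def G5 : List (List (List ℤ)) := [
  [[], [], [.negSucc 1, .ofNat 1], [.negSucc 2, .ofNat 1], [.negSucc 1, .ofNat 1], [.ofNat 4, .negSucc 3, .ofNat 1]],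
  [[.negSucc 2, .ofNat 1], [.negSucc 1, .ofNat 1], [], [], [.negSucc 1, .ofNat 1], [.ofNat 4, .negSucc 3, .ofNat 1]],
  [[], [.negSucc 1, .ofNat 1], [.negSucc 2, .ofNat 1], [.negSucc 1, .ofNat 1], [], [.ofNat 4, .negSucc 3, .ofNat 1]],
  [[.negSucc 1, .ofNat 1], [], [], [.negSucc 1, .ofNat 1], [.negSucc 2, .ofNat 1], [.ofNat 4, .negSucc 3, .ofNat 1]],
  [[.negSucc 1, .ofNat 1], [.negSucc 2, .ofNat 1], [.negSucc 1, .ofNat 1], [], [], [.ofNat 4, .negSucc 3, .ofNat 1]],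
  [[.negSucc 1, .ofNat 1], [.negSucc 1, .ofNat 1], [.negSucc 1, .ofNat 1], [.negSucc 1, .ofNat 1], [.negSucc 1, .ofNat 1], [.ofNat 5, .negSucc 3, .ofNat 1]],
  [[], [.negSucc 0, .ofNat 1], [], [.ofNat 1], [.ofNat 1], [.negSucc 0, .ofNat 1]],
  [[.ofNat 1], [.ofNat 1], [], [.negSucc 0, .ofNat 1], [], [.negSucc 0, .ofNat 1]],
  [[.negSucc 0, .ofNat 1], [], [.ofNat 1], [.ofNat 1], [], [.negSucc 0, .ofNat 1]],
  [[.ofNat 1], [], [.negSucc 0, .ofNat 1], [], [.ofNat 1], [.negSucc 0, .ofNat 1]],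
  [[], [.ofNat 1], [.ofNat 1], [], [.negSucc 0, .ofNat 1], [.negSucc 0, .ofNat 1]]]

def Y5 : List (List (List ℤ)) := [
  [[], [.ofNat 4, .negSucc 3, .ofNat 1], [.ofNat 9, .negSucc 5, .ofNat 1], [.ofNat 9, .negSucc 5, .ofNat 1], [.ofNat 4, .negSucc 3, .ofNat 1], [.negSucc 13, .ofNat 17, .negSucc 6, .ofNat 1]],
  [[.ofNat 4, .negSucc 3, .ofNat 1], [.ofNat 6, .negSucc 4, .ofNat 1], [.ofNat 9, .negSucc 5, .ofNat 1], [.ofNat 9, .negSucc 5, .ofNat 1], [.ofNat 6, .negSucc 4, .ofNat 1], [.negSucc 16, .ofNat 18, .negSucc 6, .ofNat 1]],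
  [[.negSucc 31, .ofNat 29, .negSucc 8, .ofNat 1], [.negSucc 26, .ofNat 27, .negSucc 8, .ofNat 1], [.negSucc 17, .ofNat 21, .negSucc 7, .ofNat 1], [.negSucc 17, .ofNat 21, .negSucc 7, .ofNat 1], [.negSucc 26, .ofNat 27, .negSucc 8, .ofNat 1], [.ofNat 60, .negSucc 76, .ofNat 40, .negSucc 9, .ofNat 1]],
  [[.ofNat 64, .negSucc 89, .ofNat 47, .negSucc 10, .ofNat 1], [.ofNat 81, .negSucc 107, .ofNat 54, .negSucc 11, .ofNat 1], [.ofNat 105, .negSucc 124, .ofNat 57, .negSucc 11, .ofNat 1], [.ofNat 105, .negSucc 124, .ofNat 57, .negSucc 11, .ofNat 1], [.ofNat 81, .negSucc 107, .ofNat 54, .negSucc 11, .ofNat 1], [.negSucc 211, .ofNat 320, .negSucc 205, .ofNat 71, .negSucc 12, .ofNat 1]],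
  [[.negSucc 397, .ofNat 553, .negSucc 316, .ofNat 95, .negSucc 14, .ofNat 1], [.negSucc 356, .ofNat 518, .negSucc 306, .ofNat 94, .negSucc 14, .ofNat 1], [.negSucc 242, .ofNat 405, .negSucc 269, .ofNat 90, .negSucc 14, .ofNat 1], [.negSucc 209, .ofNat 355, .negSucc 238, .ofNat 81, .negSucc 13, .ofNat 1], [.negSucc 314, .ofNat 480, .negSucc 295, .ofNat 93, .negSucc 14, .ofNat 1], [.ofNat 741, .negSucc 1296, .ofNat 995, .negSucc 430, .ofNat 111, .negSucc 15, .ofNat 1]],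
  [[.ofNat 1194, .negSucc 2056, .ofNat 1504, .negSucc 601, .ofNat 140, .negSucc 17, .ofNat 1], [.ofNat 1194, .negSucc 2056, .ofNat 1504, .negSucc 601, .ofNat 140, .negSucc 17, .ofNat 1], [.ofNat 1194, .negSucc 2056, .ofNat 1504, .negSucc 601, .ofNat 140, .negSucc 17, .ofNat 1], [.ofNat 1194, .negSucc 2056, .ofNat 1504, .negSucc 601, .ofNat 140, .negSucc 17, .ofNat 1], [.ofNat 1194, .negSucc 2056, .ofNat 1504, .negSucc 601, .ofNat 140, .negSucc 17, .ofNat 1], [.negSucc 2839, .ofNat 5423, .negSucc 4692, .ofNat 2399, .negSucc 779, .ofNat 160, .negSucc 18, .ofNat 1]],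
  [[.ofNat 714, .negSucc 1392, .ofNat 1132, .negSucc 494, .ofNat 124, .negSucc 16, .ofNat 1], [.ofNat 729, .negSucc 1457, .ofNat 1215, .negSucc 539, .ofNat 135, .negSucc 17, .ofNat 1], [.ofNat 1194, .negSucc 2056, .ofNat 1504, .negSucc 601, .ofNat 140, .negSucc 17, .ofNat 1], [.ofNat 1454, .negSucc 2329, .ofNat 1608, .negSucc 618, .ofNat 141, .negSucc 17, .ofNat 1], [.ofNat 1194, .negSucc 2056, .ofNat 1504, .negSucc 601, .ofNat 140, .negSucc 17, .ofNat 1], [.negSucc 2579, .ofNat 5150, .negSucc 4588, .ofNat 2382, .negSucc 778, .ofNat 160, .negSucc 18, .ofNat 1]],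
  [[.ofNat 630, .negSucc 1274, .ofNat 1072, .negSucc 481, .ofNat 123, .negSucc 16, .ofNat 1], [.ofNat 630, .negSucc 1274, .ofNat 1072, .negSucc 481, .ofNat 123, .negSucc 16, .ofNat 1], [.ofNat 1194, .negSucc 2056, .ofNat 1504, .negSucc 601, .ofNat 140, .negSucc 17, .ofNat 1], [.ofNat 1496, .negSucc 2367, .ofNat 1619, .negSucc 619, .ofNat 141, .negSucc 17, .ofNat 1], [.ofNat 1194, .negSucc 2056, .ofNat 1504, .negSucc 601, .ofNat 140, .negSucc 17, .ofNat 1], [.negSucc 2537, .ofNat 5112, .negSucc 4577, .ofNat 2381, .negSucc 778, .ofNat 160, .negSucc 18, .ofNat 1]],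
  [[.negSucc 5227, .ofNat 9537, .negSucc 7700, .ofNat 3603, .negSucc 1059, .ofNat 196, .negSucc 20, .ofNat 1], [.negSucc 5227, .ofNat 9537, .negSucc 7700, .ofNat 3603, .negSucc 1059, .ofNat 196, .negSucc 20, .ofNat 1], [.negSucc 3581, .ofNat 7365, .negSucc 6568, .ofNat 3310, .negSucc 1021, .ofNat 194, .negSucc 20, .ofNat 1], [.negSucc 2387, .ofNat 5308, .negSucc 5064, .ofNat 2708, .negSucc 881, .ofNat 176, .negSucc 19, .ofNat 1], [.negSucc 3581, .ofNat 7365, .negSucc 6568, .ofNat 3310, .negSucc 1021, .ofNat 194, .negSucc 20, .ofNat 1], [.ofNat 9714, .negSucc 21165, .ofNat 21006, .negSucc 12491, .ofNat 4879, .negSucc 1277, .ofNat 218, .negSucc 21, .ofNat 1]],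
  [[.negSucc 5227, .ofNat 9537, .negSucc 7700, .ofNat 3603, .negSucc 1059, .ofNat 196, .negSucc 20, .ofNat 1], [.negSucc 4361, .ofNat 8444, .negSucc 7153, .ofNat 3465, .negSucc 1041, .ofNat 195, .negSucc 20, .ofNat 1], [.negSucc 2387, .ofNat 5308, .negSucc 5064, .ofNat 2708, .negSucc 881, .ofNat 176, .negSucc 19, .ofNat 1], [.negSucc 2186, .ofNat 5103, .negSucc 5102, .ofNat 2835, .negSucc 944, .ofNat 189, .negSucc 20, .ofNat 1], [.negSucc 4022, .ofNat 8001, .negSucc 6935, .ofNat 3417, .negSucc 1037, .ofNat 195, .negSucc 20, .ofNat 1], [.ofNat 8934, .negSucc 20086, .ofNat 20421, .negSucc 12336, .ofNat 4859, .negSucc 1276, .ofNat 218, .negSucc 21, .ofNat 1]]]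

def D5 : List (ℕ × List ℕ × List (ℕ × List ℕ)) := [
  (9, [], [(6, [20, 13, 2]), (10, [16, 8, 1]), (0, [3, 3])]),
  (9, [], [(8, [16, 8, 1]), (1, [12, 3]), (5, [3, 3])]),
  (135, [], [(8, [136, 146, 48, 5]), (10, [0, 8, 2, 0]), (0, [75, 75, 15]), (1, [15, 0, 0]), (2, [75, 81, 15]), (3, [213, 117, 15]), (4, [213, 117, 15]), (5, [0, 24, 15])]),
  (4050, [], [(6, [0, 0, 108, 27, 0]), (7, [11360, 22040, 10800, 1500, 0]), (8, [32800, 26056, 8568, 1926, 225]), (9, [19200, 24000, 10908, 2127, 150]), (2, [5880, 0, 0, 450]), (3, [5880, 9558, 4203, 525]), (4, [0, 9558, 4122, 75]), (5, [750, 1800, 1269, 300])]),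
  (30375, [], [(6, [0, 0, 40000, 0, 0, 625]), (7, [512400, 857640, 516569, 167502, 22989, 500]), (8, [100500, 232125, 195750, 66912, 7728, 0]), (10, [252500, 434125, 298250, 91787, 10603, 125]), (1, [66000, 129000, 52125, 28500, 0]), (2, [22575, 59970, 54612, 17967, 750]), (3, [193200, 195720, 105987, 12783, 4500]), (5, [0, 0, 0, 8316, 3375])]),
  (642978, [], [(6, [0, 0, 9881140, 2470285, 0, 0, 0]), (8, [0, 0, 0, 4174024, 1651498, 151998, 0]), (10, [0, 0, 0, 1053708, 263427, 0, 0]), (0, [3968244, 6942051, 7410855, 2340237, 455994, 18522]), (1, [3968244, 6942051, 0, 2340237, 455994, 18522]), (2, [3968244, 6942051, 0, 3130518, 455994, 18522]), (3, [3968244, 6942051, 7410855, 0, 0, 18522]), (4, [3968244, 6942051, 7410855, 0, 0, 18522]), (5, [7835562, 14712813, 8750913, 2957928, 695016, 68796])]),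
  (72900, [], [(7, [120400, 398100, 430436, 305809, 110100, 13700, 0]), (8, [0, 1912032, 375576, 68492, 136125, 34150, 1500]), (9, [729920, 0, 1490380, 906000, 130500, 0, 0]), (10, [402000, 1089300, 1073636, 605009, 184800, 23300, 500]), (0, [489360, 1850460, 0, 0, 66600, 4500]), (3, [1566000, 1455876, 2170224, 674625, 46050, 4500]), (4, [624060, 1107936, 795351, 299025, 63450, 3000]), (5, [0, 0, 60573, 0, 0, 3900])]),
  (2916, [], [(6, [56640, 100816, 74640, 28972, 6204, 696, 32]), (7, [0, 4880, 0, 2591, 468, 0, 16]), (8, [55040, 100416, 81396, 30661, 7164, 936, 32]), (1, [8448, 22284, 18792, 7488, 1440, 108]), (2, [0, 0, 5067, 0, 720, 0]), (3, [1200, 0, 0, 0, 0, 0]), (4, [9648, 22284, 13725, 7488, 720, 108]), (5, [53532, 98208, 73296, 27612, 5220, 396])]),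
  (8463690, [], [(6, [0, 0, 136474712, 56846430, 2709778, 0, 185760, 0]), (7, [87827328, 981388656, 305345116, 35654070, 15757958, 3376767, 1032645, 218010]), (8, [0, 0, 0, 0, 7151760, 1787940, 0, 0]), (9, [0, 0, 48099392, 0, 0, 751553, 0, 0]), (0, [0, 206075178, 0, 0, 0, 0, 247680]), (1, [36594720, 287716698, 0, 0, 9847599, 0, 270900]), (2, [177893064, 0, 329556390, 163310610, 48560568, 6101055, 0]), (3, [177893064, 0, 431912424, 180356424, 40967628, 6658335, 0]), (4, [36594720, 287716698, 66281490, 26064450, 0, 557280, 270900]), (5, [258961050, 372590442, 508527336, 284419446, 76426311, 12016350, 518580])]),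
  (5467500, [], [(6, [15050000, 55782500, 83805000, 66310000, 30059584, 7866771, 1107500, 65000]), (8, [104010000, 252262500, 265005000, 156990000, 56727084, 12486771, 1545000, 82500]), (9, [51688000, 727372000, 822502500, 206277188, 88735964, 30039948, 3286875, 153750]), (10, [342560000, 157476800, 35622480, 259515820, 63775000, 0, 0, 0]), (0, [45751500, 124997400, 134465040, 74733984, 23030469, 3774375, 258750]), (1, [0, 462182400, 417290040, 0, 47812500, 6367500, 352500]), (4, [207984000, 0, 0, 196946484, 3660156, 714375, 48750]), (5, [0, 0, 0, 0, 2187, 0, 0])])]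

def G6 : List (List (List ℤ)) := [
  [[], [], [], [.ofNat 4, .negSucc 3, .ofNat 1], [], [.negSucc 2, .ofNat 1], [.ofNat 6, .negSucc 4, .ofNat 1], [], [.ofNat 4, .negSucc 3, .ofNat 1], [], [], [.ofNat 6, .negSucc 4, .ofNat 1], [.ofNat 4, .negSucc 3, .ofNat 1], [.ofNat 6, .negSucc 4, .ofNat 1], [.negSucc 7, .ofNat 12, .negSucc 5, .ofNat 1]],
  [[.negSucc 2, .ofNat 1], [], [.ofNat 6, .negSucc 4, .ofNat 1], [.ofNat 4, .negSucc 3, .ofNat 1], [], [], [], [.ofNat 6, .negSucc 4, .ofNat 1], [.ofNat 4, .negSucc 3, .ofNat 1], [], [.ofNat 6, .negSucc 4, .ofNat 1], [], [.ofNat 4, .negSucc 3, .ofNat 1], [], [.negSucc 7, .ofNat 12, .negSucc 5, .ofNat 1]],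
  [[], [], [], [], [], [.negSucc 1, .ofNat 1], [.ofNat 4, .negSucc 3, .ofNat 1], [], [.ofNat 6, .negSucc 4, .ofNat 1], [.negSucc 1, .ofNat 1], [.ofNat 4, .negSucc 3, .ofNat 1], [.ofNat 7, .negSucc 4, .ofNat 1], [.ofNat 6, .negSucc 4, .ofNat 1], [.ofNat 4, .negSucc 3, .ofNat 1], [.negSucc 7, .ofNat 12, .negSucc 5, .ofNat 1]],
  [[.negSucc 1, .ofNat 1], [.negSucc 1, .ofNat 1], [.ofNat 7, .negSucc 4, .ofNat 1], [.ofNat 6, .negSucc 4, .ofNat 1], [], [], [], [.ofNat 4, .negSucc 3, .ofNat 1], [], [], [.ofNat 4, .negSucc 3, .ofNat 1], [], [.ofNat 6, .negSucc 4, .ofNat 1], [.ofNat 4, .negSucc 3, .ofNat 1], [.negSucc 7, .ofNat 12, .negSucc 5, .ofNat 1]],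
  [[], [], [], [.ofNat 6, .negSucc 4, .ofNat 1], [.negSucc 1, .ofNat 1], [.negSucc 1, .ofNat 1], [.ofNat 7, .negSucc 4, .ofNat 1], [.ofNat 4, .negSucc 3, .ofNat 1], [.ofNat 6, .negSucc 4, .ofNat 1], [], [], [.ofNat 4, .negSucc 3, .ofNat 1], [], [.ofNat 4, .negSucc 3, .ofNat 1], [.negSucc 7, .ofNat 12, .negSucc 5, .ofNat 1]],
  [[.negSucc 1, .ofNat 1], [], [.ofNat 4, .negSucc 3, .ofNat 1], [], [], [], [], [.ofNat 4, .negSucc 3, .ofNat 1], [.ofNat 6, .negSucc 4, .ofNat 1], [.negSucc 1, .ofNat 1], [.ofNat 7, .negSucc 4, .ofNat 1], [.ofNat 4, .negSucc 3, .ofNat 1], [.ofNat 6, .negSucc 4, .ofNat 1], [], [.negSucc 7, .ofNat 12, .negSucc 5, .ofNat 1]],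
  [[], [.negSucc 1, .ofNat 1], [.ofNat 4, .negSucc 3, .ofNat 1], [.ofNat 6, .negSucc 4, .ofNat 1], [], [.negSucc 1, .ofNat 1], [.ofNat 4, .negSucc 3, .ofNat 1], [], [], [], [], [.ofNat 4, .negSucc 3, .ofNat 1], [.ofNat 6, .negSucc 4, .ofNat 1], [.ofNat 7, .negSucc 4, .ofNat 1], [.negSucc 7, .ofNat 12, .negSucc 5, .ofNat 1]],
  [[.negSucc 1, .ofNat 1], [], [.ofNat 4, .negSucc 3, .ofNat 1], [.ofNat 6, .negSucc 4, .ofNat 1], [.negSucc 1, .ofNat 1], [], [.ofNat 4, .negSucc 3, .ofNat 1], [.ofNat 7, .negSucc 4, .ofNat 1], [.ofNat 6, .negSucc 4, .ofNat 1], [], [.ofNat 4, .negSucc 3, .ofNat 1], [], [], [], [.negSucc 7, .ofNat 12, .negSucc 5, .ofNat 1]],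
  [[], [], [], [], [.negSucc 1, .ofNat 1], [], [.ofNat 4, .negSucc 3, .ofNat 1], [.ofNat 4, .negSucc 3, .ofNat 1], [.ofNat 9, .negSucc 5, .ofNat 1], [.negSucc 2, .ofNat 1], [.ofNat 6, .negSucc 4, .ofNat 1], [.ofNat 6, .negSucc 4, .ofNat 1], [.ofNat 4, .negSucc 3, .ofNat 1], [], [.negSucc 7, .ofNat 12, .negSucc 5, .ofNat 1]],
  [[], [.negSucc 2, .ofNat 1], [.ofNat 6, .negSucc 4, .ofNat 1], [.ofNat 4, .negSucc 3, .ofNat 1], [], [], [], [], [], [.negSucc 1, .ofNat 1], [.ofNat 4, .negSucc 3, .ofNat 1], [.ofNat 4, .negSucc 3, .ofNat 1], [.ofNat 9, .negSucc 5, .ofNat 1], [.ofNat 6, .negSucc 4, .ofNat 1], [.negSucc 7, .ofNat 12, .negSucc 5, .ofNat 1]],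
  [[], [.negSucc 1, .ofNat 1], [.ofNat 4, .negSucc 3, .ofNat 1], [.ofNat 9, .negSucc 5, .ofNat 1], [.negSucc 2, .ofNat 1], [], [.ofNat 6, .negSucc 4, .ofNat 1], [.ofNat 6, .negSucc 4, .ofNat 1], [.ofNat 4, .negSucc 3, .ofNat 1], [], [], [], [], [.ofNat 4, .negSucc 3, .ofNat 1], [.negSucc 7, .ofNat 12, .negSucc 5, .ofNat 1]],
  [[], [.negSucc 1, .ofNat 1], [.ofNat 4, .negSucc 3, .ofNat 1], [], [], [], [], [], [.ofNat 4, .negSucc 3, .ofNat 1], [.negSucc 2, .ofNat 1], [.ofNat 6, .negSucc 4, .ofNat 1], [.ofNat 6, .negSucc 4, .ofNat 1], [.ofNat 9, .negSucc 5, .ofNat 1], [.ofNat 4, .negSucc 3, .ofNat 1], [.negSucc 7, .ofNat 12, .negSucc 5, .ofNat 1]],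
  [[], [.negSucc 2, .ofNat 1], [.ofNat 6, .negSucc 4, .ofNat 1], [.ofNat 9, .negSucc 5, .ofNat 1], [.negSucc 1, .ofNat 1], [], [.ofNat 4, .negSucc 3, .ofNat 1], [.ofNat 4, .negSucc 3, .ofNat 1], [], [], [], [], [.ofNat 4, .negSucc 3, .ofNat 1], [.ofNat 6, .negSucc 4, .ofNat 1], [.negSucc 7, .ofNat 12, .negSucc 5, .ofNat 1]],
  [[], [], [], [.ofNat 4, .negSucc 3, .ofNat 1], [.negSucc 2, .ofNat 1], [], [.ofNat 6, .negSucc 4, .ofNat 1], [.ofNat 6, .negSucc 4, .ofNat 1], [.ofNat 9, .negSucc 5, .ofNat 1], [.negSucc 1, .ofNat 1], [.ofNat 4, .negSucc 3, .ofNat 1], [.ofNat 4, .negSucc 3, .ofNat 1], [], [], [.negSucc 7, .ofNat 12, .negSucc 5, .ofNat 1]],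
  [[], [], [], [.ofNat 4, .negSucc 3, .ofNat 1], [.negSucc 1, .ofNat 1], [.negSucc 1, .ofNat 1], [.ofNat 7, .negSucc 4, .ofNat 1], [.ofNat 4, .negSucc 3, .ofNat 1], [.ofNat 9, .negSucc 5, .ofNat 1], [.negSucc 1, .ofNat 1], [.ofNat 4, .negSucc 3, .ofNat 1], [.ofNat 7, .negSucc 4, .ofNat 1], [.ofNat 4, .negSucc 3, .ofNat 1], [.ofNat 4, .negSucc 3, .ofNat 1], [.negSucc 9, .ofNat 13, .negSucc 5, .ofNat 1]],
  [[.negSucc 1, .ofNat 1], [.negSucc 1, .ofNat 1], [.ofNat 7, .negSucc 4, .ofNat 1], [.ofNat 4, .negSucc 3, .ofNat 1], [], [], [], [.ofNat 4, .negSucc 3, .ofNat 1], [.ofNat 4, .negSucc 3, .ofNat 1], [.negSucc 1, .ofNat 1], [.ofNat 7, .negSucc 4, .ofNat 1], [.ofNat 4, .negSucc 3, .ofNat 1], [.ofNat 9, .negSucc 5, .ofNat 1], [.ofNat 4, .negSucc 3, .ofNat 1], [.negSucc 9, .ofNat 13, .negSucc 5, .ofNat 1]],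
  [[], [.negSucc 1, .ofNat 1], [.ofNat 4, .negSucc 3, .ofNat 1], [.ofNat 9, .negSucc 5, .ofNat 1], [.negSucc 1, .ofNat 1], [.negSucc 1, .ofNat 1], [.ofNat 7, .negSucc 4, .ofNat 1], [.ofNat 4, .negSucc 3, .ofNat 1], [.ofNat 4, .negSucc 3, .ofNat 1], [], [], [.ofNat 4, .negSucc 3, .ofNat 1], [.ofNat 4, .negSucc 3, .ofNat 1], [.ofNat 7, .negSucc 4, .ofNat 1], [.negSucc 9, .ofNat 13, .negSucc 5, .ofNat 1]],
  [[.negSucc 1, .ofNat 1], [], [.ofNat 4, .negSucc 3, .ofNat 1], [.ofNat 4, .negSucc 3, .ofNat 1], [.negSucc 1, .ofNat 1], [], [.ofNat 4, .negSucc 3, .ofNat 1], [.ofNat 7, .negSucc 4, .ofNat 1], [.ofNat 9, .negSucc 5, .ofNat 1], [.negSucc 1, .ofNat 1], [.ofNat 7, .negSucc 4, .ofNat 1], [.ofNat 4, .negSucc 3, .ofNat 1], [.ofNat 4, .negSucc 3, .ofNat 1], [], [.negSucc 9, .ofNat 13, .negSucc 5, .ofNat 1]],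
  [[], [.negSucc 1, .ofNat 1], [.ofNat 4, .negSucc 3, .ofNat 1], [.ofNat 4, .negSucc 3, .ofNat 1], [], [.negSucc 1, .ofNat 1], [.ofNat 4, .negSucc 3, .ofNat 1], [], [.ofNat 4, .negSucc 3, .ofNat 1], [.negSucc 1, .ofNat 1], [.ofNat 4, .negSucc 3, .ofNat 1], [.ofNat 7, .negSucc 4, .ofNat 1], [.ofNat 9, .negSucc 5, .ofNat 1], [.ofNat 7, .negSucc 4, .ofNat 1], [.negSucc 9, .ofNat 13, .negSucc 5, .ofNat 1]],
  [[.negSucc 1, .ofNat 1], [.negSucc 1, .ofNat 1], [.ofNat 7, .negSucc 4, .ofNat 1], [.ofNat 9, .negSucc 5, .ofNat 1], [.negSucc 1, .ofNat 1], [], [.ofNat 4, .negSucc 3, .ofNat 1], [.ofNat 7, .negSucc 4, .ofNat 1], [.ofNat 4, .negSucc 3, .ofNat 1], [], [.ofNat 4, .negSucc 3, .ofNat 1], [], [.ofNat 4, .negSucc 3, .ofNat 1], [.ofNat 4, .negSucc 3, .ofNat 1], [.negSucc 9, .ofNat 13, .negSucc 5, .ofNat 1]],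
  [[.ofNat 4, .negSucc 3, .ofNat 1], [.ofNat 4, .negSucc 3, .ofNat 1], [.negSucc 13, .ofNat 17, .negSucc 6, .ofNat 1], [.negSucc 17, .ofNat 21, .negSucc 7, .ofNat 1], [.ofNat 4, .negSucc 3, .ofNat 1], [.ofNat 4, .negSucc 3, .ofNat 1], [.negSucc 13, .ofNat 17, .negSucc 6, .ofNat 1], [.negSucc 13, .ofNat 17, .negSucc 6, .ofNat 1], [.negSucc 17, .ofNat 21, .negSucc 7, .ofNat 1], [.ofNat 4, .negSucc 3, .ofNat 1], [.negSucc 13, .ofNat 17, .negSucc 6, .ofNat 1], [.negSucc 13, .ofNat 17, .negSucc 6, .ofNat 1], [.negSucc 17, .ofNat 21, .negSucc 7, .ofNat 1], [.negSucc 13, .ofNat 17, .negSucc 6, .ofNat 1], [.ofNat 31, .negSucc 48, .ofNat 31, .negSucc 8, .ofNat 1]],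
  [[.ofNat 4, .negSucc 3, .ofNat 1], [.ofNat 4, .negSucc 3, .ofNat 1], [.negSucc 13, .ofNat 17, .negSucc 6, .ofNat 1], [.negSucc 26, .ofNat 27, .negSucc 8, .ofNat 1], [.ofNat 9, .negSucc 5, .ofNat 1], [.ofNat 4, .negSucc 3, .ofNat 1], [.negSucc 22, .ofNat 23, .negSucc 7, .ofNat 1], [.negSucc 22, .ofNat 23, .negSucc 7, .ofNat 1], [.negSucc 26, .ofNat 27, .negSucc 8, .ofNat 1], [.ofNat 4, .negSucc 3, .ofNat 1], [.negSucc 13, .ofNat 17, .negSucc 6, .ofNat 1], [.negSucc 13, .ofNat 17, .negSucc 6, .ofNat 1], [.negSucc 11, .ofNat 16, .negSucc 6, .ofNat 1], [.negSucc 13, .ofNat 17, .negSucc 6, .ofNat 1], [.ofNat 37, .negSucc 53, .ofNat 32, .negSucc 8, .ofNat 1]],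
  [[.ofNat 4, .negSucc 3, .ofNat 1], [.ofNat 4, .negSucc 3, .ofNat 1], [.negSucc 13, .ofNat 17, .negSucc 6, .ofNat 1], [.negSucc 11, .ofNat 16, .negSucc 6, .ofNat 1], [.ofNat 4, .negSucc 3, .ofNat 1], [.ofNat 4, .negSucc 3, .ofNat 1], [.negSucc 13, .ofNat 17, .negSucc 6, .ofNat 1], [.negSucc 13, .ofNat 17, .negSucc 6, .ofNat 1], [.negSucc 26, .ofNat 27, .negSucc 8, .ofNat 1], [.ofNat 9, .negSucc 5, .ofNat 1], [.negSucc 22, .ofNat 23, .negSucc 7, .ofNat 1], [.negSucc 22, .ofNat 23, .negSucc 7, .ofNat 1], [.negSucc 26, .ofNat 27, .negSucc 8, .ofNat 1], [.negSucc 13, .ofNat 17, .negSucc 6, .ofNat 1], [.ofNat 37, .negSucc 53, .ofNat 32, .negSucc 8, .ofNat 1]],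
  [[.ofNat 4, .negSucc 3, .ofNat 1], [.ofNat 9, .negSucc 5, .ofNat 1], [.negSucc 22, .ofNat 23, .negSucc 7, .ofNat 1], [.negSucc 26, .ofNat 27, .negSucc 8, .ofNat 1], [.ofNat 4, .negSucc 3, .ofNat 1], [.ofNat 4, .negSucc 3, .ofNat 1], [.negSucc 13, .ofNat 17, .negSucc 6, .ofNat 1], [.negSucc 13, .ofNat 17, .negSucc 6, .ofNat 1], [.negSucc 11, .ofNat 16, .negSucc 6, .ofNat 1], [.ofNat 4, .negSucc 3, .ofNat 1], [.negSucc 13, .ofNat 17, .negSucc 6, .ofNat 1], [.negSucc 13, .ofNat 17, .negSucc 6, .ofNat 1], [.negSucc 26, .ofNat 27, .negSucc 8, .ofNat 1], [.negSucc 22, .ofNat 23, .negSucc 7, .ofNat 1], [.ofNat 37, .negSucc 53, .ofNat 32, .negSucc 8, .ofNat 1]],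
  [[.negSucc 26, .ofNat 27, .negSucc 8, .ofNat 1], [.negSucc 17, .ofNat 21, .negSucc 7, .ofNat 1], [.ofNat 78, .negSucc 97, .ofNat 48, .negSucc 10, .ofNat 1], [.ofNat 81, .negSucc 107, .ofNat 54, .negSucc 11, .ofNat 1], [.negSucc 17, .ofNat 21, .negSucc 7, .ofNat 1], [.negSucc 7, .ofNat 12, .negSucc 5, .ofNat 1], [.ofNat 46, .negSucc 68, .ofNat 39, .negSucc 9, .ofNat 1], [.ofNat 78, .negSucc 97, .ofNat 48, .negSucc 10, .ofNat 1], [.ofNat 81, .negSucc 107, .ofNat 54, .negSucc 11, .ofNat 1], [.negSucc 17, .ofNat 21, .negSucc 7, .ofNat 1], [.ofNat 78, .negSucc 97, .ofNat 48, .negSucc 10, .ofNat 1], [.ofNat 46, .negSucc 68, .ofNat 39, .negSucc 9, .ofNat 1], [.ofNat 81, .negSucc 107, .ofNat 54, .negSucc 11, .ofNat 1], [.ofNat 46, .negSucc 68, .ofNat 39, .negSucc 9, .ofNat 1], [.negSucc 133, .ofNat 222, .negSucc 157, .ofNat 60, .negSucc 11, .ofNat 1]],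
  [[.negSucc 7, .ofNat 12, .negSucc 5, .ofNat 1], [.negSucc 17, .ofNat 21, .negSucc 7, .ofNat 1], [.ofNat 46, .negSucc 68, .ofNat 39, .negSucc 9, .ofNat 1], [.ofNat 81, .negSucc 107, .ofNat 54, .negSucc 11, .ofNat 1], [.negSucc 17, .ofNat 21, .negSucc 7, .ofNat 1], [.negSucc 26, .ofNat 27, .negSucc 8, .ofNat 1], [.ofNat 78, .negSucc 97, .ofNat 48, .negSucc 10, .ofNat 1], [.ofNat 46, .negSucc 68, .ofNat 39, .negSucc 9, .ofNat 1], [.ofNat 81, .negSucc 107, .ofNat 54, .negSucc 11, .ofNat 1], [.negSucc 17, .ofNat 21, .negSucc 7, .ofNat 1], [.ofNat 46, .negSucc 68, .ofNat 39, .negSucc 9, .ofNat 1], [.ofNat 78, .negSucc 97, .ofNat 48, .negSucc 10, .ofNat 1], [.ofNat 81, .negSucc 107, .ofNat 54, .negSucc 11, .ofNat 1], [.ofNat 78, .negSucc 97, .ofNat 48, .negSucc 10, .ofNat 1], [.negSucc 133, .ofNat 222, .negSucc 157, .ofNat 60, .negSucc 11, .ofNat 1]],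
  [[.ofNat 54, .negSucc 80, .ofNat 45, .negSucc 10, .ofNat 1], [.ofNat 36, .negSucc 59, .ofNat 37, .negSucc 9, .ofNat 1], [.negSucc 155, .ofNat 274, .negSucc 193, .ofNat 70, .negSucc 12, .ofNat 1], [.negSucc 242, .ofNat 405, .negSucc 269, .ofNat 90, .negSucc 14, .ofNat 1], [.ofNat 96, .negSucc 118, .ofNat 56, .negSucc 11, .ofNat 1], [.ofNat 54, .negSucc 80, .ofNat 45, .negSucc 10, .ofNat 1], [.negSucc 260, .ofNat 399, .negSucc 250, .ofNat 82, .negSucc 13, .ofNat 1], [.negSucc 260, .ofNat 399, .negSucc 250, .ofNat 82, .negSucc 13, .ofNat 1], [.negSucc 397, .ofNat 553, .negSucc 316, .ofNat 95, .negSucc 14, .ofNat 1], [.ofNat 96, .negSucc 118, .ofNat 56, .negSucc 11, .ofNat 1], [.negSucc 260, .ofNat 399, .negSucc 250, .ofNat 82, .negSucc 13, .ofNat 1], [.negSucc 260, .ofNat 399, .negSucc 250, .ofNat 82, .negSucc 13, .ofNat 1], [.negSucc 242, .ofNat 405, .negSucc 269, .ofNat 90, .negSucc 14, .ofNat 1], [.negSucc 155,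 .ofNat 274, .negSucc 193, .ofNat 70, .negSucc 12, .ofNat 1], [.ofNat 480, .negSucc 897, .ofNat 744, .negSucc 348, .ofNat 97, .negSucc 14, .ofNat 1]],
  [[.ofNat 54, .negSucc 80, .ofNat 45, .negSucc 10, .ofNat 1], [.ofNat 96, .negSucc 118, .ofNat 56, .negSucc 11, .ofNat 1], [.negSucc 260, .ofNat 399, .negSucc 250, .ofNat 82, .negSucc 13, .ofNat 1], [.negSucc 242, .ofNat 405, .negSucc 269, .ofNat 90, .negSucc 14, .ofNat 1], [.ofNat 36, .negSucc 59, .ofNat 37, .negSucc 9, .ofNat 1], [.ofNat 54, .negSucc 80, .ofNat 45, .negSucc 10, .ofNat 1], [.negSucc 155, .ofNat 274, .negSucc 193, .ofNat 70, .negSucc 12, .ofNat 1], [.negSucc 155, .ofNat 274, .negSucc 193, .ofNat 70, .negSucc 12, .ofNat 1], [.negSucc 242, .ofNat 405, .negSucc 269, .ofNat 90, .negSucc 14, .ofNat 1], [.ofNat 96, .negSucc 118, .ofNat 56, .negSucc 11, .ofNat 1], [.negSucc 260, .ofNat 399, .negSucc 250, .ofNat 82, .negSucc 13, .ofNat 1], [.negSucc 260,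 .ofNat 399, .negSucc 250, .ofNat 82, .negSucc 13, .ofNat 1], [.negSucc 397, .ofNat 553, .negSucc 316, .ofNat 95, .negSucc 14, .ofNat 1], [.negSucc 260, .ofNat 399, .negSucc 250, .ofNat 82, .negSucc 13, .ofNat 1], [.ofNat 480, .negSucc 897, .ofNat 744, .negSucc 348, .ofNat 97, .negSucc 14, .ofNat 1]],
  [[.ofNat 54, .negSucc 80, .ofNat 45, .negSucc 10, .ofNat 1], [.ofNat 96, .negSucc 118, .ofNat 56, .negSucc 11, .ofNat 1], [.negSucc 260, .ofNat 399, .negSucc 250, .ofNat 82, .negSucc 13, .ofNat 1], [.negSucc 397, .ofNat 553, .negSucc 316, .ofNat 95, .negSucc 14, .ofNat 1], [.ofNat 96, .negSucc 118, .ofNat 56, .negSucc 11, .ofNat 1], [.ofNat 54, .negSucc 80, .ofNat 45, .negSucc 10, .ofNat 1], [.negSucc 260, .ofNat 399, .negSucc 250, .ofNat 82, .negSucc 13, .ofNat 1], [.negSucc 260, .ofNat 399, .negSucc 250, .ofNat 82, .negSucc 13, .ofNat 1], [.negSucc 242, .ofNat 405, .negSucc 269, .ofNat 90, .negSucc 14, .ofNat 1],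 [.ofNat 36, .negSucc 59, .ofNat 37, .negSucc 9, .ofNat 1], [.negSucc 155, .ofNat 274, .negSucc 193, .ofNat 70, .negSucc 12, .ofNat 1], [.negSucc 155, .ofNat 274, .negSucc 193, .ofNat 70, .negSucc 12, .ofNat 1], [.negSucc 242, .ofNat 405, .negSucc 269, .ofNat 90, .negSucc 14, .ofNat 1], [.negSucc 260, .ofNat 399, .negSucc 250, .ofNat 82, .negSucc 13, .ofNat 1], [.ofNat 480, .negSucc 897, .ofNat 744, .negSucc 348, .ofNat 97, .negSucc 14, .ofNat 1]],
  [[.negSucc 314, .ofNat 480, .negSucc 295, .ofNat 93, .negSucc 14, .ofNat 1], [.negSucc 356, .ofNat 518, .negSucc 306, .ofNat 94, .negSucc 14, .ofNat 1], [.ofNat 1139, .negSucc 1849, .ofNat 1312, .negSucc 525, .ofNat 126, .negSucc 16, .ofNat 1], [.ofNat 1194, .negSucc 2056, .ofNat 1504, .negSucc 601, .ofNat 140, .negSucc 17, .ofNat 1], [.negSucc 191, .ofNat 334, .negSucc 230, .ofNat 80, .negSucc 13, .ofNat 1], [.negSucc 107, .ofNat 216, .negSucc 170, .ofNat 67, .negSucc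 12, .ofNat 1], [.ofNat 522, .negSucc 1058, .ofNat 901, .negSucc 414, .ofNat 110, .negSucc 15, .ofNat 1], [.ofNat 879, .negSucc 1576, .ofNat 1208, .negSucc 508, .ofNat 125, .negSucc 16, .ofNat 1], [.ofNat 729, .negSucc 1457, .ofNat 1215, .negSucc 539, .ofNat 135, .negSucc 17, .ofNat 1], [.negSucc 191, .ofNat 334, .negSucc 230, .ofNat 80, .negSucc 13, .ofNat 1], [.ofNat 879, .negSucc 1576, .ofNat 1208, .negSucc 508, .ofNat 125, .negSucc 16, .ofNat 1], [.ofNat 522, .negSucc 1058, .ofNat 901, .negSucc 414, .ofNat 110, .negSucc 15, .ofNat 1], [.ofNat 1194, .negSucc 2056, .ofNat 1504, .negSucc 601, .ofNat 140, .negSucc 17, .ofNat 1], [.ofNat 837, .negSucc 1538, .ofNat 1197, .negSucc 507, .ofNat 125, .negSucc 16, .ofNat 1], [.negSucc 1700, .ofNat 3573, .negSucc 3380, .ofNat 1873, .negSucc 653, .ofNat 143, .negSucc 17, .ofNat 1]],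
  [[.negSucc 107, .ofNat 216, .negSucc 170, .ofNat 67, .negSucc 12, .ofNat 1], [.negSucc 191, .ofNat 334, .negSucc 230, .ofNat 80, .negSucc 13, .ofNat 1], [.ofNat 522, .negSucc 1058, .ofNat 901, .negSucc 414, .ofNat 110, .negSucc 15, .ofNat 1], [.ofNat 1194, .negSucc 2056, .ofNat 1504, .negSucc 601, .ofNat 140, .negSucc 17, .ofNat 1], [.negSucc 356, .ofNat 518, .negSucc 306, .ofNat 94, .negSucc 14, .ofNat 1], [.negSucc 314, .ofNat 480, .negSucc 295, .ofNat 93, .negSucc 14, .ofNat 1], [.ofNat 1139, .negSucc 1849, .ofNat 1312, .negSucc 525, .ofNat 126, .negSucc 16, .ofNat 1], [.ofNat 837, .negSucc 1538, .ofNat 1197, .negSucc 507, .ofNat 125, .negSucc 16, .ofNat 1], [.ofNat 1194, .negSucc 2056, .ofNat 1504, .negSucc 601, .ofNat 140, .negSucc 17, .ofNat 1], [.negSucc 191, .ofNat 334, .negSucc 230, .ofNat 80, .negSucc 13, .ofNat 1], [.ofNat 522, .negSucc 1058, .ofNat 901, .negSucc 414, .ofNat 110, .negSucc 15, .ofNat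 1], [.ofNat 879, .negSucc 1576, .ofNat 1208, .negSucc 508, .ofNat 125, .negSucc 16, .ofNat 1], [.ofNat 729, .negSucc 1457, .ofNat 1215, .negSucc 539, .ofNat 135, .negSucc 17, .ofNat 1], [.ofNat 879, .negSucc 1576, .ofNat 1208, .negSucc 508, .ofNat 125, .negSucc 16, .ofNat 1], [.negSucc 1700, .ofNat 3573, .negSucc 3380, .ofNat 1873, .negSucc 653, .ofNat 143, .negSucc 17, .ofNat 1]],
  [[.negSucc 314, .ofNat 480, .negSucc 295, .ofNat 93, .negSucc 14, .ofNat 1], [.negSucc 191, .ofNat 334, .negSucc 230, .ofNat 80, .negSucc 13, .ofNat 1], [.ofNat 879, .negSucc 1576, .ofNat 1208, .negSucc 508, .ofNat 125, .negSucc 16, .ofNat 1], [.ofNat 729, .negSucc 1457, .ofNat 1215, .negSucc 539, .ofNat 135, .negSucc 17, .ofNat 1], [.negSucc 191, .ofNat 334, .negSucc 230, .ofNat 80, .negSucc 13, .ofNat 1], [.negSucc 107, .ofNat 216, .negSucc 170, .ofNat 67, .negSucc 12, .ofNat 1], [.ofNat 522, .negSucc 1058, .ofNat 901, .negSucc 414,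 .ofNat 110, .negSucc 15, .ofNat 1], [.ofNat 879, .negSucc 1576, .ofNat 1208, .negSucc 508, .ofNat 125, .negSucc 16, .ofNat 1], [.ofNat 1194, .negSucc 2056, .ofNat 1504, .negSucc 601, .ofNat 140, .negSucc 17, .ofNat 1], [.negSucc 356, .ofNat 518, .negSucc 306, .ofNat 94, .negSucc 14, .ofNat 1], [.ofNat 1139, .negSucc 1849, .ofNat 1312, .negSucc 525, .ofNat 126, .negSucc 16, .ofNat 1], [.ofNat 837, .negSucc 1538, .ofNat 1197, .negSucc 507, .ofNat 125, .negSucc 16, .ofNat 1], [.ofNat 1194, .negSucc 2056, .ofNat 1504, .negSucc 601, .ofNat 140, .negSucc 17, .ofNat 1], [.ofNat 522, .negSucc 1058, .ofNat 901, .negSucc 414, .ofNat 110, .negSucc 15, .ofNat 1], [.negSucc 1700, .ofNat 3573, .negSucc 3380, .ofNat 1873, .negSucc 653, .ofNat 143, .negSucc 17, .ofNat 1]],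
  [[.negSucc 107, .ofNat 216, .negSucc 170, .ofNat 67, .negSucc 12, .ofNat 1], [.negSucc 356, .ofNat 518, .negSucc 306, .ofNat 94, .negSucc 14, .ofNat 1], [.ofNat 837, .negSucc 1538, .ofNat 1197, .negSucc 507, .ofNat 125, .negSucc 16, .ofNat 1], [.ofNat 1194, .negSucc 2056, .ofNat 1504, .negSucc 601, .ofNat 140, .negSucc 17, .ofNat 1], [.negSucc 191, .ofNat 334, .negSucc 230, .ofNat 80, .negSucc 13, .ofNat 1], [.negSucc 314, .ofNat 480, .negSucc 295, .ofNat 93, .negSucc 14, .ofNat 1], [.ofNat 879, .negSucc 1576, .ofNat 1208, .negSucc 508, .ofNat 125, .negSucc 16, .ofNat 1], [.ofNat 522, .negSucc 1058, .ofNat 901, .negSucc 414, .ofNat 110, .negSucc 15, .ofNat 1], [.ofNat 729, .negSucc 1457, .ofNat 1215, .negSucc 539, .ofNat 135, .negSucc 17, .ofNat 1], [.negSucc 191, .ofNat 334, .negSucc 230, .ofNat 80, .negSucc 13, .ofNat 1], [.ofNat 522, .negSucc 1058, .ofNat 901, .negSucc 414, .ofNat 110, .negSucc 15, .ofNat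 1], [.ofNat 879, .negSucc 1576, .ofNat 1208, .negSucc 508, .ofNat 125, .negSucc 16, .ofNat 1], [.ofNat 1194, .negSucc 2056, .ofNat 1504, .negSucc 601, .ofNat 140, .negSucc 17, .ofNat 1], [.ofNat 1139, .negSucc 1849, .ofNat 1312, .negSucc 525, .ofNat 126, .negSucc 16, .ofNat 1], [.negSucc 1700, .ofNat 3573, .negSucc 3380, .ofNat 1873, .negSucc 653, .ofNat 143, .negSucc 17, .ofNat 1]],
  [[.negSucc 314, .ofNat 480, .negSucc 295, .ofNat 93, .negSucc 14, .ofNat 1], [.negSucc 191, .ofNat 334, .negSucc 230, .ofNat 80, .negSucc 13, .ofNat 1], [.ofNat 879, .negSucc 1576, .ofNat 1208, .negSucc 508, .ofNat 125, .negSucc 16, .ofNat 1], [.ofNat 1194, .negSucc 2056, .ofNat 1504, .negSucc 601, .ofNat 140, .negSucc 17, .ofNat 1], [.negSucc 356, .ofNat 518, .negSucc 306, .ofNat 94, .negSucc 14, .ofNat 1], [.negSucc 107, .ofNat 216, .negSucc 170, .ofNat 67, .negSucc 12, .ofNat 1], [.ofNat 837, .negSucc 1538, .ofNat 1197, .negSucc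 507, .ofNat 125, .negSucc 16, .ofNat 1], [.ofNat 1139, .negSucc 1849, .ofNat 1312, .negSucc 525, .ofNat 126, .negSucc 16, .ofNat 1], [.ofNat 1194, .negSucc 2056, .ofNat 1504, .negSucc 601, .ofNat 140, .negSucc 17, .ofNat 1], [.negSucc 191, .ofNat 334, .negSucc 230, .ofNat 80, .negSucc 13, .ofNat 1], [.ofNat 879, .negSucc 1576, .ofNat 1208, .negSucc 508, .ofNat 125, .negSucc 16, .ofNat 1], [.ofNat 522, .negSucc 1058, .ofNat 901, .negSucc 414, .ofNat 110, .negSucc 15, .ofNat 1], [.ofNat 729, .negSucc 1457, .ofNat 1215, .negSucc 539, .ofNat 135, .negSucc 17, .ofNat 1], [.ofNat 522, .negSucc 1058, .ofNat 901, .negSucc 414, .ofNat 110, .negSucc 15, .ofNat 1], [.negSucc 1700, .ofNat 3573, .negSucc 3380, .ofNat 1873, .negSucc 653, .ofNat 143, .negSucc 17, .ofNat 1]],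
  [[.negSucc 107, .ofNat 216, .negSucc 170, .ofNat 67, .negSucc 12, .ofNat 1], [.negSucc 191, .ofNat 334, .negSucc 230, .ofNat 80, .negSucc 13, .ofNat 1], [.ofNat 522, .negSucc 1058, .ofNat 901, .negSucc 414, .ofNat 110, .negSucc 15, .ofNat 1], [.ofNat 729, .negSucc 1457, .ofNat 1215, .negSucc 539, .ofNat 135, .negSucc 17, .ofNat 1], [.negSucc 191, .ofNat 334, .negSucc 230, .ofNat 80, .negSucc 13, .ofNat 1], [.negSucc 314, .ofNat 480, .negSucc 295, .ofNat 93, .negSucc 14, .ofNat 1], [.ofNat 879, .negSucc 1576, .ofNat 1208, .negSucc 508, .ofNat 125, .negSucc 16, .ofNat 1], [.ofNat 522, .negSucc 1058, .ofNat 901, .negSucc 414, .ofNat 110, .negSucc 15, .ofNat 1], [.ofNat 1194, .negSucc 2056, .ofNat 1504, .negSucc 601, .ofNat 140, .negSucc 17, .ofNat 1], [.negSucc 356, .ofNat 518, .negSucc 306, .ofNat 94, .negSucc 14, .ofNat 1], [.ofNat 837, .negSucc 1538, .ofNat 1197, .negSucc 507, .ofNat 125, .negSucc 16, .ofNat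 1], [.ofNat 1139, .negSucc 1849, .ofNat 1312, .negSucc 525, .ofNat 126, .negSucc 16, .ofNat 1], [.ofNat 1194, .negSucc 2056, .ofNat 1504, .negSucc 601, .ofNat 140, .negSucc 17, .ofNat 1], [.ofNat 879, .negSucc 1576, .ofNat 1208, .negSucc 508, .ofNat 125, .negSucc 16, .ofNat 1], [.negSucc 1700, .ofNat 3573, .negSucc 3380, .ofNat 1873, .negSucc 653, .ofNat 143, .negSucc 17, .ofNat 1]],
  [[.ofNat 216, .negSucc 539, .ofNat 558, .negSucc 304, .ofNat 93, .negSucc 14, .ofNat 1], [.ofNat 714, .negSucc 1392, .ofNat 1132, .negSucc 494, .ofNat 124, .negSucc 16, .ofNat 1], [.negSucc 1673, .ofNat 3915, .negSucc 3932, .ofNat 2213, .negSucc 757, .ofNat 159, .negSucc 18, .ofNat 1], [.negSucc 3581, .ofNat 7365, .negSucc 6568, .ofNat 3310, .negSucc 1021, .ofNat 194, .negSucc 20, .ofNat 1], [.ofNat 714, .negSucc 1392, .ofNat 1132, .negSucc 494, .ofNat 124, .negSucc 16, .ofNat 1], [.ofNat 1454, .negSucc 2329, .ofNat 1608, .negSucc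 618, .ofNat 141, .negSucc 17, .ofNat 1], [.negSucc 3773, .ofNat 7207, .negSucc 6092, .ofNat 2984, .negSucc 918, .ofNat 178, .negSucc 19, .ofNat 1], [.negSucc 1673, .ofNat 3915, .negSucc 3932, .ofNat 2213, .negSucc 757, .ofNat 159, .negSucc 18, .ofNat 1], [.negSucc 3581, .ofNat 7365, .negSucc 6568, .ofNat 3310, .negSucc 1021, .ofNat 194, .negSucc 20, .ofNat 1], [.ofNat 714, .negSucc 1392, .ofNat 1132, .negSucc 494, .ofNat 124, .negSucc 16, .ofNat 1], [.negSucc 1673, .ofNat 3915, .negSucc 3932, .ofNat 2213, .negSucc 757, .ofNat 159, .negSucc 18, .ofNat 1], [.negSucc 3773, .ofNat 7207, .negSucc 6092, .ofNat 2984, .negSucc 918, .ofNat 178, .negSucc 19, .ofNat 1], [.negSucc 3581, .ofNat 7365, .negSucc 6568, .ofNat 3310, .negSucc 1021, .ofNat 194, .negSucc 20, .ofNat 1], [.negSucc 3773, .ofNat 7207, .negSucc 6092, .ofNat 2984, .negSucc 918, .ofNat 178, .negSucc 19, .ofNat 1], [.ofNat 5940, .negSucc 13958, .ofNat 14913,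 .negSucc 9507, .ofNat 3960, .negSucc 1099, .ofNat 198, .negSucc 20, .ofNat 1]],
  [[.ofNat 1454, .negSucc 2329, .ofNat 1608, .negSucc 618, .ofNat 141, .negSucc 17, .ofNat 1], [.ofNat 714, .negSucc 1392, .ofNat 1132, .negSucc 494, .ofNat 124, .negSucc 16, .ofNat 1], [.negSucc 3773, .ofNat 7207, .negSucc 6092, .ofNat 2984, .negSucc 918, .ofNat 178, .negSucc 19, .ofNat 1], [.negSucc 3581, .ofNat 7365, .negSucc 6568, .ofNat 3310, .negSucc 1021, .ofNat 194, .negSucc 20, .ofNat 1], [.ofNat 714, .negSucc 1392, .ofNat 1132, .negSucc 494, .ofNat 124, .negSucc 16, .ofNat 1], [.ofNat 216, .negSucc 539, .ofNat 558, .negSucc 304, .ofNat 93, .negSucc 14, .ofNat 1], [.negSucc 1673, .ofNat 3915, .negSucc 3932, .ofNat 2213, .negSucc 757, .ofNat 159, .negSucc 18, .ofNat 1], [.negSucc 3773, .ofNat 7207, .negSucc 6092, .ofNat 2984, .negSucc 918, .ofNat 178, .negSucc 19, .ofNat 1], [.negSucc 3581, .ofNat 7365, .negSucc 6568, .ofNat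 3310, .negSucc 1021, .ofNat 194, .negSucc 20, .ofNat 1], [.ofNat 714, .negSucc 1392, .ofNat 1132, .negSucc 494, .ofNat 124, .negSucc 16, .ofNat 1], [.negSucc 3773, .ofNat 7207, .negSucc 6092, .ofNat 2984, .negSucc 918, .ofNat 178, .negSucc 19, .ofNat 1], [.negSucc 1673, .ofNat 3915, .negSucc 3932, .ofNat 2213, .negSucc 757, .ofNat 159, .negSucc 18, .ofNat 1], [.negSucc 3581, .ofNat 7365, .negSucc 6568, .ofNat 3310, .negSucc 1021, .ofNat 194, .negSucc 20, .ofNat 1], [.negSucc 1673, .ofNat 3915, .negSucc 3932, .ofNat 2213, .negSucc 757, .ofNat 159, .negSucc 18, .ofNat 1], [.ofNat 5940, .negSucc 13958, .ofNat 14913, .negSucc 9507, .ofNat 3960, .negSucc 1099, .ofNat 198, .negSucc 20, .ofNat 1]],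
  [[.ofNat 630, .negSucc 1274, .ofNat 1072, .negSucc 481, .ofNat 123, .negSucc 16, .ofNat 1], [.ofNat 384, .negSucc 859, .ofNat 796, .negSucc 390, .ofNat 108, .negSucc 15, .ofNat 1], [.negSucc 1757, .ofNat 4033, .negSucc 3992, .ofNat 2226, .negSucc 758, .ofNat 159, .negSucc 18, .ofNat 1], [.negSucc 3581, .ofNat 7365, .negSucc 6568, .ofNat 3310, .negSucc 1021, .ofNat 194, .negSucc 20, .ofNat 1], [.ofNat 1496, .negSucc 2367, .ofNat 1619, .negSucc 619, .ofNat 141, .negSucc 17, .ofNat 1], [.ofNat 630, .negSucc 1274, .ofNat 1072, .negSucc 481, .ofNat 123, .negSucc 16, .ofNat 1], [.negSucc 3731, .ofNat 7169, .negSucc 6081, .ofNat 2983, .negSucc 918, .ofNat 178, .negSucc 19, .ofNat 1], [.negSucc 3731, .ofNat 7169, .negSucc 6081, .ofNat 2983, .negSucc 918, .ofNat 178, .negSucc 19, .ofNat 1], [.negSucc 5227, .ofNat 9537, .negSucc 7700, .ofNat 3603, .negSucc 1059, .ofNat 196, .negSucc 20, .ofNat 1], [.ofNat 1071, .negSucc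 1910, .ofNat 1439, .negSucc 588, .ofNat 139, .negSucc 17, .ofNat 1], [.negSucc 2951, .ofNat 6090, .negSucc 5496, .ofNat 2828, .negSucc 898, .ofNat 177, .negSucc 19, .ofNat 1], [.negSucc 2951, .ofNat 6090, .negSucc 5496, .ofNat 2828, .negSucc 898, .ofNat 177, .negSucc 19, .ofNat 1], [.negSucc 2186, .ofNat 5103, .negSucc 5102, .ofNat 2835, .negSucc 944, .ofNat 189, .negSucc 20, .ofNat 1], [.negSucc 1757, .ofNat 4033, .negSucc 3992, .ofNat 2226, .negSucc 758, .ofNat 159, .negSucc 18, .ofNat 1], [.ofNat 5982, .negSucc 13996, .ofNat 14924, .negSucc 9508, .ofNat 3960, .negSucc 1099, .ofNat 198, .negSucc 20, .ofNat 1]],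
  [[.ofNat 630, .negSucc 1274, .ofNat 1072, .negSucc 481, .ofNat 123, .negSucc 16, .ofNat 1], [.ofNat 1071, .negSucc 1910, .ofNat 1439, .negSucc 588, .ofNat 139, .negSucc 17, .ofNat 1], [.negSucc 2951, .ofNat 6090, .negSucc 5496, .ofNat 2828, .negSucc 898, .ofNat 177, .negSucc 19, .ofNat 1], [.negSucc 2186, .ofNat 5103, .negSucc 5102, .ofNat 2835, .negSucc 944, .ofNat 189, .negSucc 20, .ofNat 1], [.ofNat 384, .negSucc 859, .ofNat 796, .negSucc 390, .ofNat 108, .negSucc 15, .ofNat 1], [.ofNat 630, .negSucc 1274, .ofNat 1072, .negSucc 481, .ofNat 123, .negSucc 16, .ofNat 1], [.negSucc 1757, .ofNat 4033, .negSucc 3992, .ofNat 2226, .negSucc 758, .ofNat 159, .negSucc 18, .ofNat 1], [.negSucc 1757, .ofNat 4033, .negSucc 3992, .ofNat 2226, .negSucc 758, .ofNat 159, .negSucc 18, .ofNat 1], [.negSucc 3581, .ofNat 7365, .negSucc 6568, .ofNat 3310, .negSucc 1021, .ofNat 194, .negSucc 20, .ofNat 1], [.ofNat 1496, .negSucc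 2367, .ofNat 1619, .negSucc 619, .ofNat 141, .negSucc 17, .ofNat 1], [.negSucc 3731, .ofNat 7169, .negSucc 6081, .ofNat 2983, .negSucc 918, .ofNat 178, .negSucc 19, .ofNat 1], [.negSucc 3731, .ofNat 7169, .negSucc 6081, .ofNat 2983, .negSucc 918, .ofNat 178, .negSucc 19, .ofNat 1], [.negSucc 5227, .ofNat 9537, .negSucc 7700, .ofNat 3603, .negSucc 1059, .ofNat 196, .negSucc 20, .ofNat 1], [.negSucc 2951, .ofNat 6090, .negSucc 5496, .ofNat 2828, .negSucc 898, .ofNat 177, .negSucc 19, .ofNat 1], [.ofNat 5982, .negSucc 13996, .ofNat 14924, .negSucc 9508, .ofNat 3960, .negSucc 1099, .ofNat 198, .negSucc 20, .ofNat 1]],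
  [[.ofNat 630, .negSucc 1274, .ofNat 1072, .negSucc 481, .ofNat 123, .negSucc 16, .ofNat 1], [.ofNat 1496, .negSucc 2367, .ofNat 1619, .negSucc 619, .ofNat 141, .negSucc 17, .ofNat 1], [.negSucc 3731, .ofNat 7169, .negSucc 6081, .ofNat 2983, .negSucc 918, .ofNat 178, .negSucc 19, .ofNat 1], [.negSucc 5227, .ofNat 9537, .negSucc 7700, .ofNat 3603, .negSucc 1059, .ofNat 196, .negSucc 20, .ofNat 1], [.ofNat 1071, .negSucc 1910, .ofNat 1439, .negSucc 588, .ofNat 139, .negSucc 17, .ofNat 1], [.ofNat 630, .negSucc 1274, .ofNat 1072, .negSucc 481, .ofNat 123, .negSucc 16, .ofNat 1], [.negSucc 2951, .ofNat 6090, .negSucc 5496, .ofNat 2828, .negSucc 898, .ofNat 177, .negSucc 19, .ofNat 1], [.negSucc 2951, .ofNat 6090, .negSucc 5496, .ofNat 2828, .negSucc 898, .ofNat 177, .negSucc 19, .ofNat 1], [.negSucc 2186, .ofNat 5103, .negSucc 5102, .ofNat 2835, .negSucc 944, .ofNat 189, .negSucc 20, .ofNat 1], [.ofNat 384, .negSucc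 859, .ofNat 796, .negSucc 390, .ofNat 108, .negSucc 15, .ofNat 1], [.negSucc 1757, .ofNat 4033, .negSucc 3992, .ofNat 2226, .negSucc 758, .ofNat 159, .negSucc 18, .ofNat 1], [.negSucc 1757, .ofNat 4033, .negSucc 3992, .ofNat 2226, .negSucc 758, .ofNat 159, .negSucc 18, .ofNat 1], [.negSucc 3581, .ofNat 7365, .negSucc 6568, .ofNat 3310, .negSucc 1021, .ofNat 194, .negSucc 20, .ofNat 1], [.negSucc 3731, .ofNat 7169, .negSucc 6081, .ofNat 2983, .negSucc 918, .ofNat 178, .negSucc 19, .ofNat 1], [.ofNat 5982, .negSucc 13996, .ofNat 14924, .negSucc 9508, .ofNat 3960, .negSucc 1099, .ofNat 198, .negSucc 20, .ofNat 1]],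
  [[.ofNat 630, .negSucc 1274, .ofNat 1072, .negSucc 481, .ofNat 123, .negSucc 16, .ofNat 1], [.ofNat 1496, .negSucc 2367, .ofNat 1619, .negSucc 619, .ofNat 141, .negSucc 17, .ofNat 1], [.negSucc 3731, .ofNat 7169, .negSucc 6081, .ofNat 2983, .negSucc 918, .ofNat 178, .negSucc 19, .ofNat 1], [.negSucc 3581, .ofNat 7365, .negSucc 6568, .ofNat 3310, .negSucc 1021, .ofNat 194, .negSucc 20, .ofNat 1], [.ofNat 384, .negSucc 859, .ofNat 796, .negSucc 390, .ofNat 108, .negSucc 15, .ofNat 1], [.ofNat 630, .negSucc 1274, .ofNat 1072, .negSucc 481, .ofNat 123, .negSucc 16, .ofNat 1], [.negSucc 1757, .ofNat 4033, .negSucc 3992, .ofNat 2226, .negSucc 758, .ofNat 159, .negSucc 18, .ofNat 1], [.negSucc 1757, .ofNat 4033, .negSucc 3992, .ofNat 2226, .negSucc 758, .ofNat 159, .negSucc 18, .ofNat 1], [.negSucc 2186, .ofNat 5103, .negSucc 5102, .ofNat 2835, .negSucc 944, .ofNat 189, .negSucc 20, .ofNat 1], [.ofNat 1071, .negSucc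 1910, .ofNat 1439, .negSucc 588, .ofNat 139, .negSucc 17, .ofNat 1], [.negSucc 2951, .ofNat 6090, .negSucc 5496, .ofNat 2828, .negSucc 898, .ofNat 177, .negSucc 19, .ofNat 1], [.negSucc 2951, .ofNat 6090, .negSucc 5496, .ofNat 2828, .negSucc 898, .ofNat 177, .negSucc 19, .ofNat 1], [.negSucc 5227, .ofNat 9537, .negSucc 7700, .ofNat 3603, .negSucc 1059, .ofNat 196, .negSucc 20, .ofNat 1], [.negSucc 3731, .ofNat 7169, .negSucc 6081, .ofNat 2983, .negSucc 918, .ofNat 178, .negSucc 19, .ofNat 1], [.ofNat 5982, .negSucc 13996, .ofNat 14924, .negSucc 9508, .ofNat 3960, .negSucc 1099, .ofNat 198, .negSucc 20, .ofNat 1]],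
  [[.ofNat 630, .negSucc 1274, .ofNat 1072, .negSucc 481, .ofNat 123, .negSucc 16, .ofNat 1], [.ofNat 1071, .negSucc 1910, .ofNat 1439, .negSucc 588, .ofNat 139, .negSucc 17, .ofNat 1], [.negSucc 2951, .ofNat 6090, .negSucc 5496, .ofNat 2828, .negSucc 898, .ofNat 177, .negSucc 19, .ofNat 1], [.negSucc 5227, .ofNat 9537, .negSucc 7700, .ofNat 3603, .negSucc 1059, .ofNat 196, .negSucc 20, .ofNat 1], [.ofNat 1496, .negSucc 2367, .ofNat 1619, .negSucc 619, .ofNat 141, .negSucc 17, .ofNat 1], [.ofNat 630, .negSucc 1274, .ofNat 1072, .negSucc 481, .ofNat 123, .negSucc 16, .ofNat 1], [.negSucc 3731, .ofNat 7169, .negSucc 6081, .ofNat 2983, .negSucc 918, .ofNat 178, .negSucc 19, .ofNat 1], [.negSucc 3731, .ofNat 7169, .negSucc 6081, .ofNat 2983, .negSucc 918, .ofNat 178, .negSucc 19, .ofNat 1], [.negSucc 3581, .ofNat 7365, .negSucc 6568, .ofNat 3310, .negSucc 1021, .ofNat 194, .negSucc 20, .ofNat 1], [.ofNat 384, .negSucc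 859, .ofNat 796, .negSucc 390, .ofNat 108, .negSucc 15, .ofNat 1], [.negSucc 1757, .ofNat 4033, .negSucc 3992, .ofNat 2226, .negSucc 758, .ofNat 159, .negSucc 18, .ofNat 1], [.negSucc 1757, .ofNat 4033, .negSucc 3992, .ofNat 2226, .negSucc 758, .ofNat 159, .negSucc 18, .ofNat 1], [.negSucc 2186, .ofNat 5103, .negSucc 5102, .ofNat 2835, .negSucc 944, .ofNat 189, .negSucc 20, .ofNat 1], [.negSucc 2951, .ofNat 6090, .negSucc 5496, .ofNat 2828, .negSucc 898, .ofNat 177, .negSucc 19, .ofNat 1], [.ofNat 5982, .negSucc 13996, .ofNat 14924, .negSucc 9508, .ofNat 3960, .negSucc 1099, .ofNat 198, .negSucc 20, .ofNat 1]],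
  [[.ofNat 630, .negSucc 1274, .ofNat 1072, .negSucc 481, .ofNat 123, .negSucc 16, .ofNat 1], [.ofNat 384, .negSucc 859, .ofNat 796, .negSucc 390, .ofNat 108, .negSucc 15, .ofNat 1], [.negSucc 1757, .ofNat 4033, .negSucc 3992, .ofNat 2226, .negSucc 758, .ofNat 159, .negSucc 18, .ofNat 1], [.negSucc 2186, .ofNat 5103, .negSucc 5102, .ofNat 2835, .negSucc 944, .ofNat 189, .negSucc 20, .ofNat 1], [.ofNat 1071, .negSucc 1910, .ofNat 1439, .negSucc 588, .ofNat 139, .negSucc 17, .ofNat 1], [.ofNat 630, .negSucc 1274, .ofNat 1072, .negSucc 481, .ofNat 123, .negSucc 16, .ofNat 1], [.negSucc 2951, .ofNat 6090, .negSucc 5496, .ofNat 2828, .negSucc 898, .ofNat 177, .negSucc 19, .ofNat 1], [.negSucc 2951, .ofNat 6090, .negSucc 5496, .ofNat 2828, .negSucc 898, .ofNat 177, .negSucc 19, .ofNat 1], [.negSucc 5227, .ofNat 9537, .negSucc 7700, .ofNat 3603, .negSucc 1059, .ofNat 196, .negSucc 20, .ofNat 1], [.ofNat 1496, .negSucc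 2367, .ofNat 1619, .negSucc 619, .ofNat 141, .negSucc 17, .ofNat 1], [.negSucc 3731, .ofNat 7169, .negSucc 6081, .ofNat 2983, .negSucc 918, .ofNat 178, .negSucc 19, .ofNat 1], [.negSucc 3731, .ofNat 7169, .negSucc 6081, .ofNat 2983, .negSucc 918, .ofNat 178, .negSucc 19, .ofNat 1], [.negSucc 3581, .ofNat 7365, .negSucc 6568, .ofNat 3310, .negSucc 1021, .ofNat 194, .negSucc 20, .ofNat 1], [.negSucc 1757, .ofNat 4033, .negSucc 3992, .ofNat 2226, .negSucc 758, .ofNat 159, .negSucc 18, .ofNat 1], [.ofNat 5982, .negSucc 13996, .ofNat 14924, .negSucc 9508, .ofNat 3960, .negSucc 1099, .ofNat 198, .negSucc 20, .ofNat 1]],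
  [[], [], [], [.negSucc 1, .ofNat 1], [.ofNat 1], [], [.negSucc 1, .ofNat 1], [.negSucc 1, .ofNat 1], [.negSucc 1, .ofNat 1], [], [], [], [.ofNat 2, .negSucc 2, .ofNat 1], [], [.ofNat 2, .negSucc 2, .ofNat 1]],
  [[], [], [], [.ofNat 2, .negSucc 2, .ofNat 1], [], [], [], [], [.negSucc 1, .ofNat 1], [.ofNat 1], [.negSucc 1, .ofNat 1], [.negSucc 1, .ofNat 1], [.negSucc 1, .ofNat 1], [], [.ofNat 2, .negSucc 2, .ofNat 1]],
  [[], [.ofNat 1], [.negSucc 1, .ofNat 1], [.negSucc 1, .ofNat 1], [], [], [], [], [.ofNat 2, .negSucc 2, .ofNat 1], [], [], [], [.negSucc 1, .ofNat 1], [.negSucc 1, .ofNat 1], [.ofNat 2, .negSucc 2, .ofNat 1]],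
  [[], [], [], [], [.negSucc 0, .ofNat 1], [.ofNat 1], [.negSucc 0, .ofNat 1], [.ofNat 2, .negSucc 2, .ofNat 1], [], [], [], [.negSucc 1, .ofNat 1], [.negSucc 1, .ofNat 1], [.negSucc 1, .ofNat 1], [.ofNat 2, .negSucc 2, .ofNat 1]],
  [[.ofNat 1], [], [.negSucc 1, .ofNat 1], [.negSucc 1, .ofNat 1], [], [], [], [.negSucc 1, .ofNat 1], [], [.negSucc 0, .ofNat 1], [.negSucc 0, .ofNat 1], [.ofNat 2, .negSucc 2, .ofNat 1], [], [], [.ofNat 2, .negSucc 2, .ofNat 1]],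
  [[], [.negSucc 0, .ofNat 1], [.ofNat 2, .negSucc 2, .ofNat 1], [], [], [.ofNat 1], [.negSucc 1, .ofNat 1], [], [.negSucc 1, .ofNat 1], [], [], [.negSucc 1, .ofNat 1], [], [.negSucc 0, .ofNat 1], [.ofNat 2, .negSucc 2, .ofNat 1]],
  [[.ofNat 1], [], [.negSucc 1, .ofNat 1], [], [.negSucc 0, .ofNat 1], [], [.ofNat 2, .negSucc 2, .ofNat 1], [.negSucc 0, .ofNat 1], [], [], [.negSucc 1, .ofNat 1], [], [.negSucc 1, .ofNat 1], [], [.ofNat 2, .negSucc 2, .ofNat 1]],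
  [[], [], [], [.negSucc 1, .ofNat 1], [], [.ofNat 1], [.negSucc 1, .ofNat 1], [], [], [.negSucc 0, .ofNat 1], [.ofNat 2, .negSucc 2, .ofNat 1], [.negSucc 0, .ofNat 1], [], [.negSucc 1, .ofNat 1], [.ofNat 2, .negSucc 2, .ofNat 1]],
  [[.ofNat 1], [.negSucc 0, .ofNat 1], [.negSucc 0, .ofNat 1], [], [], [], [], [.negSucc 1, .ofNat 1], [.negSucc 1, .ofNat 1], [], [.negSucc 1, .ofNat 1], [], [], [.ofNat 2, .negSucc 2, .ofNat 1], [.ofNat 2, .negSucc 2, .ofNat 1]],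
  [[], [], [], [], [.ofNat 1], [.negSucc 0, .ofNat 1], [.negSucc 0, .ofNat 1], [.negSucc 1, .ofNat 1], [.negSucc 2, .ofNat 1], [.ofNat 1], [.negSucc 1, .ofNat 1], [.negSucc 0, .ofNat 1], [], [.ofNat 2, .negSucc 2, .ofNat 1], [.ofNat 2, .negSucc 2, .ofNat 1]],
  [[.negSucc 0, .ofNat 1], [.ofNat 1], [.negSucc 0, .ofNat 1], [], [], [], [], [.ofNat 2, .negSucc 2, .ofNat 1], [], [.ofNat 1], [.negSucc 0, .ofNat 1], [.negSucc 1, .ofNat 1], [.negSucc 2, .ofNat 1], [.negSucc 1, .ofNat 1], [.ofNat 2, .negSucc 2, .ofNat 1]],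
  [[], [.ofNat 1], [.negSucc 1, .ofNat 1], [.negSucc 2, .ofNat 1], [.ofNat 1], [.negSucc 0, .ofNat 1], [.negSucc 0, .ofNat 1], [.negSucc 1, .ofNat 1], [], [], [], [.ofNat 2, .negSucc 2, .ofNat 1], [], [.negSucc 0, .ofNat 1], [.ofNat 2, .negSucc 2, .ofNat 1]],
  [[.negSucc 0, .ofNat 1], [], [.ofNat 2, .negSucc 2, .ofNat 1], [], [.ofNat 1], [], [.negSucc 1, .ofNat 1], [.negSucc 0, .ofNat 1], [.negSucc 2, .ofNat 1], [.ofNat 1], [.negSucc 0, .ofNat 1], [.negSucc 1, .ofNat 1], [], [], [.ofNat 2, .negSucc 2, .ofNat 1]],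
  [[], [.ofNat 1], [.negSucc 1, .ofNat 1], [], [], [.negSucc 0, .ofNat 1], [.ofNat 2, .negSucc 2, .ofNat 1], [], [], [.ofNat 1], [.negSucc 1, .ofNat 1], [.negSucc 0, .ofNat 1], [.negSucc 2, .ofNat 1], [.negSucc 0, .ofNat 1], [.ofNat 2, .negSucc 2, .ofNat 1]],
  [[.negSucc 0, .ofNat 1], [.ofNat 1], [.negSucc 0, .ofNat 1], [.negSucc 2, .ofNat 1], [.ofNat 1], [], [.negSucc 1, .ofNat 1], [.negSucc 0, .ofNat 1], [], [], [.ofNat 2, .negSucc 2, .ofNat 1], [], [], [.negSucc 1, .ofNat 1], [.ofNat 2, .negSucc 2, .ofNat 1]],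
  [[.negSucc 0, .ofNat 1], [.ofNat 1], [.negSucc 0, .ofNat 1], [], [.ofNat 1, .negSucc 1, .ofNat 1], [.negSucc 0, .ofNat 1], [.ofNat 1, .negSucc 1, .ofNat 1], [.ofNat 1, .negSucc 1, .ofNat 1], [], [.ofNat 1], [.negSucc 0, .ofNat 1], [.negSucc 0, .ofNat 1], [.negSucc 1, .ofNat 1], [.negSucc 0, .ofNat 1], [.ofNat 1, .negSucc 1, .ofNat 1]],
  [[.negSucc 0, .ofNat 1], [.ofNat 1], [.negSucc 0, .ofNat 1], [.negSucc 1, .ofNat 1], [.ofNat 1], [.negSucc 0, .ofNat 1], [.negSucc 0, .ofNat 1], [.negSucc 0, .ofNat 1], [], [.ofNat 1, .negSucc 1, .ofNat 1], [.ofNat 1, .negSucc 1, .ofNat 1], [.ofNat 1, .negSucc 1, .ofNat 1], [], [.negSucc 0, .ofNat 1], [.ofNat 1, .negSucc 1, .ofNat 1]],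
  [[.negSucc 0, .ofNat 1], [.ofNat 1, .negSucc 1, .ofNat 1], [.ofNat 1, .negSucc 1, .ofNat 1], [], [.ofNat 1], [.negSucc 0, .ofNat 1], [.negSucc 0, .ofNat 1], [.negSucc 0, .ofNat 1], [.negSucc 1, .ofNat 1], [.ofNat 1], [.negSucc 0, .ofNat 1], [.negSucc 0, .ofNat 1], [], [.ofNat 1, .negSucc 1, .ofNat 1], [.ofNat 1, .negSucc 1, .ofNat 1]],
  [[.ofNat 1], [.negSucc 0, .ofNat 1], [.negSucc 0, .ofNat 1], [], [.negSucc 0, .ofNat 1], [.ofNat 1, .negSucc 1, .ofNat 1], [.ofNat 1, .negSucc 1, .ofNat 1], [.negSucc 0, .ofNat 1], [], [.negSucc 0, .ofNat 1], [.negSucc 0, .ofNat 1], [.ofNat 1, .negSucc 1, .ofNat 1], [], [.ofNat 1, .negSucc 1, .ofNat 1], [.ofNat 1, .negSucc 1, .ofNat 1]],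
  [[.ofNat 1, .negSucc 1, .ofNat 1], [.negSucc 0, .ofNat 1], [.ofNat 1, .negSucc 1, .ofNat 1], [], [.negSucc 0, .ofNat 1], [.ofNat 1], [.negSucc 0, .ofNat 1], [.ofNat 1, .negSucc 1, .ofNat 1], [], [.negSucc 0, .ofNat 1], [.ofNat 1, .negSucc 1, .ofNat 1], [.negSucc 0, .ofNat 1], [], [.negSucc 0, .ofNat 1], [.ofNat 1, .negSucc 1, .ofNat 1]]]

def Y6 : List (List (List ℤ)) := [
  [[.negSucc 1, .ofNat 1], [.negSucc 1, .ofNat 1], [.ofNat 7, .negSucc 4, .ofNat 1], [], [.ofNat 2, .negSucc 2, .ofNat 1], [.ofNat 2, .negSucc 2, .ofNat 1], [.negSucc 6, .ofNat 12, .negSucc 5, .ofNat 1], [.ofNat 2, .negSucc 2, .ofNat 1], [], [.negSucc 1, .ofNat 1], [.ofNat 7, .negSucc 4, .ofNat 1], [.ofNat 2, .negSucc 2, .ofNat 1], [.ofNat 9, .negSucc 5, .ofNat 1], [.ofNat 2, .negSucc 2, .ofNat 1], [.negSucc 6, .ofNat 12, .negSucc 5, .ofNat 1]],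
  [[], [], [], [], [.ofNat 4, .negSucc 3, .ofNat 1], [.ofNat 4, .negSucc 3, .ofNat 1], [.negSucc 13, .ofNat 17, .negSucc 6, .ofNat 1], [.negSucc 7, .ofNat 12, .negSucc 5, .ofNat 1], [.negSucc 26, .ofNat 27, .negSucc 8, .ofNat 1], [.ofNat 9, .negSucc 5, .ofNat 1], [.negSucc 17, .ofNat 21, .negSucc 7, .ofNat 1], [.negSucc 22, .ofNat 23, .negSucc 7, .ofNat 1], [.negSucc 17, .ofNat 21, .negSucc 7, .ofNat 1], [.negSucc 7, .ofNat 12, .negSucc 5, .ofNat 1], [.ofNat 28, .negSucc 47, .ofNat 31, .negSucc 8, .ofNat 1]],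
  [[], [], [], [.negSucc 17, .ofNat 21, .negSucc 7, .ofNat 1], [.ofNat 4, .negSucc 3, .ofNat 1], [.ofNat 9, .negSucc 5, .ofNat 1], [.negSucc 22, .ofNat 23, .negSucc 7, .ofNat 1], [.negSucc 7, .ofNat 12, .negSucc 5, .ofNat 1], [.negSucc 17, .ofNat 21, .negSucc 7, .ofNat 1], [], [], [.negSucc 17, .ofNat 21, .negSucc 7, .ofNat 1], [.negSucc 7, .ofNat 12, .negSucc 5, .ofNat 1], [.negSucc 17, .ofNat 21, .negSucc 7, .ofNat 1], [.ofNat 28, .negSucc 47, .ofNat 31, .negSucc 8, .ofNat 1]],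
  [[], [], [], [.negSucc 17, .ofNat 21, .negSucc 7, .ofNat 1], [.ofNat 6, .negSucc 4, .ofNat 1], [.ofNat 9, .negSucc 5, .ofNat 1], [.negSucc 25, .ofNat 24, .negSucc 7, .ofNat 1], [.negSucc 11, .ofNat 16, .negSucc 6, .ofNat 1], [.negSucc 26, .ofNat 27, .negSucc 8, .ofNat 1], [.ofNat 4, .negSucc 3, .ofNat 1], [.negSucc 7, .ofNat 12, .negSucc 5, .ofNat 1], [.negSucc 22, .ofNat 23, .negSucc 7, .ofNat 1], [.negSucc 11, .ofNat 16, .negSucc 6, .ofNat 1], [.negSucc 17, .ofNat 21, .negSucc 7, .ofNat 1], [.ofNat 34, .negSucc 52, .ofNat 32, .negSucc 8, .ofNat 1]],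
  [[], [], [], [.negSucc 11, .ofNat 16, .negSucc 6, .ofNat 1], [.ofNat 9, .negSucc 5, .ofNat 1], [.ofNat 4, .negSucc 3, .ofNat 1], [.negSucc 22, .ofNat 23, .negSucc 7, .ofNat 1], [.negSucc 17, .ofNat 21, .negSucc 7, .ofNat 1], [.negSucc 34, .ofNat 30, .negSucc 8, .ofNat 1], [.ofNat 9, .negSucc 5, .ofNat 1], [.negSucc 17, .ofNat 21, .negSucc 7, .ofNat 1], [.negSucc 22, .ofNat 23, .negSucc 7, .ofNat 1], [.negSucc 11, .ofNat 16, .negSucc 6, .ofNat 1], [.negSucc 7, .ofNat 12, .negSucc 5, .ofNat 1], [.ofNat 34, .negSucc 52, .ofNat 32, .negSucc 8, .ofNat 1]],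
  [[.negSucc 17, .ofNat 21, .negSucc 7, .ofNat 1], [.negSucc 17, .ofNat 21, .negSucc 7, .ofNat 1], [.ofNat 63, .negSucc 86, .ofNat 46, .negSucc 10, .ofNat 1], [.ofNat 54, .negSucc 80, .ofNat 45, .negSucc 10, .ofNat 1], [.negSucc 7, .ofNat 12, .negSucc 5, .ofNat 1], [.negSucc 7, .ofNat 12, .negSucc 5, .ofNat 1], [.ofNat 28, .negSucc 47, .ofNat 31, .negSucc 8, .ofNat 1], [.ofNat 46, .negSucc 68, .ofNat 39, .negSucc 9, .ofNat 1], [.ofNat 54, .negSucc 80, .ofNat 45, .negSucc 10, .ofNat 1], [.negSucc 17, .ofNat 21, .negSucc 7, .ofNat 1], [.ofNat 63, .negSucc 86, .ofNat 46, .negSucc 10, .ofNat 1], [.ofNat 46, .negSucc 68, .ofNat 39, .negSucc 9, .ofNat 1], [.ofNat 81, .negSucc 107, .ofNat 54, .negSucc 11, .ofNat 1], [.ofNat 46, .negSucc 68, .ofNat 39, .negSucc 9, .ofNat 1], [.negSucc 106, .ofNat 195, .negSucc 148, .ofNat 59, .negSucc 11, .ofNat 1]],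
  [[.negSucc 17, .ofNat 21, .negSucc 7, .ofNat 1], [.negSucc 31, .ofNat 29, .negSucc 8, .ofNat 1], [.ofNat 87, .negSucc 103, .ofNat 49, .negSucc 10, .ofNat 1], [.ofNat 81, .negSucc 107, .ofNat 54, .negSucc 11, .ofNat 1], [.negSucc 7, .ofNat 12, .negSucc 5, .ofNat 1], [.negSucc 7, .ofNat 12, .negSucc 5, .ofNat 1], [.ofNat 28, .negSucc 47, .ofNat 31, .negSucc 8, .ofNat 1], [.ofNat 46, .negSucc 68, .ofNat 39, .negSucc 9, .ofNat 1], [.ofNat 36, .negSucc 59, .ofNat 37, .negSucc 9, .ofNat 1], [.negSucc 17, .ofNat 21, .negSucc 7, .ofNat 1], [.ofNat 63, .negSucc 86, .ofNat 46, .negSucc 10, .ofNat 1], [.ofNat 46, .negSucc 68, .ofNat 39, .negSucc 9, .ofNat 1], [.ofNat 105, .negSucc 124, .ofNat 57, .negSucc 11, .ofNat 1], [.ofNat 73, .negSucc 95, .ofNat 48, .negSucc 10, .ofNat 1], [.negSucc 124, .ofNat 216, .negSucc 156, .ofNat 60, .negSucc 11, .ofNat 1]],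
  [[.ofNat 16, .negSucc 31, .ofNat 24, .negSucc 7, .ofNat 1], [.ofNat 36, .negSucc 59, .ofNat 37, .negSucc 9, .ofNat 1], [.negSucc 91, .ofNat 184, .negSucc 146, .ofNat 59, .negSucc 11, .ofNat 1], [.negSucc 242, .ofNat 405, .negSucc 269, .ofNat 90, .negSucc 14, .ofNat 1], [.ofNat 64, .negSucc 89, .ofNat 47, .negSucc 10, .ofNat 1], [.ofNat 105, .negSucc 124, .ofNat 57, .negSucc 11, .ofNat 1], [.negSucc 292, .ofNat 428, .negSucc 259, .ofNat 83, .negSucc 13, .ofNat 1], [.negSucc 145, .ofNat 265, .negSucc 191, .ofNat 70, .negSucc 12, .ofNat 1], [.negSucc 314, .ofNat 480, .negSucc 295, .ofNat 93, .negSucc 14, .ofNat 1], [.ofNat 64, .negSucc 89, .ofNat 47, .negSucc 10, .ofNat 1], [.negSucc 145, .ofNat 265, .negSucc 191, .ofNat 70, .negSucc 12, .ofNat 1], [.negSucc 292, .ofNat 428, .negSucc 259, .ofNat 83, .negSucc 13, .ofNat 1], [.negSucc 242, .ofNat 405, .negSucc 269, .ofNat 90, .negSucc 14, .ofNat 1], [.negSucc 251,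 .ofNat 393, .negSucc 249, .ofNat 82, .negSucc 13, .ofNat 1], [.ofNat 448, .negSucc 868, .ofNat 735, .negSucc 347, .ofNat 97, .negSucc 14, .ofNat 1]],
  [[.negSucc 209, .ofNat 355, .negSucc 238, .ofNat 81, .negSucc 13, .ofNat 1], [.negSucc 356, .ofNat 518, .negSucc 306, .ofNat 94, .negSucc 14, .ofNat 1], [.ofNat 984, .negSucc 1701, .ofNat 1265, .negSucc 520, .ofNat 126, .negSucc 16, .ofNat 1], [.ofNat 729, .negSucc 1457, .ofNat 1215, .negSucc 539, .ofNat 135, .negSucc 17, .ofNat 1], [.negSucc 71, .ofNat 156, .negSucc 133, .ofNat 57, .negSucc 11, .ofNat 1], [.negSucc 107, .ofNat 216, .negSucc 170, .ofNat 67, .negSucc 12, .ofNat 1], [.ofNat 312, .negSucc 703, .ofNat 662, .negSucc 333, .ofNat 96, .negSucc 14, .ofNat 1], [.ofNat 504, .negSucc 1037, .ofNat 893, .negSucc 413, .ofNat 110, .negSucc 15, .ofNat 1], [.ofNat 729, .negSucc 1457, .ofNat 1215, .negSucc 539, .ofNat 135, .negSucc 17, .ofNat 1], [.negSucc 356, .ofNat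 518, .negSucc 306, .ofNat 94, .negSucc 14, .ofNat 1], [.ofNat 984, .negSucc 1701, .ofNat 1265, .negSucc 520, .ofNat 126, .negSucc 16, .ofNat 1], [.ofNat 837, .negSucc 1538, .ofNat 1197, .negSucc 507, .ofNat 125, .negSucc 16, .ofNat 1], [.ofNat 1454, .negSucc 2329, .ofNat 1608, .negSucc 618, .ofNat 141, .negSucc 17, .ofNat 1], [.ofNat 837, .negSucc 1538, .ofNat 1197, .negSucc 507, .ofNat 125, .negSucc 16, .ofNat 1], [.negSucc 1595, .ofNat 3448, .negSucc 3323, .ofNat 1861, .negSucc 652, .ofNat 143, .negSucc 17, .ofNat 1]],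
  [[.ofNat 630, .negSucc 1274, .ofNat 1072, .negSucc 481, .ofNat 123, .negSucc 16, .ofNat 1], [.ofNat 714, .negSucc 1392, .ofNat 1132, .negSucc 494, .ofNat 124, .negSucc 16, .ofNat 1], [.negSucc 2277, .ofNat 4839, .negSucc 4473, .ofNat 2364, .negSucc 777, .ofNat 160, .negSucc 18, .ofNat 1], [.negSucc 3581, .ofNat 7365, .negSucc 6568, .ofNat 3310, .negSucc 1021, .ofNat 194, .negSucc 20, .ofNat 1], [.ofNat 1071, .negSucc 1910, .ofNat 1439, .negSucc 588, .ofNat 139, .negSucc 17, .ofNat 1], [.ofNat 945, .negSucc 1754, .ofNat 1368, .negSucc 574, .ofNat 138, .negSucc 17, .ofNat 1], [.negSucc 3416, .ofNat 6689, .negSucc 5785, .ofNat 2890, .negSucc 903, .ofNat 177, .negSucc 19, .ofNat 1], [.negSucc 2951, .ofNat 6090, .negSucc 5496, .ofNat 2828, .negSucc 898, .ofNat 177, .negSucc 19, .ofNat 1], [.negSucc 4502, .ofNat 8665, .negSucc 7307, .ofNat 3524, .negSucc 1053, .ofNat 196, .negSucc 20, .ofNat 1], [.ofNat 1071, .negSucc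 1910, .ofNat 1439, .negSucc 588, .ofNat 139, .negSucc 17, .ofNat 1], [.negSucc 2951, .ofNat 6090, .negSucc 5496, .ofNat 2828, .negSucc 898, .ofNat 177, .negSucc 19, .ofNat 1], [.negSucc 3416, .ofNat 6689, .negSucc 5785, .ofNat 2890, .negSucc 903, .ofNat 177, .negSucc 19, .ofNat 1], [.negSucc 3581, .ofNat 7365, .negSucc 6568, .ofNat 3310, .negSucc 1021, .ofNat 194, .negSucc 20, .ofNat 1], [.negSucc 2867, .ofNat 5972, .negSucc 5436, .ofNat 2815, .negSucc 897, .ofNat 177, .negSucc 19, .ofNat 1], [.ofNat 6242, .negSucc 14269, .ofNat 15028, .negSucc 9525, .ofNat 3961, .negSucc 1099, .ofNat 198, .negSucc 20, .ofNat 1]],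
  [[.ofNat 216, .negSucc 539, .ofNat 558, .negSucc 304, .ofNat 93, .negSucc 14, .ofNat 1], [.ofNat 384, .negSucc 859, .ofNat 796, .negSucc 390, .ofNat 108, .negSucc 15, .ofNat 1], [.negSucc 1043, .ofNat 2640, .negSucc 2860, .ofNat 1731, .negSucc 634, .ofNat 142, .negSucc 17, .ofNat 1], [.negSucc 3581, .ofNat 7365, .negSucc 6568, .ofNat 3310, .negSucc 1021, .ofNat 194, .negSucc 20, .ofNat 1], [.ofNat 1194, .negSucc 2056, .ofNat 1504, .negSucc 601, .ofNat 140, .negSucc 17, .ofNat 1], [.ofNat 1194, .negSucc 2056, .ofNat 1504, .negSucc 601, .ofNat 140, .negSucc 17, .ofNat 1], [.negSucc 4033, .ofNat 7480, .negSucc 6196, .ofNat 3001, .negSucc 919, .ofNat 178, .negSucc 19, .ofNat 1], [.negSucc 2618, .ofNat 5670, .negSucc 5300, .ofNat 2788, .negSucc 895, .ofNat 177, .negSucc 19, .ofNat 1], [.negSucc 4361, .ofNat 8444, .negSucc 7153, .ofNat 3465, .negSucc 1041, .ofNat 195, .negSucc 20, .ofNat 1], [.ofNat 714, .negSucc 1392,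 .ofNat 1132, .negSucc 494, .ofNat 124, .negSucc 16, .ofNat 1], [.negSucc 1673, .ofNat 3915, .negSucc 3932, .ofNat 2213, .negSucc 757, .ofNat 159, .negSucc 18, .ofNat 1], [.negSucc 3308, .ofNat 6608, .negSucc 5803, .ofNat 2922, .negSucc 913, .ofNat 178, .negSucc 19, .ofNat 1], [.negSucc 2186, .ofNat 5103, .negSucc 5102, .ofNat 2835, .negSucc 944, .ofNat 189, .negSucc 20, .ofNat 1], [.negSucc 2828, .ofNat 5944, .negSucc 5431, .ofNat 2815, .negSucc 897, .ofNat 177, .negSucc 19, .ofNat 1], [.ofNat 5625, .negSucc 13478, .ofNat 14617, .negSucc 9414, .ofNat 3945, .negSucc 1098, .ofNat 198, .negSucc 20, .ofNat 1]],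
  [[.negSucc 5227, .ofNat 9537, .negSucc 7700, .ofNat 3603, .negSucc 1059, .ofNat 196, .negSucc 20, .ofNat 1], [.negSucc 2387, .ofNat 5308, .negSucc 5064, .ofNat 2708, .negSucc 881, .ofNat 176, .negSucc 19, .ofNat 1], [.ofNat 13296, .negSucc 28530, .ofNat 27575, .negSucc 15801, .ofNat 5901, .negSucc 1471, .ofNat 239, .negSucc 22, .ofNat 1], [.ofNat 10746, .negSucc 25676, .ofNat 27072, .negSucc 16498, .ofNat 6376, .negSucc 1603, .ofNat 257, .negSucc 23, .ofNat 1], [.negSucc 1427, .ofNat 3500, .negSucc 3656, .ofNat 2122, .negSucc 742, .ofNat 158, .negSucc 18, .ofNat 1], [.negSucc 431, .ofNat 1296, .negSucc 1655, .ofNat 1168, .negSucc 490, .ofNat 123, .negSucc 16, .ofNat 1], [.ofNat 3348, .negSucc 9503, .ofNat 11781, .negSucc 8358, .ofNat 3729, .negSucc 1075, .ofNat 197, .negSucc 20, .ofNat 1], [.ofNat 12036, .negSucc 26787, .ofNat 26618, .negSucc 15539, .ofNat 5865, .negSucc 1469, .ofNat 239, .negSucc 22, .ofNat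 1], [.ofNat 10746, .negSucc 25676, .ofNat 27072, .negSucc 16498, .ofNat 6376, .negSucc 1603, .ofNat 257, .negSucc 23, .ofNat 1], [.negSucc 2387, .ofNat 5308, .negSucc 5064, .ofNat 2708, .negSucc 881, .ofNat 176, .negSucc 19, .ofNat 1], [.ofNat 13296, .negSucc 28530, .ofNat 27575, .negSucc 15801, .ofNat 5901, .negSucc 1471, .ofNat 239, .negSucc 22, .ofNat 1], [.ofNat 5238, .negSucc 13958, .ofNat 16272, .negSucc 10876, .ofNat 4580, .negSucc 1249, .ofNat 217, .negSucc 21, .ofNat 1], [.ofNat 13086, .negSucc 29693, .ofNat 29906, .negSucc 17548, .ofNat 6591, .negSucc 1626, .ofNat 258, .negSucc 23, .ofNat 1], [.ofNat 5238, .negSucc 13958, .ofNat 16272, .negSucc 10876, .ofNat 4580, .negSucc 1249, .ofNat 217, .negSucc 21, .ofNat 1], [.negSucc 19493, .ofNat 51732, .negSucc 62630, .ofNat 45650, .negSucc 22145, .ofNat 7419, .negSucc 1712, .ofNat 262, .negSucc 23, .ofNat 1]],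
  [[.negSucc 2907, .ofNat 6114, .negSucc 5545, .ofNat 2846, .negSucc 900, .ofNat 177, .negSucc 19, .ofNat 1], [.negSucc 4487, .ofNat 8600, .negSucc 7224, .ofNat 3479, .negSucc 1042, .ofNat 195, .negSucc 20, .ofNat 1], [.ofNat 12776, .negSucc 27724, .ofNat 27094, .negSucc 15663, .ofNat 5882, .negSucc 1470, .ofNat 239, .negSucc 22, .ofNat 1], [.ofNat 10746, .negSucc 25676, .ofNat 27072, .negSucc 16498, .ofNat 6376, .negSucc 1603, .ofNat 257, .negSucc 23, .ofNat 1], [.negSucc 1427, .ofNat 3500, .negSucc 3656, .ofNat 2122, .negSucc 742, .ofNat 158, .negSucc 18, .ofNat 1], [.negSucc 1889, .ofNat 4455, .negSucc 4490, .ofNat 2518, .negSucc 850, .ofNat 174, .negSucc 19, .ofNat 1], [.ofNat 5736, .negSucc 14811, .ofNat 16846, .negSucc 11066, .ofNat 4611, .negSucc 1251, .ofNat 217, .negSucc 21, .ofNat 1], [.ofNat 7548, .negSucc 18187, .ofNat 19393, .negSucc 12060, .ofNat 4822, .negSucc 1274, .ofNat 218, .negSucc 21, .ofNat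 1], [.ofNat 10746, .negSucc 25676, .ofNat 27072, .negSucc 16498, .ofNat 6376, .negSucc 1603, .ofNat 257, .negSucc 23, .ofNat 1], [.negSucc 4487, .ofNat 8600, .negSucc 7224, .ofNat 3479, .negSucc 1042, .ofNat 195, .negSucc 20, .ofNat 1], [.ofNat 12776, .negSucc 27724, .ofNat 27094, .negSucc 15663, .ofNat 5882, .negSucc 1470, .ofNat 239, .negSucc 22, .ofNat 1], [.ofNat 11196, .negSucc 25238, .ofNat 25415, .negSucc 15030, .ofNat 5740, .negSucc 1452, .ofNat 238, .negSucc 22, .ofNat 1], [.ofNat 18524, .negSucc 38067, .ofNat 35276, .negSucc 19404, .ofNat 6961, .negSucc 1667, .ofNat 260, .negSucc 23, .ofNat 1], [.ofNat 11196, .negSucc 25238, .ofNat 25415, .negSucc 15030, .ofNat 5740, .negSucc 1452, .ofNat 238, .negSucc 22, .ofNat 1], [.negSucc 21593, .ofNat 55024, .negSucc 64790, .ofNat 46421, .negSucc 22306, .ofNat 7438, .negSucc 1713, .ofNat 262, .negSucc 23, .ofNat 1]],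
  [[.negSucc 2387, .ofNat 5308, .negSucc 5064, .ofNat 2708, .negSucc 881, .ofNat 176, .negSucc 19, .ofNat 1], [.negSucc 5227, .ofNat 9537, .negSucc 7700, .ofNat 3603, .negSucc 1059, .ofNat 196, .negSucc 20, .ofNat 1], [.ofNat 13296, .negSucc 28530, .ofNat 27575, .negSucc 15801, .ofNat 5901, .negSucc 1471, .ofNat 239, .negSucc 22, .ofNat 1], [.ofNat 10746, .negSucc 25676, .ofNat 27072, .negSucc 16498, .ofNat 6376, .negSucc 1603, .ofNat 257, .negSucc 23, .ofNat 1], [.negSucc 767, .ofNat 2104, .negSucc 2451, .ofNat 1578, .negSucc 606, .ofNat 140, .negSucc 17, .ofNat 1], [.negSucc 1259, .ofNat 3180, .negSucc 3418, .ofNat 2036, .negSucc 727, .ofNat 157, .negSucc 18, .ofNat 1], [.ofNat 3516, .negSucc 9823, .ofNat 12019, .negSucc 8444, .ofNat 3744, .negSucc 1076, .ofNat 197, .negSucc 20, .ofNat 1], [.ofNat 5658, .negSucc 14716, .ofNat 16808, .negSucc 11061, .ofNat 4611, .negSucc 1251, .ofNat 217, .negSucc 21, .ofNat 1],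 [.ofNat 6561, .negSucc 17495, .ofNat 20412, .negSucc 13607, .ofNat 5670, .negSucc 1511, .ofNat 252, .negSucc 23, .ofNat 1], [.negSucc 4022, .ofNat 8001, .negSucc 6935, .ofNat 3417, .negSucc 1037, .ofNat 195, .negSucc 20, .ofNat 1], [.ofNat 11121, .negSucc 25189, .ofNat 25524, .negSucc 15171, .ofNat 5804, .negSucc 1465, .ofNat 239, .negSucc 22, .ofNat 1], [.ofNat 9486, .negSucc 22496, .ofNat 23653, .negSucc 14462, .ofNat 5648, .negSucc 1446, .ofNat 238, .negSucc 22, .ofNat 1], [.ofNat 18524, .negSucc 38067, .ofNat 35276, .negSucc 19404, .ofNat 6961, .negSucc 1667, .ofNat 260, .negSucc 23, .ofNat 1], [.ofNat 11826, .negSucc 26513, .ofNat 26487, .negSucc 15512, .ofNat 5863, .negSucc 1469, .ofNat 239, .negSucc 22, .ofNat 1], [.negSucc 19703, .ofNat 52006, .negSucc 62761, .ofNat 45677, .negSucc 22147, .ofNat 7419, .negSucc 1712, .ofNat 262, .negSucc 23, .ofNat 1]],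
  [[.negSucc 3581, .ofNat 7365, .negSucc 6568, .ofNat 3310, .negSucc 1021, .ofNat 194, .negSucc 20, .ofNat 1], [.negSucc 5227, .ofNat 9537, .negSucc 7700, .ofNat 3603, .negSucc 1059, .ofNat 196, .negSucc 20, .ofNat 1], [.ofNat 14942, .negSucc 30702, .ofNat 28707, .negSucc 16094, .ofNat 5939, .negSucc 1473, .ofNat 239, .negSucc 22, .ofNat 1], [.ofNat 15684, .negSucc 33838, .ofNat 32640, .negSucc 18509, .ofNat 6783, .negSucc 1647, .ofNat 259, .negSucc 23, .ofNat 1], [.negSucc 2141, .ofNat 4893, .negSucc 4788, .ofNat 2617, .negSucc 866, .ofNat 175, .negSucc 19, .ofNat 1], [.negSucc 1259, .ofNat 3180, .negSucc 3418, .ofNat 2036, .negSucc 727, .ofNat 157, .negSucc 18, .ofNat 1], [.ofNat 5904, .negSucc 15131, .ofNat 17084, .negSucc 11152, .ofNat 4626, .negSucc 1252, .ofNat 217, .negSucc 21, .ofNat 1], [.ofNat 9927, .negSucc 23132, .ofNat 24020, .negSucc 14569, .ofNat 5664, .negSucc 1447, .ofNat 238, .negSucc 22, .ofNat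 1], [.ofNat 6561, .negSucc 17495, .ofNat 20412, .negSucc 13607, .ofNat 5670, .negSucc 1511, .ofNat 252, .negSucc 23, .ofNat 1], [.negSucc 2141, .ofNat 4893, .negSucc 4788, .ofNat 2617, .negSucc 866, .ofNat 175, .negSucc 19, .ofNat 1], [.ofNat 9927, .negSucc 23132, .ofNat 24020, .negSucc 14569, .ofNat 5664, .negSucc 1447, .ofNat 238, .negSucc 22, .ofNat 1], [.ofNat 5904, .negSucc 15131, .ofNat 17084, .negSucc 11152, .ofNat 4626, .negSucc 1252, .ofNat 217, .negSucc 21, .ofNat 1], [.ofNat 15684, .negSucc 33838, .ofNat 32640, .negSucc 18509, .ofNat 6783, .negSucc 1647, .ofNat 259, .negSucc 23, .ofNat 1], [.ofNat 11826, .negSucc 26513, .ofNat 26487, .negSucc 15512, .ofNat 5863, .negSucc 1469, .ofNat 239, .negSucc 22, .ofNat 1], [.negSucc 20897, .ofNat 54063, .negSucc 64265, .ofNat 46279, .negSucc 22287, .ofNat 7437, .negSucc 1713, .ofNat 262, .negSucc 23, .ofNat 1]],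
  [[.negSucc 4361, .ofNat 8444, .negSucc 7153, .ofNat 3465, .negSucc 1041, .ofNat 195, .negSucc 20, .ofNat 1], [.negSucc 4022, .ofNat 8001, .negSucc 6935, .ofNat 3417, .negSucc 1037, .ofNat 195, .negSucc 20, .ofNat 1], [.ofNat 14162, .negSucc 29623, .ofNat 28122, .negSucc 15939, .ofNat 5919, .negSucc 1472, .ofNat 239, .negSucc 22, .ofNat 1], [.ofNat 13509, .negSucc 30497, .ofNat 30589, .negSucc 17879, .ofNat 6686, .negSucc 1641, .ofNat 259, .negSucc 23, .ofNat 1], [.negSucc 2141, .ofNat 4893, .negSucc 4788, .ofNat 2617, .negSucc 866, .ofNat 175, .negSucc 19, .ofNat 1], [.negSucc 1259, .ofNat 3180, .negSucc 3418, .ofNat 2036, .negSucc 727, .ofNat 157, .negSucc 18, .ofNat 1], [.ofNat 5904, .negSucc 15131, .ofNat 17084, .negSucc 11152, .ofNat 4626, .negSucc 1252, .ofNat 217, .negSucc 21, .ofNat 1], [.ofNat 11322, .negSucc 25394, .ofNat 25486, .negSucc 15044, .ofNat 5741, .negSucc 1452, .ofNat 238, .negSucc 22, .ofNat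 1], [.ofNat 10746, .negSucc 25676, .ofNat 27072, .negSucc 16498, .ofNat 6376, .negSucc 1603, .ofNat 257, .negSucc 23, .ofNat 1], [.negSucc 2991, .ofNat 6232, .negSucc 5605, .ofNat 2859, .negSucc 901, .ofNat 177, .negSucc 19, .ofNat 1], [.ofNat 12692, .negSucc 27606, .ofNat 27034, .negSucc 15650, .ofNat 5881, .negSucc 1470, .ofNat 239, .negSucc 22, .ofNat 1], [.ofNat 7464, .negSucc 18069, .ofNat 19333, .negSucc 12047, .ofNat 4821, .negSucc 1274, .ofNat 218, .negSucc 21, .ofNat 1], [.ofNat 15684, .negSucc 33838, .ofNat 32640, .negSucc 18509, .ofNat 6783, .negSucc 1647, .ofNat 259, .negSucc 23, .ofNat 1], [.ofNat 9486, .negSucc 22496, .ofNat 23653, .negSucc 14462, .ofNat 5648, .negSucc 1446, .ofNat 238, .negSucc 22, .ofNat 1], [.negSucc 21677, .ofNat 55142, .negSucc 64850, .ofNat 46434, .negSucc 22307, .ofNat 7438, .negSucc 1713, .ofNat 262, .negSucc 23, .ofNat 1]]]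

def D6 : List (ℕ × List ℕ × List (ℕ × List ℕ)) := [
  (27, [], [(49, [9, 6]), (56, [0, 3]), (58, [16, 4]), (61, [20, 5])]),
  (9, [], [(46, [20, 13, 2]), (52, [16, 8, 1]), (2, [3, 3])]),
  (9, [], [(43, [20, 13, 2]), (46, [16, 8, 1]), (4, [3, 3])]),
  (9, [], [(50, [16, 8, 1]), (8, [12, 3]), (14, [3, 3])]),
  (9, [], [(52, [16, 8, 1]), (0, [12, 3]), (14, [3, 3])]),
  (243, [], [(49, [0, 165, 81, 9]), (56, [144, 51, 0, 0]), (4, [540, 351, 54]), (58, [320, 188, 39, 3]), (61, [256, 244, 69, 6]), (20, [81, 81])]),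
  (243, [], [(49, [144, 213, 81, 9]), (56, [0, 3, 0, 0]), (58, [256, 172, 39, 3]), (61, [320, 260, 69, 6]), (16, [540, 351, 54]), (23, [81, 81])]),
  (5103000, [], [(45, [0, 328500, 77373, 0, 297]), (46, [1008000, 2540718, 0, 0, 31797]), (47, [799920, 2203020, 1453248, 447294, 0]), (48, [6210000, 12534588, 5924118, 1550217, 189000]), (49, [0, 0, 0, 0, 52401]), (50, [265680, 659880, 1042041, 351039, 84198]), (51, [0, 6912, 0, 0, 0]), (52, [0, 0, 1728, 0, 0]), (53, [103680, 312390, 1565697, 357663, 0]), (54, [57600, 0, 833088, 0, 0]), (55, [19224000, 20952000, 8381772, 1464750, 94500]), (56, [0, 0, 921672, 440022, 0]), (57, [0, 0, 1271244, 526983, 0]), (2, [3648240, 6043680, 1714176, 189000]), (3, [73440, 0, 0, 62703]), (4, [3048300, 4552200, 828801, 283500]), (5, [0, 6804, 704430, 94500]), (6, [0, 262359, 497466, 63594]), (7, [634500, 1493100, 0, 0]), (10, [0, 0, 1586349, 0]), (58, [0, 136792, 1101714, 266879, 0]),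 (62, [25070400, 32598008, 14262570, 2844388, 231099]), (14, [0, 303750, 0, 0]), (15, [0, 0, 234747, 62703]), (16, [0, 0, 254187, 62703]), (17, [121500, 0, 0, 0]), (18, [0, 0, 26352, 0]), (19, [43200, 0, 0, 0]), (23, [9144900, 4513725, 755109])]),
  (561111300, [], [(44, [0, 0, 0, 27709200, 6927300, 0]), (46, [1007841600, 4288413360, 1202427285, 0, 0, 0]), (47, [938246400, 1033442880, 858242559, 0, 0, 3463650]), (48, [0, 1063062480, 948768387, 0, 0, 0]), (49, [8464838400, 12050620800, 9021315777, 3414465744, 544947600, 18472800]), (50, [0, 1063062480, 0, 0, 0, 5772750]), (51, [0, 1049885760, 0, 0, 0, 9236400]), (52, [1006982400, 241180608, 1014147420, 610407147, 142402560, 0]), (53, [181806720, 0, 1754165175, 874641135, 165505650, 17318250]), (54, [68736000, 238697472, 1023258993, 592803636, 60405330, 0]), (55, [0, 0, 105354465, 220966128, 10587405, 1154550]), (56, [3847497600, 6235707264, 2977344435, 623556615,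 86198340, 15009150]), (57, [0, 0, 163111200, 206128935, 85657335, 1154550]), (0, [22554000, 0, 36111384, 0, 0]), (2, [0, 782080416, 689076864, 0, 13854600]), (3, [269616960, 0, 674882352, 96356565, 0]), (4, [0, 159177600, 0, 84306330, 0]), (5, [269616960, 0, 0, 273075255, 17318250]), (6, [0, 725302368, 0, 155936790, 31172850]), (7, [25776000, 0, 153735120, 0, 13854600]), (58, [0, 0, 489164648, 176694042, 47467520, 8466700]), (59, [0, 0, 421091812, 276670233, 42849320, 0]), (60, [416998400, 0, 416883156, 291370069, 45158420, 0]), (62, [528121600, 2218296960, 590143824, 4829096, 0, 769700]), (15, [0, 0, 5611113, 0, 0]), (16, [0, 0, 6623613, 0, 0]), (17, [0, 70972560, 35012637, 0, 0]), (18, [0, 0, 6623613, 0, 0]), (20, [0, 0, 0, 20781900]), (25, [961283700, 394638480, 0])]),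
  (21310128000, [], [(45, [271272960000, 428036206080, 116143281408, 38298474900, 7944069357, 0, 0]), (46, [26078976000, 0, 0, 0, 10698466500, 0, 0]), (47, [0, 0, 38321648400, 156066432, 1492815843, 3637922400, 0]), (48, [236194560000, 582923281920, 0, 32951904660, 0, 0, 0]), (49, [0, 0, 11750687760, 31294570020, 4857227220, 2167552800, 0]), (50, [0, 0, 0, 0, 5623179945, 0, 0]), (51, [0, 0, 296325214752, 14230861284, 8555619639, 659181600, 0]), (52, [0, 12788858880, 70474380480, 59104801200, 0, 3489570000, 228009600]), (53, [230940057600, 452924828160, 120509521776, 53015238528, 6022059861, 1231398000, 0]), (54, [0, 0, 166754562240, 0, 0, 0, 17539200]), (55, [43764940800, 0, 254104699968, 149359357644, 55077587508, 4727545200, 96465600]), (56, [0, 78839577600, 112411241040, 0, 5108374335, 0, 0]), (57, [251803238400, 527330979840, 45270191232, 100432233636, 34718502072, 2701767600, 0]), (0, [79894080000, 0, 0, 0,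 0, 0]), (1, [0, 171367741440, 206332207704, 45522039465, 17938216800, 315705600]), (2, [0, 37370672640, 0, 39266690148, 5904133200, 52617600]), (3, [22111488000, 0, 0, 0, 0, 0]), (4, [0, 96500355840, 0, 45852844860, 1703494800, 0]), (5, [116402227200, 90752014080, 149094145872, 0, 0, 850651200]), (6, [0, 88259391360, 0, 20179769967, 0, 456019200]), (7, [100754841600, 33969438720, 163771891920, 0, 0, 850651200]), (10, [0, 0, 0, 5514314760, 6406192800, 114004800]), (11, [0, 0, 0, 0, 0, 61387200]), (58, [0, 2897664000, 0, 0, 45276000, 0, 0]), (59, [0, 0, 0, 27091239440, 6772809860, 0, 0]), (60, [0, 0, 157196928000, 89456610160, 23162253340, 3146824800, 122774400]), (61, [82317312000, 0, 0, 1286208000, 0, 0, 0]), (14, [0, 0, 0, 175325472, 0, 0]), (15, [0, 0, 0, 35634756024, 0, 473558400]), (16, [0, 0, 0, 53219031768, 5866862400, 0]), (18, [19559232000, 0, 55947395700, 0, 1455753600, 0]), (19, [0, 0, 75468132180, 0,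 0, 473558400]), (20, [25583040000, 68794488000, 0, 0, 1525910400]), (23, [0, 97226136000, 0, 6827133600, 0]), (25, [2966544000, 0, 0, 0])]),
  (893647566000, [], [(44, [0, 0, 1718587761660, 429646940415, 0, 0, 0]), (45, [0, 0, 0, 0, 20772392976, 5193098244, 0]), (46, [0, 0, 0, 3767651225967, 961044333660, 0, 3677562000]), (47, [8776688256000, 20660900409360, 15722977385520, 9426844480131, 1921817296989, 209621034000, 7355124000]), (48, [22754408544000, 50445300236400, 41167974225780, 10649282460921, 1867116695157, 652912096122, 19000737000]), (49, [793074240000, 2322902726640, 3350751986880, 0, 0, 26840728134, 0]), (50, [0, 2032230338640, 0, 4791571782261, 2380839556707, 0, 0]), (51, [1455674976000, 2930723758800, 5657277407760, 2144710772532, 869793292071, 107730310878, 11032686000]), (52, [0, 0, 0, 1570763364219, 0, 0, 0]), (53, [3209648198400, 6720109226640, 5193723957660, 66499610667, 0, 85631376366, 3064635000]),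 (54, [0, 0, 5501928557520, 0, 0, 0, 7355124000]), (55, [1155671193600, 0, 0, 7918468194897, 3096393087393, 0, 6742197000]), (56, [0, 0, 0, 1046171927205, 192681304011, 0, 0]), (57, [9950267577600, 22035591228960, 19454000658192, 4425163436208, 318255867018, 367432955244, 12258540000]), (0, [0, 0, 43239194010, 0, 0, 0]), (2, [0, 123466147020, 0, 215588118186, 0, 0]), (3, [0, 1161074290500, 2015864471781, 28605248253, 0, 0]), (4, [150300360000, 1580704103880, 0, 0, 209621034000, 0]), (5, [0, 0, 0, 197528941386, 121894756902, 7355124000]), (6, [0, 0, 0, 0, 17852599098, 14710248000]), (7, [1685026929600, 5412766062780, 6369736266621, 1807265241603, 159489079866, 53324649000]), (8, [0, 0, 0, 0, 93292963866, 0]), (9, [0, 0, 0, 0, 0, 11032686000]), (58, [2069004672000, 3284626244160, 3028388911040, 414330197564, 0, 10612880496, 0]), (59, [2297167488000, 5026129008000, 7367757627040, 202273909792, 0, 107971712748, 5720652000]),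 (60, [4475326464000, 6649886764800, 4901498726400, 5578680118608, 1138790711952, 4903416000, 3473253000]), (15, [0, 0, 423480374370, 0, 0, 0]), (16, [0, 0, 432244164510, 0, 0, 0]), (17, [0, 0, 0, 578900349252, 0, 0]), (18, [883254456000, 0, 0, 803033489052, 0, 0]), (19, [0, 0, 0, 162312043428, 0, 0]), (20, [0, 1603172196135, 0, 0, 60679773000]), (22, [897005340000, 1483761347325, 0, 984818256804, 0]), (28, [885013290000, 0, 0])]),
  (195570288000, [], [(44, [0, 0, 0, 1826842428936, 592456239234, 33936408000, 0, 0]), (45, [0, 0, 0, 929294208000, 368069184000, 33936408000, 0, 0]), (46, [141737040000, 0, 0, 1023503901354, 683018038458, 116072352000, 0, 357696000]), (47, [3815400153600, 8901226060560, 11152096399872, 6776605784763, 1991729701632, 423936828000, 44756712000, 894240000]), (48, [0, 1917734940000, 1394339433480, 0, 0, 102166920000, 20254536000, 1251936000]), (49, [10120292928000, 3830697619200, 23575348366560,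 15774998789520, 4717692609138, 935866872000, 96309648000, 3755808000]), (50, [0, 1917734940000, 1352027586024, 0, 876919660974, 222173928000, 10283760000, 1251936000]), (51, [0, 8901226060560, 11152096399872, 6216691820046, 2168772413409, 384053724000, 34785936000, 894240000]), (52, [3815400153600, 0, 0, 602225812173, 0, 0, 0, 0]), (53, [0, 0, 0, 0, 59486228568, 0, 0, 0]), (54, [0, 0, 0, 0, 166464749913, 0, 0, 0]), (55, [0, 0, 0, 1416835465452, 1101306716208, 159890112000, 0, 0]), (56, [2505517401600, 26070119127360, 5697711455184, 1018212572412, 774447802551, 91950228000, 7645752000, 268272000]), (57, [0, 0, 0, 508709282652, 0, 0, 0, 0]), (0, [634463280000, 963680530500, 1768541428665, 0, 499388328000, 28705104000, 0]), (2, [0, 0, 0, 704895051294, 0, 29912328000, 2950992000]), (3, [0, 0, 0, 0, 0, 29912328000, 0]), (4, [2868095952000, 6036215013000, 2817266711364, 1376292056706, 486511272000, 78201288000, 6975072000]),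 (5, [0, 0, 126935542368, 0, 0, 0, 0]), (6, [0, 0, 0, 0, 0, 0, 2950992000]), (7, [0, 0, 1204062535710, 0, 0, 27363744000, 0]), (58, [0, 7830503308800, 0, 0, 122351614200, 0, 0, 0]), (59, [1400006246400, 1951798429440, 1586356429824, 904170443792, 217650050144, 22572108000, 1773576000, 59616000]), (60, [3095739648000, 1810487312640, 1708681197568, 1591078871140, 586086730197, 75868812000, 1773576000, 59616000]), (61, [2301877094400, 0, 11666391359648, 7273667952348, 2215185612709, 428534712000, 42282648000, 1520208000]), (62, [469972800000, 0, 0, 0, 13425864750, 0, 0, 238464000]), (14, [0, 0, 158669427960, 0, 0, 0, 0]), (15, [0, 0, 1167507419040, 403535196432, 0, 0, 0]), (17, [0, 0, 0, 115692650298, 0, 0, 0]), (18, [1050620220000, 117707134500, 525013614765, 426720668454, 0, 0, 0]), (19, [0, 0, 0, 52224879114, 0, 0, 0]), (20, [49536424800, 2019211078230, 0, 0, 153317448000, 16096320000]), (22, [0, 657700246125, 0,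 0, 0, 0]), (23, [0, 657700246125, 0, 0, 0, 0])]),
  (4632469190442990000, [], [(43, [28709770347273600000, 65772696922470720000, 89983248288148002240, 75176990053236118944, 10112056615131627096, 0, 248361795572670000, 0]), (44, [0, 0, 0, 0, 7726381378283177316, 1931595344570794329, 0, 0]), (46, [105404912789761728000, 307534404191131728000, 206186080626864866304, 95682905146062116721, 23819985318233397786, 2446438156440232500, 400200738491385000, 15032276087400000]), (47, [0, 0, 9996418555336522944, 0, 0, 0, 0, 0]), (48, [0, 22014584162067519360, 0, 8697784955855887944, 8355163879882440678, 1910649701769412500, 0, 0]), (49, [0, 0, 0, 0, 5369008455351589374, 1252265244862086342, 0, 13802362589340000]), (50, [0, 0, 14172105896930719296, 12510772165479239631, 0, 0, 0, 0]), (52, [0, 1462330389826800000, 0, 0, 1852354552724763750, 681748002122850000, 56092898006730000, 0]), (53, [5018933292317568000, 34082107774626412800,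 80869434417971690400, 64673430519622319127, 19450533728335475082, 3309445914619747500, 85400010514260000, 0]), (54, [0, 6170271898602240000, 0, 0, 0, 132091415323218171, 0, 0]), (55, [0, 0, 0, 0, 3701359775974513614, 473875183070756829, 0, 0]), (56, [61883887782600000000, 70796903770650844800, 52112890981690450848, 32067925549587016200, 24841080832747532382, 5727698782554469329, 297485413042545000, 8472737431080000]), (57, [0, 11432679336050319360, 0, 7433931418836991785, 9731439650254884138, 1363096189527052500, 0, 0]), (0, [0, 0, 0, 0, 0, 152310516408180000, 0]), (1, [0, 0, 0, 0, 11089892985405332013, 0, 47146684092300000]), (2, [3612465942181200000, 29917246138003692000, 29064276848285122536, 15143683697034504624, 0, 0, 0]), (3, [23330874524849424000, 0, 0, 0, 2088431101621215000, 0, 0]), (4, [12348696692582640000, 0, 0, 0, 0, 0, 8814380069430000]), (5, [26943340467030624000, 0, 19102219954840364472, 0, 0, 168278694020190000,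 0]), (6, [0, 18449861386909212000, 15960668587414025328, 12941058931721142624, 0, 0, 0]), (7, [96892715140243776000, 226338437060685312480, 183996890332055002944, 74921035102391506482, 0, 2249313030600480000, 69695098223400000]), (8, [0, 0, 11035581931325275488, 0, 8227235098453760487, 409255754840010000, 19473630385950000]), (9, [0, 0, 0, 0, 0, 133219108247940000, 0]), (10, [0, 0, 0, 3243737215065258342, 5295983760793147500, 0, 0]), (12, [0, 0, 36129116781935319168, 0, 0, 422584187975235000, 19473630385950000]), (58, [45365481100023552000, 56936202065548416000, 54238191273817139328, 33663871079517495388, 14939795850723295411, 2534442771329566443, 60442904811510000, 478299693690000]), (59, [0, 0, 0, 13937543952447242340, 4812558292086144813, 332043075993583557, 0, 0]), (60, [9973033092172800000, 9259913498574435840, 26512248744968949120, 18741766218683348096, 2755069099246643264, 0, 23692868547660000, 0]), (61,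 [0, 0, 34186427355935657088, 17103002023201624224, 2072740719279307488, 0, 4147379798445000, 0]), (16, [0, 0, 0, 4568088921068583144, 0, 0, 0]), (17, [0, 0, 0, 4574145475946848464, 0, 0, 0]), (18, [0, 0, 0, 10130138727394140, 0, 0, 0]), (19, [0, 0, 0, 4073583849128820, 0, 0, 0]), (20, [3725185197047652000, 15013474675388879040, 13568008805303301216, 0, 2155187160403875000, 161733624994890000]), (21, [37048156757653860000, 71936256224858500800, 0, 0, 0, 0]), (38, [279075160605150000, 1095852926771460000]), (39, [635280337586700000, 0]), (40, [0, 1095852926771460000])]),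
  (42731793000, [], [(43, [172224000000, 587298276000, 557320263480, 187631602128, 79795767627, 21790093500, 1746486000, 0]), (44, [0, 0, 0, 333811220508, 150855479127, 16850668500, 0, 0]), (46, [8452080000, 793824141600, 481797398952, 260185249071, 94815827157, 10448037000, 3129997500, 24048000]), (47, [449092800000, 0, 1323583229088, 680603691312, 213996494430, 46159335000, 5379237000, 261522000]), (48, [105932736000, 375466356000, 0, 236378030265, 160762504140, 23022855000, 278055000, 0]), (49, [0, 0, 0, 1396874958900, 895761943875, 153575363250, 0, 0]), (50, [559527696000, 1109557444320, 1393622914752, 597411238176, 185930900817, 62381515500, 5056092000, 0]), (52, [0, 43703575200, 107493549228, 132484620645, 87957446697, 20490466500, 1510515000, 48096000]), (53, [35918812800, 0, 125299357740, 179712153180, 107734899525, 31259621250, 0, 0]), (54, [0, 833077514880, 0, 0, 0, 0, 0, 0]), (55, [144248832000, 322610375520,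 654332621472, 409228172163, 127764023805, 32999726250, 4760752500, 228456000]), (56, [1066542048000, 3159945617760, 3234088658520, 948911431620, 0, 0, 13366179000, 1028052000]), (57, [0, 0, 0, 0, 11235844560, 10422085500, 5659546500, 0]), (3, [455690102400, 1319757251400, 1044000203940, 678117903165, 149293820250, 0, 1650294000]), (5, [42740006400, 0, 0, 0, 0, 0, 0]), (6, [0, 348151989240, 0, 0, 0, 0, 0]), (7, [108883008000, 339041921400, 303586632936, 0, 0, 0, 0]), (8, [0, 41223219840, 132709079376, 193746933585, 60027743250, 9592897500, 432864000]), (12, [290751552000, 0, 518275887480, 0, 0, 20815798500, 162324000]), (13, [0, 0, 0, 0, 0, 0, 486972000]), (58, [1847861184000, 4172461159680, 3872804616880, 1569864683940, 344898272300, 62704515000, 9324862500, 545088000]), (59, [0, 729124078080, 0, 114400757440, 39992753080, 0, 0, 0]), (60, [0, 0, 182882016240, 45720504060, 0, 0, 0, 0]), (61, [507826176000, 419171274240,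 1061242882880, 983773506560, 423213907620, 71012553000, 3062112000, 62124000]), (62, [0, 0, 0, 4857696000, 0, 0, 75901500, 0]), (14, [0, 0, 0, 4218997158, 0, 0, 261522000]), (17, [0, 0, 95826417795, 0, 0, 0, 0]), (18, [0, 0, 95239536345, 0, 0, 0, 0]), (19, [0, 0, 0, 234752580, 0, 0, 0]), (20, [0, 0, 0, 0, 0, 1433862000]), (22, [0, 0, 0, 0, 30652182000, 0]), (32, [33178977000, 0, 0]), (40, [0, 5478435000])]),
  (732015336456000, [], [(43, [1935714964377600, 0, 489222287777088, 0, 930539588588892, 242169342038640, 0, 0]), (44, [1542876654919680, 0, 0, 3313032842254608, 822231348630372, 0, 0, 0]), (46, [5772216183552000, 0, 1711217718053136, 0, 804121815123837, 239938205192910, 74935084963320, 0]), (47, [0, 0, 0, 4370377225603905, 1689882957416295, 34245749860110, 46117275371460, 4602291210000]), (48, [0, 0, 1820943337724172, 0, 0, 194304337451280, 36018625408560, 2845052748000]), (49, [0, 585764478392832, 0, 4550289904130580,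 1689882957416295, 355360113644850, 0, 4602291210000]), (50, [5772216183552000, 585764478392832, 1711217718053136, 179912678526675, 804121815123837, 445781330610210, 0, 0]), (51, [0, 0, 0, 0, 132444510032796, 0, 0, 0]), (52, [0, 270342227877984, 255200282863020, 287225239035969, 58240528892931, 74241971842410, 10397702364660, 0]), (53, [5907524847897600, 10817383811068800, 13198650739510860, 2269368174321027, 0, 321114363784740, 0, 0]), (54, [30997305659520000, 69678559737691776, 57342666008619684, 31290404659798140, 9222188271829020, 1497718571304960, 87043937992020, 5020681320000]), (55, [0, 0, 0, 3786750969669063, 2445271608684825, 442007348606190, 46718726975100, 3263442858000]), (56, [30997305659520000, 69092795259298944, 57386919474194292, 31121555347665117, 9222188271829020, 1291875445887660, 161979022955340, 5020681320000]), (57, [5907524847897600, 10231619332675968, 13242904205085468, 2100518862188004,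 0, 0, 46117275371460, 0]), (1, [615846511434240, 0, 0, 0, 0, 0, 0]), (3, [6235101756057600, 13831275467948544, 4837278433128183, 8097504255122040, 1603302123166020, 178192090711260, 25605474732000]), (6, [0, 0, 9668341047117033, 0, 872477649937980, 129338157912840, 0]), (8, [0, 4014210277249056, 2702587891179960, 2581107384588120, 225313614233640, 102458974876560, 7531021980000]), (9, [0, 0, 0, 0, 0, 86453428775580, 0]), (13, [294628732093440, 3940553094225696, 3087918902768616, 0, 951821640349560, 102458974876560, 7531021980000]), (60, [806522959872000, 1779800879710080, 629010911597712, 760529811843100, 175478179419388, 0, 0, 0]), (61, [4737431605248000, 11537792368174080, 13959030052569648, 8430437700512540, 3334455668582612, 802813084232040, 101364981265800, 5439071430000]), (14, [0, 4977501634648800, 4138863397889733, 983408540457528, 0, 0, 8535158244000]), (15, [0, 0, 33190099180956, 0, 0, 0, 0]), (16, [0,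 0, 33190099180956, 0, 0, 0, 0]), (17, [4386153785356800, 9272663707828680, 4694761228897899, 0, 0, 111588891123960, 1255170330000]), (29, [0, 0, 142336315422000]), (32, [568371189384000, 1137188947459320, 0])]),
  (111850615800000, [], [(43, [0, 0, 0, 639528737802192, 522237278579952, 90588773532351, 0, 0]), (44, [183134286720000, 6202548209088000, 3707720630076960, 1616871792933432, 631660480863048, 90743906137500, 0, 0]), (45, [0, 0, 0, 0, 40604086877748, 10151021719437, 0, 0]), (46, [0, 0, 742120113263760, 387481286358432, 0, 20170920967086, 10240592670000, 0]), (47, [0, 4037343970968000, 652718945089008, 23305018729356, 0, 35371477102500, 0, 0]), (48, [416348190720000, 100697362920000, 0, 832919162562144, 518742899837580, 134427817560207, 0, 0]), (49, [0, 3515330272608000, 743265732913200, 0, 273781390340796, 74496611869851, 0, 0]), (50, [102777776640000, 728854412932800, 1314826046503200, 1124977092277500,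 442502567753376, 0, 0, 593450550000]), (51, [0, 0, 1576437646739760, 0, 0, 1650749359644, 0, 0]), (52, [0, 1856496917721600, 67389955868592, 566231142750840, 212040036303492, 34402678500207, 0, 0]), (53, [0, 465854922086400, 0, 558018231434244, 412004176915956, 87795514920207, 3330214965000, 0]), (54, [871974512640000, 0, 0, 0, 166194578130651, 0, 0, 0]), (55, [0, 0, 0, 0, 227145197219409, 0, 0, 0]), (56, [4294409011200000, 8713252738713600, 7078179200400000, 2762252460765756, 477539496949044, 70681228889793, 14040609660000, 300623400000]), (57, [0, 0, 0, 0, 20308841199372, 73761311539437, 5016824505000, 0]), (0, [0, 0, 0, 0, 0, 15422541750000, 0]), (1, [397200101760000, 0, 0, 0, 0, 0, 0]), (2, [0, 0, 0, 0, 0, 0, 345217950000]), (3, [164968151040000, 1413533482099200, 84120945608700, 0, 0, 0, 348024600000]), (4, [0, 0, 0, 0, 0, 3199019670000, 0]), (5, [0, 0, 1809156592863144, 0, 0, 4579985025000, 29937600000]),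 (6, [864732607200000, 0, 2814173837321364, 953218778663088, 204461755581879, 0, 1169437500000]), (7, [0, 498747206034000, 288740372340420, 297795985083513, 0, 13495215195000, 1212472800000]), (9, [0, 0, 0, 0, 0, 32382285705000, 0]), (12, [0, 0, 0, 0, 0, 0, 404157600000]), (13, [1565356272480000, 696350768929200, 2551007984978124, 922840763484339, 379294313468121, 14900598405000, 1235861550000]), (59, [541165363200000, 1236327381273600, 203994589666560, 106512844922176, 144617889998508, 35822491962431, 1859644710000, 0]), (60, [333936852480000, 1796556033888000, 0, 73142727042000, 0, 0, 3259019610000, 110810700000]), (61, [965732866560000, 4032820288358400, 3493810606798848, 1877339479298528, 830525406965580, 185102962787569, 17098777080000, 835654050000]), (14, [972133747200000, 0, 803003270592600, 0, 0, 0, 0]), (15, [522890121600000, 0, 0, 0, 0, 0, 1182535200000]), (16, [0, 2142620822034000, 0, 0, 0, 0, 725986800000]),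 (17, [0, 0, 0, 141012875743740, 0, 47076688890000, 3309975900000]), (18, [0, 0, 367348853025000, 0, 0, 31820113710000, 0]), (19, [0, 0, 0, 0, 132592679432136, 0, 0]), (20, [951604786440000, 0, 2080666102373208, 0, 0, 0]), (36, [0, 32964104250000])])]

def refT3 : List (ℕ × ℕ × ℕ × ℕ × ℕ × List ℕ) := [
  (0, 0, 0, 0, 1, [0, 0, 0, 0])]

def refT4 : List (ℕ × ℕ × ℕ × ℕ × ℕ × List ℕ) := [
  (0, 0, 0, 0, 1, [0, 0, 0, 0]),
  (0, 2, 0, 0, 1, [0, 0, 0, 0]),
  (0, 6, 0, 0, 1, [0, 0, 1, 0]),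
  (0, 10, 0, 0, 1, [0, 0, 1, 0])]

def refT5 : List (ℕ × ℕ × ℕ × ℕ × ℕ × List ℕ) := [
  (0, 2, 0, 0, 1, [0, 0, 0, 0]),
  (0, 4, 0, 0, 1, [0, 0, 0, 0]),
  (0, 8, 0, 0, 1, [0, 0, 0, 0]),
  (0, 0, 0, 0, 1, [0, 0, 0, 0]),
  (0, 13, 0, 0, 1, [0, 0, 0, 0]),
  (0, 14, 0, 0, 1, [0, 0, 0, 0]),
  (0, 46, 0, 0, 1, [0, 0, 0, 0]),
  (0, 43, 0, 0, 1, [0, 0, 0, 0]),
  (0, 44, 0, 0, 1, [0, 0, 0, 0]),
  (0, 50, 0, 0, 1, [0, 0, 0, 0]),
  (0, 52, 0, 0, 1, [0, 0, 0, 0])]

def refC4 : List (ℕ × ℕ × ℕ × ℕ × ℕ × List ℕ) := [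
  (0, 0, 0, 0, 1, [0, 0, 1, 0]),
  (0, 0, 0, 0, 1, [0, 0, 0, 1]),
  (2, 0, 0, 0, 1, []),
  (0, 0, 0, 0, 1, [0, 0, 1, 0])]

def refC5 : List (ℕ × ℕ × ℕ × ℕ × ℕ × List ℕ) := [
  (0, 0, 0, 0, 1, [0, 0, 1, 0]),
  (1, 0, 0, 0, 1, [0, 0, 0, 0]),
  (0, 1, 0, 0, 1, [0, 0, 1, 0]),
  (0, 0, 0, 0, 1, [0, 0, 0, 1]),
  (0, 1, 0, 0, 1, [0, 0, 0, 1]),
  (1, 0, 0, 0, 1, [0, 0, 0, 0]),
  (0, 2, 0, 0, 1, [0, 0, 0, 0]),
  (0, 1, 0, 0, 1, [0, 0, 0, 0]),
  (2, 0, 0, 0, 1, []),
  (0, 0, 0, 0, 1, [0, 0, 0, 0]),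
  (0, 3, 0, 0, 1, [0, 0, 0, 0])]

def refC6 : List (ℕ × ℕ × ℕ × ℕ × ℕ × List ℕ) := [
  (0, 3, 0, 0, 1, [0, 0, 1, 0]),
  (1, 0, 3, 0, 1, [0, 0, 0, 0]),
  (0, 0, 0, 0, 1, [0, 0, 1, 0]),
  (0, 5, 0, 0, 1, [0, 0, 0, 1]),
  (0, 1, 0, 0, 1, [0, 0, 1, 0]),
  (0, 2, 0, 0, 1, [0, 0, 0, 1]),
  (0, 3, 0, 0, 1, [0, 0, 0, 1]),
  (0, 4, 0, 0, 1, [0, 0, 0, 1]),
  (0, 2, 0, 0, 1, [0, 0, 1, 0]),
  (1, 0, 2, 0, 1, [0, 0, 0, 0]),
  (0, 1, 0, 0, 1, [0, 0, 0, 1]),
  (0, 0, 0, 0, 1, [0, 0, 0, 1]),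
  (1, 0, 4, 0, 1, [0, 0, 0, 0]),
  (0, 4, 0, 0, 1, [0, 0, 1, 0]),
  (0, 5, 0, 0, 1, [0, 0, 1, 0]),
  (1, 1, 0, 0, 1, [0, 0, 0, 0]),
  (1, 0, 4, 0, 1, [0, 0, 0, 0]),
  (1, 0, 3, 0, 1, [0, 0, 0, 0]),
  (1, 0, 2, 0, 1, [0, 0, 0, 0]),
  (1, 1, 1, 0, 1, [0, 0, 0, 0]),
  (0, 5, 0, 0, 1, [0, 0, 0, 2]),
  (1, 1, 1, 0, 1, [0, 0, 0, 1]),
  (1, 1, 0, 0, 1, [0, 0, 0, 1]),
  (1, 2, 3, 0, 1, [0, 0, 0, 0]),
  (1, 3, 3, 0, 1, [0, 0, 0, 0]),
  (1, 2, 3, 0, 1, [0, 0, 0, 1]),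
  (1, 3, 3, 0, 1, [0, 0, 0, 1]),
  (1, 4, 1, 0, 1, [0, 0, 0, 0]),
  (1, 4, 2, 1, 1, [0, 0, 0, 0]),
  (1, 5, 0, 0, 1, [0, 0, 0, 0]),
  (1, 4, 2, 1, 1, [0, 0, 0, 1]),
  (1, 6, 3, 0, 1, [0, 0, 0, 0]),
  (1, 7, 2, 0, 1, [0, 0, 0, 0]),
  (1, 6, 0, 1, 1, [0, 0, 0, 0]),
  (1, 4, 1, 0, 1, [0, 0, 0, 1]),
  (1, 7, 2, 0, 1, [0, 0, 0, 1]),
  (1, 8, 2, 0, 1, [0, 0, 0, 0]),
  (1, 6, 0, 1, 1, [0, 0, 0, 1]),
  (1, 9, 3, 1, 1, [0, 0, 0, 0]),
  (1, 8, 3, 0, 1, [0, 0, 0, 0]),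
  (1, 8, 1, 0, 1, [0, 0, 0, 0]),
  (1, 9, 0, 0, 1, [0, 0, 0, 0]),
  (1, 6, 3, 0, 1, [0, 0, 0, 1]),
  (0, 7, 0, 0, 1, [0, 0, 1, 0]),
  (0, 8, 0, 0, 1, [0, 0, 1, 0]),
  (0, 3, 0, 0, 1, [0, 0, 0, 0]),
  (0, 6, 0, 0, 1, [0, 0, 1, 0]),
  (0, 4, 0, 0, 1, [0, 0, 0, 0]),
  (2, 0, 0, 0, 1, []),
  (0, 2, 0, 0, 1, [0, 0, 0, 0]),
  (0, 9, 0, 0, 1, [0, 0, 1, 0]),
  (0, 10, 0, 0, 1, [0, 0, 0, 1]),
  (0, 10, 0, 0, 1, [0, 0, 1, 0]),
  (0, 6, 0, 0, 1, [0, 0, 0, 1]),
  (0, 1, 0, 0, 1, [0, 0, 0, 0]),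
  (2, 0, 0, 0, 1, []),
  (0, 0, 0, 0, 1, [0, 0, 0, 0]),
  (0, 9, 0, 0, 1, [0, 0, 0, 1]),
  (0, 6, 0, 0, 1, [0, 0, 1, 0]),
  (0, 9, 0, 0, 1, [0, 0, 1, 0]),
  (2, 0, 0, 0, 1, []),
  (0, 10, 0, 0, 1, [0, 0, 1, 0]),
  (2, 0, 0, 0, 1, [])]

def refM6 : List (ℕ × ℕ × ℕ × ℕ × ℕ × List ℕ) := [
  (0, 1, 0, 0, 1, [0, 0, 0, 1]),
  (0, 16, 0, 0, 1, [0, 0, 0, 1]),
  (0, 7, 0, 0, 1, [0, 0, 0, 1]),
  (0, 20, 0, 0, 1, [0, 0, 0, 0]),
  (0, 3, 0, 0, 1, [0, 0, 0, 1]),
  (1, 1, 4, 0, 1, [0, 0, 0, 0]),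
  (1, 2, 5, 0, 1, [0, 0, 0, 0]),
  (1, 1, 1, 1, 1, [0, 0, 0, 0]),
  (0, 10, 0, 0, 1, [0, 0, 0, 1]),
  (0, 17, 0, 0, 1, [0, 0, 0, 1]),
  (1, 1, 5, 0, 1, [0, 0, 0, 0]),
  (1, 1, 0, 1, 1, [0, 0, 0, 0]),
  (0, 15, 0, 0, 1, [0, 0, 0, 1]),
  (0, 12, 0, 0, 1, [0, 0, 0, 1]),
  (0, 19, 0, 0, 1, [0, 0, 0, 1]),
  (0, 21, 0, 0, 1, [0, 0, 0, 0]),
  (1, 3, 2, 1, 1, [0, 0, 0, 0]),
  (1, 4, 4, 0, 1, [0, 0, 0, 0]),
  (1, 3, 3, 0, 1, [0, 0, 0, 0]),
  (0, 23, 0, 0, 1, [0, 0, 0, 0]),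
  (1, 5, 2, 0, 1, [0, 0, 0, 0]),
  (1, 6, 3, 1, 1, [0, 0, 0, 0]),
  (1, 6, 2, 0, 1, [0, 0, 0, 0]),
  (0, 24, 0, 0, 1, [0, 0, 0, 0]),
  (0, 28, 0, 0, 1, [0, 0, 0, 0]),
  (1, 7, 1, 0, 1, [0, 0, 0, 0]),
  (1, 8, 2, 0, 1, [0, 0, 0, 0]),
  (0, 33, 0, 0, 1, [0, 0, 0, 0]),
  (0, 29, 0, 0, 1, [0, 0, 0, 0]),
  (1, 9, 1, 0, 1, [0, 0, 0, 0]),
  (1, 10, 1, 0, 1, [0, 0, 0, 0]),
  (0, 41, 0, 0, 1, [0, 0, 0, 0]),
  (0, 36, 0, 0, 1, [0, 0, 0, 0]),
  (0, 39, 0, 0, 1, [0, 0, 0, 0]),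
  (1, 10, 4, 1, 1, [0, 0, 0, 0]),
  (1, 11, 2, 0, 1, [0, 0, 0, 0]),
  (1, 12, 5, 0, 1, [0, 0, 0, 0]),
  (1, 13, 3, 1, 1, [0, 0, 0, 0]),
  (1, 14, 2, 0, 1, [0, 0, 0, 0]),
  (1, 15, 0, 0, 1, [0, 0, 0, 0]),
  (1, 15, 5, 1, 1, [0, 0, 0, 0]),
  (1, 14, 0, 0, 1, [0, 0, 0, 0]),
  (1, 13, 2, 0, 1, [0, 0, 0, 0]),
  (0, 45, 0, 0, 1, [0, 0, 0, 1]),
  (0, 43, 0, 0, 1, [0, 0, 0, 1]),
  (0, 5, 0, 0, 1, [0, 0, 0, 0]),
  (0, 51, 0, 0, 1, [0, 0, 0, 1]),
  (0, 6, 0, 0, 1, [0, 0, 0, 0]),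
  (0, 47, 0, 0, 1, [0, 0, 1, 0]),
  (0, 4, 0, 0, 1, [0, 0, 0, 0]),
  (0, 49, 0, 0, 1, [0, 0, 0, 1]),
  (1, 0, 5, 0, 1, [0, 0, 0, 0]),
  (0, 57, 0, 0, 1, [0, 0, 0, 1]),
  (1, 0, 4, 0, 1, [0, 0, 0, 0]),
  (0, 9, 0, 0, 1, [0, 0, 0, 0]),
  (0, 54, 0, 0, 1, [0, 0, 1, 0]),
  (0, 13, 0, 0, 1, [0, 0, 0, 0]),
  (1, 0, 0, 0, 1, [0, 0, 0, 0]),
  (0, 52, 0, 0, 1, [0, 0, 1, 0]),
  (0, 56, 0, 0, 1, [0, 0, 1, 0]),
  (0, 59, 0, 0, 1, [0, 0, 1, 0]),
  (0, 50, 0, 0, 1, [0, 0, 1, 0]),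
  (0, 61, 0, 0, 1, [0, 0, 1, 0])]

end Pool.Agent.TH389.BL.Q17
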