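import Pool.Agent.TH389.BL.Tables
import Pool.Agent.TH389.BL.Cone
import Pool.Agent.TH389.BL.DataQ17

/-! Kernel checks of the certificates on the interval (17/4, 5). -/

set_option autoImplicit false

namespace Pool.Agent.TH389.BL.Q17

def u : List ℤ := [-17, 4]
def v : List ℤ := [5, -1]

theorem clR3 : closedOK R3 G3 1 = true := by decide +kernel
theorem clR4 : closedOK R4 G4 2 = true := by decide +kernel
theorem clR5 : closedOK R5 G5 6 = true := by decide +kernel
theorem clR6 : closedOK R6 G6 43 = true := by decide +kernel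
theorem clF3 : closedOK F3 G3 1 = true := by decide +kernel
theorem clF4 : closedOK F4 G4 2 = true := by decide +kernel
theorem clF5 : closedOK F5 G5 6 = true := by decide +kernel
theorem clF6 : closedOK F6 G6 43 = true := by decide +kernel
theorem ce3 : certsOK u v G3 Y3 D3 = true := by decide +kernel
theorem ce4 : certsOK u v G4 Y4 D4 = true := by decide +kernel
theorem ce5 : certsOK u v G5 Y5 D5 = true := by decide +kernel
theorem ce6 : certsOK u v G6 Y6 D6 = true := by decide +kernel
theorem rT3 : refsOK (appP T3) G3 1 R4 F4 G4 Y4 2 D4 refT3 = true := by decide +kernel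
theorem rT4 : refsOK (appP T4) G4 2 R5 F5 G5 Y5 6 D5 refT4 = true := by decide +kernel
theorem rT5 : refsOK (appP T5) G5 6 R6 F6 G6 Y6 43 D6 refT5 = true := by decide +kernel
theorem rC4 : refsOK (appP C4) G4 2 R3 F3 G3 Y3 1 D3 refC4 = true := by decide +kernel
theorem rC5 : refsOK (appP C5) G5 6 R4 F4 G4 Y4 2 D4 refC5 = true := by decide +kernel
theorem rC6 : refsOK (appP C6) G6 43 R5 F5 G5 Y5 6 D5 refC6 = true := by decide +kernel
theorem rM6 : refsOK (fun g => appP C7 (appP R7 (appP T6 g))) G6 43 R6 F6 G6 Y6 43 D6 refM6 = true :=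
  by decide +kernel

theorem len6 : (G6.all fun g => decide (g.length ≤ 15)) = true := by decide +kernel

end Pool.Agent.TH389.BL.Q17
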