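import Pool.Agent.TH389.BL.DefsP9

/-! Kernel checks for the interval (9/2, 5), part A. -/

set_option autoImplicit false

namespace Pool.Agent.TH389.BL.Q9

theorem clR3 : closedOK R3 G3 1 = true := by decide +kernel
theorem clR4 : closedOK R4 G4 2 = true := by decide +kernel
theorem clR5 : closedOK R5 G5 6 = true := by decide +kernel
theorem clF3 : closedOK F3 G3 1 = true := by decide +kernel
theorem clF4 : closedOK F4 G4 2 = true := by decide +kernel
theorem clF5 : closedOK F5 G5 6 = true := by decide +kernel
theorem ce3 : certsOK u v G3 Y3 D3 = true := by decide +kernel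
theorem ce4 : certsOK u v G4 Y4 D4 = true := by decide +kernel
theorem ce5 : certsOK u v G5 Y5 D5 = true := by decide +kernel
theorem rT3 : refsOK (appP T3) G3 1 R4 F4 G4 Y4 2 D4 refT3 = true := by decide +kernel
theorem rT4 : refsOK (appP T4) G4 2 R5 F5 G5 Y5 6 D5 refT4 = true := by decide +kernel
theorem rC4 : refsOK (appP C4) G4 2 R3 F3 G3 Y3 1 D3 refC4 = true := by decide +kernel
theorem rC5 : refsOK (appP C5) G5 6 R4 F4 G4 Y4 2 D4 refC5 = true := by decide +kernel
theorem la3 : lastOK G3 0 = true := by decide +kernel
theorem la4 : lastOK G4 2 = true := by decide +kernel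
theorem la5 : lastOK G5 5 = true := by decide +kernel
theorem la6 : lastOK G6 14 = true := by decide +kernel
theorem la7 : lastOK G7 35 = true := by decide +kernel
theorem len7 : (G7.all fun g => decide (g.length ≤ 36)) = true := by decide +kernel
theorem ch5 : (G5z.all fun z => z.all chkz) = true := by decide +kernel
theorem cy5 : (Y5z.all fun z => z.all chkz) = true := by decide +kernel
theorem ch6 : (G6z.all fun z => z.all chkz) = true := by decide +kernel
theorem cy6 : (Y6z.all fun z => z.all chkz) = true := by decide +kernel
theorem ch7 : (G7z.all fun z => z.all chkz) = true := by decide +kernel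
theorem cy7 : (Y7z.all fun z => z.all chkz) = true := by decide +kernel
theorem rowT5 : rowsOK 5 2 T5 = true := by decide +kernel
theorem rowT6 : rowsOK 5 2 T6 = true := by decide +kernel
theorem rowC6 : rowsOK 5 2 C6 = true := by decide +kernel
theorem rowC7 : rowsOK 5 2 C7 = true := by decide +kernel
theorem rowM7 : rowsOK 5 2 M7 = true := by decide +kernel
theorem mR6g : ((G6z.take 29).zip (permR6.take 29)).all (permOKl iR6 G6z 29) = true := by
  decide +kernel
theorem mR6b : ((G6z.drop 29).zip (permR6.drop 29)).all (permOKl iR6 G6z G6z.length) = true := by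
  decide +kernel
theorem mF6g : ((G6z.take 29).zip (permF6.take 29)).all (permOKl iF6 G6z 29) = true := by
  decide +kernel
theorem mF6b : ((G6z.drop 29).zip (permF6.drop 29)).all (permOKl iF6 G6z G6z.length) = true := by
  decide +kernel
theorem mT5g : ((G5z.take 6).zip (refT5.take 6)).all
    (refOKl Ri6 iF6 G6z Y6z 29 D6 true T5) = true := by decide +kernel
theorem mT5b : ((G5z.drop 6).zip (refT5.drop 6)).all
    (refOKl Ri6 iF6 G6z Y6z 29 D6 false T5) = true := by decide +kernel
theorem mC6g : ((G6z.take 29).zip (refC6.take 29)).all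
    (refOKl Ri5 iF5 G5z Y5z 6 D5 true C6) = true := by decide +kernel
theorem mC6b : ((G6z.drop 29).zip (refC6.drop 29)).all
    (refOKl Ri5 iF5 G5z Y5z 6 D5 false C6) = true := by decide +kernel
theorem mT6g : ((G6z.take 29).zip (refT6.take 29)).all
    (refOKl Ri7 iF7 G7z Y7z 225 D7 true T6) = true := by decide +kernel
theorem mT6b : ((G6z.drop 29).zip (refT6.drop 29)).all
    (refOKl Ri7 iF7 G7z Y7z 225 D7 false T6) = true := by decide +kernel
theorem ce6 : (Y6z.zip D6).all pc6 = true := by decide +kernel
theorem lnD6 : Y6z.length = D6.length := by decide +kernel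
theorem lnD7 : Y7z.length = D7.length := by decide +kernel

end Pool.Agent.TH389.BL.Q9
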