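import Pool.Agent.TH389.BL.DefsP9

/-! Kernel checks for the interval (9/2, 5), part B. -/

set_option autoImplicit false

namespace Pool.Agent.TH389.BL.Q9

theorem mR7g : ((G7z.take 225).zip (permR7.take 225)).all (permOKl iR7 G7z 225) = true := by
  decide +kernel
theorem mR7b : ((G7z.drop 225).zip (permR7.drop 225)).all (permOKl iR7 G7z G7z.length) = true := by
  decide +kernel
theorem mF7g : ((G7z.take 225).zip (permF7.take 225)).all (permOKl iF7 G7z 225) = true := by
  decide +kernel
theorem mF7b : ((G7z.drop 225).zip (permF7.drop 225)).all (permOKl iF7 G7z G7z.length) = true := by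
  decide +kernel

end Pool.Agent.TH389.BL.Q9
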