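import Pool.Agent.TH389.BL.DefsP9

/-! Kernel checks for the interval (9/2, 5), part C. -/

set_option autoImplicit false

namespace Pool.Agent.TH389.BL.Q9

theorem mM7g : ((G7z.take 225).zip (refM7.take 225)).all
    (refOKl Ri7 iF7 G7z Y7z 225 D7 true M7) = true := by decide +kernel
theorem mM7b : ((G7z.drop 225).zip (refM7.drop 225)).all
    (refOKl Ri7 iF7 G7z Y7z 225 D7 false M7) = true := by decide +kernel
theorem mC7g : ((G7z.take 225).zip (refC7.take 225)).all
    (refOKl Ri6 iF6 G6z Y6z 29 D6 true C7) = true := by decide +kernel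
theorem mC7b : ((G7z.drop 225).zip (refC7.drop 225)).all
    (refOKl Ri6 iF6 G6z Y6z 29 D6 false C7) = true := by decide +kernel

end Pool.Agent.TH389.BL.Q9
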