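import Pool.Agent.TH389.BL.DefsP9

/-! Kernel checks for the interval (9/2, 5), part D. -/

set_option autoImplicit false

namespace Pool.Agent.TH389.BL.Q9

theorem ce7_0 : (((Y7z.zip D7).drop 0).take 40).all pc7 = true := by decide +kernel
theorem ce7_1 : (((Y7z.zip D7).drop 40).take 12).all pc7 = true := by decide +kernel
theorem ce7_2 : (((Y7z.zip D7).drop 52).take 13).all pc7 = true := by decide +kernel

theorem ce7 : (Y7z.zip D7).all pc7 = true :=
  all_step 0 40 40 rfl ce7_0 (all_step 40 12 52 rfl ce7_1 (all_step 52 13 65 rfl ce7_2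
    (all_end 65 (by decide +kernel))))

end Pool.Agent.TH389.BL.Q9
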