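import Pool.Agent.TH389.BL.MulT

/-! Certificate checks which can be split into pieces. -/

set_option autoImplicit false

namespace Pool.Agent.TH389.BL

variable {q : ℝ} {G G' : List (List (List ℤ))} {w w' : ℕ}

theorem all_chunks {α : Type} (p : α → Bool) (n : ℕ) : ∀ (m : ℕ) (L : List α),
    L.length ≤ n * m → (∀ k < m, ((L.drop (n * k)).take n).all p = true) → L.all p = true := by
  intro m
  induction m with
  | zero =>
    intro L hL _
    have : L = [] := List.length_eq_zero_iff.1 (by simpa using hL)
    rw [this]; rfl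
  | succ m ih =>
    intro L hL h
    have h0 := h 0 (Nat.succ_pos m)
    simp only [Nat.mul_zero, List.drop_zero] at h0
    have h1 := ih (L.drop n) (by rw [List.length_drop]; rw [Nat.mul_succ] at hL; omega) (by
      intro k hk
      have := h (k + 1) (by omega)
      rw [List.drop_drop]
      have e : n + n * k = n * (k + 1) := by ring
      rw [e]; exact this)
    have h2 := List.take_append_drop n L
    rw [← h2, List.all_append, h0, h1]; rfl

theorem all_step {α : Type} {p : α → Bool} {L : List α} (a b c : ℕ) (hc : a + b = c)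
    (h1 : ((L.drop a).take b).all p = true) (h2 : (L.drop c).all p = true) :
    (L.drop a).all p = true := by
  subst hc
  have h := List.take_append_drop b (L.drop a)
  rw [← h, List.all_append, h1, List.drop_drop, h2]; rfl

theorem all_end {α : Type} {p : α → Bool} {L : List α} (a : ℕ) (h : L.length = a) :
    (L.drop a).all p = true := by
  rw [List.drop_eq_nil_of_le (by omega)]; rfl

/-- the cone is closed under `f` -/
def ClosedS (q : ℝ) (G : List (List (List ℤ))) (w : ℕ) (f : (ℕ → ℝ) → (ℕ → ℝ)) : Prop :=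
  ∀ (b : Bool) (x : ℕ → ℝ), K q G w b x → K q G w b (f x)

/-- one entry of a permutation check -/
def permOK (M : List (List (ℕ × List ℤ))) (G : List (List (List ℤ))) (m : ℕ)
    (e : List (List ℤ) × ℕ) : Bool :=
  decide (e.2 < m) && decide (e.2 < G.length) && veq (appP M e.1) (G.getD e.2 [])

theorem closed_perm {M : List (List (ℕ × List ℤ))} {perm : List ℕ} (hl : G.length = perm.length)
    (h1 : ((G.take w).zip (perm.take w)).all (permOK M G w) = true)
    (h2 : ((G.drop w).zip (perm.drop w)).all (permOK M G G.length) = true) :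
    ClosedS q G w (app M q) := by
  have key : ∀ m, ∀ e : List (List ℤ) × ℕ, permOK M G m e = true →
      K q G w (decide (e.2 < w)) (app M q (evv e.1 q)) ∧ e.2 < m := by
    intro m e he
    simp only [permOK, Bool.and_eq_true, decide_eq_true_eq] at he
    rw [← evv_appP, evv_veq he.2 q]
    exact ⟨K_gen _ he.1.2, he.1.1⟩
  simp only [List.all_eq_true] at h1 h2
  have good : ∀ g ∈ G.take w, K q G w true (app M q (evv g q)) := by
    intro g hg
    obtain ⟨t, ht⟩ := exists_zip (l' := perm.take w) (by simp [hl]) hg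
    have h3 := key w _ (h1 _ ht)
    rw [decide_eq_true h3.2] at h3
    exact h3.1
  intro b x hx
  refine K_map (lin_app M q) good ?_ hx
  intro g hg
  rw [← List.take_append_drop w G] at hg
  rcases List.mem_append.1 hg with hg | hg
  · exact K.weak _ (good g hg)
  · obtain ⟨t, ht⟩ := exists_zip (l' := perm.drop w) (by simp [hl]) hg
    have h3 := (key G.length _ (h2 _ ht)).1
    by_cases hb : t < w
    · rw [decide_eq_true hb] at h3; exact K.weak _ h3
    · rw [decide_eq_false hb] at h3; exact h3

/-- the vector described by a reference; `Rt` lists the powers of the rotation -/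
def refVec2 (Rt : List (List (List (ℕ × List ℤ)))) (F : List (List (ℕ × List ℤ)))
    (G Y : List (List (List ℤ))) (t : ℕ × ℕ × ℕ × ℕ × ℕ × List ℕ) : List (List ℤ) :=
  vscal (scP t.2.2.2.2.1 t.2.2.2.2.2)
    (if t.2.2.1 = 0 then
      (if t.2.2.2.1 = 0 then (if t.1 = 0 then G.getD t.2.1 [] else Y.getD t.2.1 [])
        else appP F (if t.1 = 0 then G.getD t.2.1 [] else Y.getD t.2.1 []))
      else appP (Rt.getD t.2.2.1 [])
        (if t.2.2.2.1 = 0 then (if t.1 = 0 then G.getD t.2.1 [] else Y.getD t.2.1 [])
        else appP F (if t.1 = 0 then G.getD t.2.1 [] else Y.getD t.2.1 [])))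

def refOK2 (Rt : List (List (List (ℕ × List ℤ)))) (F : List (List (ℕ × List ℤ)))
    (G Y : List (List (List ℤ))) (w : ℕ) (D : List (ℕ × List ℕ × List (ℕ × List ℕ)))
    (good : Bool) (M : List (List (ℕ × List ℤ)))
    (e : List (List ℤ) × (ℕ × ℕ × ℕ × ℕ × ℕ × List ℕ)) : Bool :=
  if e.2.1 = 2 then !good && (appP M e.1).all isZ else
    (if e.2.1 = 0 then decide (e.2.2.1 < G.length) else decide (e.2.2.1 < Y.length)) &&
    decide (0 < e.2.2.2.2.2.1) && decide (e.2.2.2.1 < Rt.length) && (!good || refFlag w D e.2) &&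
    veq (appP M e.1) (refVec2 Rt F G Y e.2)

theorem all_isZ {y : List (List ℤ)} (hz : y.all isZ = true) : evv y q = fun _ => 0 := by
  funext i
  unfold evv
  simp only [List.all_eq_true] at hz
  by_cases hi : i < y.length
  · have : y.getD i [] = y[i] := by simp [List.getD, List.getElem?_eq_getElem hi]
    rw [this]
    exact ev_isZ (hz _ (List.getElem_mem hi)) q
  · have : y.getD i [] = [] := by simp [List.getD, List.getElem?_eq_none (not_lt.1 hi)]
    rw [this]; rfl

theorem ref_sound2 {u v : List ℤ} (hu : 0 < ev u q) (hv : 0 < ev v q) (hq : 3 < q)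
    {Rt : List (List (List (ℕ × List ℤ)))} {F : List (List (ℕ × List ℤ))}
    {Y : List (List (List ℤ))} {D : List (ℕ × List ℕ × List (ℕ × List ℕ))}
    (hR : ∀ s, s ≠ 0 → s < Rt.length → ClosedS q G w (app (Rt.getD s []) q))
    (hF : ClosedS q G w (app F q))
    (hD : certsOK u v G Y D = true) {good : Bool} {M : List (List (ℕ × List ℤ))}
    {e : List (List ℤ) × (ℕ × ℕ × ℕ × ℕ × ℕ × List ℕ)} (h : refOK2 Rt F G Y w D good M e = true) :
    K q G w good (app M q (evv e.1 q)) := by
  rw [← evv_appP]
  unfold refOK2 at h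
  by_cases h2 : e.2.1 = 2
  · rw [if_pos h2] at h
    simp only [Bool.and_eq_true, Bool.not_eq_true'] at h
    obtain ⟨hg, hz⟩ := h
    subst hg
    rw [all_isZ hz]
    exact K.zero
  · rw [if_neg h2] at h
    simp only [Bool.and_eq_true, decide_eq_true_eq, Bool.or_eq_true, Bool.not_eq_true'] at h
    obtain ⟨⟨⟨⟨hidx, hc⟩, hs⟩, hgood⟩, heq⟩ := h
    have hbase : K q G w (refFlag w D e.2)
        (evv (if e.2.1 = 0 then G.getD e.2.2.1 [] else Y.getD e.2.2.1 []) q) := by
      unfold refFlag
      by_cases h0 : e.2.1 = 0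
      · simp only [if_pos h0, decide_eq_true_eq] at hidx ⊢
        exact K_gen _ hidx
      · simp only [if_neg h0, decide_eq_true_eq] at hidx ⊢
        exact K_target hu hv hq hD _ hidx
    have hbase1 : K q G w (refFlag w D e.2)
        (evv (if e.2.2.2.2.1 = 0 then (if e.2.1 = 0 then G.getD e.2.2.1 [] else Y.getD e.2.2.1 [])
          else appP F (if e.2.1 = 0 then G.getD e.2.2.1 [] else Y.getD e.2.2.1 [])) q) := by
      by_cases h0 : e.2.2.2.2.1 = 0
      · rw [if_pos h0]; exact hbase
      · rw [if_neg h0, evv_appP]; exact hF _ _ hbase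
    have hbase2 : K q G w (refFlag w D e.2) (evv
        (if e.2.2.2.1 = 0 then
      (if e.2.2.2.2.1 = 0 then (if e.2.1 = 0 then G.getD e.2.2.1 [] else Y.getD e.2.2.1 [])
        else appP F (if e.2.1 = 0 then G.getD e.2.2.1 [] else Y.getD e.2.2.1 []))
      else appP (Rt.getD e.2.2.2.1 [])
        (if e.2.2.2.2.1 = 0 then (if e.2.1 = 0 then G.getD e.2.2.1 [] else Y.getD e.2.2.1 [])
        else appP F (if e.2.1 = 0 then G.getD e.2.2.1 [] else Y.getD e.2.2.1 []))) q) := by
      by_cases h0 : e.2.2.2.1 = 0
      · rw [if_pos h0]; exact hbase1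
      · rw [if_neg h0, evv_appP]; exact hR _ h0 hs _ _ hbase1
    have hK : K q G w (refFlag w D e.2) (evv (refVec2 Rt F G Y e.2) q) := by
      unfold refVec2
      have : ∀ z : List (List ℤ), evv (vscal (scP e.2.2.2.2.2.1 e.2.2.2.2.2.2) z) q =
          fun i => ev (scP e.2.2.2.2.2.1 e.2.2.2.2.2.2) q * evv z q i := by
        intro z; funext i; exact evv_vscal _ _ _ _
      rw [this]
      exact K.smul _ _ _ (scP_pos hq hc _) hbase2
    rw [evv_veq heq q]
    rcases hgood with hg | hg
    · subst hg
      cases hf : refFlag w D e.2 with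
      | true => rw [hf] at hK; exact K.weak _ hK
      | false => rw [hf] at hK; exact hK
    · rw [hg] at hK
      cases good with
      | true => exact hK
      | false => exact K.weak _ hK

theorem refs_sound2 {u v : List ℤ} (hu : 0 < ev u q) (hv : 0 < ev v q) (hq : 3 < q)
    {M : List (List (ℕ × List ℤ))}
    {Rt : List (List (List (ℕ × List ℤ)))} {F' : List (List (ℕ × List ℤ))}
    {Y' : List (List (List ℤ))} {D' : List (ℕ × List ℕ × List (ℕ × List ℕ))}
    (hR' : ∀ s, s ≠ 0 → s < Rt.length → ClosedS q G' w' (app (Rt.getD s []) q))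
    (hF' : ClosedS q G' w' (app F' q))
    (hD' : certsOK u v G' Y' D' = true) {refs : List (ℕ × ℕ × ℕ × ℕ × ℕ × List ℕ)}
    (hl : G.length = refs.length)
    (h1 : ((G.take w).zip (refs.take w)).all (refOK2 Rt F' G' Y' w' D' true M) = true)
    (h2 : ((G.drop w).zip (refs.drop w)).all (refOK2 Rt F' G' Y' w' D' false M) = true)
    {b : Bool} {x : ℕ → ℝ} (hx : K q G w b x) : K q G' w' b (app M q x) := by
  simp only [List.all_eq_true] at h1 h2
  have good : ∀ g ∈ G.take w, K q G' w' true (app M q (evv g q)) := by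
    intro g hg
    obtain ⟨t, ht⟩ := exists_zip (l' := refs.take w) (by simp [hl]) hg
    exact ref_sound2 hu hv hq hR' hF' hD' (h1 _ ht)
  refine K_map (lin_app M q) good ?_ hx
  intro g hg
  rw [← List.take_append_drop w G] at hg
  rcases List.mem_append.1 hg with hg | hg
  · exact K.weak _ (good g hg)
  · obtain ⟨t, ht⟩ := exists_zip (l' := refs.drop w) (by simp [hl]) hg
    exact ref_sound2 hu hv hq hR' hF' hD' (h2 _ ht)

end Pool.Agent.TH389.BL
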