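import Pool.Agent.TH389.BL.Tables
import Pool.Agent.TH389.BL.Cone

/-! Identities between the operations on discs of perimeter six and seven. -/

set_option autoImplicit false

namespace Pool.Agent.TH389.BL

/-- basis vector -/
def bv (m j : ℕ) : List (List ℤ) := (List.range m).map fun i => if i = j then [1] else []

theorem evv_bv (m j : ℕ) (q : ℝ) (i : ℕ) : evv (bv m j) q i = if i = j ∧ i < m then 1 else 0 := by
  unfold evv bv
  by_cases hi : i < m
  · have : ((List.range m).map fun i => if i = j then ([1] : List ℤ) else []).getD i [] =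
        if i = j then [1] else [] := by
      simp [List.getD, hi]
    rw [this]
    by_cases hij : i = j
    · simp [hij, ev]; omega
    · simp [hij, ev]
  · have : ((List.range m).map fun i => if i = j then ([1] : List ℤ) else []).getD i [] = [] := by
      simp [List.getD, hi]
    rw [this]
    simp [hi, ev]

theorem lin_eq_of_basis {f f' : (ℕ → ℝ) → (ℕ → ℝ)} (hf : Lin f) (hf' : Lin f') (m : ℕ)
    (h : ∀ j < m, f (fun i => if i = j then 1 else 0) = f' (fun i => if i = j then 1 else 0)) :
    ∀ x : ℕ → ℝ, (∀ i, m ≤ i → x i = 0) → f x = f' x := by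
  induction m with
  | zero =>
    intro x hx
    have : x = fun _ => 0 := funext fun i => hx i (Nat.zero_le i)
    rw [this, hf.zero, hf'.zero]
  | succ m ih =>
    intro x hx
    have hx1 : x = fun i => (fun i => if i = m then 0 else x i) i +
        (fun i => x m * (fun i => if i = m then (1 : ℝ) else 0) i) i := by
      funext i
      by_cases hi : i = m
      · simp [hi]
      · simp [hi]
    rw [hx1, hf.add, hf'.add, hf.smul, hf'.smul, h m (Nat.lt_succ_self m)]
    rw [ih (fun j hj => h j (by omega)) (fun i => if i = m then 0 else x i)]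
    intro i hi
    by_cases hi' : i = m
    · simp [hi']
    · simp only [if_neg hi']
      exact hx i (by omega)

def idOK (m : ℕ) (f f' : List (List ℤ) → List (List ℤ)) : Bool :=
  (List.range m).all fun j => veq (f (bv m j)) (f' (bv m j))

theorem id_sound {q : ℝ} {m : ℕ} {f f' : List (List ℤ) → List (List ℤ)}
    {F F' : (ℕ → ℝ) → (ℕ → ℝ)} (hF : Lin F) (hF' : Lin F') (hf : ∀ g, evv (f g) q = F (evv g q))
    (hf' : ∀ g, evv (f' g) q = F' (evv g q)) (h : idOK m f f' = true) (x : ℕ → ℝ)
    (hx : ∀ i, m ≤ i → x i = 0) : F x = F' x := by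
  refine lin_eq_of_basis hF hF' m ?_ x hx
  intro j hj
  simp only [idOK, List.all_eq_true, List.mem_range] at h
  have h1 := evv_veq (h j hj) q
  have hb : evv (bv m j) q = fun i => if i = j then 1 else 0 := by
    funext i
    rw [evv_bv]
    by_cases hij : i = j
    · subst hij; simp [hj]
    · simp [hij]
  rw [hf, hf', hb] at h1
  exact h1

theorem K_support {q : ℝ} {G : List (List (List ℤ))} {w m : ℕ}
    (h : (G.all fun g => decide (g.length ≤ m)) = true) {b : Bool} {x : ℕ → ℝ}
    (hx : K q G w b x) : ∀ i, m ≤ i → x i = 0 := by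
  have key : ∀ g ∈ G, ∀ i, m ≤ i → evv g q i = 0 := by
    intro g hg i hi
    simp only [List.all_eq_true, decide_eq_true_eq] at h
    have h1 := h g hg
    unfold evv
    have : g.getD i [] = [] := by simp [List.getD, List.getElem?_eq_none (by omega : g.length ≤ i)]
    rw [this]; rfl
  induction hx with
  | zero => intro i _; rfl
  | good g hg => exact key g (List.mem_of_mem_take hg)
  | bad g hg => exact key g hg
  | smul b c x hc _ ih => intro i hi; simp [ih i hi]
  | add b b' x y _ _ ih1 ih2 => intro i hi; simp [ih1 i hi, ih2 i hi]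
  | weak x _ ih => exact ih

theorem id0 : idOK 15 (fun g => appP C7 (appP T6 g)) (fun g => vscal [-2, 1] g) = true := by
  decide +kernel
theorem id2 : idOK 15 (fun g => appP C7 (iterP R7 2 (appP T6 g)))
    (fun g => iterP R6 2 (appP T5 (iterP R5 4 (appP C6 (iterP R6 1 g))))) = true := by
  decide +kernel
theorem id3 : idOK 15 (fun g => appP C7 (iterP R7 3 (appP T6 g)))
    (fun g => iterP R6 3 (appP T5 (iterP R5 3 (appP C6 (iterP R6 2 g))))) = true := by
  decide +kernel
theorem id4 : idOK 15 (fun g => appP C7 (iterP R7 4 (appP T6 g)))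
    (fun g => iterP R6 4 (appP T5 (iterP R5 2 (appP C6 (iterP R6 3 g))))) = true := by
  decide +kernel
theorem id5 : idOK 15 (fun g => appP C7 (iterP R7 5 (appP T6 g)))
    (fun g => iterP R6 5 (appP T5 (iterP R5 1 (appP C6 (iterP R6 4 g))))) = true := by
  decide +kernel
theorem id6 : idOK 15 (fun g => appP C7 (iterP R7 6 (appP T6 g)))
    (fun g => iterP R6 5 (appP C7 (appP R7 (appP T6 (iterP R6 5 g))))) = true := by
  decide +kernel
theorem id7 : idOK 15 (fun g => iterP R7 7 (appP T6 g)) (fun g => appP T6 g) = true := by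
  decide +kernel

theorem iterate_mod {α : Type} (f : α → α) (y : α) (h : f^[7] y = y) (s : ℕ) :
    f^[s] y = f^[s % 7] y := by
  conv_lhs => rw [← Nat.mod_add_div s 7]
  rw [Function.iterate_add_apply, Function.iterate_mul, Function.iterate_fixed h]

variable {q : ℝ}

theorem lin3 : Lin (fun x => app C7 q (app R7 q (app T6 q x))) :=
  (lin_app C7 q).comp ((lin_app R7 q).comp (lin_app T6 q))

theorem linTC (a c d : ℕ) : Lin (fun x => (app R6 q)^[a] (app T5 q ((app R5 q)^[c]
      (app C6 q ((app R6 q)^[d] x))))) :=
  ((lin_app R6 q).iter a).comp ((lin_app T5 q).comp (((lin_app R5 q).iter c).comp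
    ((lin_app C6 q).comp ((lin_app R6 q).iter d))))

theorem linL (t : ℕ) : Lin (fun x => app C7 q ((app R7 q)^[t] (app T6 q x))) :=
  (lin_app C7 q).comp (((lin_app R7 q).iter t).comp (lin_app T6 q))

/-- closing a disc of perimeter seven which arose from one of perimeter six -/
theorem ring7_gen {G5 G6 : List (List (List ℤ))} {w5 w6 : ℕ} (h2q : 2 < q)
    (hlen : (G6.all fun g => decide (g.length ≤ 15)) = true)
    (kM : ∀ x, K q G6 w6 true x → K q G6 w6 true (app C7 q (app R7 q (app T6 q x))))
    (kC6 : ∀ x, K q G6 w6 true x → K q G5 w5 true (app C6 q x))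
    (kT5 : ∀ x, K q G5 w5 true x → K q G6 w6 true (app T5 q x))
    (clR5 : closedOK R5 G5 w5 = true) (clR6 : closedOK R6 G6 w6 = true)
    (s : ℕ) {x : ℕ → ℝ} (hx : K q G6 w6 true x) :
    K q G6 w6 true (app C7 q ((app R7 q)^[s] (app T6 q x))) := by
  have hsup := K_support hlen hx
  have kTC : ∀ a c d : ℕ, K q G6 w6 true ((app R6 q)^[a] (app T5 q ((app R5 q)^[c]
      (app C6 q ((app R6 q)^[d] x))))) := fun a c d =>
    K_iter clR6 a (kT5 _ (K_iter clR5 c (kC6 _ (K_iter clR6 d hx))))
  have idTC : ∀ {t a c d : ℕ}, idOK 15 (fun g => appP C7 (iterP R7 t (appP T6 g)))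
      (fun g => iterP R6 a (appP T5 (iterP R5 c (appP C6 (iterP R6 d g))))) = true →
      K q G6 w6 true (app C7 q ((app R7 q)^[t] (app T6 q x))) := by
    intro t a c d h
    have := id_sound (q := q) (linL (q := q) t) (linTC (q := q) a c d)
      (fun g => by simp only [evv_appP, evv_iterP]) (fun g => by simp only [evv_appP, evv_iterP])
      h x hsup
    rw [this]
    exact kTC a c d
  have h7 : (app R7 q)^[7] (app T6 q x) = app T6 q x :=
    id_sound (q := q) (F := fun x => (app R7 q)^[7] (app T6 q x)) (F' := fun x => app T6 q x)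
      (((lin_app R7 q).iter 7).comp (lin_app T6 q)) (lin_app T6 q)
      (fun g => by simp only [evv_appP, evv_iterP]) (fun g => by simp only [evv_appP])
      id7 x hsup
  rw [iterate_mod _ _ h7 s]
  have hs : s % 7 < 7 := Nat.mod_lt _ (by norm_num)
  generalize s % 7 = t at hs
  interval_cases t
  · have h0 : app C7 q ((app R7 q)^[0] (app T6 q x)) = fun i => ev [-2, 1] q * x i := by
      refine id_sound (q := q) (F := fun x => app C7 q ((app R7 q)^[0] (app T6 q x)))
        (F' := fun x => fun i => ev [-2, 1] q * x i) (linL 0) ?_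
        (fun g => by simp only [evv_appP, Function.iterate_zero, id_eq]) ?_ id0 x hsup
      · refine ⟨fun x y => ?_, fun c x => ?_⟩
        · funext i; ring
        · funext i; ring
      · intro g
        funext i
        exact evv_vscal _ _ _ _
    rw [h0]
    refine K.smul _ _ _ ?_ hx
    simp only [ev]; push_cast; linarith
  · exact kM _ hx
  · exact idTC id2
  · exact idTC id3
  · exact idTC id4
  · exact idTC id5
  · have h6 : app C7 q ((app R7 q)^[6] (app T6 q x)) =
        (app R6 q)^[5] (app C7 q (app R7 q (app T6 q ((app R6 q)^[5] x)))) :=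
      id_sound (q := q) (F := fun x => app C7 q ((app R7 q)^[6] (app T6 q x)))
        (F' := fun x => (app R6 q)^[5] (app C7 q (app R7 q (app T6 q ((app R6 q)^[5] x)))))
        (linL 6) (((lin_app R6 q).iter 5).comp (lin3.comp ((lin_app R6 q).iter 5)))
        (fun g => by simp only [evv_appP, evv_iterP]) (fun g => by simp only [evv_appP, evv_iterP])
        id6 x hsup
    rw [h6]
    exact K_iter clR6 5 (kM _ (K_iter clR6 5 hx))

/-! ### Positivity of the last coordinate -/

/-- coefficients of `p (4 + t)` -/
def shift4 : List ℤ → List ℤ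
  | [] => []
  | a :: p => padd [a] (pmul [4, 1] (shift4 p))

theorem ev_shift4 (p : List ℤ) (t : ℝ) : ev (shift4 p) t = ev p (4 + t) := by
  induction p with
  | nil => rfl
  | cons a p ih =>
    simp only [shift4, ev_padd, ev_pmul, ih, ev]
    push_cast
    ring

def posOK (p : List ℤ) : Bool := p.all (fun c => decide (0 ≤ c)) && p.any (fun c => decide (0 < c))

theorem ev_nonneg_of_all {p : List ℤ} (h : p.all (fun c => decide (0 ≤ c)) = true) {t : ℝ}
    (ht : 0 < t) : 0 ≤ ev p t := by
  induction p with
  | nil => simp [ev]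
  | cons a p ih =>
    simp only [List.all_cons, Bool.and_eq_true, decide_eq_true_eq] at h
    have h1 : (0 : ℝ) ≤ (a : ℝ) := by exact_mod_cast h.1
    have h2 := ih (by simpa using h.2)
    simp only [ev]
    positivity

theorem ev_pos_of_posOK {p : List ℤ} (h : posOK p = true) {t : ℝ} (ht : 0 < t) : 0 < ev p t := by
  unfold posOK at h
  rw [Bool.and_eq_true] at h
  obtain ⟨h1, h2⟩ := h
  induction p with
  | nil => simp at h2
  | cons a p ih =>
    simp only [List.all_cons, List.any_cons, Bool.and_eq_true, Bool.or_eq_true,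
      decide_eq_true_eq] at h1 h2
    have ha : (0 : ℝ) ≤ (a : ℝ) := by exact_mod_cast h1.1
    have hp : 0 ≤ ev p t := ev_nonneg_of_all (by simpa using h1.2) ht
    simp only [ev]
    rcases h2 with h2 | h2
    · have : (0 : ℝ) < (a : ℝ) := by exact_mod_cast h2
      positivity
    · have := ih (by simpa using h1.2) (by simpa using h2)
      positivity

/-- the coordinates `i` of all vectors of `G` are positive for `q > 4` -/
def lastOK (G : List (List (List ℤ))) (i : ℕ) : Bool := G.all fun g => posOK (shift4 (g.getD i []))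

theorem last_sound {G : List (List (List ℤ))} {w i : ℕ} (h : lastOK G i = true)
    (hq : 4 < q) {x : ℕ → ℝ} (hx : K q G w true x) : 0 < x i := by
  refine (K_pos (i := i) ?_ hx).2 rfl
  intro g hg
  simp only [lastOK, List.all_eq_true] at h
  have h1 := ev_pos_of_posOK (h g hg) (t := q - 4) (by linarith)
  rw [ev_shift4] at h1
  have : (4 : ℝ) + (q - 4) = q := by ring
  rw [this] at h1
  exact h1

end Pool.Agent.TH389.BL
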