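import Pool.Agent.TH389.BL.Pack2

/-! Faster lookups: a vector is packed into one number. -/

set_option autoImplicit false

namespace Pool.Agent.TH389.BL

variable {q : ℝ} {G G' : List (List (List ℤ))} {w w' : ℕ}

@[irreducible] def DD : ℕ := Nat.pow 2 2496

theorem hDD : BB ^ 12 = DD := by
  unfold BB DD
  show (2 ^ 208) ^ 12 = 2 ^ 2496
  rw [← pow_mul]

theorem hDD0 : 0 < DD := by rw [← hDD]; exact Nat.pow_pos hBB

def packD (z : List ℕ) : ℕ := z.foldr (fun x acc => Nat.add x (Nat.mul DD acc)) 0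

def lk (Z i : ℕ) : ℕ := Nat.mod (Nat.div Z (Nat.pow DD i)) DD

theorem lk_pack {z : List ℕ} (h : ∀ x ∈ z, x < DD) (i : ℕ) : lk (packD z) i = z.getD i 0 := by
  induction z generalizing i with
  | nil =>
    show (0 / DD ^ i) % DD = _
    simp
  | cons x z ih =>
    have h1 := h x List.mem_cons_self
    have h2 := ih fun y hy => h y (List.mem_cons_of_mem _ hy)
    cases i with
    | zero =>
      show ((x + DD * packD z) / DD ^ 0) % DD = x
      rw [pow_zero, Nat.div_one, Nat.add_mul_mod_self_left, Nat.mod_eq_of_lt h1]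
    | succ i =>
      show ((x + DD * packD z) / DD ^ (i + 1)) % DD = _
      rw [pow_succ', ← Nat.div_div_eq_div_mul, Nat.add_mul_div_left _ _ hDD0,
        Nat.div_eq_of_lt h1, zero_add, List.getD_cons_succ]
      exact h2 i

def appl (M : List (List (ℕ × List ℤ))) (Z : ℕ) : List ℕ :=
  M.map fun row => row.foldr (fun e acc => Nat.add (Nat.mul (resP e.2) (lk Z e.1)) acc) 0

theorem appl_pack {z : List ℕ} (h : ∀ x ∈ z, x < DD) (M : List (List (ℕ × List ℤ))) :
    appl M (packD z) = appz M z := by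
  unfold appl appz
  simp only [lk_pack h]

def idxM (idx : List ℕ) : List (List (ℕ × List ℤ)) := idx.map fun j => [(j, [1])]

def perml (idx : List ℕ) (Z : ℕ) : List ℕ := idx.map (lk Z)

theorem resP_one : resP [1] = 1 := by decide +kernel

theorem perml_pack {z : List ℕ} (h : ∀ x ∈ z, x < DD) (idx : List ℕ) :
    perml idx (packD z) = appz (idxM idx) z := by
  unfold perml appz idxM
  rw [List.map_map]
  apply List.map_congr_left
  intro j _
  simp only [Function.comp, List.foldr_cons, List.foldr_nil, resP_one]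
  rw [lk_pack h]
  show _ = 1 * z.getD j 0 + 0
  rw [one_mul, add_zero]

theorem lk_lt (Z i : ℕ) : lk Z i < DD := Nat.mod_lt _ hDD0

theorem perml_lt (idx : List ℕ) (Z : ℕ) : ∀ x ∈ perml idx Z, x < DD := by
  intro x hx
  unfold perml at hx
  rw [List.mem_map] at hx
  obtain ⟨j, _, rfl⟩ := hx
  exact lk_lt _ _

def Bd (Gz : List (List ℕ)) : Prop := ∀ z ∈ Gz, ∀ x ∈ z, x < DD

theorem Bd_of {Gz : List (List ℕ)} (h : (Gz.all fun z => z.all chkz) = true) : Bd Gz := by
  intro z hz x hx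
  simp only [List.all_eq_true] at h
  have h1 := h z hz x hx
  simp only [chkz, Bool.and_eq_true] at h1
  have h2 : x + offs 12 < BB ^ 12 := Nat.le_of_ble_eq_true h1.2
  rw [← hDD]
  omega

theorem Bd.getD {Gz : List (List ℕ)} (h : Bd Gz) (i : ℕ) : ∀ x ∈ Gz.getD i [], x < DD := by
  by_cases hi : i < Gz.length
  · have : Gz.getD i [] = Gz[i] := by simp [List.getD, List.getElem?_eq_getElem hi]
    rw [this]; exact h _ (List.getElem_mem hi)
  · have : Gz.getD i [] = [] := by simp [List.getD, List.getElem?_eq_none (not_lt.1 hi)]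
    rw [this]; intro x hx; simp at hx

def permOKl (idx : List ℕ) (Gz : List (List ℕ)) (m : ℕ) (e : List ℕ × ℕ) : Bool :=
  decide (e.2 < m) && decide (e.2 < Gz.length) && eqz (perml idx (packD e.1)) (Gz.getD e.2 [])

theorem permOKl_eq {idx : List ℕ} {Gz : List (List ℕ)} {m : ℕ} {e : List ℕ × ℕ}
    (h : ∀ x ∈ e.1, x < DD) : permOKl idx Gz m e = permOKz (idxM idx) Gz m e := by
  unfold permOKl permOKz
  rw [perml_pack h]

theorem rows_idxM (idx : List ℕ) : rowsOK 1 1 (idxM idx) = true := by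
  unfold rowsOK idxM
  rw [List.all_map, List.all_eq_true]
  intro j _
  rfl

theorem closed_perml {idx : List ℕ} {Gz : List (List ℕ)} {perm : List ℕ}
    (hG : PkAll G Gz) (hB : Bd Gz) (hl : Gz.length = perm.length)
    (h1 : ((Gz.take w).zip (perm.take w)).all (permOKl idx Gz w) = true)
    (h2 : ((Gz.drop w).zip (perm.drop w)).all (permOKl idx Gz Gz.length) = true) :
    ClosedS q G w (app (idxM idx) q) := by
  refine closed_permz hG (rows_idxM idx) hl ?_ ?_
  · rw [List.all_eq_true] at h1 ⊢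
    intro e he
    rw [← permOKl_eq]
    · exact h1 e he
    · exact hB _ (List.mem_of_mem_take (List.of_mem_zip (a := e.1) (b := e.2) he).1)
  · rw [List.all_eq_true] at h2 ⊢
    intro e he
    rw [← permOKl_eq]
    · exact h2 e he
    · exact hB _ (List.mem_of_mem_drop (List.of_mem_zip (a := e.1) (b := e.2) he).1)

def refVecl (Ri : List (List ℕ)) (Fi : List ℕ)
    (Gz Yz : List (List ℕ)) (t : ℕ × ℕ × ℕ × ℕ × ℕ × List ℕ) : List ℕ :=
  zscal (resP (scP t.2.2.2.2.1 t.2.2.2.2.2))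
    (if t.2.2.1 = 0 then
      (if t.2.2.2.1 = 0 then (if t.1 = 0 then Gz.getD t.2.1 [] else Yz.getD t.2.1 [])
        else perml Fi (packD (if t.1 = 0 then Gz.getD t.2.1 [] else Yz.getD t.2.1 [])))
      else perml (Ri.getD t.2.2.1 [])
        (packD (if t.2.2.2.1 = 0 then (if t.1 = 0 then Gz.getD t.2.1 [] else Yz.getD t.2.1 [])
        else perml Fi (packD (if t.1 = 0 then Gz.getD t.2.1 [] else Yz.getD t.2.1 [])))))

theorem refVecl_eq {Ri : List (List ℕ)} {Fi : List ℕ} {Gz Yz : List (List ℕ)} (hG : Bd Gz)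
    (hY : Bd Yz) (t : ℕ × ℕ × ℕ × ℕ × ℕ × List ℕ) :
    refVecl Ri Fi Gz Yz t = refVecz (Ri.map idxM) (idxM Fi) Gz Yz t := by
  have hb : ∀ x ∈ (if t.1 = 0 then Gz.getD t.2.1 [] else Yz.getD t.2.1 []), x < DD := by
    by_cases h0 : t.1 = 0
    · rw [if_pos h0]; exact hG.getD _
    · rw [if_neg h0]; exact hY.getD _
  have hb1 : ∀ x ∈ (if t.2.2.2.1 = 0 then (if t.1 = 0 then Gz.getD t.2.1 [] else Yz.getD t.2.1 [])
        else perml Fi (packD (if t.1 = 0 then Gz.getD t.2.1 [] else Yz.getD t.2.1 []))),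
        x < DD := by
    by_cases h0 : t.2.2.2.1 = 0
    · rw [if_pos h0]; exact hb
    · rw [if_neg h0]; exact perml_lt _ _
  have hr : (Ri.map idxM).getD t.2.2.1 [] = idxM (Ri.getD t.2.2.1 []) := by
    rw [List.getD_eq_getElem?_getD, List.getD_eq_getElem?_getD, List.getElem?_map]
    cases Ri[t.2.2.1]? with
    | none => rfl
    | some a => rfl
  unfold refVecl refVecz
  rw [hr, perml_pack hb1, perml_pack hb]

def refOKl (Ri : List (List ℕ)) (Fi : List ℕ)
    (Gz Yz : List (List ℕ)) (w : ℕ) (D : List (ℕ × List ℕ × List (ℕ × List ℕ)))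
    (good : Bool) (M : List (List (ℕ × List ℤ)))
    (e : List ℕ × (ℕ × ℕ × ℕ × ℕ × ℕ × List ℕ)) : Bool :=
  if e.2.1 = 2 then !good && zeroz (appl M (packD e.1)) else
    (if e.2.1 = 0 then decide (e.2.2.1 < Gz.length) else decide (e.2.2.1 < Yz.length)) &&
    decide (0 < e.2.2.2.2.2.1) && decide (e.2.2.2.1 < Ri.length) && (!good || refFlag w D e.2) &&
    decide ((5 + nrm (scP e.2.2.2.2.2.1 e.2.2.2.2.2.2)) * LL < BB) &&
    decide ((scP e.2.2.2.2.2.1 e.2.2.2.2.2.2).length + 14 ≤ 32) &&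
    eqz (appl M (packD e.1)) (refVecl Ri Fi Gz Yz e.2)

theorem refOKl_eq {Ri : List (List ℕ)} {Fi : List ℕ} {Gz Yz : List (List ℕ)} (hG : Bd Gz)
    (hY : Bd Yz) {w : ℕ} {D : List (ℕ × List ℕ × List (ℕ × List ℕ))}
    {good : Bool} {M : List (List (ℕ × List ℤ))}
    {e : List ℕ × (ℕ × ℕ × ℕ × ℕ × ℕ × List ℕ)} (h : ∀ x ∈ e.1, x < DD) :
    refOKl Ri Fi Gz Yz w D good M e = refOKz (Ri.map idxM) (idxM Fi) Gz Yz w D good M e := by
  unfold refOKl refOKz
  rw [appl_pack h, refVecl_eq hG hY, List.length_map]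

theorem refs_soundl (hq : 3 < q)
    {Ri : List (List ℕ)} {Fi : List ℕ}
    {Y' : List (List (List ℤ))} {Gz Gz' Yz' : List (List ℕ)}
    {D' : List (ℕ × List ℕ × List (ℕ × List ℕ))}
    (hG : PkAll G Gz) (hG' : PkAll G' Gz') (hY' : PkAll Y' Yz')
    (bG : Bd Gz) (bG' : Bd Gz') (bY' : Bd Yz')
    (hR' : ∀ s, s ≠ 0 → s < Ri.length → ClosedS q G' w' (app (idxM (Ri.getD s [])) q))
    (hF' : ClosedS q G' w' (app (idxM Fi) q))
    (hT : ∀ i < Yz'.length, K q G' w' ((D'.getD i (0, [], [])).2.2.any fun e => decide (e.1 < w'))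
      (evv (Y'.getD i []) q))
    {M : List (List (ℕ × List ℤ))} (hM : rowsOK 5 2 M = true)
    {refs : List (ℕ × ℕ × ℕ × ℕ × ℕ × List ℕ)}
    (hl : Gz.length = refs.length)
    (h1 : ((Gz.take w).zip (refs.take w)).all (refOKl Ri Fi Gz' Yz' w' D' true M) = true)
    (h2 : ((Gz.drop w).zip (refs.drop w)).all (refOKl Ri Fi Gz' Yz' w' D' false M) = true)
    {b : Bool} {x : ℕ → ℝ} (hx : K q G w b x) : K q G' w' b (app M q x) := by
  have hr : ∀ s, (Ri.map idxM).getD s [] = idxM (Ri.getD s []) := by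
    intro s
    rw [List.getD_eq_getElem?_getD, List.getD_eq_getElem?_getD, List.getElem?_map]
    cases Ri[s]? with
    | none => rfl
    | some a => rfl
  refine refs_soundz hq hG hG' hY' (Rt := Ri.map idxM) (F := idxM Fi) ?_ (rows_idxM Fi) ?_ hF' hT hM
    hl ?_ ?_ hx
  · rw [List.all_eq_true]
    intro M' hM'
    rw [List.mem_map] at hM'
    obtain ⟨i, _, rfl⟩ := hM'
    exact rows_idxM i
  · intro s h0 hs
    rw [List.length_map] at hs
    rw [hr]
    exact hR' s h0 hs
  · rw [List.all_eq_true] at h1 ⊢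
    intro e he
    rw [← refOKl_eq bG' bY']
    · exact h1 e he
    · exact bG _ (List.mem_of_mem_take (List.of_mem_zip (a := e.1) (b := e.2) he).1)
  · rw [List.all_eq_true] at h2 ⊢
    intro e he
    rw [← refOKl_eq bG' bY']
    · exact h2 e he
    · exact bG _ (List.mem_of_mem_drop (List.of_mem_zip (a := e.1) (b := e.2) he).1)

end Pool.Agent.TH389.BL
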