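import Pool.Agent.TH389.BL.Ids8
import Pool.Agent.TH389.BL.Pack3

/-! Rotations and reflections as index lists. -/

set_option autoImplicit false

namespace Pool.Agent.TH389.BL

def iR6 : List ℕ := [5, 4, 6, 8, 9, 0, 10, 11, 12, 1, 13, 2, 3, 7, 14]
def iF6 : List ℕ := [5, 1, 13, 12, 9, 0, 10, 11, 8, 4, 6, 7, 3, 2, 14]
def iP6_2 : List ℕ := [0, 9, 10, 12, 1, 5, 13, 2, 3, 4, 7, 6, 8, 11, 14]
def iP6_3 : List ℕ := [5, 1, 13, 3, 4, 0, 7, 6, 8, 9, 11, 10, 12, 2, 14]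
def iP6_4 : List ℕ := [0, 4, 7, 8, 9, 5, 11, 10, 12, 1, 2, 13, 3, 6, 14]
def iP6_5 : List ℕ := [5, 9, 11, 12, 1, 0, 2, 13, 3, 4, 6, 7, 8, 10, 14]
def iR7 : List ℕ := [11, 12, 13, 9, 10, 14, 17, 16, 18, 20, 21, 22, 0, 19, 23, 25, 26, 1, 27, 28, 29, 2, 6, 30, 31, 32, 3, 33, 4, 7, 34, 5, 8, 15, 24, 35]
def iF7 : List ℕ := [22, 17, 13, 7, 4, 34, 12, 3, 33, 29, 28, 11, 6, 2, 30, 32, 26, 1, 27, 21, 20, 19, 0, 23, 31, 25, 16, 18, 10, 9, 14, 24, 15, 8, 5, 35]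
def iP7_2 : List ℕ := [22, 0, 19, 20, 21, 23, 1, 26, 27, 29, 2, 6, 11, 28, 30, 32, 3, 12, 33, 4, 7, 13, 17, 34, 5, 8, 9, 15, 10, 16, 24, 14, 18, 25, 31, 35]
def iP7_3 : List ℕ := [6, 11, 28, 29, 2, 30, 12, 3, 33, 7, 13, 17, 22, 4, 34, 8, 9, 0, 15, 10, 16, 19, 1, 24, 14, 18, 20, 25, 21, 26, 31, 23, 27, 32, 5, 35]
def iP7_4 : List ℕ := [17, 22, 4, 7, 13, 34, 0, 9, 15, 16, 19, 1, 6, 10, 24, 18, 20, 11, 25, 21, 26, 28, 12, 31, 23, 27, 29, 32, 2, 3, 5, 30, 33, 8, 14, 35]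
def iP7_5 : List ℕ := [1, 6, 10, 16, 19, 24, 11, 20, 25, 26, 28, 12, 17, 21, 31, 27, 29, 22, 32, 2, 3, 4, 0, 5, 30, 33, 7, 8, 13, 9, 14, 34, 15, 18, 23, 35]
def iP7_6 : List ℕ := [12, 17, 21, 26, 28, 31, 22, 29, 32, 3, 4, 0, 1, 2, 5, 33, 7, 6, 8, 13, 9, 10, 11, 14, 34, 15, 16, 18, 19, 20, 23, 24, 25, 27, 30, 35]
def iR5 : List ℕ := [2, 3, 4, 0, 1, 5]
def iF5 : List ℕ := [4, 3, 2, 1, 0, 5]

theorem jR6 : idxM iR6 = R6 := by decide +kernel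
theorem jF6 : idxM iF6 = F6 := by decide +kernel
theorem jP6_2 : idxM iP6_2 = P6_2 := by decide +kernel
theorem jP6_3 : idxM iP6_3 = P6_3 := by decide +kernel
theorem jP6_4 : idxM iP6_4 = P6_4 := by decide +kernel
theorem jP6_5 : idxM iP6_5 = P6_5 := by decide +kernel
theorem jR7 : idxM iR7 = R7 := by decide +kernel
theorem jF7 : idxM iF7 = F7 := by decide +kernel
theorem jP7_2 : idxM iP7_2 = P7_2 := by decide +kernel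
theorem jP7_3 : idxM iP7_3 = P7_3 := by decide +kernel
theorem jP7_4 : idxM iP7_4 = P7_4 := by decide +kernel
theorem jP7_5 : idxM iP7_5 = P7_5 := by decide +kernel
theorem jP7_6 : idxM iP7_6 = P7_6 := by decide +kernel
theorem jR5 : idxM iR5 = R5 := by decide +kernel
theorem jF5 : idxM iF5 = F5 := by decide +kernel

def iP5_2 : List ℕ := [4, 0, 1, 2, 3, 5]
def iP5_3 : List ℕ := [1, 2, 3, 4, 0, 5]
def iP5_4 : List ℕ := [3, 4, 0, 1, 2, 5]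

theorem hP5_2 : mulT R5 R5 = idxM iP5_2 := by decide +kernel
theorem hP5_3 : mulT R5 (idxM iP5_2) = idxM iP5_3 := by decide +kernel
theorem hP5_4 : mulT R5 (idxM iP5_3) = idxM iP5_4 := by decide +kernel

end Pool.Agent.TH389.BL
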