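import Pool.Agent.TH389.BL.Ids8
import Pool.Agent.TH389.BL.Ids
import Pool.Agent.TH389.BL.IdxP
import Pool.Agent.TH389.BL.DataP9a
import Pool.Agent.TH389.BL.DataP9b
import Pool.Agent.TH389.BL.DataP9c
import Pool.Agent.TH389.BL.DataP9d
import Pool.Agent.TH389.BL.DataQ9c

/-! The data for the interval (9/2, 5). -/

set_option autoImplicit false

namespace Pool.Agent.TH389.BL.Q9

def u : List ℤ := [.negSucc 8, .ofNat 2]
def v : List ℤ := [.ofNat 5, .negSucc 0]

def G7z : List (List ℕ) := G7z_0 ++ (G7z_1 ++ G7z_2)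

def G5 : List (List (List ℤ)) := G5z.map (List.map unp)
def Y5 : List (List (List ℤ)) := Y5z.map (List.map unp)
def G6 : List (List (List ℤ)) := G6z.map (List.map unp)
def Y6 : List (List (List ℤ)) := Y6z.map (List.map unp)
def G7 : List (List (List ℤ)) := G7z.map (List.map unp)
def Y7 : List (List (List ℤ)) := Y7z.map (List.map unp)

def D7 : List (ℕ × List ℕ × List (ℕ × List ℕ)) := D7_0 ++ (D7_1 ++ (D7_2 ++ (D7_3 ++ D7_4)))

/-- powers of the rotation, as index lists -/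
def Ri5 : List (List ℕ) := [[], iR5, iP5_2, iP5_3, iP5_4]
def Ri6 : List (List ℕ) := [[], iR6, iP6_2, iP6_3, iP6_4, iP6_5]
def Ri7 : List (List ℕ) := [[], iR7, iP7_2, iP7_3, iP7_4, iP7_5, iP7_6]

def pc7 (e : List ℕ × (ℕ × List ℕ × List (ℕ × List ℕ))) : Bool :=
  certOKz (resP u) (resP v) (nrm u) (nrm v) G7z e.1 e.2
def pc6 (e : List ℕ × (ℕ × List ℕ × List (ℕ × List ℕ))) : Bool :=
  certOKz (resP u) (resP v) (nrm u) (nrm v) G6z e.1 e.2

end Pool.Agent.TH389.BL.Q9
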