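import Pool.Agent.TH389.BL.Ids8
import Pool.Agent.TH389.BL.Ids
import Pool.Agent.TH389.BL.Cone2

/-! Closing a disc of perimeter eight which arose from one of perimeter seven. -/

set_option autoImplicit false

namespace Pool.Agent.TH389.BL

variable {q : ℝ}

theorem iterate_mod8 {α : Type} (f : α → α) (y : α) (h : f^[8] y = y) (s : ℕ) :
    f^[s] y = f^[s % 8] y := by
  conv_lhs => rw [← Nat.mod_add_div s 8]
  rw [Function.iterate_add_apply, Function.iterate_mul, Function.iterate_fixed h]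

theorem it8_1 (x : ℕ → ℝ) : (app R8 q)^[1] (app T7 q x) = app A8_1 q x := by
  rw [← hA8_1, app_mulT]; rfl

theorem it8_step {A B : List (List (ℕ × List ℤ))} (h : mulT R8 A = B) {t : ℕ} {x : ℕ → ℝ}
    (hA : (app R8 q)^[t] (app T7 q x) = app A q x) :
    (app R8 q)^[t + 1] (app T7 q x) = app B q x := by
  rw [Function.iterate_succ_apply', hA, ← h, app_mulT]

theorem it8_2 (x : ℕ → ℝ) : (app R8 q)^[2] (app T7 q x) = app A8_2 q x := it8_step hA8_2 (it8_1 x)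
theorem it8_3 (x : ℕ → ℝ) : (app R8 q)^[3] (app T7 q x) = app A8_3 q x := it8_step hA8_3 (it8_2 x)
theorem it8_4 (x : ℕ → ℝ) : (app R8 q)^[4] (app T7 q x) = app A8_4 q x := it8_step hA8_4 (it8_3 x)
theorem it8_5 (x : ℕ → ℝ) : (app R8 q)^[5] (app T7 q x) = app A8_5 q x := it8_step hA8_5 (it8_4 x)
theorem it8_6 (x : ℕ → ℝ) : (app R8 q)^[6] (app T7 q x) = app A8_6 q x := it8_step hA8_6 (it8_5 x)
theorem it8_7 (x : ℕ → ℝ) : (app R8 q)^[7] (app T7 q x) = app A8_7 q x := it8_step hA8_7 (it8_6 x)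
theorem it8_8 (x : ℕ → ℝ) : (app R8 q)^[8] (app T7 q x) = app T7 q x := it8_step hA8_8 (it8_7 x)

theorem cl8 {A L X : List (List (ℕ × List ℤ))} (h : mulT C8 A = L) (e : eqTab 36 L X = true)
    (x : ℕ → ℝ) : app C8 q (app A q x) = app X q x := by
  rw [← app_mulT, h]
  exact eqTab_sound e q x

theorem xx8 {P T Q C D X : List (List (ℕ × List ℤ))}
    (h : mulT P (mulT T (mulT Q (mulT C D))) = X) (x : ℕ → ℝ) :
    app X q x = app P q (app T q (app Q q (app C q (app D q x)))) := by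
  rw [← h, app_mulT, app_mulT, app_mulT, app_mulT]

theorem M7_eq (x : ℕ → ℝ) : app M7 q x = app C8 q (app R8 q (app T7 q x)) := by
  have h1 : app C8 q (app A8_1 q x) = app M7 q x := cl8 hL8_1 eM7 x
  rw [← h1, ← it8_1 x]
  rfl

theorem S8_eq (x : ℕ → ℝ) (hx : ∀ i, 36 ≤ i → x i = 0) : app S8 q x = fun i => (q - 2) * x i := by
  funext i
  by_cases hi : i < 36
  · have h : ∀ i < 36, S8.getD i [] = [(i, [-2, 1])] := by decide +kernel
    unfold app
    rw [h i hi]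
    simp only [List.map_cons, List.map_nil, List.sum_cons, List.sum_nil, ev]
    push_cast
    ring
  · have h : S8.length = 36 := by decide +kernel
    unfold app
    have : S8.getD i [] = [] := by
      simp [List.getD, List.getElem?_eq_none (by omega : S8.length ≤ i)]
    rw [this, hx i (by omega)]
    simp

theorem ring8_gen {G6 G7 : List (List (List ℤ))} {w6 w7 : ℕ} (h2q : 2 < q)
    (hlen : (G7.all fun g => decide (g.length ≤ 36)) = true)
    (kM : ∀ x, K q G7 w7 true x → K q G7 w7 true (app M7 q x))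
    (kC7 : ∀ x, K q G7 w7 true x → K q G6 w6 true (app C7 q x))
    (kT6 : ∀ x, K q G6 w6 true x → K q G7 w7 true (app T6 q x))
    (cl6 : ClosedS q G6 w6 (app R6 q)) (cl6_2 : ClosedS q G6 w6 (app P6_2 q))
    (cl6_3 : ClosedS q G6 w6 (app P6_3 q)) (cl6_4 : ClosedS q G6 w6 (app P6_4 q))
    (cl6_5 : ClosedS q G6 w6 (app P6_5 q))
    (cl7 : ClosedS q G7 w7 (app R7 q)) (cl7_2 : ClosedS q G7 w7 (app P7_2 q))
    (cl7_3 : ClosedS q G7 w7 (app P7_3 q)) (cl7_4 : ClosedS q G7 w7 (app P7_4 q))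
    (cl7_5 : ClosedS q G7 w7 (app P7_5 q)) (cl7_6 : ClosedS q G7 w7 (app P7_6 q))
    (s : ℕ) {x : ℕ → ℝ} (hx : K q G7 w7 true x) :
    K q G7 w7 true (app C8 q ((app R8 q)^[s] (app T7 q x))) := by
  have hsup := K_support hlen hx
  rw [iterate_mod8 _ _ (it8_8 x) s]
  have hs : s % 8 < 8 := Nat.mod_lt _ (by norm_num)
  generalize s % 8 = t at hs
  interval_cases t
  · have h0 : app C8 q ((app R8 q)^[0] (app T7 q x)) = fun i => (q - 2) * x i := by
      rw [← S8_eq x hsup]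
      exact cl8 hL8_0 e8_0 x
    rw [h0]
    exact K.smul _ _ _ (by linarith) hx
  · have h1 : app C8 q ((app R8 q)^[1] (app T7 q x)) = app M7 q x := by
      rw [it8_1]; exact cl8 hL8_1 eM7 x
    rw [h1]; exact kM _ hx
  · rw [it8_2, cl8 hL8_2 e8_2 x, xx8 hX8_2]
    exact cl7_2 _ _ (kT6 _ (cl6_5 _ _ (kC7 _ (cl7 _ _ hx))))
  · rw [it8_3, cl8 hL8_3 e8_3 x, xx8 hX8_3]
    exact cl7_3 _ _ (kT6 _ (cl6_4 _ _ (kC7 _ (cl7_2 _ _ hx))))
  · rw [it8_4, cl8 hL8_4 e8_4 x, xx8 hX8_4]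
    exact cl7_4 _ _ (kT6 _ (cl6_3 _ _ (kC7 _ (cl7_3 _ _ hx))))
  · rw [it8_5, cl8 hL8_5 e8_5 x, xx8 hX8_5]
    exact cl7_5 _ _ (kT6 _ (cl6_2 _ _ (kC7 _ (cl7_4 _ _ hx))))
  · rw [it8_6, cl8 hL8_6 e8_6 x, xx8 hX8_6]
    exact cl7_6 _ _ (kT6 _ (cl6 _ _ (kC7 _ (cl7_5 _ _ hx))))
  · have h7 : app X8_7 q x = app P7_6 q (app M7 q (app P7_6 q x)) := by
      rw [← hX8_7, app_mulT, app_mulT, eqTab_sound eM7]
    rw [it8_7, cl8 hL8_7 e8_7 x, h7]
    exact cl7_6 _ _ (kM _ (cl7_6 _ _ hx))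

/-- powers of a rotation -/
theorem closed_mul {G : List (List (List ℤ))} {w : ℕ} {R A B : List (List (ℕ × List ℤ))}
    (h : mulT R A = B) (hR : ClosedS q G w (app R q)) (hA : ClosedS q G w (app A q)) :
    ClosedS q G w (app B q) := by
  intro b x hx
  rw [← h, app_mulT]
  exact hR _ _ (hA _ _ hx)

end Pool.Agent.TH389.BL
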