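import Pool.Agent.TH389.BL.Shell
import Pool.Agent.TH389.BL.Ring8
import Pool.Agent.TH389.BL.CkP9A
import Pool.Agent.TH389.BL.CkP9B
import Pool.Agent.TH389.BL.CkP9C
import Pool.Agent.TH389.BL.CkP9D

/-! Discs of perimeter at most eight on the interval (9/2, 5). -/

set_option autoImplicit false

namespace Pool.Agent.TH389.BL

theorem last_eq8 (r : ℕ) (h3 : 3 ≤ r) (h7 : r ≤ 8) :
    (PQ8 r)[(PQ8 r).length - 1]? = some (List.range r) := by
  interval_cases r <;> decide +kernel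

theorem tb8 : Tb 8 PQ8 where
  hR := by norm_num
  h3 := rfl
  okR r h3 h8 := by
    interval_cases r
    · exact tblR3.2
    · exact tblR4.2
    · exact tblR5.2
    · exact tblR6.2
    · exact tblR7.2
    · exact tblR8.2
  okT r h3 h8 := by
    interval_cases r
    · exact tblT3.2
    · exact tblT4.2
    · exact tblT5.2
    · exact tblT6.2
    · exact tblT7.2
  okC r h3 h8 := by
    interval_cases r
    · exact tblC4.2
    · exact tblC5.2
    · exact tblC6.2
    · exact tblC7.2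
    · exact tblC8.2
  last r h3 h8 := last_eq8 r h3 h8

namespace Q9

def GG : ℕ → List (List (List ℤ))
  | 3 => G3
  | 4 => G4
  | 5 => G5
  | 6 => G6
  | 7 => G7
  | _ => []

def ww : ℕ → ℕ
  | 3 => 1
  | 4 => 2
  | 5 => 6
  | 6 => 29
  | 7 => 225
  | _ => 0

/-- the invariant: cones up to perimeter seven; for perimeter eight every closing lands in the
cone of perimeter seven -/
def I (q : ℝ) (r : ℕ) (x : ℕ → ℝ) : Prop :=
  if r ≤ 7 then K q (GG r) (ww r) true x
  else (∀ s, K q G7 225 true (app C8 q ((app R8 q)^[s] x))) ∧ 0 < x 90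

variable {q : ℝ}

theorem hu (h1 : 9 / 2 < q) : 0 < ev u q := by
  simp only [u, ev]; push_cast; linarith

theorem hv (h2 : q < 5) : 0 < ev v q := by
  simp only [v, ev]; push_cast; linarith

theorem pk5 : PkAll G5 G5z := PkAll_unp ch5
theorem py5 : PkAll Y5 Y5z := PkAll_unp cy5
theorem pk6 : PkAll G6 G6z := PkAll_unp ch6
theorem py6 : PkAll Y6 Y6z := PkAll_unp cy6
theorem pk7 : PkAll G7 G7z := PkAll_unp ch7
theorem py7 : PkAll Y7 Y7z := PkAll_unp cy7

theorem cR5 : ClosedS q G5 6 (app R5 q) := fun _ _ h => closed_sound clR5 h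
theorem cF5 : ClosedS q G5 6 (app F5 q) := fun _ _ h => closed_sound clF5 h

theorem cR6 : ClosedS q G6 29 (app R6 q) := by
  rw [← jR6]
  exact closed_perml (perm := permR6) pk6 (Bd_of ch6) (by decide +kernel) mR6g mR6b
theorem cF6 : ClosedS q G6 29 (app F6 q) := by
  rw [← jF6]
  exact closed_perml (perm := permF6) pk6 (Bd_of ch6) (by decide +kernel) mF6g mF6b
theorem cR7 : ClosedS q G7 225 (app R7 q) := by
  rw [← jR7]
  exact closed_perml (perm := permR7) pk7 (Bd_of ch7) (by decide +kernel) mR7g mR7b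
theorem cF7 : ClosedS q G7 225 (app F7 q) := by
  rw [← jF7]
  exact closed_perml (perm := permF7) pk7 (Bd_of ch7) (by decide +kernel) mF7g mF7b

theorem c5_2 : ClosedS q G5 6 (app (idxM iP5_2) q) := closed_mul hP5_2 cR5 cR5
theorem c5_3 : ClosedS q G5 6 (app (idxM iP5_3) q) := closed_mul hP5_3 cR5 c5_2
theorem c5_4 : ClosedS q G5 6 (app (idxM iP5_4) q) := closed_mul hP5_4 cR5 c5_3
theorem c6_2 : ClosedS q G6 29 (app P6_2 q) := closed_mul hP6_2 cR6 cR6
theorem c6_3 : ClosedS q G6 29 (app P6_3 q) := closed_mul hP6_3 cR6 c6_2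
theorem c6_4 : ClosedS q G6 29 (app P6_4 q) := closed_mul hP6_4 cR6 c6_3
theorem c6_5 : ClosedS q G6 29 (app P6_5 q) := closed_mul hP6_5 cR6 c6_4
theorem c7_2 : ClosedS q G7 225 (app P7_2 q) := closed_mul hP7_2 cR7 cR7
theorem c7_3 : ClosedS q G7 225 (app P7_3 q) := closed_mul hP7_3 cR7 c7_2
theorem c7_4 : ClosedS q G7 225 (app P7_4 q) := closed_mul hP7_4 cR7 c7_3
theorem c7_5 : ClosedS q G7 225 (app P7_5 q) := closed_mul hP7_5 cR7 c7_4
theorem c7_6 : ClosedS q G7 225 (app P7_6 q) := closed_mul hP7_6 cR7 c7_5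

theorem hRi5 : ∀ s, s ≠ 0 → s < Ri5.length → ClosedS q G5 6 (app (idxM (Ri5.getD s [])) q) := by
  intro s h0 hs
  have h6 : s < 5 := hs
  interval_cases s
  · exact absurd rfl h0
  · show ClosedS q G5 6 (app (idxM iR5) q)
    rw [jR5]; exact cR5
  · exact c5_2
  · exact c5_3
  · exact c5_4

theorem hRi6 : ∀ s, s ≠ 0 → s < Ri6.length → ClosedS q G6 29 (app (idxM (Ri6.getD s [])) q) := by
  intro s h0 hs
  have h6 : s < 6 := hs
  interval_cases s
  · exact absurd rfl h0
  · show ClosedS q G6 29 (app (idxM iR6) q)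
    rw [jR6]; exact cR6
  · show ClosedS q G6 29 (app (idxM iP6_2) q)
    rw [jP6_2]; exact c6_2
  · show ClosedS q G6 29 (app (idxM iP6_3) q)
    rw [jP6_3]; exact c6_3
  · show ClosedS q G6 29 (app (idxM iP6_4) q)
    rw [jP6_4]; exact c6_4
  · show ClosedS q G6 29 (app (idxM iP6_5) q)
    rw [jP6_5]; exact c6_5

theorem hRi7 : ∀ s, s ≠ 0 → s < Ri7.length → ClosedS q G7 225 (app (idxM (Ri7.getD s [])) q) := by
  intro s h0 hs
  have h6 : s < 7 := hs
  interval_cases s
  · exact absurd rfl h0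
  · show ClosedS q G7 225 (app (idxM iR7) q)
    rw [jR7]; exact cR7
  · show ClosedS q G7 225 (app (idxM iP7_2) q)
    rw [jP7_2]; exact c7_2
  · show ClosedS q G7 225 (app (idxM iP7_3) q)
    rw [jP7_3]; exact c7_3
  · show ClosedS q G7 225 (app (idxM iP7_4) q)
    rw [jP7_4]; exact c7_4
  · show ClosedS q G7 225 (app (idxM iP7_5) q)
    rw [jP7_5]; exact c7_5
  · show ClosedS q G7 225 (app (idxM iP7_6) q)
    rw [jP7_6]; exact c7_6

theorem hT5 (h1 : 9 / 2 < q) (h2 : q < 5) : ∀ i < Y5z.length,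
    K q G5 6 ((D5.getD i (0, [], [])).2.2.any fun e => decide (e.1 < 6)) (evv (Y5.getD i []) q) :=
  fun i hi => K_target (hu h1) (hv h2) (by linarith) ce5 i (by
    have : Y5.length = Y5z.length := List.length_map _
    omega)

theorem hT6 (h1 : 9 / 2 < q) (h2 : q < 5) : ∀ i < Y6z.length,
    K q G6 29 ((D6.getD i (0, [], [])).2.2.any fun e => decide (e.1 < 29))
      (evv (Y6.getD i []) q) :=
  fun i hi => K_targetz (u := u) (v := v) (le_refl _) (le_refl _) (Cg_resP u) (Cg_resP v) pk6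
    (hu h1) (hv h2) (by linarith) py6 lnD6 ce6 i hi

theorem hT7 (h1 : 9 / 2 < q) (h2 : q < 5) : ∀ i < Y7z.length,
    K q G7 225 ((D7.getD i (0, [], [])).2.2.any fun e => decide (e.1 < 225))
      (evv (Y7.getD i []) q) :=
  fun i hi => K_targetz (u := u) (v := v) (le_refl _) (le_refl _) (Cg_resP u) (Cg_resP v) pk7
    (hu h1) (hv h2) (by linarith) py7 lnD7 ce7 i hi

theorem kM (h1 : 9 / 2 < q) (h2 : q < 5) {b : Bool} {x : ℕ → ℝ} (hx : K q G7 225 b x) :
    K q G7 225 b (app M7 q x) :=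
  refs_soundl (by linarith) pk7 pk7 py7 (Bd_of ch7) (Bd_of ch7) (Bd_of cy7) hRi7
    (by rw [jF7]; exact cF7) (hT7 h1 h2) rowM7 (by decide +kernel) mM7g mM7b hx

theorem kC7 (h1 : 9 / 2 < q) (h2 : q < 5) {b : Bool} {x : ℕ → ℝ} (hx : K q G7 225 b x) :
    K q G6 29 b (app C7 q x) :=
  refs_soundl (by linarith) pk7 pk6 py6 (Bd_of ch7) (Bd_of ch6) (Bd_of cy6) hRi6
    (by rw [jF6]; exact cF6) (hT6 h1 h2) rowC7 (by decide +kernel) mC7g mC7b hx

theorem kT6 (h1 : 9 / 2 < q) (h2 : q < 5) {b : Bool} {x : ℕ → ℝ} (hx : K q G6 29 b x) :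
    K q G7 225 b (app T6 q x) :=
  refs_soundl (by linarith) pk6 pk7 py7 (Bd_of ch6) (Bd_of ch7) (Bd_of cy7) hRi7
    (by rw [jF7]; exact cF7) (hT7 h1 h2) rowT6 (by decide +kernel) mT6g mT6b hx

theorem kT5 (h1 : 9 / 2 < q) (h2 : q < 5) {b : Bool} {x : ℕ → ℝ} (hx : K q G5 6 b x) :
    K q G6 29 b (app T5 q x) :=
  refs_soundl (by linarith) pk5 pk6 py6 (Bd_of ch5) (Bd_of ch6) (Bd_of cy6) hRi6
    (by rw [jF6]; exact cF6) (hT6 h1 h2) rowT5 (by decide +kernel) mT5g mT5b hx

theorem kC6 (h1 : 9 / 2 < q) (h2 : q < 5) {b : Bool} {x : ℕ → ℝ} (hx : K q G6 29 b x) :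
    K q G5 6 b (app C6 q x) :=
  refs_soundl (by linarith) pk6 pk5 py5 (Bd_of ch6) (Bd_of ch5) (Bd_of cy5) hRi5
    (by rw [jF5]; exact cF5) (hT5 h1 h2) rowC6 (by decide +kernel) mC6g mC6b hx

theorem ring8 (h1 : 9 / 2 < q) (h2 : q < 5) (s : ℕ) {x : ℕ → ℝ} (hx : K q G7 225 true x) :
    K q G7 225 true (app C8 q ((app R8 q)^[s] (app T7 q x))) :=
  ring8_gen (by linarith) len7 (fun _ h => kM h1 h2 h) (fun _ h => kC7 h1 h2 h)
    (fun _ h => kT6 h1 h2 h) cR6 c6_2 c6_3 c6_4 c6_5 cR7 c7_2 c7_3 c7_4 c7_5 c7_6 s hx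

theorem row90T (x : ℕ → ℝ) : app T7 q x 90 = (q - 2) * x 35 := by
  have h : T7.getD 90 [] = [(35, [-2, 1])] := by decide +kernel
  unfold app
  rw [h]
  simp only [List.map_cons, List.map_nil, List.sum_cons, List.sum_nil, ev]
  push_cast
  ring

theorem row90R (x : ℕ → ℝ) : app R8 q x 90 = x 90 := by
  have h : R8.getD 90 [] = [(90, [1])] := by decide +kernel
  unfold app
  rw [h]
  simp only [List.map_cons, List.map_nil, List.sum_cons, List.sum_nil, ev]
  push_cast
  ring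

theorem I_low {r : ℕ} (h : r ≤ 7) (x : ℕ → ℝ) : I q r x ↔ K q (GG r) (ww r) true x := by
  unfold I; rw [if_pos h]

theorem I_8 (x : ℕ → ℝ) : I q 8 x ↔
    (∀ s, K q G7 225 true (app C8 q ((app R8 q)^[s] x))) ∧ 0 < x 90 := by
  unfold I; rw [if_neg (by norm_num)]

theorem fam (h1 : 9 / 2 < q) (h2 : q < 5) : Fam 8 PQ8 q (I q) where
  base c hc := by
    rw [I_low (by norm_num)]
    refine K.smul _ _ _ hc (K.good _ ?_)
    show [[1]] ∈ G3.take 1
    decide +kernel
  rot r x h3 h8 hx := by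
    interval_cases r
    · have he : mkTbl (PQ8 3) termsR (PQ8 3) = R3 := tblR3.1
      rw [I_low (by norm_num)] at hx ⊢
      rw [he]; exact closed_sound clR3 hx
    · have he : mkTbl (PQ8 4) termsR (PQ8 4) = R4 := tblR4.1
      rw [I_low (by norm_num)] at hx ⊢
      rw [he]; exact closed_sound clR4 hx
    · have he : mkTbl (PQ8 5) termsR (PQ8 5) = R5 := tblR5.1
      rw [I_low (by norm_num)] at hx ⊢
      rw [he]; exact closed_sound clR5 hx
    · have he : mkTbl (PQ8 6) termsR (PQ8 6) = R6 := tblR6.1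
      rw [I_low (by norm_num)] at hx ⊢
      rw [he]; exact cR6 _ _ hx
    · have he : mkTbl (PQ8 7) termsR (PQ8 7) = R7 := tblR7.1
      rw [I_low (by norm_num)] at hx ⊢
      rw [he]; exact cR7 _ _ hx
    · have he : mkTbl (PQ8 8) termsR (PQ8 8) = R8 := tblR8.1
      rw [I_8] at hx ⊢
      rw [he]
      refine ⟨fun s => ?_, ?_⟩
      · have := hx.1 (s + 1)
        rw [Function.iterate_succ_apply] at this
        exact this
      · rw [row90R]; exact hx.2
  grow r x h3 h8 hx := by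
    interval_cases r
    · have he : mkTbl (PQ8 3) termsT (PQ8 (3 + 1)) = T3 := tblT3.1
      rw [I_low (by norm_num)] at hx ⊢
      rw [he]
      exact refs_sound (hu h1) (hv h2) (by linarith) (lin_app T3 q) (fun g => evv_appP T3 g q)
        clR4 clF4 ce4 rT3 hx
    · have he : mkTbl (PQ8 4) termsT (PQ8 (4 + 1)) = T4 := tblT4.1
      rw [I_low (by norm_num)] at hx ⊢
      rw [he]
      exact refs_sound (hu h1) (hv h2) (by linarith) (lin_app T4 q) (fun g => evv_appP T4 g q)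
        clR5 clF5 ce5 rT4 hx
    · have he : mkTbl (PQ8 5) termsT (PQ8 (5 + 1)) = T5 := tblT5.1
      rw [I_low (by norm_num)] at hx ⊢
      rw [he]
      exact kT5 h1 h2 hx
    · have he : mkTbl (PQ8 6) termsT (PQ8 (6 + 1)) = T6 := tblT6.1
      rw [I_low (by norm_num)] at hx ⊢
      rw [he]
      exact kT6 h1 h2 hx
    · have he : mkTbl (PQ8 7) termsT (PQ8 (7 + 1)) = T7 := tblT7.1
      rw [I_low (by norm_num)] at hx
      rw [I_8, he]
      refine ⟨fun s => ring8 h1 h2 s hx, ?_⟩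
      rw [row90T]
      have h4 : 4 < q := by linarith
      have := last_sound la7 h4 hx
      have h5 : 0 < q - 2 := by linarith
      positivity
  close r x h3 h8 hx := by
    interval_cases r
    · have he : mkTbl (PQ8 (3 + 1)) termsC (PQ8 3) = C4 := tblC4.1
      rw [I_low (by norm_num)] at hx ⊢
      rw [he]
      exact refs_sound (hu h1) (hv h2) (by linarith) (lin_app C4 q) (fun g => evv_appP C4 g q)
        clR3 clF3 ce3 rC4 hx
    · have he : mkTbl (PQ8 (4 + 1)) termsC (PQ8 4) = C5 := tblC5.1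
      rw [I_low (by norm_num)] at hx ⊢
      rw [he]
      exact refs_sound (hu h1) (hv h2) (by linarith) (lin_app C5 q) (fun g => evv_appP C5 g q)
        clR4 clF4 ce4 rC5 hx
    · have he : mkTbl (PQ8 (5 + 1)) termsC (PQ8 5) = C6 := tblC6.1
      rw [I_low (by norm_num)] at hx ⊢
      rw [he]
      exact kC6 h1 h2 hx
    · have he : mkTbl (PQ8 (6 + 1)) termsC (PQ8 6) = C7 := tblC7.1
      rw [I_low (by norm_num)] at hx ⊢
      rw [he]
      exact kC7 h1 h2 hx
    · have he : mkTbl (PQ8 (7 + 1)) termsC (PQ8 7) = C8 := tblC8.1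
      rw [I_low (by norm_num), he]
      have h0 : I q 8 x := hx
      rw [I_8] at h0
      exact h0.1 0
  pos r x h3 h8 hx := by
    have h4 : 4 < q := by linarith
    interval_cases r
    · rw [I_low (by norm_num)] at hx; exact last_sound la3 h4 hx
    · rw [I_low (by norm_num)] at hx; exact last_sound la4 h4 hx
    · rw [I_low (by norm_num)] at hx; exact last_sound la5 h4 hx
    · rw [I_low (by norm_num)] at hx; exact last_sound la6 h4 hx
    · rw [I_low (by norm_num)] at hx; exact last_sound la7 h4 hx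
    · rw [I_8] at hx; exact hx.2

end Q9

end Pool.Agent.TH389.BL
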