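import Pool.Agent.TH389.BL.Main
import Pool.Agent.TH389.BL.CheckQ17
import Pool.Agent.TH389.BL.Ids

/-! The cones on the interval (17/4, 5) have all closure properties. -/

set_option autoImplicit false

namespace Pool.Agent.TH389.BL

namespace Q17

def GG : ℕ → List (List (List ℤ))
  | 3 => G3
  | 4 => G4
  | 5 => G5
  | 6 => G6
  | _ => []

def ww : ℕ → ℕ
  | 3 => 1
  | 4 => 2
  | 5 => 6
  | 6 => 43
  | _ => 0

theorem la3 : lastOK G3 0 = true := by decide +kernel
theorem la4 : lastOK G4 2 = true := by decide +kernel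
theorem la5 : lastOK G5 5 = true := by decide +kernel
theorem la6 : lastOK G6 14 = true := by decide +kernel

/-- the cones -/
def Kc (q : ℝ) (r : ℕ) (x : ℕ → ℝ) : Prop := K q (GG r) (ww r) true x

variable {q : ℝ}

theorem hu (h1 : 17 / 4 < q) : 0 < ev u q := by
  simp only [u, ev]; push_cast; linarith

theorem hv (h2 : q < 5) : 0 < ev v q := by
  simp only [v, ev]; push_cast; linarith

theorem comp3 (x : List (List ℤ)) :
    evv (appP C7 (appP R7 (appP T6 x))) q = app C7 q (app R7 q (app T6 q (evv x q))) := by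
  rw [evv_appP, evv_appP, evv_appP]

theorem kM (h1 : 17 / 4 < q) (h2 : q < 5) {b : Bool} {x : ℕ → ℝ} (hx : K q G6 43 b x) :
    K q G6 43 b (app C7 q (app R7 q (app T6 q x))) :=
  refs_sound (hu h1) (hv h2) (by linarith) lin3 (fun g => comp3 g) clR6 clF6 ce6 rM6 hx

theorem kC6 (h1 : 17 / 4 < q) (h2 : q < 5) {b : Bool} {x : ℕ → ℝ} (hx : K q G6 43 b x) :
    K q G5 6 b (app C6 q x) :=
  refs_sound (hu h1) (hv h2) (by linarith) (lin_app C6 q) (fun g => evv_appP C6 g q)
    clR5 clF5 ce5 rC6 hx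

theorem kT5 (h1 : 17 / 4 < q) (h2 : q < 5) {b : Bool} {x : ℕ → ℝ} (hx : K q G5 6 b x) :
    K q G6 43 b (app T5 q x) :=
  refs_sound (hu h1) (hv h2) (by linarith) (lin_app T5 q) (fun g => evv_appP T5 g q)
    clR6 clF6 ce6 rT5 hx

theorem ring7 (h1 : 17 / 4 < q) (h2 : q < 5) (s : ℕ) {x : ℕ → ℝ} (hx : K q G6 43 true x) :
    K q G6 43 true (app C7 q ((app R7 q)^[s] (app T6 q x))) :=
  ring7_gen (by linarith) len6 (fun _ h => kM h1 h2 h) (fun _ h => kC6 h1 h2 h)
    (fun _ h => kT5 h1 h2 h) clR5 clR6 s hx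

theorem cl (h1 : 17 / 4 < q) (h2 : q < 5) : Cl q (Kc q) where
  base c hc := by
    refine K.smul _ _ _ hc (K.good _ ?_)
    decide +kernel
  rot r x h3 h6 hx := by
    interval_cases r
    · have he : mkTbl (PP 3) termsR (PP 3) = R3 := tblR3.1
      rw [he]; exact closed_sound clR3 hx
    · have he : mkTbl (PP 4) termsR (PP 4) = R4 := tblR4.1
      rw [he]; exact closed_sound clR4 hx
    · have he : mkTbl (PP 5) termsR (PP 5) = R5 := tblR5.1
      rw [he]; exact closed_sound clR5 hx
    · have he : mkTbl (PP 6) termsR (PP 6) = R6 := tblR6.1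
      rw [he]; exact closed_sound clR6 hx
  grow r x h3 h5 hx := by
    interval_cases r
    · have he : mkTbl (PP 3) termsT (PP (3 + 1)) = T3 := tblT3.1
      rw [he]
      exact refs_sound (hu h1) (hv h2) (by linarith) (lin_app T3 q) (fun g => evv_appP T3 g q)
        clR4 clF4 ce4 rT3 hx
    · have he : mkTbl (PP 4) termsT (PP (4 + 1)) = T4 := tblT4.1
      rw [he]
      exact refs_sound (hu h1) (hv h2) (by linarith) (lin_app T4 q) (fun g => evv_appP T4 g q)
        clR5 clF5 ce5 rT4 hx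
    · have he : mkTbl (PP 5) termsT (PP (5 + 1)) = T5 := tblT5.1
      rw [he]
      exact kT5 h1 h2 hx
  close r x h3 h5 hx := by
    interval_cases r
    · have he : mkTbl (PP (3 + 1)) termsC (PP 3) = C4 := tblC4.1
      rw [he]
      exact refs_sound (hu h1) (hv h2) (by linarith) (lin_app C4 q) (fun g => evv_appP C4 g q)
        clR3 clF3 ce3 rC4 hx
    · have he : mkTbl (PP (4 + 1)) termsC (PP 4) = C5 := tblC5.1
      rw [he]
      exact refs_sound (hu h1) (hv h2) (by linarith) (lin_app C5 q) (fun g => evv_appP C5 g q)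
        clR4 clF4 ce4 rC5 hx
    · have he : mkTbl (PP (5 + 1)) termsC (PP 5) = C6 := tblC6.1
      rw [he]
      exact kC6 h1 h2 hx
  ring7 s x hx := ring7 h1 h2 s hx
  pos r x h3 h6 hx := by
    have h4 : 4 < q := by linarith
    interval_cases r
    · exact last_sound la3 h4 hx
    · exact last_sound la4 h4 hx
    · exact last_sound la5 h4 hx
    · exact last_sound la6 h4 hx

end Q17

end Pool.Agent.TH389.BL
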