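import Mathlib.Data.Nat.Notation
import Mathlib.Data.Int.Notation

/-! Products of the sparse matrices of the operations on discs of perimeter seven and eight. -/

set_option autoImplicit false
set_option maxRecDepth 100000

namespace Pool.Agent.TH389.BL

def A8_1 : List (List (ℕ × List ℤ)) := [[(22, [.ofNat 1])],
  [(19, [.ofNat 1])],
  [(23, [.ofNat 1]), (0, [.negSucc 0])],
  [(27, [.ofNat 1]), (1, [.negSucc 0])],
  [(29, [.ofNat 1])],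
  [(6, [.ofNat 1])],
  [(30, [.ofNat 1]), (2, [.negSucc 0])],
  [(32, [.ofNat 1])],
  [(33, [.ofNat 1]), (3, [.negSucc 0])],
  [(7, [.ofNat 1])],
  [(34, [.ofNat 1]), (4, [.negSucc 0])],
  [(8, [.ofNat 1])],
  [(15, [.ofNat 1]), (0, [.negSucc 0])],
  [(24, [.ofNat 1]), (1, [.negSucc 0])],
  [(35, [.ofNat 1]), (5, [.negSucc 0])],
  [(30, [.ofNat 1]), (6, [.negSucc 0]), (11, [.negSucc 0])],
  [(33, [.ofNat 1]), (12, [.negSucc 0])],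
  [(34, [.ofNat 1]), (7, [.negSucc 0]), (13, [.negSucc 0])],
  [(15, [.ofNat 1]), (9, [.negSucc 0])],
  [(24, [.ofNat 1]), (6, [.negSucc 0]), (10, [.negSucc 0])],
  [(35, [.ofNat 1]), (8, [.negSucc 0]), (14, [.negSucc 0])],
  [(13, [.ofNat 1])],
  [(10, [.ofNat 1])],
  [(14, [.ofNat 1]), (9, [.negSucc 0])],
  [(14, [.ofNat 1]), (10, [.negSucc 0]), (11, [.negSucc 0])],
  [(11, [.ofNat 1])],
  [],
  [(11, [.negSucc 1, .ofNat 1])],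
  [(14, [.ofNat 1]), (12, [.negSucc 0])],
  [(12, [.negSucc 1, .ofNat 1])],
  [],
  [(13, [.negSucc 1, .ofNat 1])],
  [],
  [(9, [.negSucc 1, .ofNat 1])],
  [(10, [.negSucc 1, .ofNat 1])],
  [(14, [.negSucc 1, .ofNat 1])],
  [(34, [.ofNat 1]), (17, [.negSucc 0])],
  [(24, [.ofNat 1]), (16, [.negSucc 0])],
  [(35, [.ofNat 1]), (15, [.negSucc 0]), (18, [.negSucc 0])],
  [(18, [.ofNat 1]), (16, [.negSucc 0])],
  [(18, [.ofNat 1]), (17, [.negSucc 0])],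
  [(17, [.negSucc 1, .ofNat 1])],
  [],
  [(16, [.negSucc 1, .ofNat 1])],
  [(18, [.negSucc 1, .ofNat 1])],
  [(23, [.ofNat 1]), (19, [.negSucc 0]), (20, [.negSucc 0])],
  [(20, [.ofNat 1])],
  [],
  [(20, [.negSucc 1, .ofNat 1])],
  [(23, [.ofNat 1]), (21, [.negSucc 0])],
  [(21, [.negSucc 1, .ofNat 1])],
  [],
  [(22, [.negSucc 1, .ofNat 1])],
  [],
  [(0, [.negSucc 1, .ofNat 1])],
  [(19, [.negSucc 1, .ofNat 1])],
  [(23, [.negSucc 1, .ofNat 1])],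
  [(35, [.ofNat 1]), (24, [.negSucc 0]), (25, [.negSucc 0])],
  [(25, [.ofNat 1])],
  [],
  [(25, [.negSucc 1, .ofNat 1])],
  [(27, [.ofNat 1]), (26, [.negSucc 0])],
  [(26, [.negSucc 1, .ofNat 1])],
  [],
  [(1, [.negSucc 1, .ofNat 1])],
  [(27, [.negSucc 1, .ofNat 1])],
  [(30, [.ofNat 1]), (28, [.negSucc 0])],
  [(28, [.negSucc 1, .ofNat 1])],
  [],
  [(29, [.negSucc 1, .ofNat 1])],
  [],
  [(2, [.negSucc 1, .ofNat 1])],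
  [(6, [.negSucc 1, .ofNat 1])],
  [(30, [.negSucc 1, .ofNat 1])],
  [(35, [.ofNat 1]), (31, [.negSucc 0])],
  [(31, [.negSucc 1, .ofNat 1])],
  [],
  [(32, [.negSucc 1, .ofNat 1])],
  [],
  [(3, [.negSucc 1, .ofNat 1])],
  [(33, [.negSucc 1, .ofNat 1])],
  [],
  [(4, [.negSucc 1, .ofNat 1])],
  [(7, [.negSucc 1, .ofNat 1])],
  [(34, [.negSucc 1, .ofNat 1])],
  [],
  [(5, [.negSucc 1, .ofNat 1])],
  [(8, [.negSucc 1, .ofNat 1])],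
  [(15, [.negSucc 1, .ofNat 1])],
  [(24, [.negSucc 1, .ofNat 1])],
  [(35, [.negSucc 1, .ofNat 1])]]

def A8_2 : List (List (ℕ × List ℤ)) := [[],
  [(11, [.ofNat 1])],
  [(11, [.negSucc 1, .ofNat 1])],
  [(12, [.negSucc 1, .ofNat 1])],
  [],
  [(13, [.ofNat 1])],
  [(13, [.negSucc 1, .ofNat 1])],
  [],
  [(9, [.negSucc 1, .ofNat 1])],
  [(10, [.ofNat 1])],
  [(10, [.negSucc 1, .ofNat 1])],
  [(14, [.ofNat 1]), (9, [.negSucc 0])],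
  [(14, [.ofNat 1]), (10, [.negSucc 0]), (11, [.negSucc 0])],
  [(14, [.ofNat 1]), (12, [.negSucc 0])],
  [(14, [.negSucc 1, .ofNat 1])],
  [(17, [.negSucc 1, .ofNat 1])],
  [],
  [(16, [.negSucc 1, .ofNat 1])],
  [(18, [.ofNat 1]), (16, [.negSucc 0])],
  [(18, [.ofNat 1]), (17, [.negSucc 0])],
  [(18, [.negSucc 1, .ofNat 1])],
  [],
  [(20, [.ofNat 1])],
  [(20, [.negSucc 1, .ofNat 1])],
  [(21, [.negSucc 1, .ofNat 1])],
  [],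
  [(22, [.ofNat 1])],
  [(22, [.negSucc 1, .ofNat 1])],
  [],
  [(0, [.negSucc 1, .ofNat 1])],
  [(19, [.ofNat 1])],
  [(19, [.negSucc 1, .ofNat 1])],
  [(23, [.ofNat 1]), (0, [.negSucc 0])],
  [(23, [.ofNat 1]), (19, [.negSucc 0]), (20, [.negSucc 0])],
  [(23, [.ofNat 1]), (21, [.negSucc 0])],
  [(23, [.negSucc 1, .ofNat 1])],
  [],
  [(25, [.ofNat 1])],
  [(25, [.negSucc 1, .ofNat 1])],
  [(26, [.negSucc 1, .ofNat 1])],
  [],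
  [(1, [.negSucc 1, .ofNat 1])],
  [(27, [.ofNat 1]), (1, [.negSucc 0])],
  [(27, [.ofNat 1]), (26, [.negSucc 0])],
  [(27, [.negSucc 1, .ofNat 1])],
  [(28, [.negSucc 1, .ofNat 1])],
  [],
  [(29, [.ofNat 1])],
  [(29, [.negSucc 1, .ofNat 1])],
  [],
  [(2, [.negSucc 1, .ofNat 1])],
  [(6, [.ofNat 1])],
  [(6, [.negSucc 1, .ofNat 1])],
  [(30, [.ofNat 1]), (2, [.negSucc 0])],
  [(30, [.ofNat 1]), (6, [.negSucc 0]), (11, [.negSucc 0])],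
  [(30, [.ofNat 1]), (28, [.negSucc 0])],
  [(30, [.negSucc 1, .ofNat 1])],
  [(31, [.negSucc 1, .ofNat 1])],
  [],
  [(32, [.ofNat 1])],
  [(32, [.negSucc 1, .ofNat 1])],
  [],
  [(3, [.negSucc 1, .ofNat 1])],
  [(33, [.ofNat 1]), (3, [.negSucc 0])],
  [(33, [.ofNat 1]), (12, [.negSucc 0])],
  [(33, [.negSucc 1, .ofNat 1])],
  [],
  [(4, [.negSucc 1, .ofNat 1])],
  [(7, [.ofNat 1])],
  [(7, [.negSucc 1, .ofNat 1])],
  [(34, [.ofNat 1]), (4, [.negSucc 0])],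
  [(34, [.ofNat 1]), (7, [.negSucc 0]), (13, [.negSucc 0])],
  [(34, [.ofNat 1]), (17, [.negSucc 0])],
  [(34, [.negSucc 1, .ofNat 1])],
  [],
  [(5, [.negSucc 1, .ofNat 1])],
  [(8, [.ofNat 1])],
  [(8, [.negSucc 1, .ofNat 1])],
  [(15, [.ofNat 1]), (0, [.negSucc 0])],
  [(15, [.ofNat 1]), (9, [.negSucc 0])],
  [(15, [.negSucc 1, .ofNat 1])],
  [(24, [.ofNat 1]), (1, [.negSucc 0])],
  [(24, [.ofNat 1]), (6, [.negSucc 0]), (10, [.negSucc 0])],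
  [(24, [.ofNat 1]), (16, [.negSucc 0])],
  [(24, [.negSucc 1, .ofNat 1])],
  [(35, [.ofNat 1]), (5, [.negSucc 0])],
  [(35, [.ofNat 1]), (8, [.negSucc 0]), (14, [.negSucc 0])],
  [(35, [.ofNat 1]), (15, [.negSucc 0]), (18, [.negSucc 0])],
  [(35, [.ofNat 1]), (24, [.negSucc 0]), (25, [.negSucc 0])],
  [(35, [.ofNat 1]), (31, [.negSucc 0])],
  [(35, [.negSucc 1, .ofNat 1])]]

def A8_3 : List (List (ℕ × List ℤ)) := [[(22, [.ofNat 1])],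
  [],
  [(22, [.negSucc 1, .ofNat 1])],
  [(0, [.negSucc 1, .ofNat 1])],
  [(19, [.ofNat 1])],
  [],
  [(19, [.negSucc 1, .ofNat 1])],
  [(23, [.ofNat 1]), (0, [.negSucc 0])],
  [(23, [.ofNat 1]), (19, [.negSucc 0]), (20, [.negSucc 0])],
  [(20, [.ofNat 1])],
  [(23, [.ofNat 1]), (21, [.negSucc 0])],
  [(20, [.negSucc 1, .ofNat 1])],
  [(21, [.negSucc 1, .ofNat 1])],
  [],
  [(23, [.negSucc 1, .ofNat 1])],
  [(1, [.negSucc 1, .ofNat 1])],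
  [(27, [.ofNat 1]), (1, [.negSucc 0])],
  [(27, [.ofNat 1]), (26, [.negSucc 0])],
  [(26, [.negSucc 1, .ofNat 1])],
  [],
  [(27, [.negSucc 1, .ofNat 1])],
  [(29, [.ofNat 1])],
  [],
  [(29, [.negSucc 1, .ofNat 1])],
  [(2, [.negSucc 1, .ofNat 1])],
  [(6, [.ofNat 1])],
  [],
  [(6, [.negSucc 1, .ofNat 1])],
  [(30, [.ofNat 1]), (2, [.negSucc 0])],
  [(30, [.ofNat 1]), (6, [.negSucc 0]), (11, [.negSucc 0])],
  [(11, [.ofNat 1])],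
  [(30, [.ofNat 1]), (28, [.negSucc 0])],
  [(11, [.negSucc 1, .ofNat 1])],
  [(28, [.negSucc 1, .ofNat 1])],
  [],
  [(30, [.negSucc 1, .ofNat 1])],
  [(32, [.ofNat 1])],
  [],
  [(32, [.negSucc 1, .ofNat 1])],
  [(3, [.negSucc 1, .ofNat 1])],
  [(33, [.ofNat 1]), (3, [.negSucc 0])],
  [(33, [.ofNat 1]), (12, [.negSucc 0])],
  [(12, [.negSucc 1, .ofNat 1])],
  [],
  [(33, [.negSucc 1, .ofNat 1])],
  [(4, [.negSucc 1, .ofNat 1])],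
  [(7, [.ofNat 1])],
  [],
  [(7, [.negSucc 1, .ofNat 1])],
  [(34, [.ofNat 1]), (4, [.negSucc 0])],
  [(34, [.ofNat 1]), (7, [.negSucc 0]), (13, [.negSucc 0])],
  [(13, [.ofNat 1])],
  [(34, [.ofNat 1]), (17, [.negSucc 0])],
  [(13, [.negSucc 1, .ofNat 1])],
  [(17, [.negSucc 1, .ofNat 1])],
  [],
  [(34, [.negSucc 1, .ofNat 1])],
  [(5, [.negSucc 1, .ofNat 1])],
  [(8, [.ofNat 1])],
  [],
  [(8, [.negSucc 1, .ofNat 1])],
  [(15, [.ofNat 1]), (0, [.negSucc 0])],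
  [(15, [.ofNat 1]), (9, [.negSucc 0])],
  [(9, [.negSucc 1, .ofNat 1])],
  [],
  [(15, [.negSucc 1, .ofNat 1])],
  [(24, [.ofNat 1]), (1, [.negSucc 0])],
  [(24, [.ofNat 1]), (6, [.negSucc 0]), (10, [.negSucc 0])],
  [(10, [.ofNat 1])],
  [(24, [.ofNat 1]), (16, [.negSucc 0])],
  [(10, [.negSucc 1, .ofNat 1])],
  [(16, [.negSucc 1, .ofNat 1])],
  [],
  [(24, [.negSucc 1, .ofNat 1])],
  [(35, [.ofNat 1]), (5, [.negSucc 0])],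
  [(35, [.ofNat 1]), (8, [.negSucc 0]), (14, [.negSucc 0])],
  [(14, [.ofNat 1]), (9, [.negSucc 0])],
  [(35, [.ofNat 1]), (15, [.negSucc 0]), (18, [.negSucc 0])],
  [(14, [.ofNat 1]), (10, [.negSucc 0]), (11, [.negSucc 0])],
  [(18, [.ofNat 1]), (16, [.negSucc 0])],
  [(35, [.ofNat 1]), (24, [.negSucc 0]), (25, [.negSucc 0])],
  [(14, [.ofNat 1]), (12, [.negSucc 0])],
  [(18, [.ofNat 1]), (17, [.negSucc 0])],
  [(25, [.ofNat 1])],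
  [(35, [.ofNat 1]), (31, [.negSucc 0])],
  [(14, [.negSucc 1, .ofNat 1])],
  [(18, [.negSucc 1, .ofNat 1])],
  [(25, [.negSucc 1, .ofNat 1])],
  [(31, [.negSucc 1, .ofNat 1])],
  [],
  [(35, [.negSucc 1, .ofNat 1])]]

def A8_4 : List (List (ℕ × List ℤ)) := [[],
  [(6, [.ofNat 1])],
  [(6, [.negSucc 1, .ofNat 1])],
  [(30, [.ofNat 1]), (6, [.negSucc 0]), (11, [.negSucc 0])],
  [(11, [.ofNat 1])],
  [(29, [.ofNat 1])],
  [(30, [.ofNat 1]), (28, [.negSucc 0])],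
  [(11, [.negSucc 1, .ofNat 1])],
  [(28, [.negSucc 1, .ofNat 1])],
  [],
  [],
  [(29, [.negSucc 1, .ofNat 1])],
  [(2, [.negSucc 1, .ofNat 1])],
  [(30, [.ofNat 1]), (2, [.negSucc 0])],
  [(30, [.negSucc 1, .ofNat 1])],
  [(33, [.ofNat 1]), (12, [.negSucc 0])],
  [(12, [.negSucc 1, .ofNat 1])],
  [],
  [(3, [.negSucc 1, .ofNat 1])],
  [(33, [.ofNat 1]), (3, [.negSucc 0])],
  [(33, [.negSucc 1, .ofNat 1])],
  [],
  [(7, [.ofNat 1])],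
  [(7, [.negSucc 1, .ofNat 1])],
  [(34, [.ofNat 1]), (7, [.negSucc 0]), (13, [.negSucc 0])],
  [(13, [.ofNat 1])],
  [(22, [.ofNat 1])],
  [(34, [.ofNat 1]), (17, [.negSucc 0])],
  [(13, [.negSucc 1, .ofNat 1])],
  [(17, [.negSucc 1, .ofNat 1])],
  [],
  [],
  [(22, [.negSucc 1, .ofNat 1])],
  [(4, [.negSucc 1, .ofNat 1])],
  [(34, [.ofNat 1]), (4, [.negSucc 0])],
  [(34, [.negSucc 1, .ofNat 1])],
  [],
  [(8, [.ofNat 1])],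
  [(8, [.negSucc 1, .ofNat 1])],
  [(15, [.ofNat 1]), (9, [.negSucc 0])],
  [(9, [.negSucc 1, .ofNat 1])],
  [],
  [(0, [.negSucc 1, .ofNat 1])],
  [(15, [.ofNat 1]), (0, [.negSucc 0])],
  [(15, [.negSucc 1, .ofNat 1])],
  [(24, [.ofNat 1]), (6, [.negSucc 0]), (10, [.negSucc 0])],
  [(10, [.ofNat 1])],
  [(19, [.ofNat 1])],
  [(24, [.ofNat 1]), (16, [.negSucc 0])],
  [(10, [.negSucc 1, .ofNat 1])],
  [(16, [.negSucc 1, .ofNat 1])],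
  [],
  [],
  [(19, [.negSucc 1, .ofNat 1])],
  [(1, [.negSucc 1, .ofNat 1])],
  [(24, [.ofNat 1]), (1, [.negSucc 0])],
  [(24, [.negSucc 1, .ofNat 1])],
  [(35, [.ofNat 1]), (8, [.negSucc 0]), (14, [.negSucc 0])],
  [(14, [.ofNat 1]), (9, [.negSucc 0])],
  [(23, [.ofNat 1]), (0, [.negSucc 0])],
  [(35, [.ofNat 1]), (15, [.negSucc 0]), (18, [.negSucc 0])],
  [(14, [.ofNat 1]), (10, [.negSucc 0]), (11, [.negSucc 0])],
  [(18, [.ofNat 1]), (16, [.negSucc 0])],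
  [(23, [.ofNat 1]), (19, [.negSucc 0]), (20, [.negSucc 0])],
  [(27, [.ofNat 1]), (1, [.negSucc 0])],
  [(35, [.ofNat 1]), (24, [.negSucc 0]), (25, [.negSucc 0])],
  [(14, [.ofNat 1]), (12, [.negSucc 0])],
  [(18, [.ofNat 1]), (17, [.negSucc 0])],
  [(20, [.ofNat 1])],
  [(25, [.ofNat 1])],
  [(23, [.ofNat 1]), (21, [.negSucc 0])],
  [(27, [.ofNat 1]), (26, [.negSucc 0])],
  [(32, [.ofNat 1])],
  [(35, [.ofNat 1]), (31, [.negSucc 0])],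
  [(14, [.negSucc 1, .ofNat 1])],
  [(18, [.negSucc 1, .ofNat 1])],
  [(20, [.negSucc 1, .ofNat 1])],
  [(25, [.negSucc 1, .ofNat 1])],
  [(21, [.negSucc 1, .ofNat 1])],
  [(26, [.negSucc 1, .ofNat 1])],
  [(31, [.negSucc 1, .ofNat 1])],
  [],
  [],
  [],
  [],
  [(23, [.negSucc 1, .ofNat 1])],
  [(27, [.negSucc 1, .ofNat 1])],
  [(32, [.negSucc 1, .ofNat 1])],
  [(5, [.negSucc 1, .ofNat 1])],
  [(35, [.ofNat 1]), (5, [.negSucc 0])],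
  [(35, [.negSucc 1, .ofNat 1])]]

def A8_5 : List (List (ℕ × List ℤ)) := [[(22, [.ofNat 1])],
  [(13, [.ofNat 1])],
  [(34, [.ofNat 1]), (17, [.negSucc 0])],
  [(17, [.negSucc 1, .ofNat 1])],
  [],
  [],
  [],
  [(22, [.negSucc 1, .ofNat 1])],
  [(4, [.negSucc 1, .ofNat 1])],
  [(7, [.ofNat 1])],
  [(34, [.ofNat 1]), (4, [.negSucc 0])],
  [(7, [.negSucc 1, .ofNat 1])],
  [(34, [.ofNat 1]), (7, [.negSucc 0]), (13, [.negSucc 0])],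
  [(13, [.negSucc 1, .ofNat 1])],
  [(34, [.negSucc 1, .ofNat 1])],
  [],
  [(0, [.negSucc 1, .ofNat 1])],
  [(15, [.ofNat 1]), (0, [.negSucc 0])],
  [(15, [.ofNat 1]), (9, [.negSucc 0])],
  [(9, [.negSucc 1, .ofNat 1])],
  [(15, [.negSucc 1, .ofNat 1])],
  [(19, [.ofNat 1])],
  [(10, [.ofNat 1])],
  [(24, [.ofNat 1]), (16, [.negSucc 0])],
  [(16, [.negSucc 1, .ofNat 1])],
  [],
  [],
  [],
  [(19, [.negSucc 1, .ofNat 1])],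
  [(1, [.negSucc 1, .ofNat 1])],
  [(6, [.ofNat 1])],
  [(24, [.ofNat 1]), (1, [.negSucc 0])],
  [(6, [.negSucc 1, .ofNat 1])],
  [(24, [.ofNat 1]), (6, [.negSucc 0]), (10, [.negSucc 0])],
  [(10, [.negSucc 1, .ofNat 1])],
  [(24, [.negSucc 1, .ofNat 1])],
  [(23, [.ofNat 1]), (0, [.negSucc 0])],
  [(14, [.ofNat 1]), (9, [.negSucc 0])],
  [(35, [.ofNat 1]), (15, [.negSucc 0]), (18, [.negSucc 0])],
  [(18, [.ofNat 1]), (16, [.negSucc 0])],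
  [(23, [.ofNat 1]), (19, [.negSucc 0]), (20, [.negSucc 0])],
  [(27, [.ofNat 1]), (1, [.negSucc 0])],
  [(30, [.ofNat 1]), (6, [.negSucc 0]), (11, [.negSucc 0])],
  [(14, [.ofNat 1]), (10, [.negSucc 0]), (11, [.negSucc 0])],
  [(35, [.ofNat 1]), (24, [.negSucc 0]), (25, [.negSucc 0])],
  [(18, [.ofNat 1]), (17, [.negSucc 0])],
  [(20, [.ofNat 1])],
  [(11, [.ofNat 1])],
  [(25, [.ofNat 1])],
  [(23, [.ofNat 1]), (21, [.negSucc 0])],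
  [(27, [.ofNat 1]), (26, [.negSucc 0])],
  [(29, [.ofNat 1])],
  [(32, [.ofNat 1])],
  [(30, [.ofNat 1]), (28, [.negSucc 0])],
  [(33, [.ofNat 1]), (12, [.negSucc 0])],
  [(14, [.ofNat 1]), (12, [.negSucc 0])],
  [(35, [.ofNat 1]), (31, [.negSucc 0])],
  [(18, [.negSucc 1, .ofNat 1])],
  [(20, [.negSucc 1, .ofNat 1])],
  [(11, [.negSucc 1, .ofNat 1])],
  [(25, [.negSucc 1, .ofNat 1])],
  [(21, [.negSucc 1, .ofNat 1])],
  [(26, [.negSucc 1, .ofNat 1])],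
  [(28, [.negSucc 1, .ofNat 1])],
  [(12, [.negSucc 1, .ofNat 1])],
  [(31, [.negSucc 1, .ofNat 1])],
  [],
  [],
  [],
  [],
  [],
  [],
  [],
  [],
  [(23, [.negSucc 1, .ofNat 1])],
  [(27, [.negSucc 1, .ofNat 1])],
  [(29, [.negSucc 1, .ofNat 1])],
  [(32, [.negSucc 1, .ofNat 1])],
  [(2, [.negSucc 1, .ofNat 1])],
  [(3, [.negSucc 1, .ofNat 1])],
  [(5, [.negSucc 1, .ofNat 1])],
  [(30, [.ofNat 1]), (2, [.negSucc 0])],
  [(33, [.ofNat 1]), (3, [.negSucc 0])],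
  [(8, [.ofNat 1])],
  [(35, [.ofNat 1]), (5, [.negSucc 0])],
  [(30, [.negSucc 1, .ofNat 1])],
  [(33, [.negSucc 1, .ofNat 1])],
  [(8, [.negSucc 1, .ofNat 1])],
  [(35, [.ofNat 1]), (8, [.negSucc 0]), (14, [.negSucc 0])],
  [(14, [.negSucc 1, .ofNat 1])],
  [(35, [.negSucc 1, .ofNat 1])]]

def A8_6 : List (List (ℕ × List ℤ)) := [[],
  [],
  [],
  [(1, [.negSucc 1, .ofNat 1])],
  [(6, [.ofNat 1])],
  [(19, [.ofNat 1])],
  [(24, [.ofNat 1]), (1, [.negSucc 0])],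
  [(6, [.negSucc 1, .ofNat 1])],
  [(24, [.ofNat 1]), (6, [.negSucc 0]), (10, [.negSucc 0])],
  [(10, [.ofNat 1])],
  [(10, [.negSucc 1, .ofNat 1])],
  [(24, [.ofNat 1]), (16, [.negSucc 0])],
  [(16, [.negSucc 1, .ofNat 1])],
  [(19, [.negSucc 1, .ofNat 1])],
  [(24, [.negSucc 1, .ofNat 1])],
  [(27, [.ofNat 1]), (1, [.negSucc 0])],
  [(30, [.ofNat 1]), (6, [.negSucc 0]), (11, [.negSucc 0])],
  [(14, [.ofNat 1]), (10, [.negSucc 0]), (11, [.negSucc 0])],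
  [(18, [.ofNat 1]), (16, [.negSucc 0])],
  [(23, [.ofNat 1]), (19, [.negSucc 0]), (20, [.negSucc 0])],
  [(35, [.ofNat 1]), (24, [.negSucc 0]), (25, [.negSucc 0])],
  [(11, [.ofNat 1])],
  [(20, [.ofNat 1])],
  [(25, [.ofNat 1])],
  [(27, [.ofNat 1]), (26, [.negSucc 0])],
  [(29, [.ofNat 1])],
  [(22, [.ofNat 1])],
  [(32, [.ofNat 1])],
  [(30, [.ofNat 1]), (28, [.negSucc 0])],
  [(33, [.ofNat 1]), (12, [.negSucc 0])],
  [(13, [.ofNat 1])],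
  [(14, [.ofNat 1]), (12, [.negSucc 0])],
  [(34, [.ofNat 1]), (17, [.negSucc 0])],
  [(18, [.ofNat 1]), (17, [.negSucc 0])],
  [(23, [.ofNat 1]), (21, [.negSucc 0])],
  [(35, [.ofNat 1]), (31, [.negSucc 0])],
  [(11, [.negSucc 1, .ofNat 1])],
  [(20, [.negSucc 1, .ofNat 1])],
  [(25, [.negSucc 1, .ofNat 1])],
  [(26, [.negSucc 1, .ofNat 1])],
  [(28, [.negSucc 1, .ofNat 1])],
  [(12, [.negSucc 1, .ofNat 1])],
  [(17, [.negSucc 1, .ofNat 1])],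
  [(21, [.negSucc 1, .ofNat 1])],
  [(31, [.negSucc 1, .ofNat 1])],
  [],
  [],
  [],
  [],
  [],
  [],
  [],
  [],
  [],
  [],
  [],
  [],
  [(27, [.negSucc 1, .ofNat 1])],
  [(29, [.negSucc 1, .ofNat 1])],
  [(22, [.negSucc 1, .ofNat 1])],
  [(32, [.negSucc 1, .ofNat 1])],
  [(2, [.negSucc 1, .ofNat 1])],
  [(3, [.negSucc 1, .ofNat 1])],
  [(4, [.negSucc 1, .ofNat 1])],
  [(0, [.negSucc 1, .ofNat 1])],
  [(5, [.negSucc 1, .ofNat 1])],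
  [(30, [.ofNat 1]), (2, [.negSucc 0])],
  [(33, [.ofNat 1]), (3, [.negSucc 0])],
  [(7, [.ofNat 1])],
  [(8, [.ofNat 1])],
  [(34, [.ofNat 1]), (4, [.negSucc 0])],
  [(15, [.ofNat 1]), (0, [.negSucc 0])],
  [(23, [.ofNat 1]), (0, [.negSucc 0])],
  [(35, [.ofNat 1]), (5, [.negSucc 0])],
  [(30, [.negSucc 1, .ofNat 1])],
  [(33, [.negSucc 1, .ofNat 1])],
  [(7, [.negSucc 1, .ofNat 1])],
  [(8, [.negSucc 1, .ofNat 1])],
  [(34, [.ofNat 1]), (7, [.negSucc 0]), (13, [.negSucc 0])],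
  [(15, [.ofNat 1]), (9, [.negSucc 0])],
  [(35, [.ofNat 1]), (8, [.negSucc 0]), (14, [.negSucc 0])],
  [(13, [.negSucc 1, .ofNat 1])],
  [(9, [.negSucc 1, .ofNat 1])],
  [(14, [.ofNat 1]), (9, [.negSucc 0])],
  [(14, [.negSucc 1, .ofNat 1])],
  [(34, [.negSucc 1, .ofNat 1])],
  [(15, [.negSucc 1, .ofNat 1])],
  [(35, [.ofNat 1]), (15, [.negSucc 0]), (18, [.negSucc 0])],
  [(18, [.negSucc 1, .ofNat 1])],
  [(23, [.negSucc 1, .ofNat 1])],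
  [(35, [.negSucc 1, .ofNat 1])]]

def A8_7 : List (List (ℕ × List ℤ)) := [[(22, [.ofNat 1])],
  [(29, [.ofNat 1])],
  [(32, [.ofNat 1])],
  [(33, [.ofNat 1]), (12, [.negSucc 0])],
  [(13, [.ofNat 1])],
  [(11, [.ofNat 1])],
  [(14, [.ofNat 1]), (12, [.negSucc 0])],
  [(34, [.ofNat 1]), (17, [.negSucc 0])],
  [(18, [.ofNat 1]), (17, [.negSucc 0])],
  [(20, [.ofNat 1])],
  [(23, [.ofNat 1]), (21, [.negSucc 0])],
  [(25, [.ofNat 1])],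
  [(27, [.ofNat 1]), (26, [.negSucc 0])],
  [(30, [.ofNat 1]), (28, [.negSucc 0])],
  [(35, [.ofNat 1]), (31, [.negSucc 0])],
  [(12, [.negSucc 1, .ofNat 1])],
  [(17, [.negSucc 1, .ofNat 1])],
  [(21, [.negSucc 1, .ofNat 1])],
  [(26, [.negSucc 1, .ofNat 1])],
  [(28, [.negSucc 1, .ofNat 1])],
  [(31, [.negSucc 1, .ofNat 1])],
  [],
  [],
  [],
  [],
  [],
  [],
  [],
  [],
  [],
  [],
  [],
  [],
  [],
  [],
  [],
  [(22, [.negSucc 1, .ofNat 1])],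
  [(29, [.negSucc 1, .ofNat 1])],
  [(32, [.negSucc 1, .ofNat 1])],
  [(3, [.negSucc 1, .ofNat 1])],
  [(4, [.negSucc 1, .ofNat 1])],
  [(0, [.negSucc 1, .ofNat 1])],
  [(1, [.negSucc 1, .ofNat 1])],
  [(2, [.negSucc 1, .ofNat 1])],
  [(5, [.negSucc 1, .ofNat 1])],
  [(33, [.ofNat 1]), (3, [.negSucc 0])],
  [(7, [.ofNat 1])],
  [(6, [.ofNat 1])],
  [(8, [.ofNat 1])],
  [(34, [.ofNat 1]), (4, [.negSucc 0])],
  [(15, [.ofNat 1]), (0, [.negSucc 0])],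
  [(19, [.ofNat 1])],
  [(23, [.ofNat 1]), (0, [.negSucc 0])],
  [(24, [.ofNat 1]), (1, [.negSucc 0])],
  [(27, [.ofNat 1]), (1, [.negSucc 0])],
  [(30, [.ofNat 1]), (2, [.negSucc 0])],
  [(35, [.ofNat 1]), (5, [.negSucc 0])],
  [(33, [.negSucc 1, .ofNat 1])],
  [(7, [.negSucc 1, .ofNat 1])],
  [(6, [.negSucc 1, .ofNat 1])],
  [(8, [.negSucc 1, .ofNat 1])],
  [(34, [.ofNat 1]), (7, [.negSucc 0]), (13, [.negSucc 0])],
  [(15, [.ofNat 1]), (9, [.negSucc 0])],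
  [(24, [.ofNat 1]), (6, [.negSucc 0]), (10, [.negSucc 0])],
  [(30, [.ofNat 1]), (6, [.negSucc 0]), (11, [.negSucc 0])],
  [(35, [.ofNat 1]), (8, [.negSucc 0]), (14, [.negSucc 0])],
  [(13, [.negSucc 1, .ofNat 1])],
  [(9, [.negSucc 1, .ofNat 1])],
  [(10, [.ofNat 1])],
  [(14, [.ofNat 1]), (9, [.negSucc 0])],
  [(10, [.negSucc 1, .ofNat 1])],
  [(14, [.ofNat 1]), (10, [.negSucc 0]), (11, [.negSucc 0])],
  [(11, [.negSucc 1, .ofNat 1])],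
  [(14, [.negSucc 1, .ofNat 1])],
  [(34, [.negSucc 1, .ofNat 1])],
  [(15, [.negSucc 1, .ofNat 1])],
  [(24, [.ofNat 1]), (16, [.negSucc 0])],
  [(35, [.ofNat 1]), (15, [.negSucc 0]), (18, [.negSucc 0])],
  [(16, [.negSucc 1, .ofNat 1])],
  [(18, [.ofNat 1]), (16, [.negSucc 0])],
  [(18, [.negSucc 1, .ofNat 1])],
  [(19, [.negSucc 1, .ofNat 1])],
  [(23, [.ofNat 1]), (19, [.negSucc 0]), (20, [.negSucc 0])],
  [(20, [.negSucc 1, .ofNat 1])],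
  [(23, [.negSucc 1, .ofNat 1])],
  [(24, [.negSucc 1, .ofNat 1])],
  [(35, [.ofNat 1]), (24, [.negSucc 0]), (25, [.negSucc 0])],
  [(25, [.negSucc 1, .ofNat 1])],
  [(27, [.negSucc 1, .ofNat 1])],
  [(30, [.negSucc 1, .ofNat 1])],
  [(35, [.negSucc 1, .ofNat 1])]]

def P7_2 : List (List (ℕ × List ℤ)) := [[(22, [.ofNat 1])],
  [(0, [.ofNat 1])],
  [(19, [.ofNat 1])],
  [(20, [.ofNat 1])],
  [(21, [.ofNat 1])],
  [(23, [.ofNat 1])],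
  [(1, [.ofNat 1])],
  [(26, [.ofNat 1])],
  [(27, [.ofNat 1])],
  [(29, [.ofNat 1])],
  [(2, [.ofNat 1])],
  [(6, [.ofNat 1])],
  [(11, [.ofNat 1])],
  [(28, [.ofNat 1])],
  [(30, [.ofNat 1])],
  [(32, [.ofNat 1])],
  [(3, [.ofNat 1])],
  [(12, [.ofNat 1])],
  [(33, [.ofNat 1])],
  [(4, [.ofNat 1])],
  [(7, [.ofNat 1])],
  [(13, [.ofNat 1])],
  [(17, [.ofNat 1])],
  [(34, [.ofNat 1])],
  [(5, [.ofNat 1])],
  [(8, [.ofNat 1])],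
  [(9, [.ofNat 1])],
  [(15, [.ofNat 1])],
  [(10, [.ofNat 1])],
  [(16, [.ofNat 1])],
  [(24, [.ofNat 1])],
  [(14, [.ofNat 1])],
  [(18, [.ofNat 1])],
  [(25, [.ofNat 1])],
  [(31, [.ofNat 1])],
  [(35, [.ofNat 1])]]

def P7_3 : List (List (ℕ × List ℤ)) := [[(6, [.ofNat 1])],
  [(11, [.ofNat 1])],
  [(28, [.ofNat 1])],
  [(29, [.ofNat 1])],
  [(2, [.ofNat 1])],
  [(30, [.ofNat 1])],
  [(12, [.ofNat 1])],
  [(3, [.ofNat 1])],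
  [(33, [.ofNat 1])],
  [(7, [.ofNat 1])],
  [(13, [.ofNat 1])],
  [(17, [.ofNat 1])],
  [(22, [.ofNat 1])],
  [(4, [.ofNat 1])],
  [(34, [.ofNat 1])],
  [(8, [.ofNat 1])],
  [(9, [.ofNat 1])],
  [(0, [.ofNat 1])],
  [(15, [.ofNat 1])],
  [(10, [.ofNat 1])],
  [(16, [.ofNat 1])],
  [(19, [.ofNat 1])],
  [(1, [.ofNat 1])],
  [(24, [.ofNat 1])],
  [(14, [.ofNat 1])],
  [(18, [.ofNat 1])],
  [(20, [.ofNat 1])],
  [(25, [.ofNat 1])],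
  [(21, [.ofNat 1])],
  [(26, [.ofNat 1])],
  [(31, [.ofNat 1])],
  [(23, [.ofNat 1])],
  [(27, [.ofNat 1])],
  [(32, [.ofNat 1])],
  [(5, [.ofNat 1])],
  [(35, [.ofNat 1])]]

def P7_4 : List (List (ℕ × List ℤ)) := [[(17, [.ofNat 1])],
  [(22, [.ofNat 1])],
  [(4, [.ofNat 1])],
  [(7, [.ofNat 1])],
  [(13, [.ofNat 1])],
  [(34, [.ofNat 1])],
  [(0, [.ofNat 1])],
  [(9, [.ofNat 1])],
  [(15, [.ofNat 1])],
  [(16, [.ofNat 1])],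
  [(19, [.ofNat 1])],
  [(1, [.ofNat 1])],
  [(6, [.ofNat 1])],
  [(10, [.ofNat 1])],
  [(24, [.ofNat 1])],
  [(18, [.ofNat 1])],
  [(20, [.ofNat 1])],
  [(11, [.ofNat 1])],
  [(25, [.ofNat 1])],
  [(21, [.ofNat 1])],
  [(26, [.ofNat 1])],
  [(28, [.ofNat 1])],
  [(12, [.ofNat 1])],
  [(31, [.ofNat 1])],
  [(23, [.ofNat 1])],
  [(27, [.ofNat 1])],
  [(29, [.ofNat 1])],
  [(32, [.ofNat 1])],
  [(2, [.ofNat 1])],
  [(3, [.ofNat 1])],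
  [(5, [.ofNat 1])],
  [(30, [.ofNat 1])],
  [(33, [.ofNat 1])],
  [(8, [.ofNat 1])],
  [(14, [.ofNat 1])],
  [(35, [.ofNat 1])]]

def P7_5 : List (List (ℕ × List ℤ)) := [[(1, [.ofNat 1])],
  [(6, [.ofNat 1])],
  [(10, [.ofNat 1])],
  [(16, [.ofNat 1])],
  [(19, [.ofNat 1])],
  [(24, [.ofNat 1])],
  [(11, [.ofNat 1])],
  [(20, [.ofNat 1])],
  [(25, [.ofNat 1])],
  [(26, [.ofNat 1])],
  [(28, [.ofNat 1])],
  [(12, [.ofNat 1])],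
  [(17, [.ofNat 1])],
  [(21, [.ofNat 1])],
  [(31, [.ofNat 1])],
  [(27, [.ofNat 1])],
  [(29, [.ofNat 1])],
  [(22, [.ofNat 1])],
  [(32, [.ofNat 1])],
  [(2, [.ofNat 1])],
  [(3, [.ofNat 1])],
  [(4, [.ofNat 1])],
  [(0, [.ofNat 1])],
  [(5, [.ofNat 1])],
  [(30, [.ofNat 1])],
  [(33, [.ofNat 1])],
  [(7, [.ofNat 1])],
  [(8, [.ofNat 1])],
  [(13, [.ofNat 1])],
  [(9, [.ofNat 1])],
  [(14, [.ofNat 1])],
  [(34, [.ofNat 1])],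
  [(15, [.ofNat 1])],
  [(18, [.ofNat 1])],
  [(23, [.ofNat 1])],
  [(35, [.ofNat 1])]]

def P7_6 : List (List (ℕ × List ℤ)) := [[(12, [.ofNat 1])],
  [(17, [.ofNat 1])],
  [(21, [.ofNat 1])],
  [(26, [.ofNat 1])],
  [(28, [.ofNat 1])],
  [(31, [.ofNat 1])],
  [(22, [.ofNat 1])],
  [(29, [.ofNat 1])],
  [(32, [.ofNat 1])],
  [(3, [.ofNat 1])],
  [(4, [.ofNat 1])],
  [(0, [.ofNat 1])],
  [(1, [.ofNat 1])],
  [(2, [.ofNat 1])],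
  [(5, [.ofNat 1])],
  [(33, [.ofNat 1])],
  [(7, [.ofNat 1])],
  [(6, [.ofNat 1])],
  [(8, [.ofNat 1])],
  [(13, [.ofNat 1])],
  [(9, [.ofNat 1])],
  [(10, [.ofNat 1])],
  [(11, [.ofNat 1])],
  [(14, [.ofNat 1])],
  [(34, [.ofNat 1])],
  [(15, [.ofNat 1])],
  [(16, [.ofNat 1])],
  [(18, [.ofNat 1])],
  [(19, [.ofNat 1])],
  [(20, [.ofNat 1])],
  [(23, [.ofNat 1])],
  [(24, [.ofNat 1])],
  [(25, [.ofNat 1])],
  [(27, [.ofNat 1])],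
  [(30, [.ofNat 1])],
  [(35, [.ofNat 1])]]

def P6_2 : List (List (ℕ × List ℤ)) := [[(0, [.ofNat 1])],
  [(9, [.ofNat 1])],
  [(10, [.ofNat 1])],
  [(12, [.ofNat 1])],
  [(1, [.ofNat 1])],
  [(5, [.ofNat 1])],
  [(13, [.ofNat 1])],
  [(2, [.ofNat 1])],
  [(3, [.ofNat 1])],
  [(4, [.ofNat 1])],
  [(7, [.ofNat 1])],
  [(6, [.ofNat 1])],
  [(8, [.ofNat 1])],
  [(11, [.ofNat 1])],
  [(14, [.ofNat 1])]]

def P6_3 : List (List (ℕ × List ℤ)) := [[(5, [.ofNat 1])],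
  [(1, [.ofNat 1])],
  [(13, [.ofNat 1])],
  [(3, [.ofNat 1])],
  [(4, [.ofNat 1])],
  [(0, [.ofNat 1])],
  [(7, [.ofNat 1])],
  [(6, [.ofNat 1])],
  [(8, [.ofNat 1])],
  [(9, [.ofNat 1])],
  [(11, [.ofNat 1])],
  [(10, [.ofNat 1])],
  [(12, [.ofNat 1])],
  [(2, [.ofNat 1])],
  [(14, [.ofNat 1])]]

def P6_4 : List (List (ℕ × List ℤ)) := [[(0, [.ofNat 1])],
  [(4, [.ofNat 1])],
  [(7, [.ofNat 1])],
  [(8, [.ofNat 1])],
  [(9, [.ofNat 1])],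
  [(5, [.ofNat 1])],
  [(11, [.ofNat 1])],
  [(10, [.ofNat 1])],
  [(12, [.ofNat 1])],
  [(1, [.ofNat 1])],
  [(2, [.ofNat 1])],
  [(13, [.ofNat 1])],
  [(3, [.ofNat 1])],
  [(6, [.ofNat 1])],
  [(14, [.ofNat 1])]]

def P6_5 : List (List (ℕ × List ℤ)) := [[(5, [.ofNat 1])],
  [(9, [.ofNat 1])],
  [(11, [.ofNat 1])],
  [(12, [.ofNat 1])],
  [(1, [.ofNat 1])],
  [(0, [.ofNat 1])],
  [(2, [.ofNat 1])],
  [(13, [.ofNat 1])],
  [(3, [.ofNat 1])],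
  [(4, [.ofNat 1])],
  [(6, [.ofNat 1])],
  [(7, [.ofNat 1])],
  [(8, [.ofNat 1])],
  [(10, [.ofNat 1])],
  [(14, [.ofNat 1])]]

def L8_0 : List (List (ℕ × List ℤ)) := [[(0, [.negSucc 1, .ofNat 1])],
  [(1, [.negSucc 1, .ofNat 1])],
  [(2, [.negSucc 1, .ofNat 1])],
  [(3, [.negSucc 1, .ofNat 1])],
  [(4, [.negSucc 1, .ofNat 1])],
  [(5, [.negSucc 1, .ofNat 1])],
  [(6, [.negSucc 1, .ofNat 1])],
  [(7, [.negSucc 1, .ofNat 1])],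
  [(8, [.negSucc 1, .ofNat 1])],
  [(9, [.negSucc 1, .ofNat 1])],
  [(10, [.negSucc 1, .ofNat 1])],
  [(11, [.negSucc 1, .ofNat 1])],
  [(12, [.negSucc 1, .ofNat 1])],
  [(13, [.negSucc 1, .ofNat 1])],
  [(14, [.negSucc 1, .ofNat 1])],
  [(15, [.negSucc 1, .ofNat 1])],
  [(16, [.negSucc 1, .ofNat 1])],
  [(17, [.negSucc 1, .ofNat 1])],
  [(18, [.negSucc 1, .ofNat 1])],
  [(19, [.negSucc 1, .ofNat 1])],
  [(20, [.negSucc 1, .ofNat 1])],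
  [(21, [.negSucc 1, .ofNat 1])],
  [(22, [.negSucc 1, .ofNat 1])],
  [(23, [.negSucc 1, .ofNat 1])],
  [(24, [.negSucc 1, .ofNat 1])],
  [(25, [.negSucc 1, .ofNat 1])],
  [(26, [.negSucc 1, .ofNat 1])],
  [(27, [.negSucc 1, .ofNat 1])],
  [(28, [.negSucc 1, .ofNat 1])],
  [(29, [.negSucc 1, .ofNat 1])],
  [(30, [.negSucc 1, .ofNat 1])],
  [(31, [.negSucc 1, .ofNat 1])],
  [(32, [.negSucc 1, .ofNat 1])],
  [(33, [.negSucc 1, .ofNat 1])],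
  [(34, [.negSucc 1, .ofNat 1])],
  [(35, [.negSucc 1, .ofNat 1])]]

def L8_1 : List (List (ℕ × List ℤ)) := [[(30, [.ofNat 1]), (6, [.negSucc 0]), (11, [.negSucc 0])],
  [(33, [.ofNat 1]), (12, [.negSucc 0])],
  [(34, [.ofNat 1]), (7, [.negSucc 0]), (13, [.negSucc 0])],
  [(15, [.ofNat 1]), (9, [.negSucc 0])],
  [(24, [.ofNat 1]), (6, [.negSucc 0]), (10, [.negSucc 0])],
  [(35, [.ofNat 1]), (8, [.negSucc 0]), (14, [.negSucc 0])],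
  [(34, [.ofNat 1]), (17, [.negSucc 0]), (22, [.negSucc 0])],
  [(24, [.ofNat 1]), (16, [.negSucc 0]), (19, [.negSucc 0])],
  [(35, [.ofNat 1]), (15, [.negSucc 0]), (18, [.negSucc 0]), (23, [.negSucc 0]), (0, [.ofNat 1])],
  [(23, [.ofNat 1]), (19, [.negSucc 0]), (20, [.negSucc 0])],
  [(23, [.ofNat 1]), (21, [.negSucc 0]), (22, [.negSucc 0])],
  [(22, [.negSucc 1, .ofNat 1]), (22, [.negSucc 0])],
  [(0, [.negSucc 1, .ofNat 1])],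
  [(19, [.negSucc 1, .ofNat 1]), (19, [.negSucc 0])],
  [(23, [.negSucc 1, .ofNat 1]), (23, [.negSucc 0]), (0, [.ofNat 1])],
  [(35, [.ofNat 1]), (24, [.negSucc 0]), (25, [.negSucc 0]), (27, [.negSucc 0]), (1, [.ofNat 1])],
  [(27, [.ofNat 1]), (26, [.negSucc 0])],
  [(1, [.negSucc 1, .ofNat 1])],
  [(27, [.negSucc 1, .ofNat 1]), (27, [.negSucc 0]), (1, [.ofNat 1])],
  [(30, [.ofNat 1]), (28, [.negSucc 0]), (29, [.negSucc 0])],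
  [(29, [.negSucc 1, .ofNat 1]), (29, [.negSucc 0])],
  [(2, [.negSucc 1, .ofNat 1])],
  [(6, [.negSucc 1, .ofNat 1]), (6, [.negSucc 0])],
  [(30, [.negSucc 1, .ofNat 1]), (30, [.negSucc 0]), (2, [.ofNat 1])],
  [(35, [.ofNat 1]), (31, [.negSucc 0]), (32, [.negSucc 0])],
  [(32, [.negSucc 1, .ofNat 1]), (32, [.negSucc 0])],
  [(3, [.negSucc 1, .ofNat 1])],
  [(33, [.negSucc 1, .ofNat 1]), (33, [.negSucc 0]), (3, [.ofNat 1])],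
  [(4, [.negSucc 1, .ofNat 1])],
  [(7, [.negSucc 1, .ofNat 1]), (7, [.negSucc 0])],
  [(34, [.negSucc 1, .ofNat 1]), (34, [.negSucc 0]), (4, [.ofNat 1])],
  [(5, [.negSucc 1, .ofNat 1])],
  [(8, [.negSucc 1, .ofNat 1]), (8, [.negSucc 0])],
  [(15, [.negSucc 1, .ofNat 1]), (15, [.negSucc 0]), (0, [.ofNat 1])],
  [(24, [.negSucc 1, .ofNat 1]), (24, [.negSucc 0]), (1, [.ofNat 1])],
  [(35, [.negSucc 1, .ofNat 1]), (35, [.negSucc 0]), (5, [.ofNat 1])]]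

def L8_2 : List (List (ℕ × List ℤ)) := [[(17, [.negSucc 1, .ofNat 1])],
  [],
  [(16, [.negSucc 1, .ofNat 1])],
  [(18, [.ofNat 1]), (16, [.negSucc 0])],
  [(18, [.ofNat 1]), (17, [.negSucc 0])],
  [(18, [.negSucc 1, .ofNat 1])],
  [],
  [(25, [.ofNat 1]), (11, [.negSucc 0])],
  [(25, [.negSucc 1, .ofNat 1]), (11, [.ofNat 2, .negSucc 0])],
  [(28, [.negSucc 1, .ofNat 1])],
  [],
  [(6, [.negSucc 1, .ofNat 1])],
  [(30, [.ofNat 1]), (6, [.negSucc 0]), (11, [.negSucc 0])],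
  [(30, [.ofNat 1]), (28, [.negSucc 0]), (11, [.negSucc 0])],
  [(30, [.negSucc 1, .ofNat 1]), (11, [.ofNat 2, .negSucc 0])],
  [(31, [.negSucc 1, .ofNat 1]), (12, [.ofNat 2, .negSucc 0])],
  [],
  [(33, [.ofNat 1]), (12, [.negSucc 0])],
  [(33, [.negSucc 1, .ofNat 1]), (12, [.ofNat 2, .negSucc 0])],
  [],
  [(7, [.negSucc 1, .ofNat 1])],
  [(34, [.ofNat 1]), (7, [.negSucc 0]), (13, [.negSucc 0])],
  [(34, [.ofNat 1]), (17, [.negSucc 0]), (13, [.negSucc 0])],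
  [(34, [.negSucc 1, .ofNat 1]), (13, [.ofNat 2, .negSucc 0])],
  [],
  [(8, [.negSucc 1, .ofNat 1])],
  [(15, [.ofNat 1]), (9, [.negSucc 0])],
  [(15, [.negSucc 1, .ofNat 1]), (9, [.ofNat 2, .negSucc 0])],
  [(24, [.ofNat 1]), (6, [.negSucc 0]), (10, [.negSucc 0])],
  [(24, [.ofNat 1]), (16, [.negSucc 0]), (10, [.negSucc 0])],
  [(24, [.negSucc 1, .ofNat 1]), (10, [.ofNat 2, .negSucc 0])],
  [(35, [.ofNat 1]), (8, [.negSucc 0]), (14, [.negSucc 0])],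
  [(35, [.ofNat 1]), (15, [.negSucc 0]), (18, [.negSucc 0]), (14, [.negSucc 0]), (9, [.ofNat 1])],
  [(35, [.ofNat 1]), (24, [.negSucc 0]), (25, [.negSucc 0]), (14, [.negSucc 0]), (10, [.ofNat 1]), (11, [.ofNat 1])],
  [(35, [.ofNat 1]), (31, [.negSucc 0]), (14, [.negSucc 0]), (12, [.ofNat 1])],
  [(35, [.negSucc 1, .ofNat 1]), (14, [.ofNat 2, .negSucc 0])]]

def L8_3 : List (List (ℕ × List ℤ)) := [[(1, [.negSucc 1, .ofNat 1])],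
  [(27, [.ofNat 1]), (1, [.negSucc 0])],
  [(27, [.ofNat 1]), (26, [.negSucc 0])],
  [(26, [.negSucc 1, .ofNat 1])],
  [],
  [(27, [.negSucc 1, .ofNat 1])],
  [(32, [.ofNat 1]), (22, [.negSucc 0])],
  [],
  [(32, [.negSucc 1, .ofNat 1]), (22, [.ofNat 2, .negSucc 0])],
  [(4, [.negSucc 1, .ofNat 1])],
  [(34, [.ofNat 1]), (4, [.negSucc 0]), (22, [.negSucc 0])],
  [(34, [.ofNat 1]), (17, [.negSucc 0]), (22, [.negSucc 0])],
  [(17, [.negSucc 1, .ofNat 1])],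
  [],
  [(34, [.negSucc 1, .ofNat 1]), (22, [.ofNat 2, .negSucc 0])],
  [(5, [.negSucc 1, .ofNat 1]), (0, [.ofNat 2, .negSucc 0])],
  [(15, [.ofNat 1]), (0, [.negSucc 0])],
  [],
  [(15, [.negSucc 1, .ofNat 1]), (0, [.ofNat 2, .negSucc 0])],
  [(24, [.ofNat 1]), (1, [.negSucc 0]), (19, [.negSucc 0])],
  [(24, [.ofNat 1]), (16, [.negSucc 0]), (19, [.negSucc 0])],
  [(16, [.negSucc 1, .ofNat 1])],
  [],
  [(24, [.negSucc 1, .ofNat 1]), (19, [.ofNat 2, .negSucc 0])],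
  [(35, [.ofNat 1]), (5, [.negSucc 0]), (23, [.negSucc 0]), (0, [.ofNat 1])],
  [(35, [.ofNat 1]), (15, [.negSucc 0]), (18, [.negSucc 0]), (23, [.negSucc 0]), (0, [.ofNat 1])],
  [(18, [.ofNat 1]), (16, [.negSucc 0])],
  [(35, [.ofNat 1]), (24, [.negSucc 0]), (25, [.negSucc 0]), (23, [.negSucc 0]), (19, [.ofNat 1]), (20, [.ofNat 1])],
  [(18, [.ofNat 1]), (17, [.negSucc 0])],
  [(25, [.ofNat 1]), (20, [.negSucc 0])],
  [(35, [.ofNat 1]), (31, [.negSucc 0]), (23, [.negSucc 0]), (21, [.ofNat 1])],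
  [(18, [.negSucc 1, .ofNat 1])],
  [(25, [.negSucc 1, .ofNat 1]), (20, [.ofNat 2, .negSucc 0])],
  [(31, [.negSucc 1, .ofNat 1]), (21, [.ofNat 2, .negSucc 0])],
  [],
  [(35, [.negSucc 1, .ofNat 1]), (23, [.ofNat 2, .negSucc 0])]]

def L8_4 : List (List (ℕ × List ℤ)) := [[(33, [.ofNat 1]), (12, [.negSucc 0])],
  [(12, [.negSucc 1, .ofNat 1])],
  [],
  [(3, [.negSucc 1, .ofNat 1])],
  [(33, [.ofNat 1]), (3, [.negSucc 0])],
  [(33, [.negSucc 1, .ofNat 1])],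
  [],
  [(8, [.ofNat 1]), (6, [.negSucc 0])],
  [(8, [.negSucc 1, .ofNat 1]), (6, [.ofNat 2, .negSucc 0])],
  [(24, [.ofNat 1]), (6, [.negSucc 0]), (10, [.negSucc 0])],
  [(10, [.negSucc 1, .ofNat 1])],
  [],
  [(1, [.negSucc 1, .ofNat 1])],
  [(24, [.ofNat 1]), (1, [.negSucc 0]), (6, [.negSucc 0])],
  [(24, [.negSucc 1, .ofNat 1]), (6, [.ofNat 2, .negSucc 0])],
  [(35, [.ofNat 1]), (8, [.negSucc 0]), (14, [.negSucc 0]), (30, [.negSucc 0]), (6, [.ofNat 1]), (11, [.ofNat 1])],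
  [(14, [.ofNat 1]), (10, [.negSucc 0]), (11, [.negSucc 0])],
  [(27, [.ofNat 1]), (1, [.negSucc 0])],
  [(35, [.ofNat 1]), (24, [.negSucc 0]), (25, [.negSucc 0]), (30, [.negSucc 0]), (6, [.ofNat 1]), (11, [.ofNat 1])],
  [(14, [.ofNat 1]), (12, [.negSucc 0]), (11, [.negSucc 0])],
  [(25, [.ofNat 1]), (11, [.negSucc 0])],
  [(27, [.ofNat 1]), (26, [.negSucc 0])],
  [(32, [.ofNat 1]), (29, [.negSucc 0])],
  [(35, [.ofNat 1]), (31, [.negSucc 0]), (30, [.negSucc 0]), (28, [.ofNat 1])],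
  [(14, [.negSucc 1, .ofNat 1]), (11, [.ofNat 2, .negSucc 0])],
  [(25, [.negSucc 1, .ofNat 1]), (11, [.ofNat 2, .negSucc 0])],
  [(26, [.negSucc 1, .ofNat 1])],
  [(31, [.negSucc 1, .ofNat 1]), (28, [.ofNat 2, .negSucc 0])],
  [],
  [],
  [],
  [(27, [.negSucc 1, .ofNat 1])],
  [(32, [.negSucc 1, .ofNat 1]), (29, [.ofNat 2, .negSucc 0])],
  [(5, [.negSucc 1, .ofNat 1]), (2, [.ofNat 2, .negSucc 0])],
  [(35, [.ofNat 1]), (5, [.negSucc 0]), (30, [.negSucc 0]), (2, [.ofNat 1])],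
  [(35, [.negSucc 1, .ofNat 1]), (30, [.ofNat 2, .negSucc 0])]]

def L8_5 : List (List (ℕ × List ℤ)) := [[],
  [(0, [.negSucc 1, .ofNat 1])],
  [(15, [.ofNat 1]), (0, [.negSucc 0])],
  [(15, [.ofNat 1]), (9, [.negSucc 0])],
  [(9, [.negSucc 1, .ofNat 1])],
  [(15, [.negSucc 1, .ofNat 1])],
  [(23, [.ofNat 1]), (0, [.negSucc 0]), (22, [.negSucc 0])],
  [(14, [.ofNat 1]), (9, [.negSucc 0]), (13, [.negSucc 0])],
  [(35, [.ofNat 1]), (15, [.negSucc 0]), (18, [.negSucc 0]), (34, [.negSucc 0]), (17, [.ofNat 1])],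
  [(18, [.ofNat 1]), (17, [.negSucc 0])],
  [(23, [.ofNat 1]), (21, [.negSucc 0]), (22, [.negSucc 0])],
  [(32, [.ofNat 1]), (22, [.negSucc 0])],
  [(33, [.ofNat 1]), (12, [.negSucc 0])],
  [(14, [.ofNat 1]), (12, [.negSucc 0]), (13, [.negSucc 0])],
  [(35, [.ofNat 1]), (31, [.negSucc 0]), (34, [.negSucc 0]), (17, [.ofNat 1])],
  [(18, [.negSucc 1, .ofNat 1]), (17, [.ofNat 2, .negSucc 0])],
  [(21, [.negSucc 1, .ofNat 1])],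
  [(12, [.negSucc 1, .ofNat 1])],
  [(31, [.negSucc 1, .ofNat 1]), (17, [.ofNat 2, .negSucc 0])],
  [],
  [],
  [],
  [],
  [],
  [(23, [.negSucc 1, .ofNat 1]), (22, [.ofNat 2, .negSucc 0])],
  [(32, [.negSucc 1, .ofNat 1]), (22, [.ofNat 2, .negSucc 0])],
  [(3, [.negSucc 1, .ofNat 1])],
  [(5, [.negSucc 1, .ofNat 1]), (4, [.ofNat 2, .negSucc 0])],
  [(33, [.ofNat 1]), (3, [.negSucc 0])],
  [(8, [.ofNat 1]), (7, [.negSucc 0])],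
  [(35, [.ofNat 1]), (5, [.negSucc 0]), (34, [.negSucc 0]), (4, [.ofNat 1])],
  [(33, [.negSucc 1, .ofNat 1])],
  [(8, [.negSucc 1, .ofNat 1]), (7, [.ofNat 2, .negSucc 0])],
  [(35, [.ofNat 1]), (8, [.negSucc 0]), (14, [.negSucc 0]), (34, [.negSucc 0]), (7, [.ofNat 1]), (13, [.ofNat 1])],
  [(14, [.negSucc 1, .ofNat 1]), (13, [.ofNat 2, .negSucc 0])],
  [(35, [.negSucc 1, .ofNat 1]), (34, [.ofNat 2, .negSucc 0])]]

def L8_6 : List (List (ℕ × List ℤ)) := [[(27, [.ofNat 1]), (1, [.negSucc 0])],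
  [(30, [.ofNat 1]), (6, [.negSucc 0]), (11, [.negSucc 0])],
  [(14, [.ofNat 1]), (10, [.negSucc 0]), (11, [.negSucc 0])],
  [(18, [.ofNat 1]), (16, [.negSucc 0])],
  [(23, [.ofNat 1]), (19, [.negSucc 0]), (20, [.negSucc 0])],
  [(35, [.ofNat 1]), (24, [.negSucc 0]), (25, [.negSucc 0])],
  [(11, [.negSucc 1, .ofNat 1])],
  [(20, [.negSucc 1, .ofNat 1])],
  [(25, [.negSucc 1, .ofNat 1])],
  [],
  [],
  [],
  [],
  [],
  [],
  [(27, [.negSucc 1, .ofNat 1]), (1, [.ofNat 2, .negSucc 0])],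
  [(2, [.negSucc 1, .ofNat 1])],
  [(0, [.negSucc 1, .ofNat 1])],
  [(5, [.negSucc 1, .ofNat 1]), (1, [.ofNat 2, .negSucc 0])],
  [(30, [.ofNat 1]), (2, [.negSucc 0]), (6, [.negSucc 0])],
  [(8, [.ofNat 1]), (6, [.negSucc 0])],
  [(15, [.ofNat 1]), (0, [.negSucc 0])],
  [(23, [.ofNat 1]), (0, [.negSucc 0]), (19, [.negSucc 0])],
  [(35, [.ofNat 1]), (5, [.negSucc 0]), (24, [.negSucc 0]), (1, [.ofNat 1])],
  [(30, [.negSucc 1, .ofNat 1]), (6, [.ofNat 2, .negSucc 0])],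
  [(8, [.negSucc 1, .ofNat 1]), (6, [.ofNat 2, .negSucc 0])],
  [(15, [.ofNat 1]), (9, [.negSucc 0])],
  [(35, [.ofNat 1]), (8, [.negSucc 0]), (14, [.negSucc 0]), (24, [.negSucc 0]), (6, [.ofNat 1]), (10, [.ofNat 1])],
  [(9, [.negSucc 1, .ofNat 1])],
  [(14, [.ofNat 1]), (9, [.negSucc 0]), (10, [.negSucc 0])],
  [(14, [.negSucc 1, .ofNat 1]), (10, [.ofNat 2, .negSucc 0])],
  [(15, [.negSucc 1, .ofNat 1])],
  [(35, [.ofNat 1]), (15, [.negSucc 0]), (18, [.negSucc 0]), (24, [.negSucc 0]), (16, [.ofNat 1])],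
  [(18, [.negSucc 1, .ofNat 1]), (16, [.ofNat 2, .negSucc 0])],
  [(23, [.negSucc 1, .ofNat 1]), (19, [.ofNat 2, .negSucc 0])],
  [(35, [.negSucc 1, .ofNat 1]), (24, [.ofNat 2, .negSucc 0])]]

def L8_7 : List (List (ℕ × List ℤ)) := [[(12, [.negSucc 1, .ofNat 1])],
  [(17, [.negSucc 1, .ofNat 1])],
  [(21, [.negSucc 1, .ofNat 1])],
  [(26, [.negSucc 1, .ofNat 1])],
  [(28, [.negSucc 1, .ofNat 1])],
  [(31, [.negSucc 1, .ofNat 1])],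
  [(22, [.negSucc 1, .ofNat 1]), (22, [.negSucc 0])],
  [(29, [.negSucc 1, .ofNat 1]), (29, [.negSucc 0])],
  [(32, [.negSucc 1, .ofNat 1]), (32, [.negSucc 0])],
  [(33, [.ofNat 1]), (3, [.negSucc 0])],
  [(34, [.ofNat 1]), (4, [.negSucc 0]), (22, [.negSucc 0])],
  [(23, [.ofNat 1]), (0, [.negSucc 0]), (22, [.negSucc 0])],
  [(27, [.ofNat 1]), (1, [.negSucc 0])],
  [(30, [.ofNat 1]), (2, [.negSucc 0]), (29, [.negSucc 0])],
  [(35, [.ofNat 1]), (5, [.negSucc 0]), (32, [.negSucc 0])],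
  [(33, [.negSucc 1, .ofNat 1]), (33, [.negSucc 0]), (12, [.ofNat 1])],
  [(34, [.ofNat 1]), (7, [.negSucc 0]), (13, [.negSucc 0])],
  [(30, [.ofNat 1]), (6, [.negSucc 0]), (11, [.negSucc 0])],
  [(35, [.ofNat 1]), (8, [.negSucc 0]), (14, [.negSucc 0]), (33, [.negSucc 0]), (12, [.ofNat 1])],
  [(13, [.negSucc 1, .ofNat 1]), (13, [.negSucc 0])],
  [(14, [.ofNat 1]), (9, [.negSucc 0]), (13, [.negSucc 0])],
  [(14, [.ofNat 1]), (10, [.negSucc 0]), (11, [.negSucc 0])],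
  [(11, [.negSucc 1, .ofNat 1]), (11, [.negSucc 0])],
  [(14, [.negSucc 1, .ofNat 1]), (14, [.negSucc 0]), (12, [.ofNat 1])],
  [(34, [.negSucc 1, .ofNat 1]), (34, [.negSucc 0]), (17, [.ofNat 1])],
  [(35, [.ofNat 1]), (15, [.negSucc 0]), (18, [.negSucc 0]), (34, [.negSucc 0]), (17, [.ofNat 1])],
  [(18, [.ofNat 1]), (16, [.negSucc 0])],
  [(18, [.negSucc 1, .ofNat 1]), (18, [.negSucc 0]), (17, [.ofNat 1])],
  [(23, [.ofNat 1]), (19, [.negSucc 0]), (20, [.negSucc 0])],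
  [(20, [.negSucc 1, .ofNat 1]), (20, [.negSucc 0])],
  [(23, [.negSucc 1, .ofNat 1]), (23, [.negSucc 0]), (21, [.ofNat 1])],
  [(35, [.ofNat 1]), (24, [.negSucc 0]), (25, [.negSucc 0])],
  [(25, [.negSucc 1, .ofNat 1]), (25, [.negSucc 0])],
  [(27, [.negSucc 1, .ofNat 1]), (27, [.negSucc 0]), (26, [.ofNat 1])],
  [(30, [.negSucc 1, .ofNat 1]), (30, [.negSucc 0]), (28, [.ofNat 1])],
  [(35, [.negSucc 1, .ofNat 1]), (35, [.negSucc 0]), (31, [.ofNat 1])]]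

def S8 : List (List (ℕ × List ℤ)) := [[(0, [.negSucc 1, .ofNat 1])],
  [(1, [.negSucc 1, .ofNat 1])],
  [(2, [.negSucc 1, .ofNat 1])],
  [(3, [.negSucc 1, .ofNat 1])],
  [(4, [.negSucc 1, .ofNat 1])],
  [(5, [.negSucc 1, .ofNat 1])],
  [(6, [.negSucc 1, .ofNat 1])],
  [(7, [.negSucc 1, .ofNat 1])],
  [(8, [.negSucc 1, .ofNat 1])],
  [(9, [.negSucc 1, .ofNat 1])],
  [(10, [.negSucc 1, .ofNat 1])],
  [(11, [.negSucc 1, .ofNat 1])],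
  [(12, [.negSucc 1, .ofNat 1])],
  [(13, [.negSucc 1, .ofNat 1])],
  [(14, [.negSucc 1, .ofNat 1])],
  [(15, [.negSucc 1, .ofNat 1])],
  [(16, [.negSucc 1, .ofNat 1])],
  [(17, [.negSucc 1, .ofNat 1])],
  [(18, [.negSucc 1, .ofNat 1])],
  [(19, [.negSucc 1, .ofNat 1])],
  [(20, [.negSucc 1, .ofNat 1])],
  [(21, [.negSucc 1, .ofNat 1])],
  [(22, [.negSucc 1, .ofNat 1])],
  [(23, [.negSucc 1, .ofNat 1])],
  [(24, [.negSucc 1, .ofNat 1])],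
  [(25, [.negSucc 1, .ofNat 1])],
  [(26, [.negSucc 1, .ofNat 1])],
  [(27, [.negSucc 1, .ofNat 1])],
  [(28, [.negSucc 1, .ofNat 1])],
  [(29, [.negSucc 1, .ofNat 1])],
  [(30, [.negSucc 1, .ofNat 1])],
  [(31, [.negSucc 1, .ofNat 1])],
  [(32, [.negSucc 1, .ofNat 1])],
  [(33, [.negSucc 1, .ofNat 1])],
  [(34, [.negSucc 1, .ofNat 1])],
  [(35, [.negSucc 1, .ofNat 1])]]

def X8_2 : List (List (ℕ × List ℤ)) := [[(17, [.negSucc 1, .ofNat 1])],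
  [],
  [(16, [.negSucc 1, .ofNat 1])],
  [(18, [.ofNat 1]), (16, [.negSucc 0])],
  [(18, [.ofNat 1]), (17, [.negSucc 0])],
  [(18, [.negSucc 1, .ofNat 1])],
  [],
  [(25, [.ofNat 1]), (11, [.negSucc 0])],
  [(25, [.negSucc 1, .ofNat 1]), (11, [.ofNat 2, .negSucc 0])],
  [(28, [.negSucc 1, .ofNat 1])],
  [],
  [(6, [.negSucc 1, .ofNat 1])],
  [(30, [.ofNat 1]), (11, [.negSucc 0]), (6, [.negSucc 0])],
  [(30, [.ofNat 1]), (11, [.negSucc 0]), (28, [.negSucc 0])],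
  [(30, [.negSucc 1, .ofNat 1]), (11, [.ofNat 2, .negSucc 0])],
  [(31, [.negSucc 1, .ofNat 1]), (12, [.ofNat 2, .negSucc 0])],
  [],
  [(33, [.ofNat 1]), (12, [.negSucc 0])],
  [(33, [.negSucc 1, .ofNat 1]), (12, [.ofNat 2, .negSucc 0])],
  [],
  [(7, [.negSucc 1, .ofNat 1])],
  [(34, [.ofNat 1]), (13, [.negSucc 0]), (7, [.negSucc 0])],
  [(34, [.ofNat 1]), (13, [.negSucc 0]), (17, [.negSucc 0])],
  [(34, [.negSucc 1, .ofNat 1]), (13, [.ofNat 2, .negSucc 0])],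
  [],
  [(8, [.negSucc 1, .ofNat 1])],
  [(15, [.ofNat 1]), (9, [.negSucc 0])],
  [(15, [.negSucc 1, .ofNat 1]), (9, [.ofNat 2, .negSucc 0])],
  [(24, [.ofNat 1]), (10, [.negSucc 0]), (6, [.negSucc 0])],
  [(24, [.ofNat 1]), (10, [.negSucc 0]), (16, [.negSucc 0])],
  [(24, [.negSucc 1, .ofNat 1]), (10, [.ofNat 2, .negSucc 0])],
  [(35, [.ofNat 1]), (14, [.negSucc 0]), (8, [.negSucc 0])],
  [(35, [.ofNat 1]), (14, [.negSucc 0]), (15, [.negSucc 0]), (9, [.ofNat 1]), (18, [.negSucc 0])],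
  [(35, [.ofNat 1]), (14, [.negSucc 0]), (24, [.negSucc 0]), (10, [.ofNat 1]), (25, [.negSucc 0]), (11, [.ofNat 1])],
  [(35, [.ofNat 1]), (14, [.negSucc 0]), (31, [.negSucc 0]), (12, [.ofNat 1])],
  [(35, [.negSucc 1, .ofNat 1]), (14, [.ofNat 2, .negSucc 0])]]

def X8_3 : List (List (ℕ × List ℤ)) := [[(1, [.negSucc 1, .ofNat 1])],
  [(27, [.ofNat 1]), (1, [.negSucc 0])],
  [(27, [.ofNat 1]), (26, [.negSucc 0])],
  [(26, [.negSucc 1, .ofNat 1])],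
  [],
  [(27, [.negSucc 1, .ofNat 1])],
  [(32, [.ofNat 1]), (22, [.negSucc 0])],
  [],
  [(32, [.negSucc 1, .ofNat 1]), (22, [.ofNat 2, .negSucc 0])],
  [(4, [.negSucc 1, .ofNat 1])],
  [(34, [.ofNat 1]), (22, [.negSucc 0]), (4, [.negSucc 0])],
  [(34, [.ofNat 1]), (22, [.negSucc 0]), (17, [.negSucc 0])],
  [(17, [.negSucc 1, .ofNat 1])],
  [],
  [(34, [.negSucc 1, .ofNat 1]), (22, [.ofNat 2, .negSucc 0])],
  [(5, [.negSucc 1, .ofNat 1]), (0, [.ofNat 2, .negSucc 0])],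
  [(15, [.ofNat 1]), (0, [.negSucc 0])],
  [],
  [(15, [.negSucc 1, .ofNat 1]), (0, [.ofNat 2, .negSucc 0])],
  [(24, [.ofNat 1]), (19, [.negSucc 0]), (1, [.negSucc 0])],
  [(24, [.ofNat 1]), (19, [.negSucc 0]), (16, [.negSucc 0])],
  [(16, [.negSucc 1, .ofNat 1])],
  [],
  [(24, [.negSucc 1, .ofNat 1]), (19, [.ofNat 2, .negSucc 0])],
  [(35, [.ofNat 1]), (23, [.negSucc 0]), (5, [.negSucc 0]), (0, [.ofNat 1])],
  [(35, [.ofNat 1]), (23, [.negSucc 0]), (15, [.negSucc 0]), (0, [.ofNat 1]), (18, [.negSucc 0])],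
  [(18, [.ofNat 1]), (16, [.negSucc 0])],
  [(35, [.ofNat 1]), (23, [.negSucc 0]), (24, [.negSucc 0]), (19, [.ofNat 1]), (25, [.negSucc 0]), (20, [.ofNat 1])],
  [(18, [.ofNat 1]), (17, [.negSucc 0])],
  [(25, [.ofNat 1]), (20, [.negSucc 0])],
  [(35, [.ofNat 1]), (23, [.negSucc 0]), (31, [.negSucc 0]), (21, [.ofNat 1])],
  [(18, [.negSucc 1, .ofNat 1])],
  [(25, [.negSucc 1, .ofNat 1]), (20, [.ofNat 2, .negSucc 0])],
  [(31, [.negSucc 1, .ofNat 1]), (21, [.ofNat 2, .negSucc 0])],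
  [],
  [(35, [.negSucc 1, .ofNat 1]), (23, [.ofNat 2, .negSucc 0])]]

def X8_4 : List (List (ℕ × List ℤ)) := [[(33, [.ofNat 1]), (12, [.negSucc 0])],
  [(12, [.negSucc 1, .ofNat 1])],
  [],
  [(3, [.negSucc 1, .ofNat 1])],
  [(33, [.ofNat 1]), (3, [.negSucc 0])],
  [(33, [.negSucc 1, .ofNat 1])],
  [],
  [(8, [.ofNat 1]), (6, [.negSucc 0])],
  [(8, [.negSucc 1, .ofNat 1]), (6, [.ofNat 2, .negSucc 0])],
  [(24, [.ofNat 1]), (6, [.negSucc 0]), (10, [.negSucc 0])],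
  [(10, [.negSucc 1, .ofNat 1])],
  [],
  [(1, [.negSucc 1, .ofNat 1])],
  [(24, [.ofNat 1]), (6, [.negSucc 0]), (1, [.negSucc 0])],
  [(24, [.negSucc 1, .ofNat 1]), (6, [.ofNat 2, .negSucc 0])],
  [(35, [.ofNat 1]), (30, [.negSucc 0]), (8, [.negSucc 0]), (6, [.ofNat 1]), (14, [.negSucc 0]), (11, [.ofNat 1])],
  [(14, [.ofNat 1]), (11, [.negSucc 0]), (10, [.negSucc 0])],
  [(27, [.ofNat 1]), (1, [.negSucc 0])],
  [(35, [.ofNat 1]), (30, [.negSucc 0]), (24, [.negSucc 0]), (6, [.ofNat 1]), (25, [.negSucc 0]), (11, [.ofNat 1])],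
  [(14, [.ofNat 1]), (11, [.negSucc 0]), (12, [.negSucc 0])],
  [(25, [.ofNat 1]), (11, [.negSucc 0])],
  [(27, [.ofNat 1]), (26, [.negSucc 0])],
  [(32, [.ofNat 1]), (29, [.negSucc 0])],
  [(35, [.ofNat 1]), (30, [.negSucc 0]), (31, [.negSucc 0]), (28, [.ofNat 1])],
  [(14, [.negSucc 1, .ofNat 1]), (11, [.ofNat 2, .negSucc 0])],
  [(25, [.negSucc 1, .ofNat 1]), (11, [.ofNat 2, .negSucc 0])],
  [(26, [.negSucc 1, .ofNat 1])],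
  [(31, [.negSucc 1, .ofNat 1]), (28, [.ofNat 2, .negSucc 0])],
  [],
  [],
  [],
  [(27, [.negSucc 1, .ofNat 1])],
  [(32, [.negSucc 1, .ofNat 1]), (29, [.ofNat 2, .negSucc 0])],
  [(5, [.negSucc 1, .ofNat 1]), (2, [.ofNat 2, .negSucc 0])],
  [(35, [.ofNat 1]), (30, [.negSucc 0]), (5, [.negSucc 0]), (2, [.ofNat 1])],
  [(35, [.negSucc 1, .ofNat 1]), (30, [.ofNat 2, .negSucc 0])]]

def X8_5 : List (List (ℕ × List ℤ)) := [[],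
  [(0, [.negSucc 1, .ofNat 1])],
  [(15, [.ofNat 1]), (0, [.negSucc 0])],
  [(15, [.ofNat 1]), (9, [.negSucc 0])],
  [(9, [.negSucc 1, .ofNat 1])],
  [(15, [.negSucc 1, .ofNat 1])],
  [(23, [.ofNat 1]), (22, [.negSucc 0]), (0, [.negSucc 0])],
  [(14, [.ofNat 1]), (13, [.negSucc 0]), (9, [.negSucc 0])],
  [(35, [.ofNat 1]), (34, [.negSucc 0]), (15, [.negSucc 0]), (18, [.negSucc 0]), (17, [.ofNat 1])],
  [(18, [.ofNat 1]), (17, [.negSucc 0])],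
  [(23, [.ofNat 1]), (22, [.negSucc 0]), (21, [.negSucc 0])],
  [(32, [.ofNat 1]), (22, [.negSucc 0])],
  [(33, [.ofNat 1]), (12, [.negSucc 0])],
  [(14, [.ofNat 1]), (13, [.negSucc 0]), (12, [.negSucc 0])],
  [(35, [.ofNat 1]), (34, [.negSucc 0]), (31, [.negSucc 0]), (17, [.ofNat 1])],
  [(18, [.negSucc 1, .ofNat 1]), (17, [.ofNat 2, .negSucc 0])],
  [(21, [.negSucc 1, .ofNat 1])],
  [(12, [.negSucc 1, .ofNat 1])],
  [(31, [.negSucc 1, .ofNat 1]), (17, [.ofNat 2, .negSucc 0])],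
  [],
  [],
  [],
  [],
  [],
  [(23, [.negSucc 1, .ofNat 1]), (22, [.ofNat 2, .negSucc 0])],
  [(32, [.negSucc 1, .ofNat 1]), (22, [.ofNat 2, .negSucc 0])],
  [(3, [.negSucc 1, .ofNat 1])],
  [(5, [.negSucc 1, .ofNat 1]), (4, [.ofNat 2, .negSucc 0])],
  [(33, [.ofNat 1]), (3, [.negSucc 0])],
  [(8, [.ofNat 1]), (7, [.negSucc 0])],
  [(35, [.ofNat 1]), (34, [.negSucc 0]), (5, [.negSucc 0]), (4, [.ofNat 1])],
  [(33, [.negSucc 1, .ofNat 1])],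
  [(8, [.negSucc 1, .ofNat 1]), (7, [.ofNat 2, .negSucc 0])],
  [(35, [.ofNat 1]), (34, [.negSucc 0]), (8, [.negSucc 0]), (7, [.ofNat 1]), (14, [.negSucc 0]), (13, [.ofNat 1])],
  [(14, [.negSucc 1, .ofNat 1]), (13, [.ofNat 2, .negSucc 0])],
  [(35, [.negSucc 1, .ofNat 1]), (34, [.ofNat 2, .negSucc 0])]]

def X8_6 : List (List (ℕ × List ℤ)) := [[(27, [.ofNat 1]), (1, [.negSucc 0])],
  [(30, [.ofNat 1]), (6, [.negSucc 0]), (11, [.negSucc 0])],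
  [(14, [.ofNat 1]), (10, [.negSucc 0]), (11, [.negSucc 0])],
  [(18, [.ofNat 1]), (16, [.negSucc 0])],
  [(23, [.ofNat 1]), (19, [.negSucc 0]), (20, [.negSucc 0])],
  [(35, [.ofNat 1]), (24, [.negSucc 0]), (25, [.negSucc 0])],
  [(11, [.negSucc 1, .ofNat 1])],
  [(20, [.negSucc 1, .ofNat 1])],
  [(25, [.negSucc 1, .ofNat 1])],
  [],
  [],
  [],
  [],
  [],
  [],
  [(27, [.negSucc 1, .ofNat 1]), (1, [.ofNat 2, .negSucc 0])],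
  [(2, [.negSucc 1, .ofNat 1])],
  [(0, [.negSucc 1, .ofNat 1])],
  [(5, [.negSucc 1, .ofNat 1]), (1, [.ofNat 2, .negSucc 0])],
  [(30, [.ofNat 1]), (6, [.negSucc 0]), (2, [.negSucc 0])],
  [(8, [.ofNat 1]), (6, [.negSucc 0])],
  [(15, [.ofNat 1]), (0, [.negSucc 0])],
  [(23, [.ofNat 1]), (19, [.negSucc 0]), (0, [.negSucc 0])],
  [(35, [.ofNat 1]), (24, [.negSucc 0]), (5, [.negSucc 0]), (1, [.ofNat 1])],
  [(30, [.negSucc 1, .ofNat 1]), (6, [.ofNat 2, .negSucc 0])],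
  [(8, [.negSucc 1, .ofNat 1]), (6, [.ofNat 2, .negSucc 0])],
  [(15, [.ofNat 1]), (9, [.negSucc 0])],
  [(35, [.ofNat 1]), (24, [.negSucc 0]), (8, [.negSucc 0]), (6, [.ofNat 1]), (14, [.negSucc 0]), (10, [.ofNat 1])],
  [(9, [.negSucc 1, .ofNat 1])],
  [(14, [.ofNat 1]), (10, [.negSucc 0]), (9, [.negSucc 0])],
  [(14, [.negSucc 1, .ofNat 1]), (10, [.ofNat 2, .negSucc 0])],
  [(15, [.negSucc 1, .ofNat 1])],
  [(35, [.ofNat 1]), (24, [.negSucc 0]), (15, [.negSucc 0]), (18, [.negSucc 0]), (16, [.ofNat 1])],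
  [(18, [.negSucc 1, .ofNat 1]), (16, [.ofNat 2, .negSucc 0])],
  [(23, [.negSucc 1, .ofNat 1]), (19, [.ofNat 2, .negSucc 0])],
  [(35, [.negSucc 1, .ofNat 1]), (24, [.ofNat 2, .negSucc 0])]]

def X8_7 : List (List (ℕ × List ℤ)) := [[(12, [.negSucc 1, .ofNat 1])],
  [(17, [.negSucc 1, .ofNat 1])],
  [(21, [.negSucc 1, .ofNat 1])],
  [(26, [.negSucc 1, .ofNat 1])],
  [(28, [.negSucc 1, .ofNat 1])],
  [(31, [.negSucc 1, .ofNat 1])],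
  [(22, [.negSucc 1, .ofNat 1]), (22, [.negSucc 0])],
  [(29, [.negSucc 1, .ofNat 1]), (29, [.negSucc 0])],
  [(32, [.negSucc 1, .ofNat 1]), (32, [.negSucc 0])],
  [(33, [.ofNat 1]), (3, [.negSucc 0])],
  [(34, [.ofNat 1]), (22, [.negSucc 0]), (4, [.negSucc 0])],
  [(23, [.ofNat 1]), (22, [.negSucc 0]), (0, [.negSucc 0])],
  [(27, [.ofNat 1]), (1, [.negSucc 0])],
  [(30, [.ofNat 1]), (29, [.negSucc 0]), (2, [.negSucc 0])],
  [(35, [.ofNat 1]), (32, [.negSucc 0]), (5, [.negSucc 0])],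
  [(33, [.negSucc 1, .ofNat 1]), (33, [.negSucc 0]), (12, [.ofNat 1])],
  [(34, [.ofNat 1]), (7, [.negSucc 0]), (13, [.negSucc 0])],
  [(30, [.ofNat 1]), (6, [.negSucc 0]), (11, [.negSucc 0])],
  [(35, [.ofNat 1]), (33, [.negSucc 0]), (8, [.negSucc 0]), (14, [.negSucc 0]), (12, [.ofNat 1])],
  [(13, [.negSucc 1, .ofNat 1]), (13, [.negSucc 0])],
  [(14, [.ofNat 1]), (13, [.negSucc 0]), (9, [.negSucc 0])],
  [(14, [.ofNat 1]), (10, [.negSucc 0]), (11, [.negSucc 0])],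
  [(11, [.negSucc 1, .ofNat 1]), (11, [.negSucc 0])],
  [(14, [.negSucc 1, .ofNat 1]), (14, [.negSucc 0]), (12, [.ofNat 1])],
  [(34, [.negSucc 1, .ofNat 1]), (34, [.negSucc 0]), (17, [.ofNat 1])],
  [(35, [.ofNat 1]), (34, [.negSucc 0]), (15, [.negSucc 0]), (18, [.negSucc 0]), (17, [.ofNat 1])],
  [(18, [.ofNat 1]), (16, [.negSucc 0])],
  [(18, [.negSucc 1, .ofNat 1]), (18, [.negSucc 0]), (17, [.ofNat 1])],
  [(23, [.ofNat 1]), (19, [.negSucc 0]), (20, [.negSucc 0])],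
  [(20, [.negSucc 1, .ofNat 1]), (20, [.negSucc 0])],
  [(23, [.negSucc 1, .ofNat 1]), (23, [.negSucc 0]), (21, [.ofNat 1])],
  [(35, [.ofNat 1]), (24, [.negSucc 0]), (25, [.negSucc 0])],
  [(25, [.negSucc 1, .ofNat 1]), (25, [.negSucc 0])],
  [(27, [.negSucc 1, .ofNat 1]), (27, [.negSucc 0]), (26, [.ofNat 1])],
  [(30, [.negSucc 1, .ofNat 1]), (30, [.negSucc 0]), (28, [.ofNat 1])],
  [(35, [.negSucc 1, .ofNat 1]), (35, [.negSucc 0]), (31, [.ofNat 1])]]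

def M7 : List (List (ℕ × List ℤ)) := [[(6, [.negSucc 0]), (11, [.negSucc 0]), (30, [.ofNat 1])],
  [(12, [.negSucc 0]), (33, [.ofNat 1])],
  [(7, [.negSucc 0]), (13, [.negSucc 0]), (34, [.ofNat 1])],
  [(9, [.negSucc 0]), (15, [.ofNat 1])],
  [(6, [.negSucc 0]), (10, [.negSucc 0]), (24, [.ofNat 1])],
  [(8, [.negSucc 0]), (14, [.negSucc 0]), (35, [.ofNat 1])],
  [(17, [.negSucc 0]), (22, [.negSucc 0]), (34, [.ofNat 1])],
  [(16, [.negSucc 0]), (19, [.negSucc 0]), (24, [.ofNat 1])],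
  [(0, [.ofNat 1]), (15, [.negSucc 0]), (18, [.negSucc 0]), (23, [.negSucc 0]), (35, [.ofNat 1])],
  [(19, [.negSucc 0]), (20, [.negSucc 0]), (23, [.ofNat 1])],
  [(21, [.negSucc 0]), (22, [.negSucc 0]), (23, [.ofNat 1])],
  [(22, [.negSucc 2, .ofNat 1])],
  [(0, [.negSucc 1, .ofNat 1])],
  [(19, [.negSucc 2, .ofNat 1])],
  [(0, [.ofNat 1]), (23, [.negSucc 2, .ofNat 1])],
  [(1, [.ofNat 1]), (24, [.negSucc 0]), (25, [.negSucc 0]), (27, [.negSucc 0]), (35, [.ofNat 1])],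
  [(26, [.negSucc 0]), (27, [.ofNat 1])],
  [(1, [.negSucc 1, .ofNat 1])],
  [(1, [.ofNat 1]), (27, [.negSucc 2, .ofNat 1])],
  [(28, [.negSucc 0]), (29, [.negSucc 0]), (30, [.ofNat 1])],
  [(29, [.negSucc 2, .ofNat 1])],
  [(2, [.negSucc 1, .ofNat 1])],
  [(6, [.negSucc 2, .ofNat 1])],
  [(2, [.ofNat 1]), (30, [.negSucc 2, .ofNat 1])],
  [(31, [.negSucc 0]), (32, [.negSucc 0]), (35, [.ofNat 1])],
  [(32, [.negSucc 2, .ofNat 1])],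
  [(3, [.negSucc 1, .ofNat 1])],
  [(3, [.ofNat 1]), (33, [.negSucc 2, .ofNat 1])],
  [(4, [.negSucc 1, .ofNat 1])],
  [(7, [.negSucc 2, .ofNat 1])],
  [(4, [.ofNat 1]), (34, [.negSucc 2, .ofNat 1])],
  [(5, [.negSucc 1, .ofNat 1])],
  [(8, [.negSucc 2, .ofNat 1])],
  [(0, [.ofNat 1]), (15, [.negSucc 2, .ofNat 1])],
  [(1, [.ofNat 1]), (24, [.negSucc 2, .ofNat 1])],
  [(5, [.ofNat 1]), (35, [.negSucc 2, .ofNat 1])]]

end Pool.Agent.TH389.BL
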