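import Pool.Agent.TH389.BL.Cone

/-! Products of sparse matrices of polynomials. -/

set_option autoImplicit false

namespace Pool.Agent.TH389.BL

def scRow (p : List ℤ) (r : List (ℕ × List ℤ)) : List (ℕ × List ℤ) :=
  r.map fun e => (e.1, pmul p e.2)

def mulT (A B : List (List (ℕ × List ℤ))) : List (List (ℕ × List ℤ)) :=
  A.map fun row => row.flatMap fun e => scRow e.2 (B.getD e.1 [])

theorem rowval_append (q : ℝ) (x : ℕ → ℝ) (r s : List (ℕ × List ℤ)) :
    ((r ++ s).map fun e => ev e.2 q * x e.1).sum =
      (r.map fun e => ev e.2 q * x e.1).sum + (s.map fun e => ev e.2 q * x e.1).sum := by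
  rw [List.map_append, List.sum_append]

theorem rowval_scRow (q : ℝ) (x : ℕ → ℝ) (p : List ℤ) (r : List (ℕ × List ℤ)) :
    ((scRow p r).map fun e => ev e.2 q * x e.1).sum =
      ev p q * (r.map fun e => ev e.2 q * x e.1).sum := by
  induction r with
  | nil => simp [scRow]
  | cons e r ih =>
    simp only [scRow, List.map_cons, List.sum_cons] at ih ⊢
    rw [ih, ev_pmul]; ring

theorem app_mulT (A B : List (List (ℕ × List ℤ))) (q : ℝ) (x : ℕ → ℝ) :
    app (mulT A B) q x = app A q (app B q x) := by
  funext i
  unfold app mulT
  rw [List.getD_eq_getElem?_getD, List.getElem?_map, List.getD_eq_getElem?_getD (l := A)]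
  cases A[i]? with
  | none => simp
  | some row =>
    simp only [Option.map_some, Option.getD_some]
    induction row with
    | nil => simp
    | cons e row ih =>
      rw [List.flatMap_cons, rowval_append, rowval_scRow, ih, List.map_cons, List.sum_cons]

/-- coefficient of `x j` -/
def coef (r : List (ℕ × List ℤ)) (j : ℕ) : List ℤ :=
  r.foldr (fun e acc => if e.1 = j then padd e.2 acc else acc) []

theorem ev_coef_cons (q : ℝ) (e : ℕ × List ℤ) (r : List (ℕ × List ℤ)) (j : ℕ) :
    ev (coef (e :: r) j) q = (if e.1 = j then ev e.2 q else 0) + ev (coef r j) q := by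
  by_cases h : e.1 = j
  · simp only [coef, List.foldr_cons, if_pos h, ev_padd]
  · simp only [coef, List.foldr_cons, if_neg h, zero_add]

theorem rowval_coef (q : ℝ) (x : ℕ → ℝ) (n : ℕ) (r : List (ℕ × List ℤ))
    (h : ∀ e ∈ r, e.1 < n) :
    (r.map fun e => ev e.2 q * x e.1).sum = ∑ j ∈ Finset.range n, ev (coef r j) q * x j := by
  induction r with
  | nil => simp [coef, ev]
  | cons e r ih =>
    rw [List.map_cons, List.sum_cons, ih (fun e' he' => h e' (List.mem_cons_of_mem _ he'))]
    have h1 : ∀ j, ev (coef (e :: r) j) q * x j =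
        (if e.1 = j then ev e.2 q * x j else 0) + ev (coef r j) q * x j := by
      intro j
      rw [ev_coef_cons]
      by_cases hj : e.1 = j
      · simp only [if_pos hj]; ring
      · simp only [if_neg hj]; ring
    simp only [h1]
    rw [Finset.sum_add_distrib, Finset.sum_ite_eq]
    simp [h e List.mem_cons_self]

def eqRow (n : ℕ) (r s : List (ℕ × List ℤ)) : Bool :=
  r.all (fun e => decide (e.1 < n)) && s.all (fun e => decide (e.1 < n)) &&
    (List.range n).all fun j => peq (coef r j) (coef s j)

def eqTab (n : ℕ) : List (List (ℕ × List ℤ)) → List (List (ℕ × List ℤ)) → Bool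
  | [], [] => true
  | [], _ :: _ => false
  | _ :: _, [] => false
  | r :: A, s :: B => eqRow n r s && eqTab n A B

theorem app_nil (q : ℝ) (x : ℕ → ℝ) (i : ℕ) : app [] q x i = 0 := by simp [app]

theorem eqTab_sound {n : ℕ} {A B : List (List (ℕ × List ℤ))} (h : eqTab n A B = true) (q : ℝ)
    (x : ℕ → ℝ) : app A q x = app B q x := by
  funext i
  induction A generalizing B i with
  | nil => cases B with
    | nil => rfl
    | cons s B => simp [eqTab] at h
  | cons r A ih => cases B with
    | nil => simp [eqTab] at h
    | cons s B =>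
      simp only [eqTab, Bool.and_eq_true] at h
      cases i with
      | zero =>
        have h1 := h.1
        simp only [eqRow, Bool.and_eq_true, List.all_eq_true, decide_eq_true_eq,
          List.mem_range] at h1
        simp only [app, List.getD_cons_zero]
        rw [rowval_coef q x n r h1.1.1, rowval_coef q x n s h1.1.2]
        apply Finset.sum_congr rfl
        intro j hj
        rw [ev_peq (h1.2 j (Finset.mem_range.1 hj))]
      | succ i =>
        have := ih h.2 i
        simpa only [app, List.getD_cons_succ] using this

end Pool.Agent.TH389.BL
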