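import Pool.Agent.TH389.BL.Tables8
import Pool.Agent.TH389.BL.MulT
import Pool.Agent.TH389.BL.IdTab8

/-! Identities between the operations on discs of perimeter seven and eight. -/

set_option autoImplicit false
set_option maxRecDepth 100000

namespace Pool.Agent.TH389.BL

theorem hA8_1 : mulT R8 T7 = A8_1 := by decide +kernel

theorem hA8_2 : mulT R8 A8_1 = A8_2 := by decide +kernel

theorem hA8_3 : mulT R8 A8_2 = A8_3 := by decide +kernel

theorem hA8_4 : mulT R8 A8_3 = A8_4 := by decide +kernel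

theorem hA8_5 : mulT R8 A8_4 = A8_5 := by decide +kernel

theorem hA8_6 : mulT R8 A8_5 = A8_6 := by decide +kernel

theorem hA8_7 : mulT R8 A8_6 = A8_7 := by decide +kernel

theorem hA8_8 : mulT R8 A8_7 = T7 := by decide +kernel

theorem hP7_2 : mulT R7 R7 = P7_2 := by decide +kernel

theorem hP7_3 : mulT R7 P7_2 = P7_3 := by decide +kernel

theorem hP7_4 : mulT R7 P7_3 = P7_4 := by decide +kernel

theorem hP7_5 : mulT R7 P7_4 = P7_5 := by decide +kernel

theorem hP7_6 : mulT R7 P7_5 = P7_6 := by decide +kernel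

theorem hP6_2 : mulT R6 R6 = P6_2 := by decide +kernel

theorem hP6_3 : mulT R6 P6_2 = P6_3 := by decide +kernel

theorem hP6_4 : mulT R6 P6_3 = P6_4 := by decide +kernel

theorem hP6_5 : mulT R6 P6_4 = P6_5 := by decide +kernel

theorem hL8_0 : mulT C8 T7 = L8_0 := by decide +kernel

theorem hL8_1 : mulT C8 A8_1 = L8_1 := by decide +kernel

theorem hL8_2 : mulT C8 A8_2 = L8_2 := by decide +kernel

theorem hL8_3 : mulT C8 A8_3 = L8_3 := by decide +kernel

theorem hL8_4 : mulT C8 A8_4 = L8_4 := by decide +kernel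

theorem hL8_5 : mulT C8 A8_5 = L8_5 := by decide +kernel

theorem hL8_6 : mulT C8 A8_6 = L8_6 := by decide +kernel

theorem hL8_7 : mulT C8 A8_7 = L8_7 := by decide +kernel

theorem e8_0 : eqTab 36 L8_0 S8 = true := by decide +kernel

theorem hX8_2 : mulT P7_2 (mulT T6 (mulT P6_5 (mulT C7 R7))) = X8_2 := by decide +kernel

theorem e8_2 : eqTab 36 L8_2 X8_2 = true := by decide +kernel

theorem hX8_3 : mulT P7_3 (mulT T6 (mulT P6_4 (mulT C7 P7_2))) = X8_3 := by decide +kernel

theorem e8_3 : eqTab 36 L8_3 X8_3 = true := by decide +kernel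

theorem hX8_4 : mulT P7_4 (mulT T6 (mulT P6_3 (mulT C7 P7_3))) = X8_4 := by decide +kernel

theorem e8_4 : eqTab 36 L8_4 X8_4 = true := by decide +kernel

theorem hX8_5 : mulT P7_5 (mulT T6 (mulT P6_2 (mulT C7 P7_4))) = X8_5 := by decide +kernel

theorem e8_5 : eqTab 36 L8_5 X8_5 = true := by decide +kernel

theorem hX8_6 : mulT P7_6 (mulT T6 (mulT R6 (mulT C7 P7_5))) = X8_6 := by decide +kernel

theorem e8_6 : eqTab 36 L8_6 X8_6 = true := by decide +kernel

theorem hX8_7 : mulT P7_6 (mulT L8_1 P7_6) = X8_7 := by decide +kernel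

theorem e8_7 : eqTab 36 L8_7 X8_7 = true := by decide +kernel

theorem eM7 : eqTab 36 L8_1 M7 = true := by decide +kernel

end Pool.Agent.TH389.BL
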