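import Pool.Agent.TH389.BL.Tables
import Pool.Agent.TH389.BL.Cone
import Mathlib.Data.Fintype.CardEmbedding

/-! Shelled discs of perimeter at most seven: the induction. -/

set_option autoImplicit false

namespace Pool.Agent.TH389.BL

open Polynomial

/-- A triangulated disc, given by its graph and the cyclic list of its boundary vertices, which is
built from a triangle by steps of two kinds: joining a new vertex (called `0`, the old vertices
being shifted by one) to two consecutive boundary vertices, and adding an edge over a boundary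
vertex, which then becomes an inner vertex. The boundary never has more than seven vertices. -/
inductive Shelled : (n : ℕ) → SimpleGraph (Fin n) → List (Fin n) → Prop
  | triangle : Shelled 3 ⊤ [0, 1, 2]
  | rotate (n : ℕ) (G : SimpleGraph (Fin n)) (u : Fin n) (r : List (Fin n)) :
      Shelled n G (u :: r) → Shelled n G (r ++ [u])
  | grow (n : ℕ) (G : SimpleGraph (Fin n)) (u v : Fin n) (r : List (Fin n)) :
      Shelled n G (u :: v :: r) → r.length ≤ 4 →
      Shelled (n + 1) (growG G u v) (u.succ :: 0 :: v.succ :: r.map Fin.succ)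
  | close (n : ℕ) (G : SimpleGraph (Fin n)) (u v w : Fin n) (r : List (Fin n)) :
      Shelled n G (u :: v :: w :: r) → r ≠ [] →
      Shelled n (G ⊔ SimpleGraph.edge u w) (u :: w :: r)

/-- closure properties of a family of cones -/
structure Cl (q : ℝ) (Kc : ℕ → (ℕ → ℝ) → Prop) : Prop where
  base : ∀ c : ℝ, 0 < c → Kc 3 (fun i => c * evv [[1]] q i)
  rot : ∀ r x, 3 ≤ r → r ≤ 6 → Kc r x → Kc r (app (mkTbl (PP r) termsR (PP r)) q x)
  grow : ∀ r x, 3 ≤ r → r ≤ 5 → Kc r x → Kc (r + 1) (app (mkTbl (PP r) termsT (PP (r + 1))) q x)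
  close : ∀ r x, 3 ≤ r → r ≤ 5 → Kc (r + 1) x → Kc r (app (mkTbl (PP (r + 1)) termsC (PP r)) q x)
  ring7 : ∀ s x, Kc 6 x → Kc 6 (app C7 q ((app R7 q)^[s] (app T6 q x)))
  pos : ∀ r x, 3 ≤ r → r ≤ 6 → Kc r x → 0 < x ((PP r).length - 1)

def Inv (q : ℝ) (Kc : ℕ → (ℕ → ℝ) → Prop) (r : ℕ) (x : ℕ → ℝ) : Prop :=
  (r ≤ 6 → Kc r x) ∧ (r = 7 → (∀ s, Kc 6 (app C7 q ((app R7 q)^[s] x))) ∧ 0 < x 35)

theorem okR (r : ℕ) (h3 : 3 ≤ r) (h7 : r ≤ 7) : okTbl (PP r) r termsR (PP r) = true := by
  interval_cases r
  · exact tblR3.2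
  · exact tblR4.2
  · exact tblR5.2
  · exact tblR6.2
  · exact tblR7.2

theorem okT (r : ℕ) (h3 : 3 ≤ r) (h6 : r ≤ 6) : okTbl (PP r) r termsT (PP (r + 1)) = true := by
  interval_cases r
  · exact tblT3.2
  · exact tblT4.2
  · exact tblT5.2
  · exact tblT6.2

theorem okC (r : ℕ) (h3 : 3 ≤ r) (h6 : r ≤ 6) : okTbl (PP (r + 1)) (r + 1) termsC (PP r) = true := by
  interval_cases r
  · exact tblC4.2
  · exact tblC5.2
  · exact tblC6.2
  · exact tblC7.2

theorem last_eq (r : ℕ) (h3 : 3 ≤ r) (h7 : r ≤ 7) :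
    (PP r)[(PP r).length - 1]? = some (List.range r) := by
  interval_cases r <;> decide +kernel

theorem eval_tri (L : List ℕ) (hL : L.length = 3) (k : ℕ) :
    (if L.Nodup then (X * (X - 1) * (X - 2) : ℤ[X]) else 0).eval (k : ℤ) =
      N (⊤ : SimpleGraph (Fin 3)) k (([0, 1, 2] : List (Fin 3)).zip L) := by
  obtain ⟨a, b, c, rfl⟩ : ∃ a b c, L = [a, b, c] := by
    match L, hL with
    | [a, b, c], _ => exact ⟨a, b, c, rfl⟩
    | [], h => simp at h
    | [_], h => simp at h
    | [_, _], h => simp at h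
    | _ :: _ :: _ :: _ :: _, h => simp at h
  have hZ : ([0, 1, 2] : List (Fin 3)).zip [a, b, c] = [(0, a), (1, b), (2, c)] := rfl
  rw [hZ]
  by_cases hnd : [a, b, c].Nodup
  · rw [if_pos hnd]
    have hnd' : a ≠ b ∧ a ≠ c ∧ b ≠ c := by
      simpa [and_assoc] using hnd
    have h1 : N (⊤ : SimpleGraph (Fin 3)) k [(0, a), (1, b), (2, c)] =
        (Nat.card (Fin 3 ↪ Fin k) : ℤ) := by
      rw [N_eq_card]
      congr 1
      apply Nat.card_congr
      refine ⟨fun f => ⟨f.1, ?_⟩, fun f => ⟨f, ?_⟩, fun f => rfl, fun f => rfl⟩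
      · intro i j hij
        by_contra hne
        exact f.2.1 i j (by simpa using hne) hij
      · refine ⟨fun i j hij => fun h => ?_, ?_⟩
        · exact (by simpa using hij : i ≠ j) (f.injective h)
        · intro x hx y hy hxy
          have hx' : x = (0, a) ∨ x = (1, b) ∨ x = (2, c) := by simpa using hx
          have hy' : y = (0, a) ∨ y = (1, b) ∨ y = (2, c) := by simpa using hy
          rcases hx' with rfl | rfl | rfl <;> rcases hy' with rfl | rfl | rfl <;>
            simp_all
    rw [h1, Nat.card_eq_fintype_card, Fintype.card_embedding_eq]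
    simp only [Fintype.card_fin]
    simp only [eval_mul, eval_sub, eval_X, eval_one, eval_ofNat]
    rcases k with _ | _ | _ | k
    · simp
    · simp
    · simp
    · have : (k + 1 + 1 + 1).descFactorial 3 = (k + 3) * (k + 2) * (k + 1) := by
        simp [Nat.descFactorial]
        ring
      rw [this]
      push_cast
      ring
  · rw [if_neg hnd, eval_zero]
    symm
    have h : a = b ∨ a = c ∨ b = c := by
      by_contra hcon
      apply hnd
      push Not at hcon
      simpa [and_assoc] using hcon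
    rcases h with rfl | rfl | rfl
    · exact N_adj_zero (u := 0) (v := 1) (a := a) (by simp) (by simp) (by simp)
    · exact N_adj_zero (u := 0) (v := 2) (a := a) (by simp) (by simp) (by simp)
    · exact N_adj_zero (u := 1) (v := 2) (a := b) (by simp) (by simp) (by simp)

theorem aeval_tri (q : ℝ) : aeval q (X * (X - 1) * (X - 2) : ℤ[X]) = q * (q - 1) * (q - 2) := by
  have : (X * (X - 1) * (X - 2) : ℤ[X]) = toP [0, 2, -3, 1] := by simp [toP]; ring
  rw [this, aeval_toP]
  simp only [ev]
  push_cast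
  ring

theorem path_map {n : ℕ} {G : SimpleGraph (Fin n)} {G' : SimpleGraph (Fin (n + 1))}
    (h : ∀ a b, G.Adj a b → G'.Adj a.succ b.succ) (l : List (Fin n)) :
    ∀ x y, Path G.Adj x l y → Path G'.Adj x.succ (l.map Fin.succ) y.succ := by
  induction l with
  | nil => intro x y hp; exact h _ _ hp
  | cons z l ih => intro x y hp; exact ⟨h _ _ hp.1, ih _ _ hp.2⟩

theorem path_mono {V : Type} {R R' : V → V → Prop} (h : ∀ a b, R a b → R' a b) (l : List V) :
    ∀ x y, Path R x l y → Path R' x l y := by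
  induction l with
  | nil => intro x y hp; exact h _ _ hp
  | cons z l ih => intro x y hp; exact ⟨h _ _ hp.1, ih _ _ hp.2⟩

theorem growG_adj {n : ℕ} {G : SimpleGraph (Fin n)} (u v : Fin n) (a b : Fin n)
    (h : G.Adj a b) : (growG G u v).Adj a.succ b.succ := by
  refine Or.inl (Or.inl ?_)
  rw [SimpleGraph.map_adj]
  exact ⟨a, b, h, rfl, rfl⟩

theorem growG_adj_u {n : ℕ} {G : SimpleGraph (Fin n)} (u v : Fin n) :
    (growG G u v).Adj u.succ 0 := by
  refine Or.inl (Or.inr ?_)
  rw [SimpleGraph.edge_adj]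
  exact ⟨Or.inl ⟨rfl, rfl⟩, Fin.succ_ne_zero u⟩

theorem growG_adj_v {n : ℕ} {G : SimpleGraph (Fin n)} (u v : Fin n) :
    (growG G u v).Adj 0 v.succ := by
  refine Or.inr ?_
  rw [SimpleGraph.edge_adj]
  exact ⟨Or.inr ⟨rfl, rfl⟩, (Fin.succ_ne_zero v).symm⟩

/-- the main induction -/
theorem shelled_inv {n : ℕ} {G : SimpleGraph (Fin n)} {ring : List (Fin n)}
    (h : Shelled n G ring) : 3 ≤ ring.length ∧ ring.length ≤ 7 ∧ ring.Nodup ∧ CA G ring ∧
      ∃ Y, Rep G ring Y ∧ ∀ (q : ℝ) (Kc : ℕ → (ℕ → ℝ) → Prop), 2 < q → Cl q Kc →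
        Inv q Kc ring.length (vec (PP ring.length) Y q) := by
  induction h with
  | triangle =>
    refine ⟨by simp, by simp, by decide, ⟨by simp, by simp, by simp [Path]⟩, ?_⟩
    refine ⟨fun L => if L.Nodup then (X * (X - 1) * (X - 2) : ℤ[X]) else 0, ?_, ?_⟩
    · intro L hL k
      exact eval_tri L hL k
    · intro q Kc hq hc
      refine ⟨fun _ => ?_, fun h => by simp at h⟩
      have h0 : 0 < q * (q - 1) * (q - 2) := by
        have h1 : 0 < q := by linarith
        have h2 : 0 < q - 1 := by linarith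
        have h3 : 0 < q - 2 := by linarith
        positivity
      have h1 := hc.base _ h0
      have hl3 : ([0, 1, 2] : List (Fin 3)).length = 3 := rfl
      rw [hl3]
      convert h1 using 1
      funext i
      rcases i with _ | i
      · have : vec (PP 3) (fun L => if L.Nodup then (X * (X - 1) * (X - 2) : ℤ[X]) else 0) q 0 =
            aeval q (X * (X - 1) * (X - 2) : ℤ[X]) := by
          simp [vec, PP, P3]
        rw [this, aeval_tri]
        simp [evv, ev]
      · simp [vec, PP, P3, evv, ev]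
  | rotate n G u r _ ih =>
    obtain ⟨h3, h7, hnd, hca, Y, hY, hq⟩ := ih
    have hlen : (r ++ [u]).length = (u :: r).length := by simp
    refine ⟨by rw [hlen]; exact h3, by rw [hlen]; exact h7, ?_, ?_, ?_⟩
    · rw [List.nodup_append_comm]; exact hnd
    · cases r with
      | nil => exact hca
      | cons v r =>
        have h1 : G.Adj u v := hca.1
        have h2 : Path G.Adj v r u := hca.2
        show Path G.Adj v (r ++ [u]) v
        rw [path_append]
        exact ⟨h2, h1⟩
    · refine ⟨fun L => comb Y (termsR L), rep_rot hY, ?_⟩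
      intro q Kc h2q hc
      have h0 := hq q Kc h2q hc
      rw [hlen, table_sound rfl hY hca termsR (okR _ h3 h7) q]
      refine ⟨fun h6 => hc.rot _ _ h3 h6 (h0.1 h6), fun h7' => ?_⟩
      obtain ⟨ha, hb⟩ := h0.2 h7'
      rw [h7'] at ha hb ⊢
      have he : mkTbl (PP 7) termsR (PP 7) = R7 := tblR7.1
      rw [he]
      refine ⟨fun s => ?_, ?_⟩
      · have := ha (s + 1)
        rwa [Function.iterate_succ_apply] at this
      · have hr : R7.getD 35 [] = [(35, [1])] := by decide +kernel
        unfold app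
        rw [hr]
        simpa [ev] using hb
  | grow n G u v r _ hr ih =>
    obtain ⟨h3, h7, hnd, hca, Y, hY, hq⟩ := ih
    have huv : G.Adj u v := hca.1
    have hp : Path G.Adj v r u := hca.2
    have hl6 : (u :: v :: r).length ≤ 6 := by simp; omega
    have hlen : (u.succ :: 0 :: v.succ :: r.map Fin.succ).length = (u :: v :: r).length + 1 := by
      simp
    refine ⟨by rw [hlen]; omega, by rw [hlen]; omega, ?_, ?_, ?_⟩
    · have hn : (List.map Fin.succ (u :: v :: r)).Nodup := hnd.map (Fin.succ_injective n)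
      simp only [List.map_cons, List.nodup_cons, List.mem_cons, List.mem_map, not_or] at hn ⊢
      refine ⟨⟨Fin.succ_ne_zero u, hn.1.1, hn.1.2⟩, ⟨(Fin.succ_ne_zero v).symm, ?_⟩, hn.2.1, hn.2.2⟩
      rintro ⟨z, _, hz⟩
      exact Fin.succ_ne_zero z hz
    · exact ⟨growG_adj_u u v, growG_adj_v u v, path_map (growG_adj u v) r _ _ hp⟩
    · refine ⟨fun L => comb Y (termsT L), rep_grow huv hY, ?_⟩
      intro q Kc h2q hc
      have h0 := hq q Kc h2q hc
      rw [hlen, table_sound rfl hY hca termsT (okT _ h3 hl6) q]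
      have hK := h0.1 hl6
      refine ⟨fun h6 => hc.grow _ _ h3 (by omega) hK, fun h7' => ?_⟩
      have h6 : (u :: v :: r).length = 6 := by omega
      rw [h6] at hK ⊢
      have he : mkTbl (PP 6) termsT (PP (6 + 1)) = T6 := tblT6.1
      rw [he]
      refine ⟨fun s => hc.ring7 s _ hK, ?_⟩
      have hr : T6.getD 35 [] = [(14, [-2, 1])] := by decide +kernel
      have hp := hc.pos 6 _ (by norm_num) (by norm_num) hK
      have hl : (PP 6).length - 1 = 14 := by decide +kernel
      rw [hl] at hp
      unfold app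
      rw [hr]
      have : 0 < (-2 + q) * vec (PP 6) Y q 14 := mul_pos (by linarith) hp
      simpa [ev] using this
  | close n G u v w r _ hr ih =>
    obtain ⟨h3, h7, hnd, hca, Y, hY, hq⟩ := ih
    have huw : u ≠ w := by
      simp only [List.nodup_cons, List.mem_cons, not_or] at hnd
      exact hnd.1.2.1
    have hp : Path G.Adj w r u := hca.2.2
    have hrl : 1 ≤ r.length := by
      cases r with
      | nil => exact absurd rfl hr
      | cons _ _ => simp
    have hlen : (u :: v :: w :: r).length = (u :: w :: r).length + 1 := by simp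
    have h4 : 3 ≤ (u :: w :: r).length := by simp; omega
    have h6 : (u :: w :: r).length ≤ 6 := by omega
    refine ⟨h4, by omega, ?_, ?_, ?_⟩
    · simp only [List.nodup_cons, List.mem_cons, not_or] at hnd ⊢
      exact ⟨⟨hnd.1.2.1, hnd.1.2.2⟩, hnd.2.2.1, hnd.2.2.2⟩
    · refine ⟨?_, path_mono (fun a b h => Or.inl h) r _ _ hp⟩
      refine Or.inr ?_
      rw [SimpleGraph.edge_adj]
      exact ⟨Or.inl ⟨rfl, rfl⟩, huw⟩
    · refine ⟨fun L => comb Y (termsC L), rep_close huw hY, ?_⟩
      intro q Kc h2q hc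
      have h0 := hq q Kc h2q hc
      rw [table_sound (r := (u :: w :: r).length + 1) hlen hY hca termsC (okC _ h4 h6) q]
      rw [hlen] at h0
      refine ⟨fun _ => ?_, fun h => by omega⟩
      by_cases h5 : (u :: w :: r).length ≤ 5
      · exact hc.close _ _ h4 h5 (h0.1 (by omega))
      · have h66 : (u :: w :: r).length = 6 := by omega
        rw [h66] at h0 ⊢
        have he : mkTbl (PP (6 + 1)) termsC (PP 6) = C7 := tblC7.1
        rw [he]
        exact (h0.2 rfl).1 0

theorem N_all {n : ℕ} {G : SimpleGraph (Fin n)} {ring : List (Fin n)} (k : ℕ) :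
    N G k (ring.zip (List.range ring.length)) = (Nat.card (G.Coloring (Fin k)) : ℤ) := by
  rw [N_eq_card]
  congr 1
  apply Nat.card_congr
  refine ⟨fun f => SimpleGraph.Coloring.mk f.1 (fun {a b} h => f.2.1 a b h),
    fun f => ⟨f, fun a b h => f.valid h, ?_⟩, fun f => rfl, fun f => rfl⟩
  intro x hx y hy hxy
  rw [List.mem_iff_getElem] at hx hy
  obtain ⟨i, hi, rfl⟩ := hx
  obtain ⟨j, hj, rfl⟩ := hy
  simp only [List.getElem_zip, List.getElem_range] at hxy ⊢
  subst hxy
  rfl

theorem shelled_pos {n : ℕ} {G : SimpleGraph (Fin n)} {ring : List (Fin n)}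
    (h : Shelled n G ring) {q : ℝ} (hq : 2 < q) {Kc : ℕ → (ℕ → ℝ) → Prop} (hc : Cl q Kc)
    (p : ℝ[X]) (hp : ∀ k : ℕ, p.eval (k : ℝ) = (Nat.card (G.Coloring (Fin k)) : ℝ)) :
    0 < p.eval q := by
  obtain ⟨h3, h7, hnd, hca, Y, hY, hinv⟩ := shelled_inv h
  have h0 := hinv q Kc hq hc
  have hpos : 0 < vec (PP ring.length) Y q ((PP ring.length).length - 1) := by
    by_cases h6 : ring.length ≤ 6
    · exact hc.pos _ _ h3 h6 (h0.1 h6)
    · have h77 : ring.length = 7 := by omega
      have := (h0.2 h77).2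
      rw [h77] at this ⊢
      have hl : (PP 7).length - 1 = 35 := by decide +kernel
      rw [hl]
      exact this
  unfold vec at hpos
  rw [last_eq _ h3 h7] at hpos
  have hpe : p = (Y (List.range ring.length)).map (Int.castRingHom ℝ) := by
    apply Polynomial.eq_of_infinite_eval_eq
    refine Set.infinite_of_injective_forall_mem (f := fun k : ℕ => (k : ℝ)) Nat.cast_injective ?_
    intro k
    show p.eval (k : ℝ) = _
    rw [hp k]
    have h1 := hY (List.range ring.length) (by simp) k
    rw [N_all] at h1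
    have h2 : ((Y (List.range ring.length)).map (Int.castRingHom ℝ)).eval (k : ℝ) =
        (((Y (List.range ring.length)).eval (k : ℤ) : ℤ) : ℝ) := by
      simp
    rw [h2, h1]
    simp
  rw [hpe, Polynomial.eval_map]
  simpa [Polynomial.aeval_def] using hpos

end Pool.Agent.TH389.BL
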