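import Pool.Agent.TH389.BL.Cone2
import Mathlib.Data.Int.ModEq

/-! Checking identities between integer polynomials with bounded coefficients at one large integer. -/

set_option autoImplicit false

namespace Pool.Agent.TH389.BL

/-! ### value at an integer, norm and length -/

def evZ : List ℤ → ℤ → ℤ
  | [], _ => 0
  | a :: p, B => a + B * evZ p B

def nrm : List ℤ → ℕ
  | [] => 0
  | a :: p => a.natAbs + nrm p

theorem evZ_padd (p r : List ℤ) (B : ℤ) : evZ (padd p r) B = evZ p B + evZ r B := by
  induction p generalizing r with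
  | nil => simp [padd, evZ]
  | cons a p ih =>
    cases r with
    | nil => simp [padd, evZ]
    | cons b r => simp only [padd, evZ, ih]; ring

theorem evZ_pscal (c : ℤ) (p : List ℤ) (B : ℤ) : evZ (pscal c p) B = c * evZ p B := by
  induction p with
  | nil => simp [pscal, evZ]
  | cons a p ih =>
    simp only [pscal, List.map_cons, evZ] at ih ⊢
    rw [ih]; ring

theorem evZ_pmul (p r : List ℤ) (B : ℤ) : evZ (pmul p r) B = evZ p B * evZ r B := by
  induction p with
  | nil => simp [pmul, evZ]
  | cons a p ih =>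
    simp only [pmul, evZ_padd, evZ_pscal, evZ, ih]
    ring

theorem evZ_ppow (p : List ℤ) (n : ℕ) (B : ℤ) : evZ (ppow p n) B = evZ p B ^ n := by
  induction n with
  | zero => simp [ppow, evZ]
  | succ n ih => rw [ppow, evZ_pmul, ih, pow_succ]; ring

theorem nrm_padd (p r : List ℤ) : nrm (padd p r) ≤ nrm p + nrm r := by
  induction p generalizing r with
  | nil => simp [padd, nrm]
  | cons a p ih =>
    cases r with
    | nil => simp [padd, nrm]
    | cons b r =>
      simp only [padd, nrm]
      have h1 := ih r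
      have h2 := Int.natAbs_add_le a b
      omega

theorem nrm_pscal (c : ℤ) (p : List ℤ) : nrm (pscal c p) = c.natAbs * nrm p := by
  induction p with
  | nil => simp [pscal, nrm]
  | cons a p ih =>
    simp only [pscal, List.map_cons, nrm] at ih ⊢
    rw [ih, Int.natAbs_mul]; ring

theorem nrm_pmul (p r : List ℤ) : nrm (pmul p r) ≤ nrm p * nrm r := by
  induction p with
  | nil => simp [pmul, nrm]
  | cons a p ih =>
    simp only [pmul]
    refine (nrm_padd _ _).trans ?_
    rw [nrm_pscal]
    simp only [nrm, Int.natAbs_zero, zero_add]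
    rw [add_mul]
    omega

theorem nrm_ppow (p : List ℤ) (n : ℕ) : nrm (ppow p n) ≤ nrm p ^ n := by
  induction n with
  | zero => simp [ppow, nrm]
  | succ n ih =>
    rw [ppow, pow_succ']
    exact (nrm_pmul _ _).trans (Nat.mul_le_mul_left _ ih)

theorem len_padd (p r : List ℤ) : (padd p r).length ≤ max p.length r.length := by
  induction p generalizing r with
  | nil => simp [padd]
  | cons a p ih =>
    cases r with
    | nil => simp [padd]
    | cons b r =>
      have h1 := ih r
      simp only [padd, List.length_cons]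
      omega

theorem len_pscal (c : ℤ) (p : List ℤ) : (pscal c p).length = p.length := by simp [pscal]

theorem len_pmul (p r : List ℤ) : (pmul p r).length ≤ p.length + r.length := by
  induction p with
  | nil => simp [pmul]
  | cons a p ih =>
    simp only [pmul]
    have h1 := len_padd (pscal a r) (0 :: pmul p r)
    rw [len_pscal] at h1
    simp only [List.length_cons] at h1 ⊢
    omega

theorem len_ppow (p : List ℤ) (hp : p.length ≤ 2) (n : ℕ) : (ppow p n).length ≤ 2 * n + 1 := by
  induction n with
  | zero => simp [ppow]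
  | succ n ih =>
    rw [ppow]
    have h1 := len_pmul p (ppow p n)
    omega

theorem ev_of_zero {p : List ℤ} (h : ∀ a ∈ p, a = 0) (q : ℝ) : ev p q = 0 := by
  induction p with
  | nil => rfl
  | cons a p ih =>
    rw [ev, h a List.mem_cons_self, ih fun b hb => h b (List.mem_cons_of_mem _ hb)]
    simp

/-- a polynomial with small coefficients which vanishes at `B` modulo `B ^ n` is zero -/
theorem zero_of {B : ℕ} (hB : 0 < B) : ∀ (n : ℕ) (p : List ℤ), p.length ≤ n → nrm p < B →
    ((B : ℤ) ^ n ∣ evZ p B) → ∀ a ∈ p, a = 0 := by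
  intro n
  induction n with
  | zero =>
    intro p hl _ _ a ha
    have : p = [] := List.length_eq_zero_iff.1 (by omega)
    rw [this] at ha
    simp at ha
  | succ n ih =>
    intro p hl hn hd
    cases p with
    | nil => intro a ha; simp at ha
    | cons a p =>
      simp only [evZ] at hd
      simp only [nrm] at hn
      have hB' : (B : ℤ) ≠ 0 := by exact_mod_cast hB.ne'
      have ha : a = 0 := by
        have h1 : (B : ℤ) ∣ a + B * evZ p B :=
          (Dvd.intro_left _ (by rw [pow_succ])).trans hd
        have h2 : (B : ℤ) ∣ a := (Int.dvd_add_left (Dvd.intro _ rfl)).1 h1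
        refine Int.eq_zero_of_abs_lt_dvd h2 ?_
        rw [Int.abs_eq_natAbs]
        exact_mod_cast (by omega : a.natAbs < B)
      subst ha
      rw [zero_add, pow_succ, mul_comm] at hd
      have hd' : (B : ℤ) ^ n ∣ evZ p B := by
        have := Int.dvd_of_mul_dvd_mul_left hB' hd
        exact this
      have h3 := ih p (by simp at hl; omega) (by simpa using hn) hd'
      intro b hb
      rcases List.mem_cons.1 hb with rfl | hb
      · rfl
      · exact h3 b hb

theorem ev_eq_of {B n : ℕ} (hB : 0 < B) {p r : List ℤ} (hp : p.length ≤ n) (hr : r.length ≤ n)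
    (hn : nrm p + nrm r < B) (h : evZ p B ≡ evZ r B [ZMOD (B : ℤ) ^ n]) (q : ℝ) :
    ev p q = ev r q := by
  have h1 : ∀ a ∈ padd p (pscal (-1) r), a = 0 := by
    refine zero_of hB n _ ?_ ?_ ?_
    · refine (len_padd _ _).trans ?_
      rw [len_pscal]; omega
    · refine lt_of_le_of_lt (nrm_padd _ _) ?_
      rw [nrm_pscal]; simpa using hn
    · rw [evZ_padd, evZ_pscal]
      have h2 := h.symm.dvd
      have e : evZ p B + -1 * evZ r B = evZ p B - evZ r B := by ring
      rw [e]; exact h2
  have h2 := ev_of_zero h1 q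
  rw [ev_padd, ev_pscal] at h2
  push_cast at h2
  linarith

/-! ### packed vectors -/

/-- the base point -/
@[irreducible] def BB : ℕ := Nat.pow 2 208
/-- the modulus `BB ^ 32` -/
@[irreducible] def NN : ℕ := Nat.pow 2 6656
/-- norm bound -/
def LL : ℕ := 12582912

theorem hNN : ((BB : ℕ) : ℤ) ^ 32 = ((NN : ℕ) : ℤ) := by
  have : BB ^ 32 = NN := by
    unfold BB NN
    show (2 ^ 208) ^ 32 = 2 ^ 6656
    rw [← pow_mul]
  exact_mod_cast this

theorem hBB : 0 < BB := by unfold BB; exact Nat.pow_pos (by norm_num)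
theorem hNN0 : 0 < NN := by unfold NN; exact Nat.pow_pos (by norm_num)

def Cg (p : List ℤ) (z : ℕ) : Prop := evZ p (BB : ℤ) ≡ (z : ℤ) [ZMOD (NN : ℤ)]

def Pk (L l : ℕ) (g : List (List ℤ)) (z : List ℕ) : Prop :=
  ∀ i, Cg (g.getD i []) (z.getD i 0) ∧ nrm (g.getD i []) ≤ L ∧ (g.getD i []).length ≤ l

theorem Cg_nil : Cg [] 0 := by
  unfold Cg
  simp only [evZ, Nat.cast_zero]
  exact Int.ModEq.refl _

theorem Pk_nil (L l : ℕ) : Pk L l [] [] := by
  intro i
  simp only [List.getD_nil]
  exact ⟨Cg_nil, by simp [nrm], by simp⟩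

def resP (p : List ℤ) : ℕ := Int.toNat (Int.emod (evZ p (Int.ofNat BB)) (Int.ofNat NN))

theorem Cg_resP (p : List ℤ) : Cg p (resP p) := by
  unfold Cg resP
  have h : (0 : ℤ) ≤ (evZ p (Int.ofNat BB)) % (Int.ofNat NN) :=
    Int.emod_nonneg _ (by simpa using hNN0.ne')
  have h1 : ((Int.toNat (Int.emod (evZ p (Int.ofNat BB)) (Int.ofNat NN)) : ℕ) : ℤ) =
      (evZ p (Int.ofNat BB)) % (Int.ofNat NN) := Int.toNat_of_nonneg h
  rw [h1]
  exact (Int.mod_modEq _ _).symm

theorem Cg.add {p r : List ℤ} {a b : ℕ} (h : Cg p a) (h' : Cg r b) : Cg (padd p r) (a + b) := by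
  unfold Cg at *
  rw [evZ_padd]; push_cast
  exact h.add h'

theorem Cg.mul {p r : List ℤ} {a b : ℕ} (h : Cg p a) (h' : Cg r b) : Cg (pmul p r) (a * b) := by
  unfold Cg at *
  rw [evZ_pmul]; push_cast
  exact h.mul h'

theorem Cg.mod {p : List ℤ} {a : ℕ} (h : Cg p a) : Cg p (a % NN) := by
  unfold Cg at *
  push_cast
  exact h.trans (Int.mod_modEq _ _).symm

theorem Cg.pow {p : List ℤ} {a : ℕ} (h : Cg p a) (n : ℕ) : Cg (ppow p n) (a ^ n) := by
  unfold Cg at *
  rw [evZ_ppow]; push_cast
  exact h.pow n

theorem Cg.scal {p : List ℤ} {a : ℕ} (h : Cg p a) (c : ℕ) : Cg (pscal (c : ℤ) p) (c * a) := by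
  unfold Cg at *
  rw [evZ_pscal]; push_cast
  exact h.mul_left _

def bernN (x y : ℕ) : List ℕ → ℕ
  | [] => 0
  | c :: cs => Nat.mod (Nat.add (Nat.mul c (Nat.pow y cs.length)) (Nat.mul x (bernN x y cs))) NN

def bernB (a b : ℕ) : List ℕ → ℕ
  | [] => 0
  | c :: cs => Nat.add (Nat.mul c (Nat.pow b cs.length)) (Nat.mul a (bernB a b cs))

theorem Cg_bern {u v : List ℤ} {x y : ℕ} (hu : Cg u x) (hv : Cg v y) (cs : List ℕ) :
    Cg (bern u v cs) (bernN x y cs) := by
  induction cs with
  | nil => exact Cg_nil
  | cons c cs ih => exact (((hv.pow cs.length).scal c).add (hu.mul ih)).mod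

theorem nrm_bern (u v : List ℤ) (cs : List ℕ) :
    nrm (bern u v cs) ≤ bernB (nrm u) (nrm v) cs := by
  induction cs with
  | nil => simp [bern, bernB, nrm]
  | cons c cs ih =>
    have h1 := nrm_padd (pscal (c : ℤ) (ppow v cs.length)) (pmul u (bern u v cs))
    have h2 := nrm_pmul u (bern u v cs)
    have h3 := nrm_ppow v cs.length
    rw [nrm_pscal, Int.natAbs_natCast] at h1
    refine h1.trans ?_
    show _ ≤ c * nrm v ^ cs.length + nrm u * bernB (nrm u) (nrm v) cs
    exact Nat.add_le_add (Nat.mul_le_mul_left _ h3) (h2.trans (Nat.mul_le_mul_left _ ih))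

theorem len_bern {u v : List ℤ} (hu : u.length ≤ 2) (hv : v.length ≤ 2) (cs : List ℕ) :
    (bern u v cs).length ≤ 2 * cs.length + 1 := by
  induction cs with
  | nil => simp [bern]
  | cons c cs ih =>
    have h1 := len_padd (pscal (c : ℤ) (ppow v cs.length)) (pmul u (bern u v cs))
    have h2 := len_pmul u (bern u v cs)
    have h3 := len_ppow v hv cs.length
    rw [len_pscal] at h1
    rw [bern]
    simp only [List.length_cons]
    omega

/-! ### operations on packed vectors -/

def zscal (c : ℕ) (z : List ℕ) : List ℕ := z.map fun x => Nat.mul c x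

def zfma (c : ℕ) : List ℕ → List ℕ → List ℕ
  | [], acc => acc
  | x :: xs, [] => Nat.mul c x :: zfma c xs []
  | x :: xs, a :: acc => Nat.add (Nat.mul c x) a :: zfma c xs acc

def appz (M : List (List (ℕ × List ℤ))) (z : List ℕ) : List ℕ :=
  M.map fun row => row.foldr (fun e acc => Nat.add (Nat.mul (resP e.2) (z.getD e.1 0)) acc) 0

def eqz : List ℕ → List ℕ → Bool
  | [], [] => true
  | [], _ :: _ => false
  | _ :: _, [] => false
  | a :: z, b :: w => Nat.beq (Nat.mod a NN) (Nat.mod b NN) && eqz z w

def zeroz (z : List ℕ) : Bool := z.all fun a => Nat.beq (Nat.mod a NN) 0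

theorem zscal_getD (c : ℕ) (z : List ℕ) (i : ℕ) : (zscal c z).getD i 0 = c * z.getD i 0 := by
  induction z generalizing i with
  | nil => simp [zscal]
  | cons a z ih =>
    cases i with
    | zero => simp [zscal]
    | succ i => simpa [zscal] using ih i

theorem zfma_getD (c : ℕ) (z w : List ℕ) (i : ℕ) :
    (zfma c z w).getD i 0 = c * z.getD i 0 + w.getD i 0 := by
  induction z generalizing w i with
  | nil => simp [zfma]
  | cons a z ih =>
    cases w with
    | nil =>
      cases i with
      | zero => simp [zfma]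
      | succ i => simpa [zfma] using ih [] i
    | cons b w =>
      cases i with
      | zero => simp [zfma]
      | succ i => simpa [zfma] using ih w i

theorem padd_nil (p : List ℤ) : padd p [] = p := by cases p <;> rfl

theorem vadd_getD (v w : List (List ℤ)) (i : ℕ) :
    (vadd v w).getD i [] = padd (v.getD i []) (w.getD i []) := by
  induction v generalizing w i with
  | nil => simp [vadd, padd]
  | cons a v ih =>
    cases w with
    | nil => simp [vadd, padd_nil]
    | cons b w =>
      cases i with
      | zero => simp [vadd]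
      | succ i => simpa [vadd] using ih w i

theorem Pk_vscal {L l a k : ℕ} {g : List (List ℤ)} {z : List ℕ} {p : List ℤ} {c : ℕ}
    (h : Pk L l g z) (hc : Cg p c) (hn : nrm p ≤ a) (hl : p.length ≤ k) :
    Pk (a * L) (k + l) (vscal p g) (zscal c z) := by
  intro i
  rw [zscal_getD]
  obtain ⟨h1, h2, h3⟩ := h i
  by_cases hi : i < g.length
  · have e1 : (vscal p g).getD i [] = pmul p (g.getD i []) := by
      simp [vscal, List.getD, List.getElem?_eq_getElem hi]
    rw [e1]
    refine ⟨hc.mul h1, (nrm_pmul _ _).trans (Nat.mul_le_mul hn h2), (len_pmul _ _).trans ?_⟩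
    omega
  · have e1 : (vscal p g).getD i [] = [] := by
      simp [vscal, List.getD, List.getElem?_eq_none (not_lt.1 hi)]
    have e2 : g.getD i [] = [] := by
      simp [List.getD, List.getElem?_eq_none (not_lt.1 hi)]
    rw [e1]
    rw [e2] at h1
    refine ⟨?_, by simp [nrm], by simp⟩
    unfold Cg at *
    push_cast
    have := (Int.ModEq.refl (c : ℤ)).mul h1
    simpa [evZ] using this

theorem Pk_vadd {L l L' l' : ℕ} {g g' : List (List ℤ)} {z z' : List ℕ}
    (h : Pk L l g z) (h' : Pk L' l' g' z') {w : List ℕ}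
    (hw : ∀ i, w.getD i 0 = z.getD i 0 + z'.getD i 0) :
    Pk (L + L') (max l l') (vadd g g') w := by
  intro i
  rw [vadd_getD, hw]
  obtain ⟨h1, h2, h3⟩ := h i
  obtain ⟨h1', h2', h3'⟩ := h' i
  refine ⟨h1.add h1', (nrm_padd _ _).trans (Nat.add_le_add h2 h2'), (len_padd _ _).trans ?_⟩
  omega

/-- rows of norm at most `m` with entries of length at most `k` -/
def rowsOK (m k : ℕ) (M : List (List (ℕ × List ℤ))) : Bool :=
  M.all fun row => decide ((row.map fun e => nrm e.2).sum ≤ m) &&
    row.all fun e => decide (e.2.length ≤ k)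

theorem Pk_row {L l m k : ℕ} {g : List (List ℤ)} {z : List ℕ} (h : Pk L l g z)
    (row : List (ℕ × List ℤ)) (hm : (row.map fun e => nrm e.2).sum ≤ m)
    (hk : ∀ e ∈ row, e.2.length ≤ k) :
    Cg (row.foldr (fun e acc => padd (pmul e.2 (g.getD e.1 [])) acc) [])
      (row.foldr (fun e acc => Nat.add (Nat.mul (resP e.2) (z.getD e.1 0)) acc) 0) ∧
    nrm (row.foldr (fun e acc => padd (pmul e.2 (g.getD e.1 [])) acc) []) ≤ m * L ∧
    (row.foldr (fun e acc => padd (pmul e.2 (g.getD e.1 [])) acc) []).length ≤ k + l := by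
  induction row generalizing m with
  | nil => exact ⟨Cg_nil, by simp [nrm], by simp⟩
  | cons e row ih =>
    simp only [List.map_cons, List.sum_cons] at hm
    obtain ⟨i1, i2, i3⟩ := ih (le_refl _) (fun e' he' => hk e' (List.mem_cons_of_mem _ he'))
    obtain ⟨h1, h2, h3⟩ := h e.1
    have h4 := hk e List.mem_cons_self
    simp only [List.foldr_cons]
    refine ⟨((Cg_resP e.2).mul h1).add i1, ?_, ?_⟩
    · refine (nrm_padd _ _).trans ?_
      have h5 := (nrm_pmul e.2 (g.getD e.1 [])).trans (Nat.mul_le_mul_left _ h2)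
      have h6 : nrm e.2 * L + (row.map fun e => nrm e.2).sum * L ≤ m * L := by
        rw [← add_mul]; exact Nat.mul_le_mul_right _ hm
      omega
    · refine (len_padd _ _).trans ?_
      have h5 := len_pmul e.2 (g.getD e.1 [])
      omega

theorem Pk_app {L l m k : ℕ} {g : List (List ℤ)} {z : List ℕ} (h : Pk L l g z)
    {M : List (List (ℕ × List ℤ))} (hM : rowsOK m k M = true) :
    Pk (m * L) (k + l) (appP M g) (appz M z) := by
  intro i
  simp only [rowsOK, List.all_eq_true, Bool.and_eq_true, decide_eq_true_eq] at hM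
  unfold appP appz
  rw [List.getD_eq_getElem?_getD, List.getD_eq_getElem?_getD, List.getElem?_map,
    List.getElem?_map]
  cases hi : M[i]? with
  | none => exact ⟨Cg_nil, by simp [nrm], by simp⟩
  | some row =>
    have hr : row ∈ M := List.mem_of_getElem? hi
    simp only [Option.map_some, Option.getD_some]
    exact Pk_row h row (hM row hr).1 (hM row hr).2

theorem eqz_getD {z w : List ℕ} (h : eqz z w = true) (i : ℕ) :
    (z.getD i 0) % NN = (w.getD i 0) % NN := by
  induction z generalizing w i with
  | nil => cases w with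
    | nil => rfl
    | cons b w => simp [eqz] at h
  | cons a z ih => cases w with
    | nil => simp [eqz] at h
    | cons b w =>
      simp only [eqz, Bool.and_eq_true] at h
      cases i with
      | zero =>
        have := Nat.eq_of_beq_eq_true h.1
        simp only [List.getD_cons_zero]
        exact this
      | succ i => simpa using ih h.2 i

theorem Pk_eq {L l L' l' : ℕ} {g g' : List (List ℤ)} {z z' : List ℕ}
    (h : Pk L l g z) (h' : Pk L' l' g' z') (hL : L + L' < BB) (hl : l ≤ 32) (hl' : l' ≤ 32)
    (he : eqz z z' = true) (q : ℝ) : evv g q = evv g' q := by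
  funext i
  obtain ⟨h1, h2, h3⟩ := h i
  obtain ⟨h1', h2', h3'⟩ := h' i
  unfold evv
  refine ev_eq_of (n := 32) hBB (h3.trans hl) (h3'.trans hl') (by omega) ?_ q
  rw [hNN]
  unfold Cg at h1 h1'
  refine h1.trans (Int.ModEq.trans ?_ h1'.symm)
  have := eqz_getD he i
  unfold Int.ModEq
  exact_mod_cast this

theorem Pk_zero {L l : ℕ} {g : List (List ℤ)} {z : List ℕ}
    (h : Pk L l g z) (hL : L < BB) (hl : l ≤ 32)
    (he : zeroz z = true) (q : ℝ) : evv g q = fun _ => 0 := by
  funext i
  obtain ⟨h1, h2, h3⟩ := h i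
  have h0 : ev (g.getD i []) q = ev [] q := by
    have hn0 : nrm ([] : List ℤ) = 0 := rfl
    refine ev_eq_of (n := 32) hBB (h3.trans hl) (by simp) (by omega) ?_ q
    rw [hNN]
    unfold Cg at h1
    refine h1.trans ?_
    simp only [zeroz, List.all_eq_true] at he
    have hz : (z.getD i 0) % NN = 0 := by
      by_cases hi : i < z.length
      · have e : z.getD i 0 = z[i] := by simp [List.getD, List.getElem?_eq_getElem hi]
        rw [e]
        exact Nat.eq_of_beq_eq_true (he _ (List.getElem_mem hi))
      · have e : z.getD i 0 = 0 := by simp [List.getD, List.getElem?_eq_none (not_lt.1 hi)]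
        rw [e]; simp
    unfold Int.ModEq
    simp only [evZ]
    exact_mod_cast hz
  exact h0

end Pool.Agent.TH389.BL
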