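import Pool.Agent.TH389.BL.Pack

/-! Checks of certificates and references on packed vectors. -/

set_option autoImplicit false

namespace Pool.Agent.TH389.BL

variable {q : ℝ} {G G' : List (List (List ℤ))} {w w' : ℕ}

theorem Pk.mono {L l L' l' : ℕ} {g : List (List ℤ)} {z : List ℕ} (h : Pk L l g z) (hL : L ≤ L')
    (hl : l ≤ l') : Pk L' l' g z :=
  fun i => ⟨(h i).1, (h i).2.1.trans hL, (h i).2.2.trans hl⟩

/-- packed version of a list of vectors -/
def PkAll (G : List (List (List ℤ))) (Gz : List (List ℕ)) : Prop := List.Forall₂ (Pk LL 12) G Gz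

theorem forall₂_getD {α β : Type} {R : List α → List β → Prop} (h0 : R [] []) {l : List (List α)}
    {l' : List (List β)} (h : List.Forall₂ R l l') (i : ℕ) : R (l.getD i []) (l'.getD i []) := by
  induction h generalizing i with
  | nil => simpa using h0
  | cons hab _ ih =>
    cases i with
    | zero => simpa using hab
    | succ i => simpa using ih i

theorem forall₂_mem {α β : Type} {R : α → β → Prop} {l : List α}
    {l' : List β} (h : List.Forall₂ R l l') {x : α} (hx : x ∈ l) : ∃ y ∈ l', R x y := by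
  induction h with
  | nil => simp at hx
  | cons hab _ ih =>
    rcases List.mem_cons.1 hx with rfl | hx
    · exact ⟨_, List.mem_cons_self, hab⟩
    · obtain ⟨y, hy, hr⟩ := ih hx
      exact ⟨y, List.mem_cons_of_mem _ hy, hr⟩

theorem PkAll.getD {Gz : List (List ℕ)} (h : PkAll G Gz) (i : ℕ) :
    Pk LL 12 (G.getD i []) (Gz.getD i []) := forall₂_getD (Pk_nil _ _) h i

theorem PkAll.len {Gz : List (List ℕ)} (h : PkAll G Gz) : G.length = Gz.length :=
  List.Forall₂.length_eq h

/-! ### certificates -/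

def comboz (x y : ℕ) (Gz : List (List ℕ)) (t : List (ℕ × List ℕ)) : List ℕ :=
  t.foldr (fun e acc => zfma (bernN x y e.2) (Gz.getD e.1 []) acc) []

def certOKz (x y a b : ℕ) (Gz : List (List ℕ)) (yz : List ℕ)
    (D : ℕ × List ℕ × List (ℕ × List ℕ)) : Bool :=
  decide (0 < D.1) &&
  D.2.2.all (fun e => decide (e.1 < Gz.length) && e.2.any (fun c => c != 0)) &&
  D.2.2.all (fun e => decide (e.2.length ≤ 9)) &&
  decide ((scP D.1 D.2.1).length + 12 ≤ 32) &&
  decide ((nrm (scP D.1 D.2.1) + (D.2.2.map fun e => bernB a b e.2).sum) * LL < BB) &&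
  eqz (zscal (resP (scP D.1 D.2.1)) yz) (comboz x y Gz D.2.2)

theorem Pk_combo {u v : List ℤ} {x y : ℕ} {Gz : List (List ℕ)} (hu : u.length ≤ 2)
    (hv : v.length ≤ 2) (hx : Cg u x) (hy : Cg v y) (hG : PkAll G Gz) (t : List (ℕ × List ℕ))
    (ht : ∀ e ∈ t, e.2.length ≤ 9) :
    Pk ((t.map fun e => bernB (nrm u) (nrm v) e.2).sum * LL) 31 (combo u v G t)
      (comboz x y Gz t) := by
  induction t with
  | nil => exact Pk_nil _ _
  | cons e t ih =>
    have h1 := ih fun e' he' => ht e' (List.mem_cons_of_mem _ he')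
    have h2 := ht e List.mem_cons_self
    have h3 := len_bern hu hv e.2
    have h4 : Pk (bernB (nrm u) (nrm v) e.2 * LL) (19 + 12)
        (vscal (bern u v e.2) (G.getD e.1 [])) (zscal (bernN x y e.2) (Gz.getD e.1 [])) :=
      Pk_vscal (hG.getD e.1) (Cg_bern hx hy e.2) (nrm_bern u v e.2) (by omega)
    have h5 := Pk_vadd h4 h1 (w := comboz x y Gz (e :: t)) (by
      intro i
      rw [zscal_getD]
      simp only [comboz, List.foldr_cons]
      exact zfma_getD _ _ _ i)
    rw [← add_mul] at h5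
    simpa [combo] using h5

theorem K_certz {u v : List ℤ} {x y : ℕ} {Gz : List (List ℕ)} (hul : u.length ≤ 2)
    (hvl : v.length ≤ 2) (hx : Cg u x) (hy : Cg v y) (hG : PkAll G Gz)
    (hu : 0 < ev u q) (hv : 0 < ev v q) (hq : 3 < q)
    {g : List (List ℤ)} {yz : List ℕ} (hg : Pk LL 12 g yz)
    (D : ℕ × List ℕ × List (ℕ × List ℕ)) (h : certOKz x y (nrm u) (nrm v) Gz yz D = true) :
    K q G w (D.2.2.any fun e => decide (e.1 < w)) (evv g q) := by
  simp only [certOKz, Bool.and_eq_true, decide_eq_true_eq] at h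
  obtain ⟨⟨⟨⟨⟨h1, h2⟩, h3⟩, h4⟩, h5⟩, h6⟩ := h
  rw [← hG.len] at h2
  have hK := K_combo (q := q) (G := G) (w := w) hu hv D.2.2 h2
  have hP1 := Pk_combo hul hvl hx hy hG D.2.2 (by
    intro e he
    simp only [List.all_eq_true, decide_eq_true_eq] at h3
    exact h3 e he)
  have hP2 := Pk_vscal hg (Cg_resP (scP D.1 D.2.1)) (le_refl _) (le_refl _)
  have he := Pk_eq hP2 hP1 (by rw [← add_mul]; exact h5) h4 (by norm_num) h6 q
  have hD : 0 < ev (scP D.1 D.2.1) q := scP_pos hq h1 _
  have : evv g q = fun i => (ev (scP D.1 D.2.1) q)⁻¹ * evv (combo u v G D.2.2) q i := by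
    funext i
    rw [← he, evv_vscal, ← mul_assoc, inv_mul_cancel₀ hD.ne', one_mul]
  rw [this]
  exact K.smul _ _ _ (inv_pos.2 hD) hK

theorem K_targetz {u v : List ℤ} {x y : ℕ} {Gz : List (List ℕ)} (hul : u.length ≤ 2)
    (hvl : v.length ≤ 2) (hx : Cg u x) (hy : Cg v y) (hG : PkAll G Gz)
    (hu : 0 < ev u q) (hv : 0 < ev v q) (hq : 3 < q) {Y : List (List (List ℤ))}
    {Yz : List (List ℕ)} (hY : PkAll Y Yz) {D : List (ℕ × List ℕ × List (ℕ × List ℕ))}
    (hl : Yz.length = D.length)
    (h : (Yz.zip D).all (fun e => certOKz x y (nrm u) (nrm v) Gz e.1 e.2) = true)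
    (i : ℕ) (hi : i < Yz.length) :
    K q G w ((D.getD i (0, [], [])).2.2.any fun e => decide (e.1 < w)) (evv (Y.getD i []) q) := by
  simp only [List.all_eq_true] at h
  have hi' : i < D.length := by omega
  have hg := hY.getD i
  have hYi : Yz.getD i [] = Yz[i] := by simp [List.getD, List.getElem?_eq_getElem hi]
  have hD : D.getD i (0, [], []) = D[i] := by simp [List.getD, List.getElem?_eq_getElem hi']
  rw [hYi] at hg
  rw [hD]
  have hz : (Yz[i], D[i]) ∈ Yz.zip D := by
    rw [List.mem_iff_getElem]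
    exact ⟨i, by simp [hi, hi'], by simp⟩
  exact K_certz hul hvl hx hy hG hu hv hq hg D[i] (h _ hz)

/-! ### references -/

def refVecz (Rt : List (List (List (ℕ × List ℤ)))) (F : List (List (ℕ × List ℤ)))
    (Gz Yz : List (List ℕ)) (t : ℕ × ℕ × ℕ × ℕ × ℕ × List ℕ) : List ℕ :=
  zscal (resP (scP t.2.2.2.2.1 t.2.2.2.2.2))
    (if t.2.2.1 = 0 then
      (if t.2.2.2.1 = 0 then (if t.1 = 0 then Gz.getD t.2.1 [] else Yz.getD t.2.1 [])
        else appz F (if t.1 = 0 then Gz.getD t.2.1 [] else Yz.getD t.2.1 []))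
      else appz (Rt.getD t.2.2.1 [])
        (if t.2.2.2.1 = 0 then (if t.1 = 0 then Gz.getD t.2.1 [] else Yz.getD t.2.1 [])
        else appz F (if t.1 = 0 then Gz.getD t.2.1 [] else Yz.getD t.2.1 [])))

def refOKz (Rt : List (List (List (ℕ × List ℤ)))) (F : List (List (ℕ × List ℤ)))
    (Gz Yz : List (List ℕ)) (w : ℕ) (D : List (ℕ × List ℕ × List (ℕ × List ℕ)))
    (good : Bool) (M : List (List (ℕ × List ℤ)))
    (e : List ℕ × (ℕ × ℕ × ℕ × ℕ × ℕ × List ℕ)) : Bool :=
  if e.2.1 = 2 then !good && zeroz (appz M e.1) else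
    (if e.2.1 = 0 then decide (e.2.2.1 < Gz.length) else decide (e.2.2.1 < Yz.length)) &&
    decide (0 < e.2.2.2.2.2.1) && decide (e.2.2.2.1 < Rt.length) && (!good || refFlag w D e.2) &&
    decide ((5 + nrm (scP e.2.2.2.2.2.1 e.2.2.2.2.2.2)) * LL < BB) &&
    decide ((scP e.2.2.2.2.2.1 e.2.2.2.2.2.2).length + 14 ≤ 32) &&
    eqz (appz M e.1) (refVecz Rt F Gz Yz e.2)

theorem hLL : 5 * LL < BB := by
  have h : (1 : ℕ) * LL < LL + 1 := by omega
  unfold LL BB
  decide +kernel

theorem rt_rows {Rt : List (List (List (ℕ × List ℤ)))} (h : Rt.all (rowsOK 1 1) = true) (s : ℕ) :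
    rowsOK 1 1 (Rt.getD s []) = true := by
  simp only [List.all_eq_true] at h
  by_cases hi : s < Rt.length
  · have : Rt.getD s [] = Rt[s] := by simp [List.getD, List.getElem?_eq_getElem hi]
    rw [this]; exact h _ (List.getElem_mem hi)
  · have : Rt.getD s [] = [] := by simp [List.getD, List.getElem?_eq_none (not_lt.1 hi)]
    rw [this]; rfl

theorem ref_soundz (hq : 3 < q)
    {Rt : List (List (List (ℕ × List ℤ)))} {F : List (List (ℕ × List ℤ))}
    {Y : List (List (List ℤ))} {Gz Yz : List (List ℕ)}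
    {D : List (ℕ × List ℕ × List (ℕ × List ℕ))}
    (hG : PkAll G Gz) (hY : PkAll Y Yz)
    (hRt : Rt.all (rowsOK 1 1) = true) (hFr : rowsOK 1 1 F = true)
    (hR : ∀ s, s ≠ 0 → s < Rt.length → ClosedS q G w (app (Rt.getD s []) q))
    (hF : ClosedS q G w (app F q))
    (hT : ∀ i < Yz.length, K q G w ((D.getD i (0, [], [])).2.2.any fun e => decide (e.1 < w))
      (evv (Y.getD i []) q))
    {good : Bool} {M : List (List (ℕ × List ℤ))} (hM : rowsOK 5 2 M = true)
    {g : List (List ℤ)} {z : List ℕ} (hg : Pk LL 12 g z) {t : ℕ × ℕ × ℕ × ℕ × ℕ × List ℕ}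
    (h : refOKz Rt F Gz Yz w D good M (z, t) = true) :
    K q G w good (app M q (evv g q)) := by
  rw [← evv_appP]
  have hPM : Pk (5 * LL) (2 + 12) (appP M g) (appz M z) := Pk_app hg hM
  unfold refOKz at h
  by_cases h2 : t.1 = 2
  · rw [if_pos h2] at h
    simp only [Bool.and_eq_true, Bool.not_eq_true'] at h
    obtain ⟨hgd, hz⟩ := h
    subst hgd
    rw [Pk_zero hPM hLL (by norm_num) hz q]
    exact K.zero
  · rw [if_neg h2] at h
    simp only [Bool.and_eq_true, decide_eq_true_eq, Bool.or_eq_true, Bool.not_eq_true'] at h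
    obtain ⟨⟨⟨⟨⟨⟨hidx, hc⟩, hs⟩, hgood⟩, hb1⟩, hb2⟩, heq⟩ := h
    have hbase : K q G w (refFlag w D t)
        (evv (if t.1 = 0 then G.getD t.2.1 [] else Y.getD t.2.1 []) q) := by
      unfold refFlag
      by_cases h0 : t.1 = 0
      · simp only [if_pos h0, decide_eq_true_eq] at hidx ⊢
        rw [← hG.len] at hidx
        exact K_gen _ hidx
      · simp only [if_neg h0, decide_eq_true_eq] at hidx ⊢
        exact hT _ hidx
    have pbase : Pk LL 12 (if t.1 = 0 then G.getD t.2.1 [] else Y.getD t.2.1 [])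
        (if t.1 = 0 then Gz.getD t.2.1 [] else Yz.getD t.2.1 []) := by
      by_cases h0 : t.1 = 0
      · rw [if_pos h0, if_pos h0]; exact hG.getD _
      · rw [if_neg h0, if_neg h0]; exact hY.getD _
    have hbase1 : K q G w (refFlag w D t)
        (evv (if t.2.2.2.1 = 0 then (if t.1 = 0 then G.getD t.2.1 [] else Y.getD t.2.1 [])
          else appP F (if t.1 = 0 then G.getD t.2.1 [] else Y.getD t.2.1 [])) q) := by
      by_cases h0 : t.2.2.2.1 = 0
      · rw [if_pos h0]; exact hbase
      · rw [if_neg h0, evv_appP]; exact hF _ _ hbase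
    have pbase1 : Pk LL 13
        (if t.2.2.2.1 = 0 then (if t.1 = 0 then G.getD t.2.1 [] else Y.getD t.2.1 [])
          else appP F (if t.1 = 0 then G.getD t.2.1 [] else Y.getD t.2.1 []))
        (if t.2.2.2.1 = 0 then (if t.1 = 0 then Gz.getD t.2.1 [] else Yz.getD t.2.1 [])
          else appz F (if t.1 = 0 then Gz.getD t.2.1 [] else Yz.getD t.2.1 [])) := by
      by_cases h0 : t.2.2.2.1 = 0
      · rw [if_pos h0, if_pos h0]; exact pbase.mono (le_refl _) (by norm_num)
      · rw [if_neg h0, if_neg h0]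
        exact (Pk_app pbase hFr).mono (by rw [one_mul]) (by norm_num)
    have hbase2 : K q G w (refFlag w D t) (evv
        (if t.2.2.1 = 0 then
      (if t.2.2.2.1 = 0 then (if t.1 = 0 then G.getD t.2.1 [] else Y.getD t.2.1 [])
        else appP F (if t.1 = 0 then G.getD t.2.1 [] else Y.getD t.2.1 []))
      else appP (Rt.getD t.2.2.1 [])
        (if t.2.2.2.1 = 0 then (if t.1 = 0 then G.getD t.2.1 [] else Y.getD t.2.1 [])
        else appP F (if t.1 = 0 then G.getD t.2.1 [] else Y.getD t.2.1 []))) q) := by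
      by_cases h0 : t.2.2.1 = 0
      · rw [if_pos h0]; exact hbase1
      · rw [if_neg h0, evv_appP]; exact hR _ h0 hs _ _ hbase1
    have pbase2 : Pk LL 14
        (if t.2.2.1 = 0 then
      (if t.2.2.2.1 = 0 then (if t.1 = 0 then G.getD t.2.1 [] else Y.getD t.2.1 [])
        else appP F (if t.1 = 0 then G.getD t.2.1 [] else Y.getD t.2.1 []))
      else appP (Rt.getD t.2.2.1 [])
        (if t.2.2.2.1 = 0 then (if t.1 = 0 then G.getD t.2.1 [] else Y.getD t.2.1 [])
        else appP F (if t.1 = 0 then G.getD t.2.1 [] else Y.getD t.2.1 [])))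
        (if t.2.2.1 = 0 then
      (if t.2.2.2.1 = 0 then (if t.1 = 0 then Gz.getD t.2.1 [] else Yz.getD t.2.1 [])
        else appz F (if t.1 = 0 then Gz.getD t.2.1 [] else Yz.getD t.2.1 []))
      else appz (Rt.getD t.2.2.1 [])
        (if t.2.2.2.1 = 0 then (if t.1 = 0 then Gz.getD t.2.1 [] else Yz.getD t.2.1 [])
        else appz F (if t.1 = 0 then Gz.getD t.2.1 [] else Yz.getD t.2.1 []))) := by
      by_cases h0 : t.2.2.1 = 0
      · rw [if_pos h0, if_pos h0]; exact pbase1.mono (le_refl _) (by norm_num)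
      · rw [if_neg h0, if_neg h0]
        exact (Pk_app pbase1 (rt_rows hRt _)).mono (by rw [one_mul]) (by norm_num)
    have hP2 := Pk_vscal pbase2 (Cg_resP (scP t.2.2.2.2.1 t.2.2.2.2.2)) (le_refl _) (le_refl _)
    have heq' := Pk_eq hPM hP2 (by rw [← add_mul]; exact hb1) (by norm_num) hb2 heq q
    rw [heq']
    have : ∀ z : List (List ℤ), evv (vscal (scP t.2.2.2.2.1 t.2.2.2.2.2) z) q =
        fun i => ev (scP t.2.2.2.2.1 t.2.2.2.2.2) q * evv z q i := by
      intro z; funext i; exact evv_vscal _ _ _ _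
    rw [this]
    have hK := K.smul _ _ _ (scP_pos hq hc t.2.2.2.2.2) hbase2
    rcases hgood with hg | hg
    · subst hg
      cases hf : refFlag w D t with
      | true => rw [hf] at hK; exact K.weak _ hK
      | false => rw [hf] at hK; exact hK
    · rw [hg] at hK
      cases good with
      | true => exact hK
      | false => exact K.weak _ hK

theorem refs_soundz (hq : 3 < q)
    {Rt : List (List (List (ℕ × List ℤ)))} {F : List (List (ℕ × List ℤ))}
    {Y' : List (List (List ℤ))} {Gz Gz' Yz' : List (List ℕ)}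
    {D' : List (ℕ × List ℕ × List (ℕ × List ℕ))}
    (hG : PkAll G Gz) (hG' : PkAll G' Gz') (hY' : PkAll Y' Yz')
    (hRt : Rt.all (rowsOK 1 1) = true) (hFr : rowsOK 1 1 F = true)
    (hR' : ∀ s, s ≠ 0 → s < Rt.length → ClosedS q G' w' (app (Rt.getD s []) q))
    (hF' : ClosedS q G' w' (app F q))
    (hT : ∀ i < Yz'.length, K q G' w' ((D'.getD i (0, [], [])).2.2.any fun e => decide (e.1 < w'))
      (evv (Y'.getD i []) q))
    {M : List (List (ℕ × List ℤ))} (hM : rowsOK 5 2 M = true)
    {refs : List (ℕ × ℕ × ℕ × ℕ × ℕ × List ℕ)}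
    (hl : Gz.length = refs.length)
    (h1 : ((Gz.take w).zip (refs.take w)).all (refOKz Rt F Gz' Yz' w' D' true M) = true)
    (h2 : ((Gz.drop w).zip (refs.drop w)).all (refOKz Rt F Gz' Yz' w' D' false M) = true)
    {b : Bool} {x : ℕ → ℝ} (hx : K q G w b x) : K q G' w' b (app M q x) := by
  simp only [List.all_eq_true] at h1 h2
  have good : ∀ g ∈ G.take w, K q G' w' true (app M q (evv g q)) := by
    intro g hg
    obtain ⟨z, hz, hP⟩ := forall₂_mem (List.forall₂_take w hG) hg
    obtain ⟨t, ht⟩ := exists_zip (l' := refs.take w) (by simp [hl]) hz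
    exact ref_soundz hq hG' hY' hRt hFr hR' hF' hT hM hP (h1 _ ht)
  refine K_map (lin_app M q) good ?_ hx
  intro g hg
  rw [← List.take_append_drop w G] at hg
  rcases List.mem_append.1 hg with hg | hg
  · exact K.weak _ (good g hg)
  · obtain ⟨z, hz, hP⟩ := forall₂_mem (List.forall₂_drop w hG) hg
    obtain ⟨t, ht⟩ := exists_zip (l' := refs.drop w) (by simp [hl]) hz
    exact ref_soundz hq hG' hY' hRt hFr hR' hF' hT hM hP (h2 _ ht)

/-! ### permutations -/

def permOKz (M : List (List (ℕ × List ℤ))) (Gz : List (List ℕ)) (m : ℕ)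
    (e : List ℕ × ℕ) : Bool :=
  decide (e.2 < m) && decide (e.2 < Gz.length) && eqz (appz M e.1) (Gz.getD e.2 [])

theorem closed_permz {M : List (List (ℕ × List ℤ))} {Gz : List (List ℕ)} {perm : List ℕ}
    (hG : PkAll G Gz) (hM : rowsOK 1 1 M = true) (hl : Gz.length = perm.length)
    (h1 : ((Gz.take w).zip (perm.take w)).all (permOKz M Gz w) = true)
    (h2 : ((Gz.drop w).zip (perm.drop w)).all (permOKz M Gz Gz.length) = true) :
    ClosedS q G w (app M q) := by
  have h2L : 1 * LL + LL < BB := by have := hLL; omega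
  have key : ∀ m, ∀ g : List (List ℤ), ∀ e : List ℕ × ℕ, Pk LL 12 g e.1 →
      permOKz M Gz m e = true →
      K q G w (decide (e.2 < w)) (app M q (evv g q)) ∧ e.2 < m := by
    intro m g e hP he
    simp only [permOKz, Bool.and_eq_true, decide_eq_true_eq] at he
    have h3 := Pk_eq (Pk_app hP hM) (hG.getD e.2) h2L (by norm_num) (by norm_num) he.2 q
    rw [← evv_appP, h3]
    refine ⟨K_gen _ ?_, he.1.1⟩
    rw [hG.len]; exact he.1.2
  simp only [List.all_eq_true] at h1 h2
  have good : ∀ g ∈ G.take w, K q G w true (app M q (evv g q)) := by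
    intro g hg
    obtain ⟨z, hz, hP⟩ := forall₂_mem (List.forall₂_take w hG) hg
    obtain ⟨t, ht⟩ := exists_zip (l' := perm.take w) (by simp [hl]) hz
    have h3 := key w g _ hP (h1 _ ht)
    rw [decide_eq_true h3.2] at h3
    exact h3.1
  intro b x hx
  refine K_map (lin_app M q) good ?_ hx
  intro g hg
  rw [← List.take_append_drop w G] at hg
  rcases List.mem_append.1 hg with hg | hg
  · exact K.weak _ (good g hg)
  · obtain ⟨z, hz, hP⟩ := forall₂_mem (List.forall₂_drop w hG) hg
    obtain ⟨t, ht⟩ := exists_zip (l' := perm.drop w) (by simp [hl]) hz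
    have h3 := (key Gz.length g _ hP (h2 _ ht)).1
    by_cases hb : t < w
    · rw [decide_eq_true hb] at h3; exact K.weak _ h3
    · rw [decide_eq_false hb] at h3; exact h3

/-! ### unpacking -/

def digs : ℕ → ℕ → List ℕ
  | 0, _ => []
  | m + 1, z => Nat.mod z BB :: digs m (Nat.div z BB)

def offs : ℕ → ℕ
  | 0 => 0
  | m + 1 => Nat.add 1048576 (Nat.mul BB (offs m))

def msk : ℕ → ℕ
  | 0 => 0
  | m + 1 => Nat.add (Nat.sub BB 2097152) (Nat.mul BB (msk m))

/-- the polynomial with coefficients of absolute value at most `2 ^ 20` and value `z` at `BB` -/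
def unp (z : ℕ) : List ℤ := (digs 12 (Nat.add z (offs 12))).map fun d => Int.subNatNat d 1048576

def chkz (z : ℕ) : Bool :=
  Nat.beq (Nat.land (Nat.add z (offs 12)) (msk 12)) 0 &&
    Nat.ble (Nat.succ (Nat.add z (offs 12))) (Nat.pow BB 12)

theorem digs_val (m : ℕ) : ∀ z : ℕ, z < BB ^ m →
    evZ ((digs m z).map fun d => Int.subNatNat d 1048576) (BB : ℤ) = (z : ℤ) - (offs m : ℤ) := by
  induction m with
  | zero =>
    intro z hz
    have : z = 0 := by simpa using hz
    subst this
    simp [digs, evZ, offs]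
  | succ m ih =>
    intro z hz
    have h1 : z / BB < BB ^ m := by
      apply Nat.div_lt_of_lt_mul
      rw [← pow_succ']; exact hz
    have h2 := ih (z / BB) h1
    have e1 : digs (m + 1) z = z % BB :: digs m (z / BB) := rfl
    have e2 : offs (m + 1) = 1048576 + BB * offs m := rfl
    rw [e1, e2, List.map_cons, evZ, h2, Int.subNatNat_eq_coe]
    have h3 := Nat.mod_add_div z BB
    have h4 : ((z % BB : ℕ) : ℤ) + (BB : ℤ) * ((z / BB : ℕ) : ℤ) = (z : ℤ) := by exact_mod_cast h3
    push_cast at h4 ⊢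
    linear_combination h4

theorem digs_len (m : ℕ) : ∀ z : ℕ, (digs m z).length = m := by
  induction m with
  | zero => intro z; rfl
  | succ m ih => intro z; simp [digs, ih]

theorem small_of_land {x : ℕ} (hx : x < 2 ^ 208) (h : x &&& (2 ^ 208 - 2097152) = 0) :
    x < 2097152 := by
  have h1 := congrArg (fun y => y / 2 ^ 21) h
  simp only [Nat.and_div_two_pow] at h1
  have e : (2 ^ 208 - 2097152) / 2 ^ 21 = 2 ^ 187 - 1 := by norm_num
  rw [e, Nat.and_two_pow_sub_one_eq_mod] at h1
  have h2 : x / 2 ^ 21 < 2 ^ 187 := by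
    apply Nat.div_lt_of_lt_mul
    norm_num at hx ⊢
    exact hx
  rw [Nat.mod_eq_of_lt h2] at h1
  have h3 : x / 2 ^ 21 = 0 := by simpa using h1
  rw [Nat.div_eq_zero_iff] at h3
  rcases h3 with h3 | h3
  · norm_num at h3
  · norm_num at h3; exact h3

theorem digs_small (m : ℕ) : ∀ z : ℕ, z &&& msk m = 0 → ∀ d ∈ digs m z, d < 2097152 := by
  induction m with
  | zero => intro z _ d hd; simp [digs] at hd
  | succ m ih =>
    intro z hz d hd
    have hB : BB = 2 ^ 208 := by unfold BB; rfl
    have e1 : digs (m + 1) z = z % BB :: digs m (z / BB) := rfl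
    have e2 : msk (m + 1) = (BB - 2097152) + BB * msk m := rfl
    have hlt : BB - 2097152 < BB := Nat.sub_lt hBB (by norm_num)
    have hm : msk (m + 1) % BB = BB - 2097152 := by
      rw [e2, Nat.add_mul_mod_self_left, Nat.mod_eq_of_lt hlt]
    have hd' : msk (m + 1) / BB = msk m := by
      rw [e2, Nat.add_mul_div_left _ _ hBB, Nat.div_eq_of_lt hlt, zero_add]
    have h1 : (z % BB) &&& (BB - 2097152) = 0 := by
      have := congrArg (fun y => y % 2 ^ 208) hz
      simp only [Nat.and_mod_two_pow, Nat.zero_mod] at this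
      rw [← hB, hm] at this
      exact this
    have h2 : (z / BB) &&& msk m = 0 := by
      have := congrArg (fun y => y / 2 ^ 208) hz
      simp only [Nat.and_div_two_pow, Nat.zero_div] at this
      rw [← hB, hd'] at this
      exact this
    rw [e1] at hd
    rcases List.mem_cons.1 hd with rfl | hd
    · have h3 : z % BB < 2 ^ 208 := by rw [← hB]; exact Nat.mod_lt _ hBB
      have h4 : (z % BB) &&& (2 ^ 208 - 2097152) = 0 := by rw [← hB]; exact h1
      exact small_of_land h3 h4
    · exact ih _ h2 d hd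

theorem nrm_digs (l : List ℕ) (h : ∀ d ∈ l, d < 2097152) :
    nrm (l.map fun d => Int.subNatNat d 1048576) ≤ l.length * 1048576 := by
  induction l with
  | nil => simp [nrm]
  | cons d l ih =>
    have h1 := ih fun d' hd' => h d' (List.mem_cons_of_mem _ hd')
    have h2 := h d List.mem_cons_self
    simp only [List.map_cons, nrm, List.length_cons]
    have h3 : (Int.subNatNat d 1048576).natAbs ≤ 1048576 := by
      rw [Int.subNatNat_eq_coe]; omega
    omega

theorem unp_ok {z : ℕ} (h : chkz z = true) :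
    Cg (unp z) z ∧ nrm (unp z) ≤ LL ∧ (unp z).length ≤ 12 := by
  simp only [chkz, Bool.and_eq_true] at h
  have h1 : (z + offs 12) &&& msk 12 = 0 := Nat.eq_of_beq_eq_true h.1
  have h2 : z + offs 12 < BB ^ 12 := Nat.le_of_ble_eq_true h.2
  refine ⟨?_, ?_, ?_⟩
  · unfold Cg unp
    have h3 := digs_val 12 (z + offs 12) h2
    have e : evZ ((digs 12 (Nat.add z (offs 12))).map fun d => Int.subNatNat d 1048576)
        (BB : ℤ) = (z : ℤ) := by
      refine Eq.trans h3 ?_
      push_cast; ring
    rw [e]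
  · have h3 := nrm_digs (digs 12 (z + offs 12)) (digs_small 12 _ h1)
    rw [digs_len] at h3
    exact h3
  · unfold unp
    rw [List.length_map, digs_len]

theorem Pk_unp {z : List ℕ} (h : z.all chkz = true) : Pk LL 12 (z.map unp) z := by
  intro i
  simp only [List.all_eq_true] at h
  by_cases hi : i < z.length
  · have e1 : (z.map unp).getD i [] = unp z[i] := by
      simp [List.getD, List.getElem?_eq_getElem hi]
    have e2 : z.getD i 0 = z[i] := by simp [List.getD, List.getElem?_eq_getElem hi]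
    rw [e1, e2]
    exact unp_ok (h _ (List.getElem_mem hi))
  · have e1 : (z.map unp).getD i [] = [] := by
      simp [List.getD, List.getElem?_eq_none (not_lt.1 hi)]
    have e2 : z.getD i 0 = 0 := by simp [List.getD, List.getElem?_eq_none (not_lt.1 hi)]
    rw [e1, e2]
    exact ⟨Cg_nil, by simp [nrm], by simp⟩

theorem PkAll_unp {Gz : List (List ℕ)} (h : (Gz.all fun z => z.all chkz) = true) :
    PkAll (Gz.map (List.map unp)) Gz := by
  unfold PkAll
  rw [List.forall₂_map_left_iff, List.forall₂_same]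
  intro z hz
  simp only [List.all_eq_true] at h
  exact Pk_unp (by simpa using h z hz)

end Pool.Agent.TH389.BL
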