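import Mathlib.Algebra.Polynomial.Roots
import Mathlib.Algebra.Polynomial.AlgebraMap
import Mathlib.Tactic

/-! Integer polynomials as coefficient lists. -/

set_option autoImplicit false

namespace Pool.Agent.TH389.BL

/-- value of a coefficient list (constant term first) -/
def ev : List ℤ → ℝ → ℝ
  | [], _ => 0
  | a :: p, q => a + q * ev p q

def padd : List ℤ → List ℤ → List ℤ
  | [], p => p
  | a :: p, [] => a :: p
  | a :: p, b :: r => (a + b) :: padd p r

def pscal (c : ℤ) (p : List ℤ) : List ℤ := p.map (fun x => c * x)

def pmul : List ℤ → List ℤ → List ℤ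
  | [], _ => []
  | a :: p, r => padd (pscal a r) (0 :: pmul p r)

def isZ (p : List ℤ) : Bool := p.all (fun x => x == 0)

/-- equality up to trailing zeros -/
def peq : List ℤ → List ℤ → Bool
  | [], p => isZ p
  | a :: p, [] => isZ (a :: p)
  | a :: p, b :: r => (a == b) && peq p r

theorem ev_padd (p r : List ℤ) (q : ℝ) : ev (padd p r) q = ev p q + ev r q := by
  induction p generalizing r with
  | nil => simp [padd, ev]
  | cons a p ih =>
    cases r with
    | nil => simp [padd, ev]
    | cons b r => simp only [padd, ev, ih]; push_cast; ring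

theorem ev_pscal (c : ℤ) (p : List ℤ) (q : ℝ) : ev (pscal c p) q = c * ev p q := by
  induction p with
  | nil => simp [pscal, ev]
  | cons a p ih =>
    simp only [pscal, List.map_cons, ev] at ih ⊢
    rw [ih]; push_cast; ring

theorem ev_pmul (p r : List ℤ) (q : ℝ) : ev (pmul p r) q = ev p q * ev r q := by
  induction p with
  | nil => simp [pmul, ev]
  | cons a p ih =>
    simp only [pmul, ev_padd, ev_pscal, ev, ih]
    push_cast; ring

theorem ev_isZ {p : List ℤ} (h : isZ p = true) (q : ℝ) : ev p q = 0 := by
  induction p with
  | nil => rfl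
  | cons a p ih =>
    simp only [isZ, List.all_cons, Bool.and_eq_true, beq_iff_eq] at h
    simp only [ev, h.1, ih h.2]; simp

theorem ev_peq {p r : List ℤ} (h : peq p r = true) (q : ℝ) : ev p q = ev r q := by
  induction p generalizing r with
  | nil => simp only [peq] at h; rw [ev_isZ h]; rfl
  | cons a p ih =>
    cases r with
    | nil => simp only [peq] at h; rw [ev_isZ h]; rfl
    | cons b r =>
      simp only [peq, Bool.and_eq_true, beq_iff_eq] at h
      simp only [ev, h.1, ih h.2]

open Polynomial in
/-- the polynomial of a coefficient list -/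
noncomputable def toP : List ℤ → ℤ[X]
  | [] => 0
  | a :: p => C a + X * toP p

open Polynomial in
theorem aeval_toP (p : List ℤ) (q : ℝ) : aeval q (toP p) = ev p q := by
  induction p with
  | nil => simp [toP, ev]
  | cons a p ih => simp [toP, ev, ih]

/-! ### vectors of polynomials -/

/-- value of a vector of polynomials -/
def evv (g : List (List ℤ)) (q : ℝ) (i : ℕ) : ℝ := ev (g.getD i []) q

def vadd : List (List ℤ) → List (List ℤ) → List (List ℤ)
  | [], w => w
  | a :: v, [] => a :: v
  | a :: v, b :: w => padd a b :: vadd v w

def vscal (p : List ℤ) (v : List (List ℤ)) : List (List ℤ) := v.map (fun x => pmul p x)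

def veq : List (List ℤ) → List (List ℤ) → Bool
  | [], [] => true
  | [], _ :: _ => false
  | _ :: _, [] => false
  | a :: v, b :: w => peq a b && veq v w

theorem evv_nil (q : ℝ) (i : ℕ) : evv [] q i = 0 := by simp [evv, ev]

theorem evv_cons_zero (a : List ℤ) (v : List (List ℤ)) (q : ℝ) : evv (a :: v) q 0 = ev a q := by
  simp [evv]

theorem evv_cons_succ (a : List ℤ) (v : List (List ℤ)) (q : ℝ) (i : ℕ) :
    evv (a :: v) q (i + 1) = evv v q i := by
  simp [evv]

theorem evv_vadd (v w : List (List ℤ)) (q : ℝ) (i : ℕ) :
    evv (vadd v w) q i = evv v q i + evv w q i := by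
  induction v generalizing w i with
  | nil => simp [vadd, evv_nil]
  | cons a v ih =>
    cases w with
    | nil => simp [vadd, evv_nil]
    | cons b w =>
      cases i with
      | zero => simp [vadd, evv_cons_zero, ev_padd]
      | succ i => simp [vadd, evv_cons_succ, ih]

theorem evv_vscal (p : List ℤ) (v : List (List ℤ)) (q : ℝ) (i : ℕ) :
    evv (vscal p v) q i = ev p q * evv v q i := by
  induction v generalizing i with
  | nil => simp [vscal, evv_nil]
  | cons a v ih =>
    cases i with
    | zero => simp [vscal, evv_cons_zero, ev_pmul]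
    | succ i => simpa [vscal, evv_cons_succ] using ih i

theorem evv_veq {v w : List (List ℤ)} (h : veq v w = true) (q : ℝ) : evv v q = evv w q := by
  funext i
  induction v generalizing w i with
  | nil => cases w with
    | nil => rfl
    | cons b w => simp [veq] at h
  | cons a v ih => cases w with
    | nil => simp [veq] at h
    | cons b w =>
      simp only [veq, Bool.and_eq_true] at h
      cases i with
      | zero => simp only [evv_cons_zero, ev_peq h.1]
      | succ i => simp only [evv_cons_succ, ih h.2]

/-! ### sparse matrices of polynomials -/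

/-- apply a sparse matrix to a real vector -/
def app (tbl : List (List (ℕ × List ℤ))) (q : ℝ) (x : ℕ → ℝ) (i : ℕ) : ℝ :=
  ((tbl.getD i []).map fun e => ev e.2 q * x e.1).sum

/-- apply a sparse matrix to a vector of polynomials -/
def appP (tbl : List (List (ℕ × List ℤ))) (g : List (List ℤ)) : List (List ℤ) :=
  tbl.map fun row => row.foldr (fun e acc => padd (pmul e.2 (g.getD e.1 [])) acc) []

theorem evv_appP (tbl : List (List (ℕ × List ℤ))) (g : List (List ℤ)) (q : ℝ) :
    evv (appP tbl g) q = app tbl q (evv g q) := by
  funext i
  unfold app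
  induction tbl generalizing i with
  | nil => simp [appP, evv_nil]
  | cons row tbl ih =>
    cases i with
    | zero =>
      simp only [appP, List.map_cons, evv_cons_zero, List.getD_cons_zero]
      clear ih
      induction row with
      | nil => simp [ev]
      | cons e row ih2 =>
        simp only [List.foldr_cons, ev_padd, ev_pmul, List.map_cons, List.sum_cons, ih2]
        rfl
    | succ i =>
      simp only [appP, List.map_cons, evv_cons_succ, List.getD_cons_succ] at ih ⊢
      exact ih i

theorem app_add (tbl : List (List (ℕ × List ℤ))) (q : ℝ) (x y : ℕ → ℝ) :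
    app tbl q (fun i => x i + y i) = fun i => app tbl q x i + app tbl q y i := by
  funext i
  unfold app
  induction tbl.getD i [] with
  | nil => simp
  | cons e row ih =>
    simp only [List.map_cons, List.sum_cons, ih]; ring

theorem app_smul (tbl : List (List (ℕ × List ℤ))) (q : ℝ) (c : ℝ) (x : ℕ → ℝ) :
    app tbl q (fun i => c * x i) = fun i => c * app tbl q x i := by
  funext i
  unfold app
  induction tbl.getD i [] with
  | nil => simp
  | cons e row ih =>
    simp only [List.map_cons, List.sum_cons, ih]; ring

/-! ### Bernstein forms -/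

def ppow (p : List ℤ) : ℕ → List ℤ
  | 0 => [1]
  | n + 1 => pmul p (ppow p n)

theorem ev_ppow (p : List ℤ) (n : ℕ) (q : ℝ) : ev (ppow p n) q = ev p q ^ n := by
  induction n with
  | zero => simp [ppow, ev]
  | succ n ih => rw [ppow, ev_pmul, ih, pow_succ]; ring

/-- `∑ cᵢ uⁱ v^(d-i)` -/
def bern (u v : List ℤ) : List ℕ → List ℤ
  | [] => []
  | c :: cs => padd (pscal (c : ℤ) (ppow v cs.length)) (pmul u (bern u v cs))

theorem ev_bern_nonneg {u v : List ℤ} {q : ℝ} (hu : 0 < ev u q) (hv : 0 < ev v q)
    (cs : List ℕ) : 0 ≤ ev (bern u v cs) q := by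
  induction cs with
  | nil => simp [bern, ev]
  | cons c cs ih =>
    simp only [bern, ev_padd, ev_pscal, ev_pmul, ev_ppow]
    positivity

theorem ev_bern_pos {u v : List ℤ} {q : ℝ} (hu : 0 < ev u q) (hv : 0 < ev v q)
    (cs : List ℕ) (h : cs.any (fun c => c != 0) = true) : 0 < ev (bern u v cs) q := by
  induction cs with
  | nil => simp at h
  | cons c cs ih =>
    simp only [bern, ev_padd, ev_pscal, ev_pmul, ev_ppow]
    have h0 := ev_bern_nonneg hu hv cs
    simp only [List.any_cons, Bool.or_eq_true] at h
    rcases h with h | h
    · have hc : 0 < c := by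
        rcases Nat.eq_zero_or_pos c with h1 | h1
        · simp [h1] at h
        · exact h1
      have : (0 : ℝ) < ((c : ℤ) : ℝ) := by exact_mod_cast hc
      positivity
    · have h1 := ih h
      have : (0 : ℝ) ≤ ((c : ℤ) : ℝ) := by exact_mod_cast Nat.zero_le c
      positivity

end Pool.Agent.TH389.BL
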