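import Pool.Agent.TH389.BL.Sem
import Pool.Agent.TH389.BL.Poly

/-! The label functions of a disc and how they change when the disc grows. -/

set_option autoImplicit false

namespace Pool.Agent.TH389.BL

open Polynomial

/-- `Y L` is the polynomial counting the proper colourings which respect the labelling `L` of the
ring. -/
def Rep {n : ℕ} (G : SimpleGraph (Fin n)) (ring : List (Fin n)) (Y : List ℕ → ℤ[X]) : Prop :=
  ∀ L : List ℕ, L.length = ring.length → ∀ k : ℕ, (Y L).eval (k : ℤ) = N G k (ring.zip L)

/-- formal combination of labellings -/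
noncomputable def comb (Y : List ℕ → ℤ[X]) (t : List (List ℤ × List ℕ)) : ℤ[X] :=
  (t.map fun e => toP e.1 * Y e.2).sum

/-- replace `x` by `a` -/
def rp (x a : ℕ) (L : List ℕ) : List ℕ := L.map fun z => if z = x then a else z

/-- rotation -/
def termsR (L : List ℕ) : List (List ℤ × List ℕ) := [([1], L.getLastD 0 :: L.dropLast)]

/-- a new vertex joined to two consecutive ring vertices -/
def termsT : List ℕ → List (List ℤ × List ℕ)
  | a :: x :: b :: L => if a = b ∨ x = a ∨ x = b then [] else
      if x ∈ L then [([1], a :: b :: L), ([-1], a :: b :: rp x a L), ([-1], a :: b :: rp x b L)]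
      else [([-2, 1], a :: b :: L)]
  | _ => []

/-- an edge over a ring vertex -/
def termsC : List ℕ → List (List ℤ × List ℕ)
  | a :: b :: L => if a = b then [] else
      [([1], a :: ((a + b + L.sum) + 1) :: b :: L), ([-1], a :: ((a + b + L.sum) + 1) :: a :: rp b a L)]
  | _ => []

theorem comb_nil (Y : List ℕ → ℤ[X]) : comb Y [] = 0 := rfl

theorem comb_cons (Y : List ℕ → ℤ[X]) (e : List ℤ × List ℕ) (t : List (List ℤ × List ℕ)) :
    comb Y (e :: t) = toP e.1 * Y e.2 + comb Y t := by simp [comb]

theorem toP_one : toP [1] = 1 := by simp [toP]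

theorem toP_neg_one : toP [-1] = -1 := by simp [toP]

theorem toP_sub_two : toP [-2, 1] = X - 2 := by simp [toP]; ring

theorem rep_rot {n : ℕ} {G : SimpleGraph (Fin n)} {u : Fin n} {r : List (Fin n)}
    {Y : List ℕ → ℤ[X]} (h : Rep G (u :: r) Y) :
    Rep G (r ++ [u]) (fun L => comb Y (termsR L)) := by
  intro L hL k
  have hne : L ≠ [] := by
    rintro rfl
    simp at hL
  obtain ⟨L1, a, rfl⟩ : ∃ L1 a, L = L1 ++ [a] := ⟨L.dropLast, L.getLast hne, by
    rw [List.dropLast_append_getLast]⟩
  have hlen : L1.length = r.length := by simpa using hL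
  simp only [termsR, comb_cons, comb_nil, toP_one, List.dropLast_concat]
  have : (L1 ++ [a]).getLastD 0 = a := by simp [List.getLastD_eq_getLast?]
  rw [this]
  simp only [one_mul, add_zero]
  rw [h (a :: L1) (by simp [hlen]) k]
  apply N_congr_mem
  intro x
  rw [List.zip_append hlen.symm]
  simp [or_comm]

theorem zip_rp {V : Type} (r : List V) (L : List ℕ) (x a : ℕ) :
    (r.zip L).map (rl x a) = r.zip (rp x a L) := by
  unfold rp
  rw [List.zip_map_right]
  rfl

theorem zip_sh {n : ℕ} (r : List (Fin n)) (L : List ℕ) :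
    (r.map Fin.succ).zip L = (r.zip L).map sh := by
  rw [List.zip_map_left]
  rfl

theorem exists_mem_zip {V : Type} {r : List V} {L : List ℕ} {x : ℕ} (h : L.length = r.length)
    (hx : x ∈ L) : ∃ v, (v, x) ∈ r.zip L := by
  induction L generalizing r with
  | nil => simp at hx
  | cons a L ih =>
    cases r with
    | nil => simp at h
    | cons v r =>
      rcases List.mem_cons.1 hx with rfl | hx
      · exact ⟨v, by simp⟩
      · obtain ⟨w, hw⟩ := ih (by simpa using h) hx
        exact ⟨w, by simp [hw]⟩

theorem snd_mem_of_zip {V : Type} {r : List V} {L : List ℕ} {x : V × ℕ} (hx : x ∈ r.zip L) :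
    x.2 ∈ L := (List.of_mem_zip (a := x.1) (b := x.2) hx).2

theorem le_sum_of_mem' {L : List ℕ} {x : ℕ} (h : x ∈ L) : x ≤ L.sum := by
  induction L with
  | nil => simp at h
  | cons a L ih =>
    rcases List.mem_cons.1 h with rfl | h
    · simp
    · have := ih h; simp; omega

/-- the graph with a new vertex joined to `u` and `v` -/
def growG {n : ℕ} (G : SimpleGraph (Fin n)) (u v : Fin n) : SimpleGraph (Fin (n + 1)) :=
  G.map (Fin.succEmb n) ⊔ SimpleGraph.edge u.succ 0 ⊔ SimpleGraph.edge v.succ 0

theorem rep_grow {n : ℕ} {G : SimpleGraph (Fin n)} {u v : Fin n} {r : List (Fin n)}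
    {Y : List ℕ → ℤ[X]} (huv : G.Adj u v) (h : Rep G (u :: v :: r) Y) :
    Rep (growG G u v) (u.succ :: 0 :: v.succ :: r.map Fin.succ)
      (fun L => comb Y (termsT L)) := by
  intro L hL k
  obtain ⟨a, x, b, L', rfl⟩ : ∃ a x b L', L = a :: x :: b :: L' := by
    match L, hL with
    | a :: x :: b :: L', _ => exact ⟨a, x, b, L', rfl⟩
    | [], h => simp at h
    | [_], h => simp at h
    | [_, _], h => simp at h
  have hlen : L'.length = r.length := by simpa using hL
  have hvu : (up G).Adj u.succ v.succ := by
    unfold up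
    rw [SimpleGraph.map_adj]
    exact ⟨u, v, huv, rfl, rfl⟩
  have hZ : N (growG G u v) k ((u.succ :: 0 :: v.succ :: r.map Fin.succ).zip (a :: x :: b :: L')) =
      N (growG G u v) k ((0, x) :: ((u, a) :: (v, b) :: r.zip L').map sh) := by
    apply N_congr_mem
    intro y
    simp only [List.zip_cons_cons, zip_sh, List.map_cons, List.mem_cons]
    simp only [sh]
    tauto
  rw [hZ]
  set Z0 := (u, a) :: (v, b) :: r.zip L' with hZ0
  have m0 : ((0 : Fin (n + 1)), x) ∈ (0, x) :: Z0.map sh := by simp
  have mu : (u.succ, a) ∈ (0, x) :: Z0.map sh := by simp [hZ0, sh]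
  have mv : (v.succ, b) ∈ (0, x) :: Z0.map sh := by simp [hZ0, sh]
  have hau : (growG G u v).Adj u.succ v.succ := Or.inl (Or.inl hvu)
  have h0u : (growG G u v).Adj u.succ 0 := by
    refine Or.inl (Or.inr ?_)
    rw [SimpleGraph.edge_adj]
    exact ⟨Or.inl ⟨rfl, rfl⟩, Fin.succ_ne_zero u⟩
  have h0v : (growG G u v).Adj v.succ 0 := by
    refine Or.inr ?_
    rw [SimpleGraph.edge_adj]
    exact ⟨Or.inl ⟨rfl, rfl⟩, Fin.succ_ne_zero v⟩
  by_cases hz : a = b ∨ x = a ∨ x = b
  · simp only [termsT, if_pos hz, comb_nil, eval_zero]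
    symm
    rcases hz with rfl | rfl | rfl
    · exact N_adj_zero hau mu mv
    · exact N_adj_zero h0u mu m0
    · exact N_adj_zero h0v mv m0
  · push Not at hz
    obtain ⟨hab, hxa, hxb⟩ := hz
    have hz : ¬ (a = b ∨ x = a ∨ x = b) := by tauto
    have e1 : N (growG G u v) k ((0, x) :: Z0.map sh) =
        N (up G ⊔ SimpleGraph.edge u.succ 0) k ((0, x) :: Z0.map sh) -
        N (up G ⊔ SimpleGraph.edge u.succ 0) k (((0, x) :: Z0.map sh).map (rl x b)) :=
      N_edge (Fin.succ_ne_zero v) mv m0 hxb.symm
    have e2 : N (up G ⊔ SimpleGraph.edge u.succ 0) k ((0, x) :: Z0.map sh) =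
        N (up G) k ((0, x) :: Z0.map sh) -
        N (up G) k (((0, x) :: Z0.map sh).map (rl x a)) :=
      N_edge (Fin.succ_ne_zero u) mu m0 hxa.symm
    have m1 : ∀ c, ((0, x) :: Z0.map sh).map (rl x c) =
        (0, c) :: ((u, a) :: (v, b) :: r.zip (rp x c L')).map sh := by
      intro c
      have h1 : (Z0.map sh).map (rl x c) = ((Z0.map (rl x c)).map sh) := by
        simp [List.map_map, Function.comp_def, rl, sh]
      rw [List.map_cons, h1, hZ0]
      simp only [List.map_cons, zip_rp]
      simp [rl, sh, hxa.symm, hxb.symm]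
    have e3 : N (up G) k (((0, x) :: Z0.map sh).map (rl x a)) =
        N G k ((u, a) :: (v, b) :: r.zip (rp x a L')) := by
      rw [m1 a]
      exact N_up_mem (v := u) (by simp)
    have e4 : N (up G ⊔ SimpleGraph.edge u.succ 0) k (((0, x) :: Z0.map sh).map (rl x b)) =
        N G k ((u, a) :: (v, b) :: r.zip (rp x b L')) := by
      rw [m1 b]
      have e5 : N (up G ⊔ SimpleGraph.edge u.succ 0) k
          ((0, b) :: ((u, a) :: (v, b) :: r.zip (rp x b L')).map sh) =
          N (up G) k ((0, b) :: ((u, a) :: (v, b) :: r.zip (rp x b L')).map sh) -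
          N (up G) k (((0, b) :: ((u, a) :: (v, b) :: r.zip (rp x b L')).map sh).map (rl b a)) :=
        N_edge (Fin.succ_ne_zero u) (by simp [sh]) (by simp) hab
      rw [e5, N_up_mem (v := v) (by simp),
        N_adj_zero (u := u.succ) (v := v.succ) (a := a) hvu (by simp [rl, sh, hab]) (by simp [rl, sh])]
      ring
    have hY1 : (Y (a :: b :: L')).eval (k : ℤ) = N G k Z0 := h (a :: b :: L') (by simp [hlen]) k
    have hY2 : ∀ c, (Y (a :: b :: rp x c L')).eval (k : ℤ) =
        N G k ((u, a) :: (v, b) :: r.zip (rp x c L')) := by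
      intro c
      exact h (a :: b :: rp x c L') (by simp [rp, hlen]) k
    rw [e1, e2, e3, e4]
    by_cases hx : x ∈ L'
    · simp only [termsT, if_neg hz, if_pos hx, comb_cons, comb_nil, toP_one, toP_neg_one, eval_add,
        eval_mul, eval_one, eval_neg, eval_zero, hY1, hY2]
      obtain ⟨w, hw⟩ := exists_mem_zip hlen hx
      rw [N_up_mem (v := w) (by rw [hZ0]; simp [hw])]
      ring
    · simp only [termsT, if_neg hz, if_neg hx, comb_cons, comb_nil, toP_sub_two, eval_add,
        eval_mul, eval_sub, eval_X, eval_ofNat, eval_zero, hY1]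
      have hrp : ∀ c, rp x c L' = L' := by
        intro c
        unfold rp
        conv_rhs => rw [← List.map_id L']
        apply List.map_congr_left
        intro z hz'
        have : z ≠ x := by rintro rfl; exact hx hz'
        simp [this]
      rw [hrp, hrp, N_up_fresh (m := x)]
      · rw [← hZ0]; ring
      · intro y hy
        rw [hZ0] at hy
        rcases List.mem_cons.1 hy with rfl | hy
        · exact hxa.symm
        · rcases List.mem_cons.1 hy with rfl | hy
          · exact hxb.symm
          · rintro rfl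
            exact hx (snd_mem_of_zip hy)

theorem rep_close {n : ℕ} {G : SimpleGraph (Fin n)} {u v w : Fin n} {r : List (Fin n)}
    {Y : List ℕ → ℤ[X]} (huw : u ≠ w) (h : Rep G (u :: v :: w :: r) Y) :
    Rep (G ⊔ SimpleGraph.edge u w) (u :: w :: r) (fun L => comb Y (termsC L)) := by
  intro L hL k
  obtain ⟨a, b, L', rfl⟩ : ∃ a b L', L = a :: b :: L' := by
    match L, hL with
    | a :: b :: L', _ => exact ⟨a, b, L', rfl⟩
    | [], h => simp at h
    | [_], h => simp at h
  have hlen : L'.length = r.length := by simpa using hL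
  simp only [List.zip_cons_cons]
  have mu : (u, a) ∈ (u, a) :: (w, b) :: r.zip L' := by simp
  have mw : (w, b) ∈ (u, a) :: (w, b) :: r.zip L' := by simp
  by_cases hab : a = b
  · simp only [termsC, if_pos hab, comb_nil, eval_zero]
    symm
    subst hab
    refine N_adj_zero (u := u) (v := w) (a := a) (Or.inr ?_) mu mw
    rw [SimpleGraph.edge_adj]
    exact ⟨Or.inl ⟨rfl, rfl⟩, huw⟩
  · rw [N_edge huw mu mw hab]
    simp only [termsC, if_neg hab, comb_cons, comb_nil, toP_one, toP_neg_one, eval_add,
        eval_mul, eval_one, eval_neg, eval_zero]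
    set f := a + b + L'.sum + 1 with hf
    rw [h (a :: f :: b :: L') (by simp [hlen]) k, h (a :: f :: a :: rp b a L') (by simp [rp, hlen]) k]
    simp only [List.zip_cons_cons]
    have s1 : ∀ Z : List (Fin n × ℕ), ∀ p p', N G k (p :: (v, f) :: p' :: Z) =
        N G k ((v, f) :: p :: p' :: Z) := by
      intro Z p p'
      apply N_congr_mem
      intro y
      simp only [List.mem_cons]
      tauto
    have hL' : ∀ z ∈ L', z < f := by
      intro z hz
      have := le_sum_of_mem' hz
      omega
    have hr1 : ((u, a) :: (w, b) :: r.zip L').map (rl b a) = (u, a) :: (w, a) :: r.zip (rp b a L') := by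
      simp only [List.map_cons, zip_rp]
      simp [rl, hab]
    have f1 : N G k ((v, f) :: (u, a) :: (w, b) :: r.zip L') = N G k ((u, a) :: (w, b) :: r.zip L') := by
      apply N_fresh
      intro y hy
      rcases List.mem_cons.1 hy with rfl | hy
      · simp only; omega
      · rcases List.mem_cons.1 hy with rfl | hy
        · simp only; omega
        · have := hL' _ (snd_mem_of_zip hy)
          omega
    have f2 : N G k ((v, f) :: (u, a) :: (w, a) :: r.zip (rp b a L')) =
        N G k ((u, a) :: (w, a) :: r.zip (rp b a L')) := by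
      apply N_fresh
      intro y hy
      rcases List.mem_cons.1 hy with rfl | hy
      · simp only; omega
      · rcases List.mem_cons.1 hy with rfl | hy
        · simp only; omega
        · have h2 := snd_mem_of_zip hy
          unfold rp at h2
          obtain ⟨z, hz, hz2⟩ := List.mem_map.1 h2
          have h3 := hL' z hz
          by_cases hzb : z = b
          · rw [if_pos hzb] at hz2; omega
          · rw [if_neg hzb] at hz2; omega
    rw [s1, s1, f1, f2, hr1]
    ring

end Pool.Agent.TH389.BL
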