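import Mathlib.Combinatorics.SimpleGraph.Coloring.Vertex
import Mathlib.Combinatorics.SimpleGraph.Operations
import Mathlib.Algebra.Polynomial.Roots
import Mathlib.Tactic

/-! Counting proper colourings of a graph which respect a labelling of a ring of vertices. -/

set_option autoImplicit false

namespace Pool.Agent.TH389.BL

open Polynomial Classical

/-- `c` is a proper colouring of `G` which is constant on the classes of equal labels of `Z`. -/
def Ok {V : Type} (G : SimpleGraph V) (k : ℕ) (Z : List (V × ℕ)) (c : V → Fin k) : Prop :=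
  (∀ a b, G.Adj a b → c a ≠ c b) ∧ ∀ x ∈ Z, ∀ y ∈ Z, x.2 = y.2 → c x.1 = c y.1

/-- The number of such colourings. -/
noncomputable def N {V : Type} [Fintype V] (G : SimpleGraph V) (k : ℕ) (Z : List (V × ℕ)) : ℤ :=
  ((Finset.univ.filter (fun c : V → Fin k => Ok G k Z c)).card : ℤ)

section
variable {V : Type} [Fintype V]

theorem N_congr {G G' : SimpleGraph V} {k : ℕ} {Z Z' : List (V × ℕ)}
    (h : ∀ c : V → Fin k, Ok G k Z c ↔ Ok G' k Z' c) : N G k Z = N G' k Z' := by
  unfold N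
  congr 2
  ext c
  simp [h]

theorem N_eq_card (G : SimpleGraph V) (k : ℕ) (Z : List (V × ℕ)) :
    N G k Z = (Nat.card {c : V → Fin k // Ok G k Z c} : ℤ) := by
  unfold N
  rw [Nat.card_eq_fintype_card, Fintype.card_subtype]

theorem N_congr_mem {G : SimpleGraph V} {k : ℕ} {Z Z' : List (V × ℕ)}
    (h : ∀ x, x ∈ Z ↔ x ∈ Z') : N G k Z = N G k Z' := by
  apply N_congr
  intro c
  unfold Ok
  simp only [h]

theorem N_zero {G : SimpleGraph V} {k : ℕ} {Z : List (V × ℕ)}
    (h : ∀ c : V → Fin k, ¬ Ok G k Z c) : N G k Z = 0 := by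
  unfold N
  simp [h]

theorem N_adj_zero {G : SimpleGraph V} {k : ℕ} {Z : List (V × ℕ)} {u v : V} {a : ℕ}
    (huv : G.Adj u v) (hu : (u, a) ∈ Z) (hv : (v, a) ∈ Z) : N G k Z = 0 := by
  apply N_zero
  rintro c ⟨h1, h2⟩
  exact h1 u v huv (h2 _ hu _ hv rfl)

/-- relabel `b` to `a` -/
def rl {V : Type} (b a : ℕ) (p : V × ℕ) : V × ℕ := (p.1, if p.2 = b then a else p.2)

omit [Fintype V] in
theorem ok_rl {G : SimpleGraph V} {k : ℕ} {Z : List (V × ℕ)} {u v : V} {a b : ℕ}
    (hu : (u, a) ∈ Z) (hv : (v, b) ∈ Z) (hab : a ≠ b) (c : V → Fin k) :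
    Ok G k (Z.map (rl b a)) c ↔ Ok G k Z c ∧ c u = c v := by
  unfold Ok
  constructor
  · rintro ⟨h1, h2⟩
    have key : ∀ x ∈ Z, ∀ y ∈ Z, (rl b a x).2 = (rl b a y).2 → c x.1 = c y.1 := by
      intro x hx y hy h
      exact h2 (rl b a x) (List.mem_map_of_mem hx) (rl b a y) (List.mem_map_of_mem hy) h
    refine ⟨⟨h1, ?_⟩, ?_⟩
    · intro x hx y hy h
      apply key x hx y hy
      simp [rl, h]
    · have := key _ hu _ hv (by simp [rl, hab])
      simpa using this
  · rintro ⟨⟨h1, h2⟩, h3⟩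
    refine ⟨h1, ?_⟩
    intro x hx y hy h
    obtain ⟨x', hx', rfl⟩ := List.mem_map.1 hx
    obtain ⟨y', hy', rfl⟩ := List.mem_map.1 hy
    simp only [rl] at h ⊢
    by_cases hxb : x'.2 = b <;> by_cases hyb : y'.2 = b
    · exact h2 _ hx' _ hy' (by rw [hxb, hyb])
    · simp only [hxb, hyb, if_true, if_false] at h
      have e1 : c x'.1 = c v := h2 _ hx' _ hv (by rw [hxb])
      have e2 : c y'.1 = c u := h2 _ hy' _ hu (by rw [← h])
      rw [e1, e2, h3]
    · simp only [hxb, hyb, if_true, if_false] at h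
      have e1 : c x'.1 = c u := h2 _ hx' _ hu (by rw [h])
      have e2 : c y'.1 = c v := h2 _ hy' _ hv (by rw [hyb])
      rw [e1, e2, h3]
    · simp only [hxb, hyb, if_false] at h
      exact h2 _ hx' _ hy' h

omit [Fintype V] in
theorem ok_edge {G : SimpleGraph V} {k : ℕ} {Z : List (V × ℕ)} {u v : V} (huv : u ≠ v)
    (c : V → Fin k) : Ok (G ⊔ SimpleGraph.edge u v) k Z c ↔ Ok G k Z c ∧ c u ≠ c v := by
  unfold Ok
  simp only [SimpleGraph.sup_adj, SimpleGraph.edge_adj]
  constructor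
  · rintro ⟨h1, h2⟩
    exact ⟨⟨fun a b h => h1 a b (Or.inl h), h2⟩, h1 u v (Or.inr ⟨Or.inl ⟨rfl, rfl⟩, huv⟩)⟩
  · rintro ⟨⟨h1, h2⟩, h3⟩
    refine ⟨?_, h2⟩
    rintro a b (h | ⟨h | h, -⟩)
    · exact h1 a b h
    · obtain ⟨rfl, rfl⟩ := h
      exact h3
    · obtain ⟨rfl, rfl⟩ := h
      exact fun e => h3 e.symm

theorem N_edge {G : SimpleGraph V} {k : ℕ} {Z : List (V × ℕ)} {u v : V} {a b : ℕ}
    (huv : u ≠ v) (hu : (u, a) ∈ Z) (hv : (v, b) ∈ Z) (hab : a ≠ b) :
    N (G ⊔ SimpleGraph.edge u v) k Z = N G k Z - N G k (Z.map (rl b a)) := by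
  unfold N
  simp only [ok_edge huv, ok_rl hu hv hab]
  have := Finset.card_filter_add_card_filter_not (s := Finset.univ.filter (fun c : V → Fin k => Ok G k Z c))
    (fun c => c u = c v)
  simp only [Finset.filter_filter] at this
  have h2 := congrArg (fun n : ℕ => (n : ℤ)) this
  push_cast at h2
  linarith

theorem N_fresh {G : SimpleGraph V} {k : ℕ} {Z : List (V × ℕ)} {p : V} {f : ℕ}
    (hf : ∀ x ∈ Z, x.2 ≠ f) : N G k ((p, f) :: Z) = N G k Z := by
  apply N_congr
  intro c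
  unfold Ok
  constructor
  · rintro ⟨h1, h2⟩
    exact ⟨h1, fun x hx y hy h => h2 x (List.mem_cons_of_mem _ hx) y (List.mem_cons_of_mem _ hy) h⟩
  · rintro ⟨h1, h2⟩
    refine ⟨h1, ?_⟩
    intro x hx y hy h
    rcases List.mem_cons.1 hx with rfl | hx <;> rcases List.mem_cons.1 hy with rfl | hy
    · rfl
    · exact absurd h.symm (hf y hy)
    · exact absurd h (hf x hx)
    · exact h2 x hx y hy h

end

/-! ### A new vertex -/

/-- the graph with a new isolated vertex `0` -/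
def up {n : ℕ} (G : SimpleGraph (Fin n)) : SimpleGraph (Fin (n + 1)) := G.map (Fin.succEmb n)

/-- shift a pair -/
def sh {n : ℕ} (p : Fin n × ℕ) : Fin (n + 1) × ℕ := (p.1.succ, p.2)

theorem ok_up {n : ℕ} {G : SimpleGraph (Fin n)} {k : ℕ} {Z : List (Fin n × ℕ)} {m : ℕ}
    (c : Fin (n + 1) → Fin k) :
    Ok (up G) k ((0, m) :: Z.map sh) c ↔
      Ok G k Z (fun i => c i.succ) ∧ ∀ p ∈ Z, p.2 = m → c 0 = c p.1.succ := by
  unfold Ok up
  constructor
  · rintro ⟨h1, h2⟩
    refine ⟨⟨?_, ?_⟩, ?_⟩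
    · intro a b h
      apply h1
      rw [SimpleGraph.map_adj]
      exact ⟨a, b, h, rfl, rfl⟩
    · intro x hx y hy h
      exact h2 (sh x) (List.mem_cons_of_mem _ (List.mem_map_of_mem hx)) (sh y)
        (List.mem_cons_of_mem _ (List.mem_map_of_mem hy)) h
    · intro p hp h
      exact h2 (0, m) List.mem_cons_self (sh p) (List.mem_cons_of_mem _ (List.mem_map_of_mem hp)) h.symm
  · rintro ⟨⟨h1, h2⟩, h3⟩
    refine ⟨?_, ?_⟩
    · intro a b h
      rw [SimpleGraph.map_adj] at h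
      obtain ⟨a', b', h', rfl, rfl⟩ := h
      exact h1 a' b' h'
    · intro x hx y hy h
      rcases List.mem_cons.1 hx with rfl | hx <;> rcases List.mem_cons.1 hy with rfl | hy
      · rfl
      · obtain ⟨y', hy', rfl⟩ := List.mem_map.1 hy
        exact h3 y' hy' h.symm
      · obtain ⟨x', hx', rfl⟩ := List.mem_map.1 hx
        exact (h3 x' hx' h).symm
      · obtain ⟨y', hy', rfl⟩ := List.mem_map.1 hy
        obtain ⟨x', hx', rfl⟩ := List.mem_map.1 hx
        exact h2 x' hx' y' hy' h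

theorem N_up_mem {n : ℕ} {G : SimpleGraph (Fin n)} {k : ℕ} {Z : List (Fin n × ℕ)} {m : ℕ}
    {v : Fin n} (hv : (v, m) ∈ Z) : N (up G) k ((0, m) :: Z.map sh) = N G k Z := by
  unfold N
  congr 1
  refine Finset.card_nbij' (fun c i => c i.succ) (fun c => Fin.cons (c v) c) ?_ ?_ ?_ ?_
  · intro c hc
    simp only [Finset.coe_filter, Finset.mem_univ, true_and, Set.mem_ofPred_eq, ok_up] at hc ⊢
    exact hc.1
  · intro c hc
    simp only [Finset.coe_filter, Finset.mem_univ, true_and, Set.mem_ofPred_eq, ok_up,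
      Fin.cons_succ, Fin.cons_zero] at hc ⊢
    exact ⟨hc, fun p hp h => hc.2 _ hv _ hp h.symm⟩
  · intro c hc
    simp only [Finset.coe_filter, Finset.mem_univ, true_and, Set.mem_ofPred_eq, ok_up] at hc
    funext i
    refine Fin.cases ?_ (fun j => ?_) i
    · simp [hc.2 _ hv rfl]
    · simp
  · intro c hc
    funext i
    simp

theorem N_up_fresh {n : ℕ} {G : SimpleGraph (Fin n)} {k : ℕ} {Z : List (Fin n × ℕ)} {m : ℕ}
    (hf : ∀ x ∈ Z, x.2 ≠ m) : N (up G) k ((0, m) :: Z.map sh) = k * N G k Z := by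
  unfold N
  rw [← Nat.cast_mul]
  congr 1
  refine Eq.trans (b := ((Finset.univ : Finset (Fin k)) ×ˢ
    (Finset.univ.filter (fun c : Fin n → Fin k => Ok G k Z c))).card) ?_ ?_
  · refine Finset.card_nbij' (fun c => (c 0, fun i => c i.succ)) (fun c => Fin.cons c.1 c.2) ?_ ?_ ?_ ?_
    · intro c hc
      simp only [Finset.coe_filter, Finset.mem_univ, true_and, Set.mem_ofPred_eq, ok_up] at hc
      simp [hc.1]
    · intro c hc
      simp only [Finset.coe_product, Finset.coe_univ, Finset.coe_filter, Finset.mem_univ, true_and,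
        Set.mem_prod, Set.mem_univ, Set.mem_ofPred_eq, ok_up] at hc ⊢
      refine ⟨?_, fun p hp h => absurd h (hf p hp)⟩
      simpa using hc
    · intro c hc
      funext i
      refine Fin.cases ?_ (fun j => ?_) i
      · simp
      · simp
    · intro c hc
      simp
  · rw [Finset.card_product, Finset.card_univ, Fintype.card_fin]
    congr! 2
    ext c
    simp

end Pool.Agent.TH389.BL
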