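import Pool.Agent.TH389.BL.Main

/-! Shelled discs of perimeter at most `R`: the general induction. -/

set_option autoImplicit false

namespace Pool.Agent.TH389.BL

open Polynomial

/-- A triangulated disc, given by its graph and the cyclic list of its boundary vertices, which is
built from a triangle by steps of two kinds: joining a new vertex (called `0`, the old vertices
being shifted by one) to two consecutive boundary vertices, and adding an edge over a boundary
vertex, which then becomes an inner vertex. The boundary never has more than `R` vertices. -/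
inductive Sh (R : ℕ) : (n : ℕ) → SimpleGraph (Fin n) → List (Fin n) → Prop
  | triangle : Sh R 3 ⊤ [0, 1, 2]
  | rotate (n : ℕ) (G : SimpleGraph (Fin n)) (u : Fin n) (r : List (Fin n)) :
      Sh R n G (u :: r) → Sh R n G (r ++ [u])
  | grow (n : ℕ) (G : SimpleGraph (Fin n)) (u v : Fin n) (r : List (Fin n)) :
      Sh R n G (u :: v :: r) → (u :: v :: r).length < R →
      Sh R (n + 1) (growG G u v) (u.succ :: 0 :: v.succ :: r.map Fin.succ)
  | close (n : ℕ) (G : SimpleGraph (Fin n)) (u v w : Fin n) (r : List (Fin n)) :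
      Sh R n G (u :: v :: w :: r) → r ≠ [] →
      Sh R n (G ⊔ SimpleGraph.edge u w) (u :: w :: r)

/-- tables for perimeters `3, ..., R` -/
structure Tb (R : ℕ) (PQ : ℕ → List (List ℕ)) : Prop where
  hR : 3 ≤ R
  h3 : PQ 3 = [[0, 1, 2]]
  okR : ∀ r, 3 ≤ r → r ≤ R → okTbl (PQ r) r termsR (PQ r) = true
  okT : ∀ r, 3 ≤ r → r < R → okTbl (PQ r) r termsT (PQ (r + 1)) = true
  okC : ∀ r, 3 ≤ r → r < R → okTbl (PQ (r + 1)) (r + 1) termsC (PQ r) = true
  last : ∀ r, 3 ≤ r → r ≤ R → (PQ r)[(PQ r).length - 1]? = some (List.range r)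

/-- closed families of sets of vectors -/
structure Fam (R : ℕ) (PQ : ℕ → List (List ℕ)) (q : ℝ) (I : ℕ → (ℕ → ℝ) → Prop) : Prop where
  base : ∀ c : ℝ, 0 < c → I 3 (fun i => c * evv [[1]] q i)
  rot : ∀ r x, 3 ≤ r → r ≤ R → I r x → I r (app (mkTbl (PQ r) termsR (PQ r)) q x)
  grow : ∀ r x, 3 ≤ r → r < R → I r x → I (r + 1) (app (mkTbl (PQ r) termsT (PQ (r + 1))) q x)
  close : ∀ r x, 3 ≤ r → r < R → I (r + 1) x → I r (app (mkTbl (PQ (r + 1)) termsC (PQ r)) q x)
  pos : ∀ r x, 3 ≤ r → r ≤ R → I r x → 0 < x ((PQ r).length - 1)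

theorem sh_inv {R : ℕ} {PQ : ℕ → List (List ℕ)} (hT : Tb R PQ) {n : ℕ} {G : SimpleGraph (Fin n)}
    {ring : List (Fin n)} (h : Sh R n G ring) : 3 ≤ ring.length ∧ ring.length ≤ R ∧ ring.Nodup ∧
      CA G ring ∧ ∃ Y, Rep G ring Y ∧ ∀ (q : ℝ) (I : ℕ → (ℕ → ℝ) → Prop), 2 < q →
        Fam R PQ q I → I ring.length (vec (PQ ring.length) Y q) := by
  induction h with
  | triangle =>
    refine ⟨by simp, by simpa using hT.hR, by decide, ⟨by simp, by simp, by simp [Path]⟩, ?_⟩
    refine ⟨fun L => if L.Nodup then (X * (X - 1) * (X - 2) : ℤ[X]) else 0, ?_, ?_⟩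
    · intro L hL k
      exact eval_tri L hL k
    · intro q I hq hc
      have h0 : 0 < q * (q - 1) * (q - 2) := by
        have h1 : 0 < q := by linarith
        have h2 : 0 < q - 1 := by linarith
        have h3 : 0 < q - 2 := by linarith
        positivity
      have h1 := hc.base _ h0
      have hl3 : ([0, 1, 2] : List (Fin 3)).length = 3 := rfl
      rw [hl3, hT.h3]
      convert h1 using 1
      funext i
      rcases i with _ | i
      · have : vec [[0, 1, 2]] (fun L => if L.Nodup then (X * (X - 1) * (X - 2) : ℤ[X]) else 0) q 0 =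
            aeval q (X * (X - 1) * (X - 2) : ℤ[X]) := by
          simp [vec]
        rw [this, aeval_tri]
        simp [evv, ev]
      · simp [vec, evv, ev]
  | rotate n G u r _ ih =>
    obtain ⟨h3, h7, hnd, hca, Y, hY, hq⟩ := ih
    have hlen : (r ++ [u]).length = (u :: r).length := by simp
    refine ⟨by rw [hlen]; exact h3, by rw [hlen]; exact h7, ?_, ?_, ?_⟩
    · rw [List.nodup_append_comm]; exact hnd
    · cases r with
      | nil => exact hca
      | cons v r =>
        have h1 : G.Adj u v := hca.1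
        have h2 : Path G.Adj v r u := hca.2
        show Path G.Adj v (r ++ [u]) v
        rw [path_append]
        exact ⟨h2, h1⟩
    · refine ⟨fun L => comb Y (termsR L), rep_rot hY, ?_⟩
      intro q I h2q hc
      rw [hlen, table_sound rfl hY hca termsR (hT.okR _ h3 h7) q]
      exact hc.rot _ _ h3 h7 (hq q I h2q hc)
  | grow n G u v r _ hr ih =>
    obtain ⟨h3, h7, hnd, hca, Y, hY, hq⟩ := ih
    have huv : G.Adj u v := hca.1
    have hp : Path G.Adj v r u := hca.2
    have hlen : (u.succ :: 0 :: v.succ :: r.map Fin.succ).length = (u :: v :: r).length + 1 := by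
      simp
    refine ⟨by rw [hlen]; omega, by rw [hlen]; omega, ?_, ?_, ?_⟩
    · have hn : (List.map Fin.succ (u :: v :: r)).Nodup := hnd.map (Fin.succ_injective n)
      simp only [List.map_cons, List.nodup_cons, List.mem_cons, List.mem_map, not_or] at hn ⊢
      refine ⟨⟨Fin.succ_ne_zero u, hn.1.1, hn.1.2⟩, ⟨(Fin.succ_ne_zero v).symm, ?_⟩, hn.2.1, hn.2.2⟩
      rintro ⟨z, _, hz⟩
      exact Fin.succ_ne_zero z hz
    · exact ⟨growG_adj_u u v, growG_adj_v u v, path_map (growG_adj u v) r _ _ hp⟩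
    · refine ⟨fun L => comb Y (termsT L), rep_grow huv hY, ?_⟩
      intro q I h2q hc
      rw [hlen, table_sound rfl hY hca termsT (hT.okT _ h3 hr) q]
      exact hc.grow _ _ h3 hr (hq q I h2q hc)
  | close n G u v w r _ hr ih =>
    obtain ⟨h3, h7, hnd, hca, Y, hY, hq⟩ := ih
    have huw : u ≠ w := by
      simp only [List.nodup_cons, List.mem_cons, not_or] at hnd
      exact hnd.1.2.1
    have hp : Path G.Adj w r u := hca.2.2
    have hrl : 1 ≤ r.length := by
      cases r with
      | nil => exact absurd rfl hr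
      | cons _ _ => simp
    have hlen : (u :: v :: w :: r).length = (u :: w :: r).length + 1 := by simp
    have h4 : 3 ≤ (u :: w :: r).length := by simp; omega
    have h6 : (u :: w :: r).length < R := by omega
    refine ⟨h4, by omega, ?_, ?_, ?_⟩
    · simp only [List.nodup_cons, List.mem_cons, not_or] at hnd ⊢
      exact ⟨⟨hnd.1.2.1, hnd.1.2.2⟩, hnd.2.2.1, hnd.2.2.2⟩
    · refine ⟨?_, path_mono (fun a b h => Or.inl h) r _ _ hp⟩
      refine Or.inr ?_
      rw [SimpleGraph.edge_adj]
      exact ⟨Or.inl ⟨rfl, rfl⟩, huw⟩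
    · refine ⟨fun L => comb Y (termsC L), rep_close huw hY, ?_⟩
      intro q I h2q hc
      have h0 := hq q I h2q hc
      rw [table_sound (r := (u :: w :: r).length + 1) hlen hY hca termsC (hT.okC _ h4 h6) q]
      rw [hlen] at h0
      exact hc.close _ _ h4 h6 h0

theorem sh_pos {R : ℕ} {PQ : ℕ → List (List ℕ)} (hT : Tb R PQ) {n : ℕ} {G : SimpleGraph (Fin n)}
    {ring : List (Fin n)} (h : Sh R n G ring) {q : ℝ} (hq : 2 < q) {I : ℕ → (ℕ → ℝ) → Prop}
    (hc : Fam R PQ q I)
    (p : ℝ[X]) (hp : ∀ k : ℕ, p.eval (k : ℝ) = (Nat.card (G.Coloring (Fin k)) : ℝ)) :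
    0 < p.eval q := by
  obtain ⟨h3, h7, hnd, hca, Y, hY, hinv⟩ := sh_inv hT h
  have hpos := hc.pos _ _ h3 h7 (hinv q I hq hc)
  unfold vec at hpos
  rw [hT.last _ h3 h7] at hpos
  have hpe : p = (Y (List.range ring.length)).map (Int.castRingHom ℝ) := by
    apply Polynomial.eq_of_infinite_eval_eq
    refine Set.infinite_of_injective_forall_mem (f := fun k : ℕ => (k : ℝ)) Nat.cast_injective ?_
    intro k
    show p.eval (k : ℝ) = _
    rw [hp k]
    have h1 := hY (List.range ring.length) (by simp) k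
    rw [N_all] at h1
    have h2 : ((Y (List.range ring.length)).map (Int.castRingHom ℝ)).eval (k : ℝ) =
        (((Y (List.range ring.length)).eval (k : ℤ) : ℤ) : ℝ) := by
      simp
    rw [h2, h1]
    simp
  rw [hpe, Polynomial.eval_map]
  simpa [Polynomial.aeval_def] using hpos

end Pool.Agent.TH389.BL
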