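import Pool.Agent.TH389.BL.Rep

/-! From label functions to vectors indexed by non-crossing labellings. -/

set_option autoImplicit false

namespace Pool.Agent.TH389.BL

open Polynomial

def pathEq : ℕ → List ℕ → ℕ → Bool
  | x, [], y => x == y
  | x, z :: l, y => (x == z) || pathEq z l y

/-- two cyclically consecutive labels are equal -/
def adjEq : List ℕ → Bool
  | [] => false
  | a :: L => pathEq a L a

def Path {V : Type} (R : V → V → Prop) : V → List V → V → Prop
  | x, [], y => R x y
  | x, z :: l, y => R x z ∧ Path R z l y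

/-- cyclically consecutive ring vertices are adjacent -/
def CA {V : Type} (G : SimpleGraph V) : List V → Prop
  | [] => True
  | u :: r => Path G.Adj u r u

theorem path_append {V : Type} (R : V → V → Prop) (x : V) (l : List V) (z y : V) :
    Path R x (l ++ [z]) y ↔ Path R x l z ∧ R z y := by
  induction l generalizing x with
  | nil => simp [Path]
  | cons a l ih => simp only [List.cons_append, Path, ih, and_assoc]

theorem N_path_zero {V : Type} [Fintype V] {G : SimpleGraph V} {k : ℕ} {Z : List (V × ℕ)}
    (l : List V) : ∀ (L : List ℕ) (x y : V) (a b : ℕ), L.length = l.length →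
      Path G.Adj x l y → pathEq a L b = true → (x, a) ∈ Z → (y, b) ∈ Z →
      (∀ p ∈ l.zip L, p ∈ Z) → N G k Z = 0 := by
  induction l with
  | nil =>
    intro L x y a b hL hp he hx hy _
    have : L = [] := by
      cases L with
      | nil => rfl
      | cons _ _ => simp at hL
    subst this
    simp only [pathEq, beq_iff_eq] at he
    subst he
    exact N_adj_zero hp hx hy
  | cons z l ih =>
    intro L x y a b hL hp he hx hy hZ
    cases L with
    | nil => simp at hL
    | cons c L =>
      simp only [pathEq, Bool.or_eq_true, beq_iff_eq] at he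
      have hz : (z, c) ∈ Z := hZ _ (by simp)
      rcases he with rfl | he
      · exact N_adj_zero hp.1 hx hz
      · exact ih L z y c b (by simpa using hL) hp.2 he hz hy (fun p hp' => hZ _ (by simp [hp']))

theorem N_adjEq_zero {V : Type} [Fintype V] {G : SimpleGraph V} {k : ℕ} {ring : List V}
    {L : List ℕ} (hL : L.length = ring.length) (hca : CA G ring) (h : adjEq L = true) :
    N G k (ring.zip L) = 0 := by
  cases ring with
  | nil =>
    have : L = [] := by
      cases L with
      | nil => rfl
      | cons _ _ => simp at hL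
    subst this
    simp [adjEq] at h
  | cons u r =>
    cases L with
    | nil => simp at hL
    | cons a L =>
      exact N_path_zero r L u u a a (by simpa using hL) hca h (by simp) (by simp)
        (fun p hp => by simp [hp])

/-- same equality pattern -/
def sameKer (L1 L2 : List ℕ) : Bool :=
  (L1.zip L2).all fun x => (L1.zip L2).all fun y => (x.1 == y.1) == (x.2 == y.2)

theorem zip_left {V : Type} (ring : List V) : ∀ (L1 L2 : List ℕ), L1.length = ring.length →
    L2.length = ring.length → ∀ v a, (v, a) ∈ ring.zip L1 →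
      ∃ b, (v, b) ∈ ring.zip L2 ∧ (a, b) ∈ L1.zip L2 := by
  induction ring with
  | nil => intro L1 L2 _ _ v a h; simp at h
  | cons u r ih =>
    intro L1 L2 h1 h2 v a h
    match L1, L2, h1, h2 with
    | a1 :: L1, a2 :: L2, h1, h2 =>
      simp only [List.zip_cons_cons, List.mem_cons, Prod.mk.injEq] at h ⊢
      rcases h with ⟨rfl, rfl⟩ | h
      · exact ⟨a2, Or.inl ⟨rfl, rfl⟩, Or.inl ⟨rfl, rfl⟩⟩
      · obtain ⟨b, hb1, hb2⟩ := ih L1 L2 (by simpa using h1) (by simpa using h2) v a h
        exact ⟨b, Or.inr hb1, Or.inr hb2⟩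
    | [], _, h1, _ => simp at h1
    | _ :: _, [], _, h2 => simp at h2

theorem zip_right {V : Type} (ring : List V) : ∀ (L1 L2 : List ℕ), L1.length = ring.length →
    L2.length = ring.length → ∀ v b, (v, b) ∈ ring.zip L2 →
      ∃ a, (v, a) ∈ ring.zip L1 ∧ (a, b) ∈ L1.zip L2 := by
  induction ring with
  | nil => intro L1 L2 _ _ v a h; simp at h
  | cons u r ih =>
    intro L1 L2 h1 h2 v a h
    match L1, L2, h1, h2 with
    | a1 :: L1, a2 :: L2, h1, h2 =>
      simp only [List.zip_cons_cons, List.mem_cons, Prod.mk.injEq] at h ⊢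
      rcases h with ⟨rfl, rfl⟩ | h
      · exact ⟨a1, Or.inl ⟨rfl, rfl⟩, Or.inl ⟨rfl, rfl⟩⟩
      · obtain ⟨b, hb1, hb2⟩ := ih L1 L2 (by simpa using h1) (by simpa using h2) v a h
        exact ⟨b, Or.inr hb1, Or.inr hb2⟩
    | [], _, h1, _ => simp at h1
    | _ :: _, [], _, h2 => simp at h2

theorem sameKer_iff {L1 L2 : List ℕ} (h : sameKer L1 L2 = true) {a b a' b' : ℕ}
    (h1 : (a, b) ∈ L1.zip L2) (h2 : (a', b') ∈ L1.zip L2) : a = a' ↔ b = b' := by
  simp only [sameKer, List.all_eq_true] at h
  have := h _ h1 _ h2
  simp only [beq_iff_eq] at this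
  constructor
  · intro e
    have h3 : (a == a') = true := by simp [e]
    rw [this] at h3
    simpa using h3
  · intro e
    have h3 : (b == b') = true := by simp [e]
    rw [← this] at h3
    simpa using h3

theorem N_sameKer {V : Type} [Fintype V] {G : SimpleGraph V} {k : ℕ} {ring : List V}
    {L1 L2 : List ℕ} (h1 : L1.length = ring.length) (h2 : L2.length = ring.length)
    (h : sameKer L1 L2 = true) : N G k (ring.zip L1) = N G k (ring.zip L2) := by
  apply N_congr
  intro c
  unfold Ok
  constructor
  · rintro ⟨hp, hc⟩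
    refine ⟨hp, ?_⟩
    rintro ⟨v, b⟩ hv ⟨v', b'⟩ hv' hbb
    obtain ⟨a, ha1, ha2⟩ := zip_right ring L1 L2 h1 h2 v b hv
    obtain ⟨a', ha1', ha2'⟩ := zip_right ring L1 L2 h1 h2 v' b' hv'
    have h3 := hc (v, a) ha1 (v', a') ha1' ((sameKer_iff h ha2 ha2').2 hbb)
    exact h3
  · rintro ⟨hp, hc⟩
    refine ⟨hp, ?_⟩
    rintro ⟨v, a⟩ hv ⟨v', a'⟩ hv' haa
    obtain ⟨b, hb1, hb2⟩ := zip_left ring L1 L2 h1 h2 v a hv
    obtain ⟨b', hb1', hb2'⟩ := zip_left ring L1 L2 h1 h2 v' a' hv'
    have h3 := hc (v, b) hb1 (v', b') hb1' ((sameKer_iff h hb2 hb2').1 haa)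
    exact h3

theorem poly_ext {p p' : ℤ[X]} (h : ∀ k : ℕ, p.eval (k : ℤ) = p'.eval (k : ℤ)) : p = p' := by
  apply Polynomial.eq_of_infinite_eval_eq
  exact Set.infinite_of_injective_forall_mem (f := fun k : ℕ => (k : ℤ)) Nat.cast_injective h

/-- the vector of values of a label function -/
noncomputable def vec (PP : List (List ℕ)) (Y : List ℕ → ℤ[X]) (q : ℝ) (i : ℕ) : ℝ :=
  match PP[i]? with
  | some L => aeval q (Y L)
  | none => 0

def rowOf (PP : List (List ℕ)) (terms : List ℕ → List (List ℤ × List ℕ)) (L : List ℕ) :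
    List (ℕ × List ℤ) :=
  (terms L).filterMap fun e => if adjEq e.2 then none else some (PP.findIdx (sameKer e.2), e.1)

def okRow (PP : List (List ℕ)) (r : ℕ) (terms : List ℕ → List (List ℤ × List ℕ)) (L : List ℕ) :
    Bool :=
  (terms L).all fun e => (e.2.length == r) && (adjEq e.2 || PP.any (sameKer e.2))

def mkTbl (PP : List (List ℕ)) (terms : List ℕ → List (List ℤ × List ℕ)) (PP' : List (List ℕ)) :
    List (List (ℕ × List ℤ)) := PP'.map (rowOf PP terms)

/-- all side conditions -/
def okTbl (PP : List (List ℕ)) (r : ℕ) (terms : List ℕ → List (List ℤ × List ℕ))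
    (PP' : List (List ℕ)) : Bool :=
  PP.all (fun L => L.length == r) && PP'.all (okRow PP r terms)

theorem row_sound {n : ℕ} {G : SimpleGraph (Fin n)} {ring : List (Fin n)} {Y : List ℕ → ℤ[X]}
    {r : ℕ} (hr : ring.length = r) (hY : Rep G ring Y) (hca : CA G ring) {PP : List (List ℕ)}
    (hPP : PP.all (fun L => L.length == r) = true) (q : ℝ) (t : List (List ℤ × List ℕ))
    (h : t.all (fun e => (e.2.length == r) && (adjEq e.2 || PP.any (sameKer e.2))) = true) :
    aeval q (comb Y t) =
      ((t.filterMap fun e => if adjEq e.2 then none else some (PP.findIdx (sameKer e.2), e.1)).map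
        fun e => ev e.2 q * vec PP Y q e.1).sum := by
  induction t with
  | nil => simp [comb_nil]
  | cons e t ih =>
    simp only [List.all_cons, Bool.and_eq_true, Bool.or_eq_true, beq_iff_eq] at h
    obtain ⟨⟨h1, h2⟩, h3⟩ := h
    have ih' := ih (by simpa using h3)
    rw [comb_cons, map_add, map_mul, ih', aeval_toP]
    by_cases ha : adjEq e.2 = true
    · have : Y e.2 = 0 := by
        apply poly_ext
        intro k
        rw [hY e.2 (by rw [h1, hr]) k, N_adjEq_zero (by rw [h1, hr]) hca ha]
        simp
      simp [ha, this]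
    · have h2' : PP.any (sameKer e.2) = true := by
        rcases h2 with h2 | h2
        · exact absurd h2 ha
        · exact h2
      have ha' : adjEq e.2 = false := by simpa using ha
      have hidx : PP.findIdx (sameKer e.2) < PP.length := by
        rw [List.findIdx_lt_length]
        simpa using h2'
      have hk : sameKer e.2 (PP[PP.findIdx (sameKer e.2)]) = true := List.findIdx_getElem
      have hlen : (PP[PP.findIdx (sameKer e.2)]).length = r := by
        simp only [List.all_eq_true, beq_iff_eq] at hPP
        exact hPP _ (List.getElem_mem _)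
      have hYY : Y e.2 = Y (PP[PP.findIdx (sameKer e.2)]) := by
        apply poly_ext
        intro k
        rw [hY e.2 (by rw [h1, hr]) k, hY _ (by rw [hlen, hr]) k]
        exact N_sameKer (by rw [h1, hr]) (by rw [hlen, hr]) hk
      have hv : vec PP Y q (PP.findIdx (sameKer e.2)) = aeval q (Y e.2) := by
        unfold vec
        rw [List.getElem?_eq_getElem hidx, hYY]
      simp [ha', hv]

theorem table_sound {n : ℕ} {G : SimpleGraph (Fin n)} {ring : List (Fin n)} {Y : List ℕ → ℤ[X]}
    {r : ℕ} (hr : ring.length = r) (hY : Rep G ring Y) (hca : CA G ring) {PP PP' : List (List ℕ)}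
    (terms : List ℕ → List (List ℤ × List ℕ)) (h : okTbl PP r terms PP' = true) (q : ℝ) :
    vec PP' (fun L => comb Y (terms L)) q = app (mkTbl PP terms PP') q (vec PP Y q) := by
  simp only [okTbl, Bool.and_eq_true] at h
  obtain ⟨hPP, hrow⟩ := h
  funext i
  unfold vec app mkTbl
  rw [List.getD_eq_getElem?_getD, List.getElem?_map]
  by_cases hi : i < PP'.length
  · rw [List.getElem?_eq_getElem hi]
    simp only [Option.map_some, Option.getD_some]
    simp only [List.all_eq_true] at hrow
    have h1 := hrow _ (List.getElem_mem hi)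
    unfold okRow at h1
    exact row_sound hr hY hca hPP q _ h1
  · rw [List.getElem?_eq_none (by omega)]
    simp

end Pool.Agent.TH389.BL
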