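import Pool.Agent.TH389.BL.Table

/-! Sparse matrices of the operations on discs. -/

set_option autoImplicit false

namespace Pool.Agent.TH389.BL

def P3 : List (List ℕ) := [[0, 1, 2]]

def P4 : List (List ℕ) := [[0, 1, 0, 2], [0, 1, 2, 1], [0, 1, 2, 3]]

def P5 : List (List ℕ) := [[0, 1, 0, 2, 3], [0, 1, 2, 0, 3], [0, 1, 2, 1, 3], [0, 1, 2, 3, 1], [0, 1, 2, 3, 2], [0, 1, 2, 3, 4]]

def P6 : List (List ℕ) := [[0, 1, 0, 2, 0, 3], [0, 1, 0, 2, 3, 2], [0, 1, 0, 2, 3, 4], [0, 1, 2, 0, 3, 4], [0, 1, 2, 1, 0, 3], [0, 1, 2, 1, 3, 1], [0, 1, 2, 1, 3, 4], [0, 1, 2, 3, 0, 4], [0, 1, 2, 3, 1, 4], [0, 1, 2, 3, 2, 1], [0, 1, 2, 3, 2, 4], [0, 1, 2, 3, 4, 1], [0, 1, 2, 3, 4, 2], [0, 1, 2, 3, 4, 3], [0, 1, 2, 3, 4, 5]]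

def P7 : List (List ℕ) := [[0, 1, 0, 2, 0, 3, 4], [0, 1, 0, 2, 3, 0, 4], [0, 1, 0, 2, 3, 2, 4], [0, 1, 0, 2, 3, 4, 2], [0, 1, 0, 2, 3, 4, 3], [0, 1, 0, 2, 3, 4, 5], [0, 1, 2, 0, 3, 0, 4], [0, 1, 2, 0, 3, 4, 3], [0, 1, 2, 0, 3, 4, 5], [0, 1, 2, 1, 0, 3, 4], [0, 1, 2, 1, 3, 0, 4], [0, 1, 2, 1, 3, 1, 4], [0, 1, 2, 1, 3, 4, 1], [0, 1, 2, 1, 3, 4, 3], [0, 1, 2, 1, 3, 4, 5], [0, 1, 2, 3, 0, 4, 5], [0, 1, 2, 3, 1, 0, 4], [0, 1, 2, 3, 1, 4, 1], [0, 1, 2, 3, 1, 4, 5], [0, 1, 2, 3, 2, 0, 4], [0, 1, 2, 3, 2, 1, 4], [0, 1, 2, 3, 2, 4, 1], [0, 1, 2, 3, 2, 4, 2], [0, 1, 2, 3, 2, 4, 5], [0, 1, 2, 3, 4, 0, 5], [0, 1, 2, 3, 4, 1, 5], [0, 1, 2, 3, 4, 2, 1], [0, 1, 2, 3, 4, 2, 5], [0, 1, 2, 3, 4, 3, 1], [0, 1, 2, 3, 4, 3, 2], [0, 1, 2, 3, 4, 3, 5], [0, 1, 2, 3, 4, 5, 1], [0, 1, 2, 3, 4, 5, 2], [0, 1, 2, 3, 4, 5, 3], [0, 1, 2, 3, 4, 5, 4], [0, 1, 2, 3,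 4, 5, 6]]

def T3 : List (List (ℕ × List ℤ)) := [[],
  [(0, [1])],
  [(0, [-2, 1])]]

def T4 : List (List (ℕ × List ℤ)) := [[],
  [(0, [-2, 1])],
  [(2, [1]), (0, [-1])],
  [(2, [1]), (1, [-1])],
  [(1, [-2, 1])],
  [(2, [-2, 1])]]

def T5 : List (List (ℕ × List ℤ)) := [[],
  [],
  [],
  [(0, [-2, 1])],
  [(1, [1])],
  [(4, [1])],
  [(5, [1]), (0, [-1])],
  [(1, [-2, 1])],
  [(5, [1]), (1, [-1]), (2, [-1])],
  [(2, [1])],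
  [(2, [-2, 1])],
  [(5, [1]), (3, [-1])],
  [(3, [-2, 1])],
  [(4, [-2, 1])],
  [(5, [-2, 1])]]

def T6 : List (List (ℕ × List ℤ)) := [[],
  [],
  [],
  [],
  [],
  [],
  [(0, [-2, 1])],
  [(1, [-2, 1])],
  [(2, [-2, 1])],
  [(3, [1])],
  [(7, [1]), (0, [-1])],
  [(10, [1]), (0, [-1])],
  [(12, [1])],
  [(13, [1]), (1, [-1])],
  [(14, [1]), (2, [-1])],
  [(3, [-2, 1])],
  [(7, [1]), (4, [-1])],
  [(13, [1]), (5, [-1])],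
  [(14, [1]), (3, [-1]), (6, [-1])],
  [(4, [-2, 1])],
  [(6, [1]), (4, [-1])],
  [(6, [1]), (5, [-1])],
  [(5, [-2, 1])],
  [(6, [-2, 1])],
  [(7, [-2, 1])],
  [(14, [1]), (7, [-1]), (8, [-1])],
  [(8, [1])],
  [(8, [-2, 1])],
  [(10, [1]), (9, [-1])],
  [(9, [-2, 1])],
  [(10, [-2, 1])],
  [(14, [1]), (11, [-1])],
  [(11, [-2, 1])],
  [(12, [-2, 1])],
  [(13, [-2, 1])],
  [(14, [-2, 1])]]

def C4 : List (List (ℕ × List ℤ)) := [[(2, [1]), (0, [-1])]]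

def C5 : List (List (ℕ × List ℤ)) := [[(1, [1])],
  [(4, [1])],
  [(5, [1]), (0, [-1])]]

def C6 : List (List (ℕ × List ℤ)) := [[(3, [1])],
  [(7, [1]), (0, [-1])],
  [(10, [1]), (0, [-1])],
  [(12, [1])],
  [(13, [1]), (1, [-1])],
  [(14, [1]), (2, [-1])]]

def C7 : List (List (ℕ × List ℤ)) := [[(6, [1])],
  [(7, [1])],
  [(8, [1])],
  [(15, [1]), (0, [-1])],
  [(19, [1])],
  [(22, [1])],
  [(23, [1]), (0, [-1])],
  [(24, [1]), (1, [-1])],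
  [(27, [1]), (1, [-1])],
  [(29, [1])],
  [(30, [1]), (2, [-1])],
  [(32, [1])],
  [(33, [1]), (3, [-1])],
  [(34, [1]), (4, [-1])],
  [(35, [1]), (5, [-1])]]

def R3 : List (List (ℕ × List ℤ)) := [[(0, [1])]]

def R4 : List (List (ℕ × List ℤ)) := [[(1, [1])],
  [(0, [1])],
  [(2, [1])]]

def R5 : List (List (ℕ × List ℤ)) := [[(2, [1])],
  [(3, [1])],
  [(4, [1])],
  [(0, [1])],
  [(1, [1])],
  [(5, [1])]]

def R6 : List (List (ℕ × List ℤ)) := [[(5, [1])],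
  [(4, [1])],
  [(6, [1])],
  [(8, [1])],
  [(9, [1])],
  [(0, [1])],
  [(10, [1])],
  [(11, [1])],
  [(12, [1])],
  [(1, [1])],
  [(13, [1])],
  [(2, [1])],
  [(3, [1])],
  [(7, [1])],
  [(14, [1])]]

def R7 : List (List (ℕ × List ℤ)) := [[(11, [1])],
  [(12, [1])],
  [(13, [1])],
  [(9, [1])],
  [(10, [1])],
  [(14, [1])],
  [(17, [1])],
  [(16, [1])],
  [(18, [1])],
  [(20, [1])],
  [(21, [1])],
  [(22, [1])],
  [(0, [1])],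
  [(19, [1])],
  [(23, [1])],
  [(25, [1])],
  [(26, [1])],
  [(1, [1])],
  [(27, [1])],
  [(28, [1])],
  [(29, [1])],
  [(2, [1])],
  [(6, [1])],
  [(30, [1])],
  [(31, [1])],
  [(32, [1])],
  [(3, [1])],
  [(33, [1])],
  [(4, [1])],
  [(7, [1])],
  [(34, [1])],
  [(5, [1])],
  [(8, [1])],
  [(15, [1])],
  [(24, [1])],
  [(35, [1])]]

def F3 : List (List (ℕ × List ℤ)) := [[(0, [1])]]

def F4 : List (List (ℕ × List ℤ)) := [[(1, [1])],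
  [(0, [1])],
  [(2, [1])]]

def F5 : List (List (ℕ × List ℤ)) := [[(4, [1])],
  [(3, [1])],
  [(2, [1])],
  [(1, [1])],
  [(0, [1])],
  [(5, [1])]]

def F6 : List (List (ℕ × List ℤ)) := [[(5, [1])],
  [(1, [1])],
  [(13, [1])],
  [(12, [1])],
  [(9, [1])],
  [(0, [1])],
  [(10, [1])],
  [(11, [1])],
  [(8, [1])],
  [(4, [1])],
  [(6, [1])],
  [(7, [1])],
  [(3, [1])],
  [(2, [1])],
  [(14, [1])]]

/-- non-crossing labellings of a ring of length `r` without equal neighbours -/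
def PP : ℕ → List (List ℕ)
  | 3 => P3
  | 4 => P4
  | 5 => P5
  | 6 => P6
  | 7 => P7
  | _ => []

theorem tblT3 : mkTbl P3 termsT P4 = T3 ∧ okTbl P3 3 termsT P4 = true := by decide +kernel
theorem tblT4 : mkTbl P4 termsT P5 = T4 ∧ okTbl P4 4 termsT P5 = true := by decide +kernel
theorem tblT5 : mkTbl P5 termsT P6 = T5 ∧ okTbl P5 5 termsT P6 = true := by decide +kernel
theorem tblT6 : mkTbl P6 termsT P7 = T6 ∧ okTbl P6 6 termsT P7 = true := by decide +kernel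
theorem tblC4 : mkTbl P4 termsC P3 = C4 ∧ okTbl P4 4 termsC P3 = true := by decide +kernel
theorem tblC5 : mkTbl P5 termsC P4 = C5 ∧ okTbl P5 5 termsC P4 = true := by decide +kernel
theorem tblC6 : mkTbl P6 termsC P5 = C6 ∧ okTbl P6 6 termsC P5 = true := by decide +kernel
theorem tblC7 : mkTbl P7 termsC P6 = C7 ∧ okTbl P7 7 termsC P6 = true := by decide +kernel
theorem tblR3 : mkTbl P3 termsR P3 = R3 ∧ okTbl P3 3 termsR P3 = true := by decide +kernel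
theorem tblR4 : mkTbl P4 termsR P4 = R4 ∧ okTbl P4 4 termsR P4 = true := by decide +kernel
theorem tblR5 : mkTbl P5 termsR P5 = R5 ∧ okTbl P5 5 termsR P5 = true := by decide +kernel
theorem tblR6 : mkTbl P6 termsR P6 = R6 ∧ okTbl P6 6 termsR P6 = true := by decide +kernel
theorem tblR7 : mkTbl P7 termsR P7 = R7 ∧ okTbl P7 7 termsR P7 = true := by decide +kernel

end Pool.Agent.TH389.BL
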