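import Pool.Agent.TH389.BL.Tables

/-! Sparse matrices of the operations on discs of perimeter eight. -/

set_option autoImplicit false
set_option maxRecDepth 100000

namespace Pool.Agent.TH389.BL

def P8 : List (List ℕ) := [[0, 1, 0, 2, 0, 3, 0, 4],
  [0, 1, 0, 2, 0, 3, 4, 3],
  [0, 1, 0, 2, 0, 3, 4, 5],
  [0, 1, 0, 2, 3, 0, 4, 5],
  [0, 1, 0, 2, 3, 2, 0, 4],
  [0, 1, 0, 2, 3, 2, 4, 2],
  [0, 1, 0, 2, 3, 2, 4, 5],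
  [0, 1, 0, 2, 3, 4, 0, 5],
  [0, 1, 0, 2, 3, 4, 2, 5],
  [0, 1, 0, 2, 3, 4, 3, 2],
  [0, 1, 0, 2, 3, 4, 3, 5],
  [0, 1, 0, 2, 3, 4, 5, 2],
  [0, 1, 0, 2, 3, 4, 5, 3],
  [0, 1, 0, 2, 3, 4, 5, 4],
  [0, 1, 0, 2, 3, 4, 5, 6],
  [0, 1, 2, 0, 3, 0, 4, 5],
  [0, 1, 2, 0, 3, 4, 0, 5],
  [0, 1, 2, 0, 3, 4, 3, 5],
  [0, 1, 2, 0, 3, 4, 5, 3],
  [0, 1, 2, 0, 3, 4, 5, 4],
  [0, 1, 2, 0, 3, 4, 5, 6],
  [0, 1, 2, 1, 0, 3, 0, 4],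
  [0, 1, 2, 1, 0, 3, 4, 3],
  [0, 1, 2, 1, 0, 3, 4, 5],
  [0, 1, 2, 1, 3, 0, 4, 5],
  [0, 1, 2, 1, 3, 1, 0, 4],
  [0, 1, 2, 1, 3, 1, 4, 1],
  [0, 1, 2, 1, 3, 1, 4, 5],
  [0, 1, 2, 1, 3, 4, 0, 5],
  [0, 1, 2, 1, 3, 4, 1, 5],
  [0, 1, 2, 1, 3, 4, 3, 1],
  [0, 1, 2, 1, 3, 4, 3, 5],
  [0, 1, 2, 1, 3, 4, 5, 1],
  [0, 1, 2, 1, 3, 4, 5, 3],
  [0, 1, 2, 1, 3, 4, 5, 4],
  [0, 1, 2, 1, 3, 4, 5, 6],
  [0, 1, 2, 3, 0, 4, 0, 5],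
  [0, 1, 2, 3, 0, 4, 5, 4],
  [0, 1, 2, 3, 0, 4, 5, 6],
  [0, 1, 2, 3, 1, 0, 4, 5],
  [0, 1, 2, 3, 1, 4, 0, 5],
  [0, 1, 2, 3, 1, 4, 1, 5],
  [0, 1, 2, 3, 1, 4, 5, 1],
  [0, 1, 2, 3, 1, 4, 5, 4],
  [0, 1, 2, 3, 1, 4, 5, 6],
  [0, 1, 2, 3, 2, 0, 4, 5],
  [0, 1, 2, 3, 2, 1, 0, 4],
  [0, 1, 2, 3, 2, 1, 4, 1],
  [0, 1, 2, 3, 2, 1, 4, 5],
  [0, 1, 2, 3, 2, 4, 0, 5],
  [0, 1, 2, 3, 2, 4, 1, 5],
  [0, 1, 2, 3, 2, 4, 2, 1],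
  [0, 1, 2, 3, 2, 4, 2, 5],
  [0, 1, 2, 3, 2, 4, 5, 1],
  [0, 1, 2, 3, 2, 4, 5, 2],
  [0, 1, 2, 3, 2, 4, 5, 4],
  [0, 1, 2, 3, 2, 4, 5, 6],
  [0, 1, 2, 3, 4, 0, 5, 6],
  [0, 1, 2, 3, 4, 1, 0, 5],
  [0, 1, 2, 3, 4, 1, 5, 1],
  [0, 1, 2, 3, 4, 1, 5, 6],
  [0, 1, 2, 3, 4, 2, 0, 5],
  [0, 1, 2, 3, 4, 2, 1, 5],
  [0, 1, 2, 3, 4, 2, 5, 1],
  [0, 1, 2, 3, 4, 2, 5, 2],
  [0, 1, 2, 3, 4, 2, 5, 6],
  [0, 1, 2, 3, 4, 3, 0, 5],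
  [0, 1, 2, 3, 4, 3, 1, 5],
  [0, 1, 2, 3, 4, 3, 2, 1],
  [0, 1, 2, 3, 4, 3, 2, 5],
  [0, 1, 2, 3, 4, 3, 5, 1],
  [0, 1, 2, 3, 4, 3, 5, 2],
  [0, 1, 2, 3, 4, 3, 5, 3],
  [0, 1, 2, 3, 4, 3, 5, 6],
  [0, 1, 2, 3, 4, 5, 0, 6],
  [0, 1, 2, 3, 4, 5, 1, 6],
  [0, 1, 2, 3, 4, 5, 2, 1],
  [0, 1, 2, 3, 4, 5, 2, 6],
  [0, 1, 2, 3, 4, 5, 3, 1],
  [0, 1, 2, 3, 4, 5, 3, 2],
  [0, 1, 2, 3, 4, 5, 3, 6],
  [0, 1, 2, 3, 4, 5, 4, 1],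
  [0, 1, 2, 3, 4, 5, 4, 2],
  [0, 1, 2, 3, 4, 5, 4, 3],
  [0, 1, 2, 3, 4, 5, 4, 6],
  [0, 1, 2, 3, 4, 5, 6, 1],
  [0, 1, 2, 3, 4, 5, 6, 2],
  [0, 1, 2, 3, 4, 5, 6, 3],
  [0, 1, 2, 3, 4, 5, 6, 4],
  [0, 1, 2, 3, 4, 5, 6, 5],
  [0, 1, 2, 3, 4, 5, 6, 7]]

def T7 : List (List (ℕ × List ℤ)) := [[],
  [],
  [],
  [],
  [],
  [],
  [],
  [],
  [],
  [],
  [],
  [],
  [],
  [],
  [],
  [(0, [.negSucc 1, .ofNat 1])],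
  [(1, [.negSucc 1, .ofNat 1])],
  [(2, [.negSucc 1, .ofNat 1])],
  [(3, [.negSucc 1, .ofNat 1])],
  [(4, [.negSucc 1, .ofNat 1])],
  [(5, [.negSucc 1, .ofNat 1])],
  [(6, [.ofNat 1])],
  [(7, [.ofNat 1])],
  [(8, [.ofNat 1])],
  [(15, [.ofNat 1]), (0, [.negSucc 0])],
  [(19, [.ofNat 1])],
  [(22, [.ofNat 1])],
  [(23, [.ofNat 1]), (0, [.negSucc 0])],
  [(24, [.ofNat 1]), (1, [.negSucc 0])],
  [(27, [.ofNat 1]), (1, [.negSucc 0])],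
  [(29, [.ofNat 1])],
  [(30, [.ofNat 1]), (2, [.negSucc 0])],
  [(32, [.ofNat 1])],
  [(33, [.ofNat 1]), (3, [.negSucc 0])],
  [(34, [.ofNat 1]), (4, [.negSucc 0])],
  [(35, [.ofNat 1]), (5, [.negSucc 0])],
  [(6, [.negSucc 1, .ofNat 1])],
  [(7, [.negSucc 1, .ofNat 1])],
  [(8, [.negSucc 1, .ofNat 1])],
  [(15, [.ofNat 1]), (9, [.negSucc 0])],
  [(24, [.ofNat 1]), (6, [.negSucc 0]), (10, [.negSucc 0])],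
  [(30, [.ofNat 1]), (6, [.negSucc 0]), (11, [.negSucc 0])],
  [(33, [.ofNat 1]), (12, [.negSucc 0])],
  [(34, [.ofNat 1]), (7, [.negSucc 0]), (13, [.negSucc 0])],
  [(35, [.ofNat 1]), (8, [.negSucc 0]), (14, [.negSucc 0])],
  [(9, [.negSucc 1, .ofNat 1])],
  [(10, [.ofNat 1])],
  [(13, [.ofNat 1])],
  [(14, [.ofNat 1]), (9, [.negSucc 0])],
  [(10, [.negSucc 1, .ofNat 1])],
  [(14, [.ofNat 1]), (10, [.negSucc 0]), (11, [.negSucc 0])],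
  [(11, [.ofNat 1])],
  [(11, [.negSucc 1, .ofNat 1])],
  [(14, [.ofNat 1]), (12, [.negSucc 0])],
  [(12, [.negSucc 1, .ofNat 1])],
  [(13, [.negSucc 1, .ofNat 1])],
  [(14, [.negSucc 1, .ofNat 1])],
  [(15, [.negSucc 1, .ofNat 1])],
  [(24, [.ofNat 1]), (16, [.negSucc 0])],
  [(34, [.ofNat 1]), (17, [.negSucc 0])],
  [(35, [.ofNat 1]), (15, [.negSucc 0]), (18, [.negSucc 0])],
  [(16, [.negSucc 1, .ofNat 1])],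
  [(18, [.ofNat 1]), (16, [.negSucc 0])],
  [(18, [.ofNat 1]), (17, [.negSucc 0])],
  [(17, [.negSucc 1, .ofNat 1])],
  [(18, [.negSucc 1, .ofNat 1])],
  [(19, [.negSucc 1, .ofNat 1])],
  [(23, [.ofNat 1]), (19, [.negSucc 0]), (20, [.negSucc 0])],
  [(20, [.ofNat 1])],
  [(20, [.negSucc 1, .ofNat 1])],
  [(23, [.ofNat 1]), (21, [.negSucc 0])],
  [(21, [.negSucc 1, .ofNat 1])],
  [(22, [.negSucc 1, .ofNat 1])],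
  [(23, [.negSucc 1, .ofNat 1])],
  [(24, [.negSucc 1, .ofNat 1])],
  [(35, [.ofNat 1]), (24, [.negSucc 0]), (25, [.negSucc 0])],
  [(25, [.ofNat 1])],
  [(25, [.negSucc 1, .ofNat 1])],
  [(27, [.ofNat 1]), (26, [.negSucc 0])],
  [(26, [.negSucc 1, .ofNat 1])],
  [(27, [.negSucc 1, .ofNat 1])],
  [(30, [.ofNat 1]), (28, [.negSucc 0])],
  [(28, [.negSucc 1, .ofNat 1])],
  [(29, [.negSucc 1, .ofNat 1])],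
  [(30, [.negSucc 1, .ofNat 1])],
  [(35, [.ofNat 1]), (31, [.negSucc 0])],
  [(31, [.negSucc 1, .ofNat 1])],
  [(32, [.negSucc 1, .ofNat 1])],
  [(33, [.negSucc 1, .ofNat 1])],
  [(34, [.negSucc 1, .ofNat 1])],
  [(35, [.negSucc 1, .ofNat 1])]]

def C8 : List (List (ℕ × List ℤ)) := [[(15, [.ofNat 1])],
  [(16, [.ofNat 1])],
  [(17, [.ofNat 1])],
  [(18, [.ofNat 1])],
  [(19, [.ofNat 1])],
  [(20, [.ofNat 1])],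
  [(36, [.ofNat 1]), (0, [.negSucc 0])],
  [(37, [.ofNat 1]), (1, [.negSucc 0])],
  [(38, [.ofNat 1]), (2, [.negSucc 0])],
  [(45, [.ofNat 1])],
  [(49, [.ofNat 1]), (0, [.negSucc 0])],
  [(52, [.ofNat 1]), (0, [.negSucc 0])],
  [(54, [.ofNat 1])],
  [(55, [.ofNat 1]), (1, [.negSucc 0])],
  [(56, [.ofNat 1]), (2, [.negSucc 0])],
  [(57, [.ofNat 1]), (3, [.negSucc 0])],
  [(61, [.ofNat 1])],
  [(64, [.ofNat 1])],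
  [(65, [.ofNat 1]), (3, [.negSucc 0])],
  [(66, [.ofNat 1]), (4, [.negSucc 0])],
  [(69, [.ofNat 1]), (4, [.negSucc 0])],
  [(71, [.ofNat 1])],
  [(72, [.ofNat 1]), (5, [.negSucc 0])],
  [(73, [.ofNat 1]), (6, [.negSucc 0])],
  [(74, [.ofNat 1]), (7, [.negSucc 0])],
  [(77, [.ofNat 1]), (7, [.negSucc 0])],
  [(79, [.ofNat 1])],
  [(80, [.ofNat 1]), (8, [.negSucc 0])],
  [(82, [.ofNat 1])],
  [(83, [.ofNat 1]), (9, [.negSucc 0])],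
  [(84, [.ofNat 1]), (10, [.negSucc 0])],
  [(86, [.ofNat 1])],
  [(87, [.ofNat 1]), (11, [.negSucc 0])],
  [(88, [.ofNat 1]), (12, [.negSucc 0])],
  [(89, [.ofNat 1]), (13, [.negSucc 0])],
  [(90, [.ofNat 1]), (14, [.negSucc 0])]]

def R8 : List (List (ℕ × List ℤ)) := [[(26, [.ofNat 1])],
  [(25, [.ofNat 1])],
  [(27, [.ofNat 1])],
  [(29, [.ofNat 1])],
  [(30, [.ofNat 1])],
  [(21, [.ofNat 1])],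
  [(31, [.ofNat 1])],
  [(32, [.ofNat 1])],
  [(33, [.ofNat 1])],
  [(22, [.ofNat 1])],
  [(34, [.ofNat 1])],
  [(23, [.ofNat 1])],
  [(24, [.ofNat 1])],
  [(28, [.ofNat 1])],
  [(35, [.ofNat 1])],
  [(41, [.ofNat 1])],
  [(42, [.ofNat 1])],
  [(43, [.ofNat 1])],
  [(39, [.ofNat 1])],
  [(40, [.ofNat 1])],
  [(44, [.ofNat 1])],
  [(47, [.ofNat 1])],
  [(46, [.ofNat 1])],
  [(48, [.ofNat 1])],
  [(50, [.ofNat 1])],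
  [(51, [.ofNat 1])],
  [(0, [.ofNat 1])],
  [(52, [.ofNat 1])],
  [(53, [.ofNat 1])],
  [(54, [.ofNat 1])],
  [(1, [.ofNat 1])],
  [(55, [.ofNat 1])],
  [(2, [.ofNat 1])],
  [(45, [.ofNat 1])],
  [(49, [.ofNat 1])],
  [(56, [.ofNat 1])],
  [(59, [.ofNat 1])],
  [(58, [.ofNat 1])],
  [(60, [.ofNat 1])],
  [(62, [.ofNat 1])],
  [(63, [.ofNat 1])],
  [(64, [.ofNat 1])],
  [(3, [.ofNat 1])],
  [(61, [.ofNat 1])],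
  [(65, [.ofNat 1])],
  [(67, [.ofNat 1])],
  [(68, [.ofNat 1])],
  [(4, [.ofNat 1])],
  [(69, [.ofNat 1])],
  [(70, [.ofNat 1])],
  [(71, [.ofNat 1])],
  [(5, [.ofNat 1])],
  [(72, [.ofNat 1])],
  [(6, [.ofNat 1])],
  [(15, [.ofNat 1])],
  [(66, [.ofNat 1])],
  [(73, [.ofNat 1])],
  [(75, [.ofNat 1])],
  [(76, [.ofNat 1])],
  [(7, [.ofNat 1])],
  [(77, [.ofNat 1])],
  [(78, [.ofNat 1])],
  [(79, [.ofNat 1])],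
  [(8, [.ofNat 1])],
  [(16, [.ofNat 1])],
  [(80, [.ofNat 1])],
  [(81, [.ofNat 1])],
  [(82, [.ofNat 1])],
  [(9, [.ofNat 1])],
  [(83, [.ofNat 1])],
  [(10, [.ofNat 1])],
  [(17, [.ofNat 1])],
  [(36, [.ofNat 1])],
  [(84, [.ofNat 1])],
  [(85, [.ofNat 1])],
  [(86, [.ofNat 1])],
  [(11, [.ofNat 1])],
  [(87, [.ofNat 1])],
  [(12, [.ofNat 1])],
  [(18, [.ofNat 1])],
  [(88, [.ofNat 1])],
  [(13, [.ofNat 1])],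
  [(19, [.ofNat 1])],
  [(37, [.ofNat 1])],
  [(89, [.ofNat 1])],
  [(14, [.ofNat 1])],
  [(20, [.ofNat 1])],
  [(38, [.ofNat 1])],
  [(57, [.ofNat 1])],
  [(74, [.ofNat 1])],
  [(90, [.ofNat 1])]]

def F7 : List (List (ℕ × List ℤ)) := [[(22, [.ofNat 1])],
  [(17, [.ofNat 1])],
  [(13, [.ofNat 1])],
  [(7, [.ofNat 1])],
  [(4, [.ofNat 1])],
  [(34, [.ofNat 1])],
  [(12, [.ofNat 1])],
  [(3, [.ofNat 1])],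
  [(33, [.ofNat 1])],
  [(29, [.ofNat 1])],
  [(28, [.ofNat 1])],
  [(11, [.ofNat 1])],
  [(6, [.ofNat 1])],
  [(2, [.ofNat 1])],
  [(30, [.ofNat 1])],
  [(32, [.ofNat 1])],
  [(26, [.ofNat 1])],
  [(1, [.ofNat 1])],
  [(27, [.ofNat 1])],
  [(21, [.ofNat 1])],
  [(20, [.ofNat 1])],
  [(19, [.ofNat 1])],
  [(0, [.ofNat 1])],
  [(23, [.ofNat 1])],
  [(31, [.ofNat 1])],
  [(25, [.ofNat 1])],
  [(16, [.ofNat 1])],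
  [(18, [.ofNat 1])],
  [(10, [.ofNat 1])],
  [(9, [.ofNat 1])],
  [(14, [.ofNat 1])],
  [(24, [.ofNat 1])],
  [(15, [.ofNat 1])],
  [(8, [.ofNat 1])],
  [(5, [.ofNat 1])],
  [(35, [.ofNat 1])]]

/-- non-crossing labellings of a ring of length `r` without equal neighbours -/
def PQ8 : ℕ → List (List ℕ)
  | 3 => P3
  | 4 => P4
  | 5 => P5
  | 6 => P6
  | 7 => P7
  | 8 => P8
  | _ => []

theorem tblT7 : mkTbl P7 termsT P8 = T7 ∧ okTbl P7 7 termsT P8 = true := by decide +kernel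
theorem tblC8 : mkTbl P8 termsC P7 = C8 ∧ okTbl P8 8 termsC P7 = true := by decide +kernel
theorem tblR8 : mkTbl P8 termsR P8 = R8 ∧ okTbl P8 8 termsR P8 = true := by decide +kernel

end Pool.Agent.TH389.BL
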